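import Pool.Agent.X306.AV.Uni

set_option autoImplicit false
set_option linter.unusedVariables false
set_option linter.unusedSectionVars false
set_option linter.unusedSimpArgs false

/-!
# The algebraic vector
-/

open Matrix Module TensorProduct

noncomputable section

namespace Pool.Agent.X306.AV

open Pool.Agent.Y102 Pool.Agent.W516.DR Pool.Agent.H204R3.GP Pool.Agent.W516.KC Pool.Agent.W516.KC2

variable {g : ℕ} {A : AbVar g} {R J : Type} [Fintype R] [DecidableEq R] [Fintype J] [DecidableEq J]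

/-- the complex matrix of a rational endomorphism (acting on rows) -/
def mt (φ : Module.End ℚ (Fin (2 * g) → ℚ)) : Matrix (Fin (2 * g)) (Fin (2 * g)) ℂ :=
  Matrix.of fun i j => ((φ (Pi.single i 1) j : ℚ) : ℂ)

/-- a rational vector as a complex vector -/
def cv (t : Fin (2 * g) → ℚ) : Fin (2 * g) → ℂ := fun j => (t j : ℂ)

theorem bas_eq (i : Fin (2 * g)) : A.bas i = Pi.single i 1 := by
  unfold AbVar.bas
  rw [Pi.basisFun_apply]

theorem dR_apply (s : Fin g ⊕ Fin g) (t : Fin (2 * g) → ℚ) :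
    A.dR s t = ∑ j, (t j : ℂ) * PA A j (eqv g s) := by
  have h1 : t = ∑ j, t j • A.bas j := by
    conv_lhs => rw [← A.bas.sum_repr t]
    refine Finset.sum_congr rfl fun j _ => ?_
    rfl
  conv_lhs => rw [h1]
  rw [map_sum]
  refine Finset.sum_congr rfl fun j _ => ?_
  rw [map_smul, PA_apply, Rat.smul_def]

theorem dR_vec (s : Fin g ⊕ Fin g) (t : Fin (2 * g) → ℚ) : A.dR s t = (cv t ᵥ* PA A) (eqv g s) := by
  rw [dR_apply]
  rfl

theorem mt_PA {a : Module.End ℚ (Fin (2 * g) → ℚ)} {b : Fin g ⊕ Fin g → Fin g ⊕ Fin g → QBar}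
    (hb : ∀ i w, A.dR i (a w) = ∑ j, algebraMap QBar ℂ (b i j) * A.dR j w) :
    mt a * PA A = PA A * Matrix.of fun j i => algebraMap QBar ℂ (b ((eqv g).symm i) ((eqv g).symm j)) := by
  ext i j
  obtain ⟨s, rfl⟩ := (eqv g).surjective j
  have h1 := hb s (A.bas i)
  rw [dR_apply] at h1
  rw [Matrix.mul_apply, Matrix.mul_apply]
  have h2 : ∑ j, mt a i j * PA A j (eqv g s) = ∑ j, ((a (A.bas i) j : ℚ) : ℂ) * PA A j (eqv g s) := by
    rw [bas_eq]
    rfl
  rw [h2, h1, ← (eqv g).sum_comp]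
  refine Finset.sum_congr rfl fun k _ => ?_
  rw [PA_apply, Matrix.of_apply, Equiv.symm_apply_apply, Equiv.symm_apply_apply, mul_comm]

/-- the coefficients of a Hodge endomorphism -/
theorem coef {a : Module.End ℚ (Fin (2 * g) → ℚ)} {b : Fin g ⊕ Fin g → Fin g ⊕ Fin g → QBar}
    (hb : ∀ i w, A.dR i (a w) = ∑ j, algebraMap QBar ℂ (b i j) * A.dR j w)
    {M : (Fin g → ℂ) →ₗ[ℂ] (Fin g → ℂ)} (hM : ∀ w, M (A.per w) = A.per (a w)) (k : Fin g) :
    (∀ k', algebraMap QBar ℂ (b (Sum.inl k) (Sum.inl k')) = M (Pi.single k' 1) k) ∧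
      (∀ k', algebraMap QBar ℂ (b (Sum.inl k) (Sum.inr k')) = 0) := by
  have h1 : ∑ s, (algebraMap QBar ℂ (b (Sum.inl k) s) -
      Sum.elim (fun k' => M (Pi.single k' 1) k) (fun _ => 0) s) • A.dR s = 0 := by
    refine LinearMap.ext fun w => ?_
    rw [LinearMap.sum_apply]
    have h2 : ∑ s, algebraMap QBar ℂ (b (Sum.inl k) s) * A.dR s w =
        ∑ s, Sum.elim (fun k' => M (Pi.single k' 1) k) (fun _ => 0) s * A.dR s w := by
      rw [← hb, Fintype.sum_sum_type]
      simp only [Sum.elim_inl, Sum.elim_inr, zero_mul, Finset.sum_const_zero, add_zero]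
      change A.per (a w) k = ∑ x, M (Pi.single x 1) k * A.per w x
      rw [← hM]
      conv_lhs => rw [LinearMap.pi_apply_eq_sum_univ M (A.per w)]
      rw [Finset.sum_apply]
      refine Finset.sum_congr rfl fun x _ => ?_
      have h : (fun j => if x = j then (1 : ℂ) else 0) = Pi.single x 1 := by
        funext j
        rw [Pi.single_apply]
        simp only [eq_comm]
      rw [Pi.smul_apply, smul_eq_mul, h, mul_comm]
    simp only [LinearMap.smul_apply, smul_eq_mul, sub_mul, Finset.sum_sub_distrib]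
    rw [h2, sub_self]
    rfl
  have h3 := Fintype.linearIndependent_iff.1 A.indep_dR _ h1
  exact ⟨fun k' => sub_eq_zero.1 (h3 (Sum.inl k')), fun k' => by
    have h4 := h3 (Sum.inr k')
    rw [Sum.elim_inr, sub_zero] at h4
    exact h4⟩

theorem pers_UP (u e : R → Fin g → ℂ) (l : J → ℂ) (δ : Derivation ℚ ℂ ℂ) (r : R) :
    (lam (pers A u e l) δ).2.1 r ᵥ* PA A = fun j => δ (UU (u r) (e r) ((eqv g).symm j)) := by
  have h1 : (lam (pers A u e l) δ).2.1 * PA A = (pers A u e l).U.map δ := by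
    change (pers A u e l).U.map δ * (PA A)⁻¹ * PA A = _
    rw [Matrix.mul_assoc, inv_PA, Matrix.mul_one]
  have h2 := congrFun h1 r
  exact h2

theorem pers_PP (u e : R → Fin g → ℂ) (l : J → ℂ) (δ : Derivation ℚ ℂ ℂ) :
    (lam (pers A u e l) δ).1 * PA A = (PA A).map δ := by
  change (PA A).map δ * (PA A)⁻¹ * PA A = _
  rw [Matrix.mul_assoc, inv_PA, Matrix.mul_one]

/-- a rational combination can be computed on components -/
theorem comp_mt (f : ℂ →ₗ[ℚ] ℚ) (a : Module.End ℚ (Fin (2 * g) → ℚ)) (y : Fin (2 * g) → ℂ) (j : Fin (2 * g)) :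
    f ((y ᵥ* mt a) j) = a (fun i => f (y i)) j := by
  have h1 : (y ᵥ* mt a) j = ∑ i, (a (Pi.single i 1) j) • y i := by
    change ∑ i, y i * ((a (Pi.single i 1) j : ℚ) : ℂ) = _
    refine Finset.sum_congr rfl fun i _ => ?_
    rw [Rat.smul_def, mul_comm]
  rw [h1, map_sum]
  conv_rhs => rw [LinearMap.pi_apply_eq_sum_univ a]
  rw [Finset.sum_apply]
  refine Finset.sum_congr rfl fun i _ => ?_
  have h : (fun j => if i = j then (1 : ℚ) else 0) = Pi.single i 1 := by
    funext j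
    rw [Pi.single_apply]
    simp only [eq_comm]
  rw [map_smul, smul_eq_mul, Pi.smul_apply, smul_eq_mul, mul_comm, h]

variable {u e : R → Fin g → ℂ} {l : J → ℂ} {𝔤 : Submodule ℚ (GT (Fin (2 * g)) R J)}

theorem Good.comm_fst (G : Good A u e l 𝔤) {a : Module.End ℚ (Fin (2 * g) → ℚ)}
    (h : ∀ X ∈ hh 𝔤, X * a = a * X) {ξ : GT (Fin (2 * g)) R J} (hξ : ξ ∈ 𝔤) (v : Fin (2 * g) → ℚ) :
    ξ.1 (a v) = a (ξ.1 v) := by
  have h1 : ξ.1 = tl ξ + (ξ.2.2.1 / 2) • (1 : Module.End ℚ (Fin (2 * g) → ℚ)) := by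
    rw [tl_apply, sub_add_cancel]
  have h2 := congrArg (fun T : Module.End ℚ (Fin (2 * g) → ℚ) => T v) (h (tl ξ) (mem_hh.2 ⟨ξ, hξ, rfl⟩))
  simp only [Module.End.mul_apply] at h2
  rw [h1]
  simp only [LinearMap.add_apply, LinearMap.smul_apply, Module.End.one_apply, map_add, map_smul, h2]

/-- **The algebraic vector.** -/
theorem Good.alg_point (G : Good A u e l 𝔤) {a : R → Module.End ℚ (Fin (2 * g) → ℚ)}
    (hcomm : ∀ r, ∀ X ∈ hh 𝔤, X * a r = a r * X) (hkill : ∀ Y ∈ uA 𝔤, ∑ r, a r (Y r) = 0) :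
    ∃ (t : Fin (2 * g) → ℚ) (M : R → (Fin g → ℂ) →ₗ[ℂ] (Fin g → ℂ)), (∀ r w, M r (A.per w) = A.per (a r w)) ∧
      ∀ k, IsAlgebraic ℚ ((∑ r, M r (u r) - A.per t) k) := by
  obtain ⟨σ, s, hσ, -⟩ := G.shape
  choose M hM using fun r => G.hodge (hcomm r)
  choose b hb using fun r => G.drb (hcomm r)
  set t : Fin (2 * g) → ℚ := ∑ r, a r (σ r) with ht
  refine ⟨t, M, hM, fun k => ?_⟩
  -- the equation over the complex numbers
  have h1 : ∀ D : Derivation QBar ℂ ℂ, ∑ r, (lam (pers A u e l) (dQ D)).2.1 r ᵥ* mt (a r) =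
      cv t ᵥ* (lam (pers A u e l) (dQ D)).1 := by
    intro D
    funext j
    rw [← sub_eq_zero]
    refine eq_zero_of_dual (k := ℚ) fun f => ?_
    have h2 := hkill _ (hσ _ (G.der D f))
    have h3 : ∑ r, a r ((cmp f (lam (pers A u e l) (dQ D))).2.1 r) = (cmp f (lam (pers A u e l) (dQ D))).1 t := by
      rw [ht, map_sum, ← sub_eq_zero, ← Finset.sum_sub_distrib, ← h2]
      refine Finset.sum_congr rfl fun r _ => ?_
      rw [map_sub, G.comm_fst (hcomm r) (G.der D f)]
    have h4 := congrFun h3 j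
    rw [Finset.sum_apply] at h4
    rw [map_sub, sub_eq_zero, Finset.sum_apply, map_sum]
    have h5 : f ((cv t ᵥ* (lam (pers A u e l) (dQ D)).1) j) = (cmp f (lam (pers A u e l) (dQ D))).1 t j := by
      change f (∑ i, (t i : ℂ) * (lam (pers A u e l) (dQ D)).1 i j) =
        ∑ i, t i * f ((lam (pers A u e l) (dQ D)).1 i j)
      rw [map_sum]
      refine Finset.sum_congr rfl fun i _ => ?_
      rw [← Rat.smul_def, map_smul, smul_eq_mul]
    rw [h5, ← h4]
    refine Finset.sum_congr rfl fun r _ => ?_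
    rw [comp_mt]
    rfl
  -- multiply by the period matrix
  have h2 : ∀ D : Derivation QBar ℂ ℂ,
      D (∑ r, ∑ s, UU (u r) (e r) s * algebraMap QBar ℂ (b r (Sum.inl k) s) - A.dR (Sum.inl k) t) = 0 := by
    intro D
    have h3 := congrArg (fun y : Fin (2 * g) → ℂ => (y ᵥ* PA A) (eqv g (Sum.inl k))) (h1 D)
    simp only [Matrix.vecMul_vecMul] at h3
    rw [pers_PP, Matrix.sum_vecMul] at h3
    rw [map_sub, sub_eq_zero]
    have h4 : (cv t ᵥ* (PA A).map (dQ D)) (eqv g (Sum.inl k)) = D (A.dR (Sum.inl k) t) := by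
      rw [dR_apply, map_sum]
      change ∑ j, (t j : ℂ) * D (PA A j (eqv g (Sum.inl k))) = _
      refine Finset.sum_congr rfl fun j _ => ?_
      rw [Derivation.leibniz]
      have h5 : D ((t j : ℚ) : ℂ) = 0 := by
        have := D.map_algebraMap (algebraMap ℚ QBar (t j))
        rwa [← IsScalarTower.algebraMap_apply] at this
      rw [h5, smul_zero, add_zero, smul_eq_mul]
    rw [← h4, ← h3, Finset.sum_apply, map_sum]
    refine Finset.sum_congr rfl fun r _ => ?_
    rw [Matrix.vecMul_vecMul, mt_PA (hb r), ← Matrix.vecMul_vecMul, pers_UP]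
    rw [map_sum]
    change _ = ∑ j, D (UU (u r) (e r) ((eqv g).symm j)) * (algebraMap QBar ℂ (b r ((eqv g).symm (eqv g (Sum.inl k)))
      ((eqv g).symm j)))
    rw [← (eqv g).sum_comp]
    refine Finset.sum_congr rfl fun s _ => ?_
    rw [Equiv.symm_apply_apply, Equiv.symm_apply_apply, Derivation.leibniz, Derivation.map_algebraMap, smul_zero, zero_add,
      smul_eq_mul, mul_comm]
  obtain ⟨x, hx⟩ := mem_of_derivation h2
  have h3 : (∑ r, M r (u r) - A.per t) k =
      ∑ r, ∑ s, UU (u r) (e r) s * algebraMap QBar ℂ (b r (Sum.inl k) s) - A.dR (Sum.inl k) t := by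
    rw [Pi.sub_apply, Finset.sum_apply]
    congr 1
    refine Finset.sum_congr rfl fun r _ => ?_
    rw [Fintype.sum_sum_type]
    obtain ⟨h4, h5⟩ := coef (hb r) (hM r) k
    simp only [h4, h5, mul_zero, Finset.sum_const_zero, add_zero]
    conv_lhs => rw [LinearMap.pi_apply_eq_sum_univ (M r) (u r)]
    rw [Finset.sum_apply]
    refine Finset.sum_congr rfl fun x _ => ?_
    have h : (fun j => if x = j then (1 : ℂ) else 0) = Pi.single x 1 := by
      funext j
      rw [Pi.single_apply]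
      simp only [eq_comm]
    rw [Pi.smul_apply, smul_eq_mul, h]
    rfl
  rw [h3, ← hx]
  exact QBar.alg x

end Pool.Agent.X306.AV
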