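import Pool.Agent.X306.RL.Gp

set_option autoImplicit false
set_option linter.unusedVariables false
set_option linter.unusedSectionVars false
set_option linter.unusedSimpArgs false

/-!
# Block matrices
-/

open Matrix MvPolynomial

noncomputable section

namespace Pool.Agent.X306.AV

variable {n R J : Type} [Fintype n] [DecidableEq n] [Fintype R] [DecidableEq R] [Fintype J] [DecidableEq J]

/-- The index set of the bases. -/
abbrev Ix (n R J : Type) : Type := (n ⊕ R) ⊕ (Unit ⊕ J)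

/-- The blocks. -/
abbrev LT (n R J : Type) : Type := Matrix n n ℂ × Matrix R n ℂ × ℂ × (J → ℂ)

/-- The block matrices. -/
def bm (x : LT n R J) (k : ℂ) : Matrix (Ix n R J) (Ix n R J) ℂ :=
  fromBlocks (fromBlocks x.1 0 x.2.1 (k • 1)) 0 0
    (fromBlocks (Matrix.of fun _ _ => x.2.2.1) 0 (Matrix.of fun j _ => x.2.2.2 j) (k • 1))

/-- The product of block matrices. -/
def bp (x y : LT n R J) (k : ℂ) : LT n R J :=
  (x.1 * y.1, x.2.1 * y.1 + k • y.2.1, x.2.2.1 * y.2.2.1,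
    fun j => x.2.2.2 j * y.2.2.1 + k * y.2.2.2 j)

theorem bm_mul (x y : LT n R J) (k l : ℂ) : bm x k * bm y l = bm (bp x y k) (k * l) := by
  unfold bm bp
  rw [fromBlocks_multiply]
  simp only [fromBlocks_multiply, Matrix.mul_zero, Matrix.zero_mul, add_zero, zero_add]
  congr 1
  · congr 1
    · rw [Matrix.smul_mul, Matrix.one_mul]
    · rw [Matrix.smul_mul, Matrix.one_mul, smul_smul]
  · congr 1
    · ext i j
      simp [Matrix.mul_apply]
    · ext i j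
      simp [Matrix.mul_apply, Matrix.one_apply]
    · rw [Matrix.smul_mul, Matrix.one_mul, smul_smul]

theorem bm_add (x y : LT n R J) (k l : ℂ) : bm x k + bm y l = bm (x + y) (k + l) := by
  unfold bm
  rw [fromBlocks_add, fromBlocks_add, fromBlocks_add]
  congr 1
  · rw [add_zero, add_smul]
    rfl
  · rw [add_zero]
  · rw [add_zero]
  · congr 1
    · rw [add_zero]
    · rw [add_smul]

theorem bm_smul (a : ℂ) (x : LT n R J) (k : ℂ) : a • bm x k = bm (a • x) (a * k) := by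
  unfold bm
  rw [fromBlocks_smul, fromBlocks_smul, fromBlocks_smul]
  congr 1
  · rw [smul_zero, smul_smul]
    rfl
  · rw [smul_zero]
  · rw [smul_zero]
  · congr 1
    · rw [smul_zero]
    · rw [smul_smul]

/-- The entrywise map. -/
def mp (f : ℂ → ℂ) (x : LT n R J) : LT n R J := (x.1.map f, x.2.1.map f, f x.2.2.1, fun j => f (x.2.2.2 j))

theorem bm_map {f : ℂ → ℂ} (hf : f 0 = 0) (x : LT n R J) (k : ℂ) :
    (bm x k).map f = bm (mp f x) (f k) := by
  have h1 : ∀ {α : Type} [DecidableEq α], ((k • (1 : Matrix α α ℂ)).map f) = f k • 1 := by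
    intro α _
    ext i j
    rw [Matrix.map_apply, Matrix.smul_apply, Matrix.smul_apply, Matrix.one_apply]
    split_ifs
    · rw [smul_eq_mul, smul_eq_mul, mul_one, mul_one]
    · rw [smul_eq_mul, smul_eq_mul, mul_zero, mul_zero, hf]
  unfold bm mp
  rw [fromBlocks_map, fromBlocks_map, Matrix.map_zero _ hf,
    Matrix.map_zero _ hf, Matrix.map_zero _ hf, fromBlocks_map, Matrix.map_zero _ hf, h1, h1]
  rfl

/-- The unit. -/
def ux : LT n R J := (1, 0, 1, 0)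

theorem bm_one : bm (ux : LT n R J) 1 = 1 := by
  unfold bm ux
  have h1 : (Matrix.of fun (_ _ : Unit) => (1 : ℂ)) = 1 := by
    ext i j
    simp
  have h2 : (Matrix.of fun (j : J) (_ : Unit) => (0 : J → ℂ) j) = 0 := by
    ext i j
    simp
  simp only [one_smul, Pi.zero_apply, fromBlocks_one]
  have h4 : (Matrix.of fun (_ : J) (_ : Unit) => (0 : ℂ)) = 0 := by
    ext i j
    simp
  rw [h1, h4, fromBlocks_one, fromBlocks_one]

theorem bm_zero : bm (0 : LT n R J) 0 = 0 := by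
  have h := bm_smul (0 : ℂ) (0 : LT n R J) 0
  rw [zero_smul, zero_smul, zero_mul] at h
  exact h.symm

theorem bm_neg (x : LT n R J) : -bm x 0 = bm (-x) 0 := by
  have h := bm_smul (-1 : ℂ) x 0
  rw [mul_zero, neg_one_smul, neg_one_smul] at h
  exact h

/-- The data of the period matrix. -/
structure Per (n R J : Type) [Fintype n] [DecidableEq n] where
  P : Matrix n n ℂ
  P' : Matrix n n ℂ
  U : Matrix R n ℂ
  w : ℂ
  l : J → ℂ
  PP' : P * P' = 1
  w0 : w ≠ 0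

variable (D : Per n R J)

theorem Per.P'P : D.P' * D.P = 1 := mul_eq_one_comm.1 D.PP'

/-- The period matrix. -/
def pm : Matrix (Ix n R J) (Ix n R J) ℂ := bm (D.P, D.U, D.w, D.l) 1

/-- The inverse of the period matrix. -/
def pm' : Matrix (Ix n R J) (Ix n R J) ℂ :=
  bm (D.P', -(D.U * D.P'), 1 / D.w, fun j => -(D.l j / D.w)) 1

theorem pm_pm' : pm D * pm' D = 1 := by
  unfold pm pm'
  rw [bm_mul, mul_one, ← bm_one]
  congr 1
  refine Prod.ext D.PP' (Prod.ext ?_ (Prod.ext ?_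
    (funext fun j => ?_)))
  · change D.U * D.P' + (1 : ℂ) • (-(D.U * D.P')) = 0
    rw [one_smul, add_neg_cancel]
  · change D.w * (1 / D.w) = 1
    exact mul_one_div_cancel D.w0
  · change D.l j * (1 / D.w) + 1 * (-(D.l j / D.w)) = 0
    ring

theorem pm_inv : (pm D)⁻¹ = pm' D := Matrix.inv_eq_right_inv (pm_pm' D)

/-- the logarithmic derivative -/
def lam (δ : Derivation ℚ ℂ ℂ) : LT n R J :=
  (D.P.map δ * D.P', D.U.map δ * D.P', δ D.w / D.w, fun j => δ (D.l j) / D.w)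

theorem der_lam (δ : Derivation ℚ ℂ ℂ) : (pm D).map δ * (pm D)⁻¹ = bm (lam D δ) 0 := by
  rw [pm_inv]
  unfold pm pm'
  rw [bm_map (map_zero δ), bm_mul, Derivation.map_one_eq_zero, zero_mul]
  congr 1
  refine Prod.ext rfl (Prod.ext ?_ (Prod.ext ?_ (funext fun j => ?_)))
  · change D.U.map δ * D.P' + (0 : ℂ) • (-(D.U * D.P')) = D.U.map δ * D.P'
    rw [zero_smul, add_zero]
  · change δ D.w * (1 / D.w) = δ D.w / D.w
    ring
  · change δ (D.l j) * (1 / D.w) + 0 * (-(D.l j / D.w)) = δ (D.l j) / D.w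
    ring

/-! ## Rational elements -/

/-- The blocks over the rational numbers: an endomorphism (acting on rows), vectors, a number and numbers. -/
abbrev GT (n R J : Type) : Type := Module.End ℚ (n → ℚ) × (R → n → ℚ) × ℚ × (J → ℚ)

/-- the complex matrices given by rational blocks -/
def cb (ξ : GT n R J) : LT n R J :=
  (Matrix.of fun i j => ((ξ.1 (Pi.single i 1) j : ℚ) : ℂ), Matrix.of fun r j => ((ξ.2.1 r j : ℚ) : ℂ),
    ((ξ.2.2.1 : ℚ) : ℂ), fun j => ((ξ.2.2.2 j : ℚ) : ℂ))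

/-- a component of a block matrix -/
def cmp (f : ℂ →ₗ[ℚ] ℚ) (x : LT n R J) : GT n R J :=
  ((x.1.map f).vecMulLinear, fun r j => f (x.2.1 r j), f x.2.2.1, fun j => f (x.2.2.2 j))

theorem cb_cmp (f : ℂ →ₗ[ℚ] ℚ) (x : LT n R J) : cb (cmp f x) = mp (fun z => ((f z : ℚ) : ℂ)) x := by
  refine Prod.ext ?_ (Prod.ext rfl rfl)
  ext i j
  change (((Pi.single i 1 ᵥ* x.1.map f) j : ℚ) : ℂ) = _
  rw [Matrix.single_one_vecMul]
  rfl

theorem cb_add (ξ ξ' : GT n R J) : cb (ξ + ξ') = cb ξ + cb ξ' := by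
  refine Prod.ext ?_ (Prod.ext ?_ (Prod.ext ?_ (funext fun j => ?_)))
  · ext i j
    exact Rat.cast_add _ _
  · ext r j
    exact Rat.cast_add _ _
  · exact Rat.cast_add _ _
  · exact Rat.cast_add _ _

theorem cb_smul (q : ℚ) (ξ : GT n R J) : cb (q • ξ) = (q : ℂ) • cb ξ := by
  refine Prod.ext ?_ (Prod.ext ?_ (Prod.ext ?_ (funext fun j => ?_)))
  · ext i j
    exact Rat.cast_mul _ _
  · ext r j
    exact Rat.cast_mul _ _
  · exact Rat.cast_mul _ _
  · exact Rat.cast_mul _ _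

theorem cb_zero : cb (0 : GT n R J) = 0 := by
  have h := cb_smul (0 : ℚ) (0 : GT n R J)
  rwa [zero_smul, Rat.cast_zero, zero_smul] at h

/-- the commutator -/
def br (ξ ξ' : GT n R J) : GT n R J :=
  (ξ'.1 * ξ.1 - ξ.1 * ξ'.1, fun r => ξ'.1 (ξ.2.1 r) - ξ.1 (ξ'.2.1 r), 0,
    fun j => ξ.2.2.2 j * ξ'.2.2.1 - ξ'.2.2.2 j * ξ.2.2.1)

theorem row_mul (φ : Module.End ℚ (n → ℚ)) (y : n → ℚ) (j : n) :
    ((φ y j : ℚ) : ℂ) = ∑ i, (y i : ℂ) * ((φ (Pi.single i 1) j : ℚ) : ℂ) := by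
  conv_lhs => rw [LinearMap.pi_apply_eq_sum_univ φ y]
  rw [Finset.sum_apply, Rat.cast_sum]
  refine Finset.sum_congr rfl fun i _ => ?_
  have h : (fun k => if i = k then (1 : ℚ) else 0) = Pi.single i 1 := by
    funext k
    rw [Pi.single_apply]
    simp only [eq_comm]
  rw [Pi.smul_apply, smul_eq_mul, Rat.cast_mul, h]

theorem cb_br (ξ ξ' : GT n R J) :
    bm (cb ξ) 0 * bm (cb ξ') 0 - bm (cb ξ') 0 * bm (cb ξ) 0 = bm (cb (br ξ ξ')) 0 := by
  rw [bm_mul, bm_mul, mul_zero, sub_eq_add_neg, bm_neg, bm_add, add_zero]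
  congr 1
  refine Prod.ext ?_ (Prod.ext ?_ (Prod.ext ?_ (funext fun j => ?_)))
  · ext i j
    change ((cb ξ).1 * (cb ξ').1) i j + -((cb ξ').1 * (cb ξ).1) i j =
      (((ξ'.1 (ξ.1 (Pi.single i 1)) j - ξ.1 (ξ'.1 (Pi.single i 1)) j : ℚ)) : ℂ)
    rw [Rat.cast_sub, row_mul, row_mul ξ.1, Matrix.mul_apply, Matrix.mul_apply, sub_eq_add_neg]
    rfl
  · ext r j
    change (((cb ξ).2.1 * (cb ξ').1) r j + (0 : ℂ) * _) + -(((cb ξ').2.1 * (cb ξ).1) r j + (0 : ℂ) * _) =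
      (((ξ'.1 (ξ.2.1 r) j - ξ.1 (ξ'.2.1 r) j : ℚ)) : ℂ)
    rw [Rat.cast_sub, row_mul, row_mul ξ.1, Matrix.mul_apply, Matrix.mul_apply, sub_eq_add_neg, zero_mul, zero_mul,
      add_zero, add_zero]
    rfl
  · change ((ξ.2.2.1 : ℚ) : ℂ) * ((ξ'.2.2.1 : ℚ) : ℂ) + -(((ξ'.2.2.1 : ℚ) : ℂ) * ((ξ.2.2.1 : ℚ) : ℂ)) = ((0 : ℚ) : ℂ)
    rw [Rat.cast_zero]
    ring
  · change (((ξ.2.2.2 j : ℚ) : ℂ) * ((ξ'.2.2.1 : ℚ) : ℂ) + 0 * _) +
      -(((ξ'.2.2.2 j : ℚ) : ℂ) * ((ξ.2.2.1 : ℚ) : ℂ) + 0 * _) =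
      ((ξ.2.2.2 j * ξ'.2.2.1 - ξ'.2.2.2 j * ξ.2.2.1 : ℚ) : ℂ)
    rw [Rat.cast_sub, Rat.cast_mul, Rat.cast_mul]
    ring

end Pool.Agent.X306.AV
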