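import Pool.Agent.X306.AV.Rel
import Pool.Agent.X306.RL.Sg

set_option autoImplicit false
set_option linter.unusedVariables false
set_option linter.unusedSectionVars false
set_option linter.unusedSimpArgs false

/-!
# The Lie algebra of a subtorsor
-/

open Matrix Module TensorProduct

noncomputable section

namespace Pool.Agent.X306.AV

open Pool.Agent.Y102 Pool.Agent.W516.DR Pool.Agent.H204R3.GP Pool.Agent.W516.KC Pool.Agent.W516.KC2
open Pool.Agent.TH127.PT Pool.Agent.Y123.ST Pool.Agent.TH119.DR Pool.Agent.W245.EB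
open Pool.Agent.X306.RL (LL_br LL_defF GDef derD)
open Pool.Agent.X306.EM (QQ mem_QQ QB_iff)

variable {g : ℕ} {A : AbVar g} {R J : Type} [Fintype R] [DecidableEq R] [Fintype J] [DecidableEq J]

/-- a vector is in a subspace if its rational components are -/
theorem mem_of_comp {α : Type} [Fintype α] (W : Submodule ℂ (α → ℂ)) {w : α → ℂ}
    (h : ∀ f : ℂ →ₗ[ℚ] ℚ, (fun a => ((f (w a) : ℚ) : ℂ)) ∈ W) : w ∈ W := by
  classical
  let B := Basis.ofVectorSpace ℚ ℂ
  let s := Finset.univ.biUnion fun a => (B.repr (w a)).support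
  have h1 : w = ∑ i ∈ s, B i • (fun a => ((B.coord i (w a) : ℚ) : ℂ)) := by
    funext a
    rw [Finset.sum_apply]
    conv_lhs => rw [← B.linearCombination_repr (w a)]
    rw [Finsupp.linearCombination_apply, Finsupp.sum]
    rw [Finset.sum_subset (Finset.subset_biUnion_of_mem (fun a => (B.repr (w a)).support) (Finset.mem_univ a))]
    · refine Finset.sum_congr rfl fun i _ => ?_
      rw [Pi.smul_apply, smul_eq_mul, Rat.smul_def, mul_comm]
      rfl
    · intro i _ hi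
      rw [Finsupp.notMem_support_iff.1 hi, zero_smul]
  rw [h1]
  exact W.sum_mem fun i _ => W.smul_mem _ (h (B.coord i))

variable (A)

/-- the rational elements of the Lie algebra -/
def gT (T : Set (Matrix (Ix (Fin (2 * g)) R J) (Ix (Fin (2 * g)) R J) ℂ)) : Submodule ℚ (GT (Fin (2 * g)) R J) where
  carrier := {ξ | (∀ v w, A.om (ξ.1 v) w + A.om v (ξ.1 w) = ξ.2.2.1 * A.om v w) ∧ fl (bm (cb ξ) 0) ∈ LL T}
  zero_mem' := by
    refine ⟨fun v w => ?_, ?_⟩
    · change A.om (0 : Fin (2 * g) → ℚ) w + A.om v (0 : Fin (2 * g) → ℚ) = 0 * A.om v w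
      rw [map_zero, LinearMap.zero_apply, map_zero, zero_mul, add_zero]
    · rw [cb_zero, bm_zero]
      exact (LL T).zero_mem
  add_mem' := by
    rintro ξ ξ' ⟨h1, h2⟩ ⟨h3, h4⟩
    refine ⟨fun v w => ?_, ?_⟩
    · change A.om (ξ.1 v + ξ'.1 v) w + A.om v (ξ.1 w + ξ'.1 w) = (ξ.2.2.1 + ξ'.2.2.1) * A.om v w
      rw [map_add, LinearMap.add_apply, map_add]
      linear_combination h1 v w + h3 v w
    · have h5 := (LL T).add_mem h2 h4
      have h6 : fl (bm (cb (ξ + ξ')) 0) = fl (bm (cb ξ) 0) + fl (bm (cb ξ') 0) := by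
        rw [cb_add, ← add_zero (0 : ℂ), ← bm_add, add_zero]
        rfl
      rwa [← h6] at h5
  smul_mem' := by
    rintro q ξ ⟨h1, h2⟩
    refine ⟨fun v w => ?_, ?_⟩
    · change A.om (q • ξ.1 v) w + A.om v (q • ξ.1 w) = (q * ξ.2.2.1) * A.om v w
      rw [map_smul, LinearMap.smul_apply, map_smul, smul_eq_mul, smul_eq_mul]
      linear_combination q * h1 v w
    · have h5 := (LL T).smul_mem (q : ℂ) h2
      have h6 : fl (bm (cb (q • ξ)) 0) = (q : ℂ) • fl (bm (cb ξ) 0) := by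
        rw [cb_smul, ← mul_zero (q : ℂ), ← bm_smul, mul_zero]
        rfl
      rwa [← h6] at h5

variable {A}

theorem mem_gT {T : Set (Matrix (Ix (Fin (2 * g)) R J) (Ix (Fin (2 * g)) R J) ℂ)} {ξ : GT (Fin (2 * g)) R J} :
    ξ ∈ gT A T ↔ (∀ v w, A.om (ξ.1 v) w + A.om v (ξ.1 w) = ξ.2.2.1 * A.om v w) ∧ fl (bm (cb ξ) 0) ∈ LL T := Iff.rfl

/-- the linear map over the rational numbers -/
def ratc (f : ℂ →ₗ[ℚ] ℚ) : ℂ →ₗ[QQ] ℂ where
  toFun z := ((f z : ℚ) : ℂ)
  map_add' x y := by rw [map_add, Rat.cast_add]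
  map_smul' c z := by
    obtain ⟨q, hq⟩ := mem_QQ.1 c.2
    have h1 : c • z = q • z := by
      rw [Rat.smul_def, hq]
      rfl
    rw [h1, map_smul, smul_eq_mul, Rat.cast_mul, hq]
    rfl

variable {u e : R → Fin g → ℂ} {l : J → ℂ} {T : Set (Matrix (Ix (Fin (2 * g)) R J) (Ix (Fin (2 * g)) R J) ℂ)}

theorem good_gT (hT : IsSubtorsor QB T) (hG : GDef QQ T) (hc : pm (pers A u e l) ∈ T) : Good A u e l (gT A T) where
  skew ξ hξ := hξ.1
  br ξ hξ ξ' hξ' := by
    refine mem_gT.2 ⟨fun v w => ?_, ?_⟩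
    · change A.om (ξ'.1 (ξ.1 v) - ξ.1 (ξ'.1 v)) w + A.om v (ξ'.1 (ξ.1 w) - ξ.1 (ξ'.1 w)) = 0 * A.om v w
      rw [map_sub, LinearMap.sub_apply, map_sub]
      linear_combination hξ'.1 (ξ.1 v) w - hξ.1 (ξ'.1 v) w + hξ'.1 v (ξ.1 w) - hξ.1 v (ξ'.1 w) -
        ξ.2.2.1 * hξ'.1 v w + ξ'.2.2.1 * hξ.1 v w
    · rw [← cb_br]
      exact LL_br hξ.2 hξ'.2
  der D f := by
    refine mem_gT.2 ⟨fun v w => ?_, ?_⟩
    · have hom : IsDeRhamBettiBilinear QBar A.basis (2 * Real.pi * Complex.I) A.om := by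
        rw [AbVar.coe_basis]
        exact A.om_drb
      have h1 := skew_of_mem A.basis AbVar.tau_ne A.om hom (X0_mem A.basis AbVar.tau_ne D f) v w
      rw [X0_eq A u e l D f] at h1
      simp only [LinearMap.sub_apply, LinearMap.smul_apply, Module.End.one_apply, map_sub, map_smul, smul_eq_mul] at h1
      linear_combination h1
    · rw [cb_cmp]
      have h1 : fl (bm (lam (pers A u e l) (dQ D)) 0) ∈ LL T := by
        rw [← der_lam]
        exact logder_mem hT (derD (dQ D) QB fun x hx => (QB_iff x).2 hx) hc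
      have h2 := (LL_defF hT hG hc).map (ratc f) h1
      have h3 : fl ((bm (lam (pers A u e l) (dQ D)) 0).map (ratc f)) ∈ LL T := h2
      rw [bm_map (map_zero _), map_zero] at h3
      exact h3

variable {F : IntermediateField ℚ ℂ}

/-- **The unipotent part of the de Rham-Betti group.** -/
theorem main (hT : IsSubtorsor QB T) (hG : GDef QQ T) (hc : pm (pers A u e l) ∈ T) (hF : Fld A F)
    (hu : ∀ r, u r ∈ Pt A F) (hl : ∀ j, IsAlgebraic ℚ (Complex.exp (l j)))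
    {N : Matrix R (Fin (2 * g)) ℂ}
    (hN : ∀ (Q : R → (Fin g → ℂ) →ₗ[ℂ] (Fin g → ℂ)) (m : R → Matrix (Fin (2 * g)) (Fin (2 * g)) ℤ),
      (∀ r j, Q r (A.lam j) = ∑ i, (m r j i : ℂ) • A.lam i) → ∑ r, Q r (u r) ∈ Lt A →
      ∀ i, ∑ r, ∑ j, N r j * (m r j i : ℂ) = 0) {v : J → ℂ}
    (hv : ∀ m : J → ℤ, Complex.exp (∑ j, (m j : ℂ) * l j) = 1 → ∑ j, (m j : ℂ) * v j = 0) :
    ∀ x ∈ T, bm (1, N, 1, v) 1 * x ∈ T := by
  have G := good_gT hT hG hc
  have h1 : fl (bm ((0, N, 0, v) : LT (Fin (2 * g)) R J) 0) ∈ LL T := by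
    refine mem_of_comp (LL T) fun f => ?_
    have h2 := G.uA_mem hF hu hN f
    have h3 := G.uJ_mem hl hv f
    have h4 := (gT A T).add_mem (mem_uA.1 h2) (mem_uJ.1 h3)
    have h5 := (mem_gT.1 h4).2
    refine (congrArg (· ∈ LL T) ?_).mp h5
    have h6 : (fun a => ((f (fl (bm ((0, N, 0, v) : LT (Fin (2 * g)) R J) 0) a) : ℚ) : ℂ)) =
        fl ((bm ((0, N, 0, v) : LT (Fin (2 * g)) R J) 0).map fun z => ((f z : ℚ) : ℂ)) := rfl
    rw [h6, bm_map (by rw [map_zero, Rat.cast_zero])]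
    congr 1
    rw [map_zero, Rat.cast_zero]
    congr 1
    refine Prod.ext ?_ (Prod.ext ?_ (Prod.ext ?_ ?_))
    · ext i j
      change ((((0 : Module.End ℚ (Fin (2 * g) → ℚ)) + 0) (Pi.single i 1) j : ℚ) : ℂ) = ((f 0 : ℚ) : ℂ)
      rw [add_zero, map_zero]
      rfl
    · ext r j
      change (((f (N r j) + 0 : ℚ)) : ℂ) = ((f (N r j) : ℚ) : ℂ)
      rw [add_zero]
    · change (((0 + 0 : ℚ)) : ℂ) = ((f 0 : ℚ) : ℂ)
      rw [add_zero, map_zero]
    · funext j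
      change (((0 + f (v j) : ℚ)) : ℂ) = ((f (v j) : ℚ) : ℂ)
      rw [zero_add]
  have hE : bm ((0, N, 0, v) : LT (Fin (2 * g)) R J) 0 * bm (0, N, 0, v) 0 = 0 := by
    rw [bm_mul, mul_zero, ← bm_zero]
    congr 1
    refine Prod.ext ?_ (Prod.ext ?_ (Prod.ext ?_ (funext fun j => ?_)))
    · change (0 : Matrix (Fin (2 * g)) (Fin (2 * g)) ℂ) * 0 = 0
      rw [Matrix.mul_zero]
    · change N * (0 : Matrix (Fin (2 * g)) (Fin (2 * g)) ℂ) + (0 : ℂ) • N = 0
      rw [Matrix.mul_zero, zero_smul, add_zero]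
    · change (0 : ℂ) * 0 = 0
      rw [mul_zero]
    · change v j * (0 : ℂ) + 0 * v j = 0
      rw [mul_zero, zero_mul, add_zero]
  intro x hx
  have h2 := exp_nil hT hE h1 hx 1
  rw [one_smul] at h2
  have h3 : 1 + bm ((0, N, 0, v) : LT (Fin (2 * g)) R J) 0 = bm (1, N, 1, v) 1 := by
    rw [← bm_one, bm_add, add_zero]
    congr 1
    refine Prod.ext ?_ (Prod.ext ?_ (Prod.ext ?_ (funext fun j => ?_)))
    · exact add_zero _
    · exact zero_add _
    · exact add_zero _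
    · exact zero_add _
  rwa [h3] at h2

end Pool.Agent.X306.AV
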