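import Pool.Agent.X306.AV.Per
import Pool.Agent.H340R2.LW

set_option autoImplicit false
set_option linter.unusedVariables false
set_option linter.unusedSectionVars false
set_option linter.unusedSimpArgs false

/-!
# The rational Lie algebra
-/

open Matrix Module TensorProduct

noncomputable section

namespace Pool.Agent.X306.AV

open Pool.Agent.Y102 Pool.Agent.W516.DR Pool.Agent.H204R3.GP Pool.Agent.W516.KC Pool.Agent.W516.KC2

variable {g : ℕ} {A : AbVar g} {R J : Type} [Fintype R] [DecidableEq R] [Fintype J] [DecidableEq J]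

theorem exists_factor {k V W : Type*} [Field k] [AddCommGroup V] [Module k V] [AddCommGroup W] [Module k W]
    (t : V →ₗ[k] W) (ht : Function.Surjective t) (x : V →ₗ[k] k) (h : ∀ v, t v = 0 → x v = 0) :
    ∃ χ : W →ₗ[k] k, ∀ v, χ (t v) = x v := by
  obtain ⟨s, hs⟩ := LinearMap.exists_rightInverse_of_surjective t (LinearMap.range_eq_top.2 ht)
  have hs' : ∀ w, t (s w) = w := fun w => congrArg (fun F : W →ₗ[k] W => F w) hs
  refine ⟨x.comp s, fun v => ?_⟩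
  have h1 := h (v - s (t v)) (by rw [map_sub, hs', sub_self])
  rw [map_sub, sub_eq_zero] at h1
  exact h1.symm

/-- the multiplier -/
def xx : GT (Fin (2 * g)) R J →ₗ[ℚ] ℚ where
  toFun ξ := ξ.2.2.1
  map_add' _ _ := rfl
  map_smul' _ _ := rfl

/-- the normalised part -/
def tl : GT (Fin (2 * g)) R J →ₗ[ℚ] Module.End ℚ (Fin (2 * g) → ℚ) where
  toFun ξ := ξ.1 - (ξ.2.2.1 / 2) • (1 : Module.End ℚ (Fin (2 * g) → ℚ))
  map_add' ξ ξ' := by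
    change ξ.1 + ξ'.1 - ((ξ.2.2.1 + ξ'.2.2.1) / 2) • (1 : Module.End ℚ (Fin (2 * g) → ℚ)) = _
    rw [add_div, add_smul]
    abel
  map_smul' q ξ := by
    change q • ξ.1 - ((q * ξ.2.2.1) / 2) • (1 : Module.End ℚ (Fin (2 * g) → ℚ)) = _
    rw [RingHom.id_apply, smul_sub, smul_smul, mul_div_assoc]

theorem tl_apply (ξ : GT (Fin (2 * g)) R J) :
    tl ξ = ξ.1 - (ξ.2.2.1 / 2) • (1 : Module.End ℚ (Fin (2 * g) → ℚ)) := rfl

/-- the properties of the rational Lie algebra -/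
structure Good (A : AbVar g) (u e : R → Fin g → ℂ) (l : J → ℂ) (𝔤 : Submodule ℚ (GT (Fin (2 * g)) R J)) : Prop where
  skew : ∀ ξ ∈ 𝔤, ∀ v w, A.om (ξ.1 v) w + A.om v (ξ.1 w) = ξ.2.2.1 * A.om v w
  br : ∀ ξ ∈ 𝔤, ∀ ξ' ∈ 𝔤, br ξ ξ' ∈ 𝔤
  der : ∀ (D : Derivation QBar ℂ ℂ) (f : ℂ →ₗ[ℚ] ℚ), cmp f (lam (pers A u e l) (dQ D)) ∈ 𝔤

variable {u e : R → Fin g → ℂ} {l : J → ℂ} {𝔤 : Submodule ℚ (GT (Fin (2 * g)) R J)}

/-- the normalised Lie algebra of the abelian variety -/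
def hh (𝔤 : Submodule ℚ (GT (Fin (2 * g)) R J)) : Submodule ℚ (Module.End ℚ (Fin (2 * g) → ℚ)) := 𝔤.map tl

theorem mem_hh {X : Module.End ℚ (Fin (2 * g) → ℚ)} : X ∈ hh 𝔤 ↔ ∃ ξ ∈ 𝔤, tl ξ = X := Iff.rfl

theorem tl_br (ξ ξ' : GT (Fin (2 * g)) R J) : tl (br ξ ξ') = tl ξ' * tl ξ - tl ξ * tl ξ' := by
  change (ξ'.1 * ξ.1 - ξ.1 * ξ'.1) - ((0 : ℚ) / 2) • (1 : Module.End ℚ (Fin (2 * g) → ℚ)) = _
  rw [zero_div, zero_smul, sub_zero, tl_apply, tl_apply]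
  simp only [sub_mul, mul_sub, smul_mul_assoc, mul_smul_comm, one_mul, mul_one, smul_sub]
  rw [smul_comm (ξ.2.2.1 / 2) (ξ'.2.2.1 / 2)]
  abel

namespace Good

variable (G : Good A u e l 𝔤)
include G

theorem skew_hh {X : Module.End ℚ (Fin (2 * g) → ℚ)} (hX : X ∈ hh 𝔤) : IsSkew A.om X := by
  obtain ⟨ξ, h, rfl⟩ := mem_hh.1 hX
  intro v w
  have h1 := G.skew ξ h v w
  rw [tl_apply]
  simp only [LinearMap.sub_apply, LinearMap.smul_apply, Module.End.one_apply, map_sub, map_smul, smul_eq_mul]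
  linear_combination h1

theorem br_hh {X Y : Module.End ℚ (Fin (2 * g) → ℚ)} (hX : X ∈ hh 𝔤) (hY : Y ∈ hh 𝔤) : X * Y - Y * X ∈ hh 𝔤 := by
  obtain ⟨ξ, h, rfl⟩ := mem_hh.1 hX
  obtain ⟨ξ', h', rfl⟩ := mem_hh.1 hY
  exact mem_hh.2 ⟨_, G.br ξ' h' ξ h, tl_br _ _⟩

theorem X0_hh (D : Derivation QBar ℂ ℂ) (f : ℂ →ₗ[ℚ] ℚ) : X0 A.basis (2 * Real.pi * Complex.I) D f ∈ hh 𝔤 :=
  mem_hh.2 ⟨_, G.der D f, (X0_eq A u e l D f).symm⟩

theorem semi : Semi (hh 𝔤) := by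
  intro U hU
  have h1 : IsDeRhamBettiSubspace QBar (A.basis : Fin g ⊕ Fin g → (A.H1 →ₗ[ℚ] ℂ)) U :=
    sub_of_stable A.basis (τ := 2 * Real.pi * Complex.I) U fun D f v hv => hU _ (G.X0_hh D f) v hv
  rw [A.coe_basis] at h1
  refine ⟨_, ?_, A.isCompl_of_sub h1⟩
  intro X hX v hv w hw
  have h2 := G.skew_hh hX w v
  have h3 : A.om (X w) v = 0 := hv _ (hU X hX w hw)
  rw [h3, zero_add] at h2
  exact h2

theorem drb {P : Module.End ℚ (Fin (2 * g) → ℚ)} (h : ∀ X ∈ hh 𝔤, X * P = P * X) : IsDeRhamBettiEnd QBar A.dR P := by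
  have h1 := end_of_comm A.basis (τ := 2 * Real.pi * Complex.I) P fun D f => h _ (G.X0_hh D f)
  rwa [A.coe_basis] at h1

theorem hodge {P : Module.End ℚ (Fin (2 * g) → ℚ)} (h : ∀ X ∈ hh 𝔤, X * P = P * X) :
    ∃ M : (Fin g → ℂ) →ₗ[ℂ] (Fin g → ℂ), ∀ w, M (A.per w) = A.per (P w) := A.hodge_end (G.drb h)

theorem trace : TraceNondeg (hh 𝔤) := by
  intro X hX htr
  have h1 := central_of_trace (hh 𝔤) G.semi (fun X hX Y hY => G.br_hh hX hY) hX htr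
  obtain ⟨M, hM⟩ := G.hodge h1
  exact A.trace_sq hM (G.skew_hh hX) (htr X hX)

theorem exists_x : ∃ ξ ∈ 𝔤, ξ.2.2.1 ≠ 0 := by
  have hw : (2 * Real.pi * Complex.I : ℂ) ≠ 0 := Complex.two_pi_I_ne_zero
  by_contra hcon
  push Not at hcon
  have h1 : ∀ D : Derivation QBar ℂ ℂ, D (2 * Real.pi * Complex.I) = 0 := by
    intro D
    have h2 : D (2 * Real.pi * Complex.I) / (2 * Real.pi * Complex.I) = 0 :=
      eq_zero_of_dual (k := ℚ) fun f => hcon _ (G.der D f)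
    exact (div_eq_zero_iff.1 h2).resolve_right hw
  obtain ⟨a, ha⟩ := mem_of_derivation h1
  have halg : IsAlgebraic ℚ (2 * Real.pi * Complex.I : ℂ) := by
    rw [← ha]
    exact QBar.alg a
  have h2I : IsAlgebraic ℚ ((2 * Complex.I)⁻¹ : ℂ) := by
    refine IsAlgebraic.inv (IsAlgebraic.mul ?_ Pool.Agent.H340R2.LW.isAlgebraic_I)
    exact_mod_cast (isAlgebraic_natCast (R := ℚ) (A := ℂ) 2)
  have h3 := halg.mul h2I
  have h4 : (2 * Real.pi * Complex.I : ℂ) * (2 * Complex.I)⁻¹ = Real.pi := by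
    have hI := Complex.I_ne_zero
    field_simp
  rw [h4] at h3
  exact Pool.Agent.H340R2.LW.transcendental_pi_complex h3

/-- A central element with nonzero multiplier. -/
theorem exists_Z : ∃ ξ ∈ 𝔤, ∃ ζ : Module.End ℚ (Fin (2 * g) → ℚ), ξ.2.2.1 ≠ 0 ∧
    ξ.1 = (ξ.2.2.1 / 2) • (1 : Module.End ℚ (Fin (2 * g) → ℚ)) + ζ ∧ IsSkew A.om ζ ∧
    (∀ X ∈ hh 𝔤, X * ζ = ζ * X) := by
  by_cases hc : ∃ ξ ∈ 𝔤, tl ξ = 0 ∧ ξ.2.2.1 ≠ 0
  · obtain ⟨ξ, h1, h2, h3⟩ := hc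
    refine ⟨ξ, h1, 0, h3, ?_, fun v w => ?_, fun X _ => ?_⟩
    · rw [add_zero]
      exact sub_eq_zero.1 h2
    · simp
    · rw [mul_zero, zero_mul]
  · push Not at hc
    -- the functional
    let t : 𝔤 →ₗ[ℚ] hh 𝔤 := (tl.domRestrict 𝔤).codRestrict (hh 𝔤) fun ξ => mem_hh.2 ⟨ξ.1, ξ.2, rfl⟩
    have ht : Function.Surjective t := by
      rintro ⟨X, hX⟩
      obtain ⟨ξ, h, rfl⟩ := mem_hh.1 hX
      exact ⟨⟨ξ, h⟩, rfl⟩
    have h0 : ∀ v : 𝔤, t v = 0 → xx.domRestrict 𝔤 v = 0 := fun v hv => hc v.1 v.2 (congrArg Subtype.val hv)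
    obtain ⟨χ, hχ'⟩ := exists_factor (k := ℚ) (V := 𝔤) (W := hh 𝔤) t ht (xx.domRestrict 𝔤) h0
    have hχ : ∀ ξ (h : ξ ∈ 𝔤), χ ⟨tl ξ, mem_hh.2 ⟨ξ, h, rfl⟩⟩ = ξ.2.2.1 := fun ξ h => hχ' ⟨ξ, h⟩
    let Z := (trE (hh 𝔤) G.trace).symm χ
    have hZ : ∀ X : hh 𝔤, LinearMap.trace ℚ (Fin (2 * g) → ℚ) (Z.1 * X.1) = χ X := fun X => by
      have h1 : trE (hh 𝔤) G.trace Z = χ := LinearEquiv.apply_symm_apply _ _
      exact congrArg (fun f : Module.Dual ℚ (hh 𝔤) => f X) h1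
    have hcen : ∀ X ∈ hh 𝔤, X * Z.1 = Z.1 * X := by
      intro X hX
      have h1 : Z.1 * X - X * Z.1 = 0 := by
        refine G.trace _ (G.br_hh Z.2 hX) fun Y hY => ?_
        have h2 : LinearMap.trace ℚ (Fin (2 * g) → ℚ) ((Z.1 * X - X * Z.1) * Y) =
            LinearMap.trace ℚ (Fin (2 * g) → ℚ) (Z.1 * (X * Y - Y * X)) := by
          rw [sub_mul, mul_sub, map_sub, map_sub, mul_assoc, mul_assoc X Z.1 Y, LinearMap.trace_mul_comm ℚ X (Z.1 * Y),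
            mul_assoc]
        rw [h2]
        obtain ⟨ξ, h, rfl⟩ := mem_hh.1 hX
        obtain ⟨ξ', h', rfl⟩ := mem_hh.1 hY
        have h3 := hZ ⟨tl (Pool.Agent.X306.AV.br ξ' ξ), mem_hh.2 ⟨_, G.br ξ' h' ξ h, rfl⟩⟩
        rw [hχ _ (G.br ξ' h' ξ h)] at h3
        change LinearMap.trace ℚ (Fin (2 * g) → ℚ) (Z.1 * tl (Pool.Agent.X306.AV.br ξ' ξ)) = 0 at h3
        rwa [tl_br] at h3
      exact (sub_eq_zero.1 h1).symm
    obtain ⟨ξ, h, hξ⟩ := mem_hh.1 Z.2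
    have hx : ξ.2.2.1 = LinearMap.trace ℚ (Fin (2 * g) → ℚ) (Z.1 * Z.1) := by
      rw [hZ Z, ← hχ ξ h]
      congr 1
      exact Subtype.ext hξ
    refine ⟨ξ, h, Z.1, fun h0 => ?_, ?_, G.skew_hh Z.2, hcen⟩
    · obtain ⟨M, hM⟩ := G.hodge hcen
      have h1 : Z.1 = 0 := A.trace_sq hM (G.skew_hh Z.2) (hx.symm.trans h0)
      obtain ⟨ξ', h', hne⟩ := G.exists_x
      apply hne
      rw [← hχ ξ' h', ← hZ, h1, zero_mul, map_zero]
    · rw [← hξ, tl_apply]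
      abel

omit G in
theorem inj_Z {ζ : Module.End ℚ (Fin (2 * g) → ℚ)} (hs : IsSkew A.om ζ)
    {M : (Fin g → ℂ) →ₗ[ℂ] (Fin g → ℂ)} (hM : ∀ w, M (A.per w) = A.per (ζ w)) {c : ℚ} (hc : c ≠ 0)
    {w : Fin (2 * g) → ℚ} (hw : c • w + ζ w = 0) : w = 0 := by
  have hsk : ∀ u v, A.E (M u) v = -A.E u (M v) := by
    have h2 : A.E.comp (M.restrictScalars ℝ) = -(A.E.flip.comp (M.restrictScalars ℝ)).flip := by
      refine A.ext_per fun u => A.ext_per fun v => ?_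
      change A.E (M (A.per u)) (A.per v) = -A.E (A.per u) (M (A.per v))
      rw [hM, hM, ← AbVar.om_coe, ← AbVar.om_coe, ← Rat.cast_neg]
      congr 1
      linear_combination hs u v
    intro u v
    exact congrArg (fun F : (Fin g → ℂ) →ₗ[ℝ] (Fin g → ℂ) →ₗ[ℝ] ℝ => F u v) h2
  have h1 : M (A.per w) = -((c : ℝ) • A.per w) := by
    rw [hM, eq_neg_iff_add_eq_zero, ← AbVar.rat_smul, ← map_smul, ← map_add, add_comm, hw, map_zero]
  have h2 := hsk (A.per w) (Complex.I • A.per w)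
  have h6 : M (Complex.I • A.per w) = -((c : ℝ) • (Complex.I • A.per w)) := by
    rw [map_smul, h1, smul_neg, smul_comm]
  rw [h6, h1, map_neg, map_neg, LinearMap.neg_apply, neg_neg, LinearMap.map_smul A.E, LinearMap.map_smul (A.E (A.per w)),
    LinearMap.smul_apply, smul_eq_mul] at h2
  have h3 : (c : ℝ) * A.E (A.per w) (Complex.I • A.per w) = 0 := by linarith
  have hc' : (c : ℝ) ≠ 0 := by exact_mod_cast hc
  have h4 := (mul_eq_zero.1 h3).resolve_left hc'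
  by_contra hne
  have h5 : A.per w ≠ 0 := by
    intro h0
    exact hne (A.per_inj (h0.trans (map_zero _).symm))
  exact (A.E_pos h5).ne' h4

end Good

end Pool.Agent.X306.AV
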