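import Mathlib
import Pool.Agent.W516.Cartan

set_option autoImplicit false
set_option linter.unusedVariables false
set_option linter.unusedSectionVars false
set_option linter.unusedSimpArgs false

/-!
# Stable subspaces of powers of a semisimple module
-/

open Module

noncomputable section

namespace Pool.Agent.X306.AV

open Pool.Agent.W516.KC

variable {V : Type} [AddCommGroup V] [Module ℚ V] [FiniteDimensional ℚ V] {R : Type} [Fintype R] [DecidableEq R]

theorem inv_of_stable {φ : Module.End ℚ V} (hφ : ∀ v, φ v = 0 → v = 0) (U : Submodule ℚ (R → V))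
    (hU : ∀ Y ∈ U, (fun r => φ (Y r)) ∈ U) {Y : R → V} (hY : (fun r => φ (Y r)) ∈ U) : Y ∈ U := by
  have hU' : ∀ Y ∈ U, (φ.compLeft R) Y ∈ U := hU
  let T : U →ₗ[ℚ] U := (φ.compLeft R).restrict hU'
  have hT : Function.Injective T := by
    rw [injective_iff_map_eq_zero]
    intro Y' h
    have h1 : (fun r => φ (Y'.1 r)) = 0 := congrArg Subtype.val h
    exact Subtype.ext (funext fun r => hφ _ (congrFun h1 r))
  obtain ⟨Y', hY'⟩ := (LinearMap.injective_iff_surjective.1 hT) ⟨_, hY⟩
  have h1 : (fun r => φ (Y'.1 r)) = fun r => φ (Y r) := congrArg Subtype.val hY'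
  have h2 : Y = Y'.1 := funext fun r => sub_eq_zero.1 (hφ _ (by
    rw [map_sub]
    exact sub_eq_zero.2 (congrFun h1 r).symm))
  rw [h2]
  exact Y'.2

theorem adj_stable {𝔥 : Submodule ℚ (Module.End ℚ V)} {U : Submodule ℚ V} (hU : ∀ X ∈ 𝔥, ∀ v ∈ U, X v ∈ U)
    {X : Module.End ℚ V} (hX : X ∈ Algebra.adjoin ℚ (𝔥 : Set (Module.End ℚ V))) : ∀ v ∈ U, X v ∈ U := by
  induction hX using Algebra.adjoin_induction with
  | mem X hX => exact hU X hX
  | algebraMap q =>
    intro v hv
    rw [Module.algebraMap_end_apply]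
    exact U.smul_mem q hv
  | add X Y _ _ h h' =>
    intro v hv
    exact U.add_mem (h v hv) (h' v hv)
  | mul X Y _ _ h h' =>
    intro v hv
    exact h _ (h' v hv)

theorem adj_stable' {𝔥 : Submodule ℚ (Module.End ℚ V)} {U : Submodule ℚ (R → V)}
    (hU : ∀ X ∈ 𝔥, ∀ Y ∈ U, (fun r => X (Y r)) ∈ U)
    {X : Module.End ℚ V} (hX : X ∈ Algebra.adjoin ℚ (𝔥 : Set (Module.End ℚ V))) :
    ∀ Y ∈ U, (fun r => X (Y r)) ∈ U := by
  induction hX using Algebra.adjoin_induction with
  | mem X hX => exact hU X hX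
  | algebraMap q =>
    intro v hv
    simp only [Module.algebraMap_end_apply]
    exact U.smul_mem q hv
  | add X Y _ _ h h' =>
    intro v hv
    exact U.add_mem (h v hv) (h' v hv)
  | mul X Y _ _ h h' =>
    intro v hv
    exact h _ (h' v hv)

theorem exists_maps (𝔥 : Submodule ℚ (Module.End ℚ V)) (hs : Semi 𝔥) (U : Submodule ℚ (R → V))
    (hU : ∀ X ∈ 𝔥, ∀ Y ∈ U, (fun r => X (Y r)) ∈ U) :
    ∃ a : R → R → Module.End ℚ V, (∀ r s, ∀ X ∈ 𝔥, X * a r s = a r s * X) ∧
      ∀ Y : R → V, Y ∈ U ↔ ∀ s, ∑ r, a r s (Y r) = 0 := by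
  classical
  let 𝒜 := Algebra.adjoin ℚ (𝔥 : Set (Module.End ℚ V))
  have hact : ∀ (X : 𝒜) (v : V), X • v = X.1 v := fun _ _ => rfl
  have hactP : ∀ (X : 𝒜) (Y : R → V) r, (X • Y) r = X.1 (Y r) := fun _ _ _ => rfl
  have hq : ∀ (q : ℚ) (v : V), (algebraMap ℚ 𝒜 q) • v = q • v := fun q v => rfl
  have hss : IsSemisimpleModule 𝒜 V := by
    rw [isSemisimpleModule_iff]
    refine ⟨fun N => ?_⟩
    let U₀ : Submodule ℚ V :=
      { carrier := N
        add_mem' := fun hx hy => N.add_mem hx hy
        zero_mem' := N.zero_mem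
        smul_mem' := fun q x hx => by
          have h1 := N.smul_mem (algebraMap ℚ 𝒜 q) hx
          rw [hq] at h1
          exact h1 }
    obtain ⟨U', h1, h2⟩ := hs U₀ fun X hX v hv => N.smul_mem (⟨X, Algebra.subset_adjoin hX⟩ : 𝒜) hv
    let N' : Submodule 𝒜 V :=
      { carrier := U'
        add_mem' := fun hx hy => U'.add_mem hx hy
        zero_mem' := U'.zero_mem
        smul_mem' := fun X x hx => adj_stable h1 X.2 x hx }
    refine ⟨N', ?_, ?_⟩
    · rw [Submodule.disjoint_def]
      intro x hx hx'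
      exact Submodule.disjoint_def.1 h2.disjoint x hx hx'
    · rw [Submodule.codisjoint_iff_exists_add_eq]
      intro z
      exact Submodule.codisjoint_iff_exists_add_eq.1 h2.codisjoint z
  let UA : Submodule 𝒜 (R → V) :=
    { carrier := U
      add_mem' := fun hx hy => U.add_mem hx hy
      zero_mem' := U.zero_mem
      smul_mem' := fun X x hx => adj_stable' hU X.2 x hx }
  obtain ⟨W, hW⟩ := exists_isCompl UA
  let φ : (R → V) →ₗ[𝒜] (R → V) := W.subtype.comp (W.projectionOnto UA hW.symm)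
  have hφ : ∀ Y, φ Y = 0 ↔ Y ∈ U := by
    intro Y
    change W.subtype (W.projectionOnto UA hW.symm Y) = 0 ↔ Y ∈ UA
    rw [← Submodule.projectionOnto_apply_eq_zero_iff hW.symm]
    exact (map_eq_zero_iff W.subtype W.subtype_injective)
  have hsm : ∀ (X : 𝒜) (r : R) (v : V), (Pi.single r (X.1 v) : R → V) = X • (Pi.single r v : R → V) := by
    intro X r v
    funext s
    rw [hactP]
    by_cases h : s = r
    · subst h
      rw [Pi.single_eq_same, Pi.single_eq_same]
    · rw [Pi.single_eq_of_ne h, Pi.single_eq_of_ne h, map_zero]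
  let a : R → R → Module.End ℚ V := fun r s =>
    { toFun := fun v => φ (Pi.single r v) s
      map_add' := fun v w => by
        rw [Pi.single_add, map_add, Pi.add_apply]
      map_smul' := fun q v => by
        have h1 : q • v = (algebraMap ℚ 𝒜 q).1 v := (hq q v).symm
        rw [h1, hsm, map_smul, hactP, RingHom.id_apply]
        rfl }
  refine ⟨a, fun r s X hX => LinearMap.ext fun v => ?_, fun Y => ?_⟩
  · change X (φ (Pi.single r v) s) = φ (Pi.single r (X v)) s
    have h1 := hsm ⟨X, Algebra.subset_adjoin hX⟩ r v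
    change (Pi.single r (X v) : R → V) = _ at h1
    rw [h1, map_smul, hactP]
  · have h1 : ∀ s, ∑ r, a r s (Y r) = φ Y s := by
      intro s
      conv_rhs => rw [← Finset.univ_sum_single Y]
      rw [map_sum, Finset.sum_apply]
      rfl
    rw [← hφ]
    constructor
    · intro h s
      rw [h1, h]
      rfl
    · intro h
      funext s
      rw [← h1, h]
      rfl

end Pool.Agent.X306.AV
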