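import Pool.Agent.X306.AV.NM

set_option autoImplicit false
set_option linter.unusedVariables false
set_option linter.unusedSectionVars false
set_option linter.unusedSimpArgs false

/-!
# Independent points
-/

open Matrix Module TensorProduct

noncomputable section

namespace Pool.Agent.X306.AV

open Pool.Agent.Y102

variable {g : ℕ} {A : AbVar g} {R J : Type} [Fintype R] [DecidableEq R] [Fintype J] [DecidableEq J]
  {u : R → Fin g → ℂ} {q : J → Fin g → ℂ}

theorem relN_of_indep (h : ∀ Q : R ⊕ J → (Fin g → ℂ) →ₗ[ℂ] (Fin g → ℂ), (∀ s, ∀ w ∈ Lt A, Q s w ∈ Lt A) →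
    ∑ s, Q s (Sum.elim u q s) ∈ Lt A → ∀ s, Q s = 0) (N : R ⊕ J → Fin (2 * g) → ℂ) : RelN A u q N := by
  intro Q m hQ hs i
  have h1 : ∀ s, ∀ w ∈ Lt A, Q s w ∈ Lt A := fun s => lt_stable fun j => by
    rw [hQ]
    refine (Lt A).sum_mem fun i _ => ?_
    rw [int_smul]
    exact (Lt A).smul_mem _ (Submodule.subset_span ⟨i, rfl⟩)
  have h2 := h Q h1 hs
  have h3 : ∀ s j i, m s j i = 0 := by
    intro s j
    have h4 := hQ s j
    rw [h2 s, LinearMap.zero_apply] at h4
    have h5 := Fintype.linearIndependent_iff.1 A.lam.linearIndependent (fun i => ((m s j i : ℤ) : ℝ)) (by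
      rw [h4]
      refine Finset.sum_congr rfl fun i _ => ?_
      funext k
      simp)
    intro i
    exact_mod_cast h5 i
  refine Finset.sum_eq_zero fun s _ => Finset.sum_eq_zero fun j _ => ?_
  rw [h3, Int.cast_zero, mul_zero]

theorem CmS_top (h : ∀ N : R ⊕ J → Fin (2 * g) → ℂ, RelN A u q N) (hg : 0 < g) (c : Matrix R J ℂ) : c ∈ CmS A u q := by
  have hi : 0 < 2 * g := by omega
  have h0 : A.bas ⟨0, hi⟩ ≠ 0 := A.bas.ne_zero _
  obtain ⟨v, hv⟩ : ∃ v, A.om (A.bas ⟨0, hi⟩) v ≠ 0 := by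
    by_contra hcon
    push Not at hcon
    exact h0 (A.om_nondeg hcon)
  have key : ∀ r₀ j₀, (Matrix.of fun r j => if r = r₀ ∧ j = j₀ then (1 : ℂ) else 0) ∈ CmS A u q := by
    intro r₀ j₀
    let N : R ⊕ J → Fin (2 * g) → ℚ := Sum.elim (fun r => if r = r₀ then v else 0) (fun _ => 0)
    let N' : R ⊕ J → Fin (2 * g) → ℚ := Sum.elim (fun _ => 0) (fun j => if j = j₀ then A.bas ⟨0, hi⟩ else 0)
    have h1 : (Matrix.of fun r j => ((A.om (N' (Sum.inr j)) (N (Sum.inl r)) -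
        A.om (N (Sum.inr j)) (N' (Sum.inl r)) : ℚ) : ℂ)) ∈ CmS A u q :=
      Submodule.subset_span ⟨N, N', h _, h _, rfl⟩
    have h2 := (CmS A u q).smul_mem ((A.om (A.bas ⟨0, hi⟩) v : ℚ) : ℂ)⁻¹ h1
    refine (congrArg (· ∈ CmS A u q) ?_).mp h2
    have hv' : ((A.om (A.bas ⟨0, hi⟩) v : ℚ) : ℂ) ≠ 0 := by exact_mod_cast hv
    ext r j
    have e1 : A.om (N' (Sum.inr j)) (N (Sum.inl r)) - A.om (N (Sum.inr j)) (N' (Sum.inl r)) =
        if r = r₀ ∧ j = j₀ then A.om (A.bas ⟨0, hi⟩) v else 0 := by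
      change A.om (if j = j₀ then A.bas ⟨0, hi⟩ else 0) (if r = r₀ then v else 0) - A.om 0 0 = _
      rw [map_zero, sub_zero]
      by_cases hr : r = r₀
      · by_cases hj : j = j₀
        · simp only [hr, hj, if_true, and_self]
        · simp only [hr, hj, if_true, if_false, and_false, map_zero, LinearMap.zero_apply]
      · simp only [hr, if_false, false_and, map_zero]
    change ((A.om (A.bas ⟨0, hi⟩) v : ℚ) : ℂ)⁻¹ *
      ((A.om (N' (Sum.inr j)) (N (Sum.inl r)) - A.om (N (Sum.inr j)) (N' (Sum.inl r)) : ℚ) : ℂ) =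
      if r = r₀ ∧ j = j₀ then 1 else 0
    rw [e1]
    by_cases h3 : r = r₀ ∧ j = j₀
    · rw [if_pos h3, if_pos h3, inv_mul_cancel₀ hv']
    · rw [if_neg h3, if_neg h3, Rat.cast_zero, mul_zero]
  have h1 : c = ∑ r₀, ∑ j₀, c r₀ j₀ • (Matrix.of fun r j => if r = r₀ ∧ j = j₀ then (1 : ℂ) else 0) := by
    ext r j
    rw [Matrix.sum_apply, Finset.sum_eq_single r]
    · rw [Matrix.sum_apply, Finset.sum_eq_single j]
      · simp
      · intro k _ hk
        simp [Ne.symm hk]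
      · intro h
        exact absurd (Finset.mem_univ _) h
    · intro s _ hs
      rw [Matrix.sum_apply]
      refine Finset.sum_eq_zero fun k _ => ?_
      simp [Ne.symm hs]
    · intro h
      exact absurd (Finset.mem_univ _) h
  rw [h1]
  exact (CmS A u q).sum_mem fun r₀ _ => (CmS A u q).sum_mem fun j₀ _ => (CmS A u q).smul_mem _ (key r₀ j₀)

end Pool.Agent.X306.AV
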