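import Pool.Agent.X306.AV.NT

set_option autoImplicit false
set_option linter.unusedVariables false
set_option linter.unusedSectionVars false
set_option linter.unusedSimpArgs false

/-!
# Semiabelian 1-motives: the main theorem
-/

open Matrix Module TensorProduct

noncomputable section

namespace Pool.Agent.X306.AV

open Pool.Agent.Y102 Pool.Agent.W516.DR Pool.Agent.H204R3.GP Pool.Agent.W516.KC Pool.Agent.W516.KC2
open Pool.Agent.TH127.PT Pool.Agent.Y123.ST Pool.Agent.TH119.DR Pool.Agent.W245.EB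
open Pool.Agent.X306.RL (LL_br LL_defF GDef derD)
open Pool.Agent.X306.EM (QQ mem_QQ QB_iff)

variable {g : ℕ} {A : AbVar g} {R J : Type} [Fintype R] [DecidableEq R] [Fintype J] [DecidableEq J]

variable (A)

/-- the rational elements of the Lie algebra -/
def gN (T : Set (Matrix (Iz (Fin (2 * g)) R J) (Iz (Fin (2 * g)) R J) ℂ)) : Submodule ℚ (RS g R J) where
  carrier := {ξ | Sk A ξ ∧ fl (sm (cS A ξ) 0) ∈ LL T}
  zero_mem' := by
    refine ⟨fun v w => ?_, ?_⟩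
    · change A.om (0 : Fin (2 * g) → ℚ) w + A.om v (0 : Fin (2 * g) → ℚ) = 0 * A.om v w
      rw [map_zero, LinearMap.zero_apply, map_zero, zero_mul, add_zero]
    · rw [cS_zero, sm_zero]
      exact (LL T).zero_mem
  add_mem' := by
    rintro ξ ξ' ⟨h1, h2⟩ ⟨h3, h4⟩
    refine ⟨fun v w => ?_, ?_⟩
    · change A.om (ξ.1 v + ξ'.1 v) w + A.om v (ξ.1 w + ξ'.1 w) = (ξ.2.2.1 + ξ'.2.2.1) * A.om v w
      rw [map_add, LinearMap.add_apply, map_add]
      linear_combination h1 v w + h3 v w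
    · have h5 := (LL T).add_mem h2 h4
      have h6 : fl (sm (cS A (ξ + ξ')) 0) = fl (sm (cS A ξ) 0) + fl (sm (cS A ξ') 0) := by
        rw [cS_add, ← add_zero (0 : ℂ), ← sm_add, add_zero]
        rfl
      rwa [← h6] at h5
  smul_mem' := by
    rintro q ξ ⟨h1, h2⟩
    refine ⟨fun v w => ?_, ?_⟩
    · change A.om (q • ξ.1 v) w + A.om v (q • ξ.1 w) = (q * ξ.2.2.1) * A.om v w
      rw [map_smul, LinearMap.smul_apply, map_smul, smul_eq_mul, smul_eq_mul]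
      linear_combination q * h1 v w
    · have h5 := (LL T).smul_mem (q : ℂ) h2
      have h6 : fl (sm (cS A (q • ξ)) 0) = (q : ℂ) • fl (sm (cS A ξ) 0) := by
        rw [cS_smul, ← mul_zero (q : ℂ), ← sm_smul, mul_zero]
        rfl
      rwa [← h6] at h5

variable {A}

variable {T : Set (Matrix (Iz (Fin (2 * g)) R J) (Iz (Fin (2 * g)) R J) ℂ)}

theorem mem_gN {ξ : RS g R J} : ξ ∈ gN A T ↔ Sk A ξ ∧ fl (sm (cS A ξ) 0) ∈ LL T := Iff.rfl

theorem gN_br {ξ ξ' : RS g R J} (h : ξ ∈ gN A T) (h' : ξ' ∈ gN A T) : bS A ξ ξ' ∈ gN A T := by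
  refine mem_gN.2 ⟨fun v w => ?_, ?_⟩
  · change A.om (ξ'.1 (ξ.1 v) - ξ.1 (ξ'.1 v)) w + A.om v (ξ'.1 (ξ.1 w) - ξ.1 (ξ'.1 w)) = 0 * A.om v w
    rw [map_sub, LinearMap.sub_apply, map_sub]
    linear_combination h'.1 (ξ.1 v) w - h.1 (ξ'.1 v) w + h'.1 v (ξ.1 w) - h.1 v (ξ'.1 w) -
      ξ.2.2.1 * h'.1 v w + ξ'.2.2.1 * h.1 v w
  · rw [← sm_bS h.1 h'.1]
    exact LL_br h.2 h'.2

/-- the projection which forgets the third kind -/
def prj (g : ℕ) (R J : Type) : RS g R J →ₗ[ℚ] GT (Fin (2 * g)) (R ⊕ J) Empty where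
  toFun ξ := (ξ.1, ξ.2.1, ξ.2.2.1, fun j => j.elim)
  map_add' ξ ξ' := by
    refine Prod.ext rfl (Prod.ext rfl (Prod.ext rfl (funext fun j => j.elim)))
  map_smul' c ξ := by
    refine Prod.ext rfl (Prod.ext rfl (Prod.ext rfl (funext fun j => j.elim)))

variable {u e : R → Fin g → ℂ} {q f : J → Fin g → ℂ} {L : Matrix R J ℂ}

theorem tz_map (f : ℂ →ₗ[ℚ] ℚ) (Z : Matrix J (Fin (2 * g)) ℂ) :
    (tz A Z).map (fun z => ((f z : ℚ) : ℂ)) = tz A (Matrix.of fun j a => ((f (Z j a) : ℚ) : ℂ)) := by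
  ext i j
  change ((f (∑ a, Z j a * ((A.om (A.bas a) (A.bas i) : ℚ) : ℂ)) : ℚ) : ℂ) =
    ∑ a, ((f (Z j a) : ℚ) : ℂ) * ((A.om (A.bas a) (A.bas i) : ℚ) : ℂ)
  rw [map_sum, Rat.cast_sum]
  refine Finset.sum_congr rfl fun a _ => ?_
  have h1 : Z j a * ((A.om (A.bas a) (A.bas i) : ℚ) : ℂ) = (A.om (A.bas a) (A.bas i)) • Z j a := by
    rw [Rat.smul_def, mul_comm]
  rw [h1, map_smul, smul_eq_mul, Rat.cast_mul, mul_comm]

theorem good_gN (hT : IsSubtorsor QB T) (hG : GDef QQ T) (hc : sm (prS u e q f L A) 1 ∈ T) :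
    Good A (Sum.elim u q) (Sum.elim e f) (fun j : Empty => j.elim) ((gN A T).map (prj g R J)) where
  skew := by
    rintro _ ⟨ξ, hξ, rfl⟩
    exact hξ.1
  br := by
    rintro _ ⟨ξ, hξ, rfl⟩ _ ⟨ξ', hξ', rfl⟩
    refine ⟨bS A ξ ξ', gN_br hξ hξ', ?_⟩
    exact Prod.ext rfl (Prod.ext rfl (Prod.ext rfl (funext fun j => j.elim)))
  der D φ := by
    refine ⟨((cmp φ (lam (pe A u e q f) (dQ D))).1, (cmp φ (lam (pe A u e q f) (dQ D))).2.1,
      (cmp φ (lam (pe A u e q f) (dQ D))).2.2.1, fun r j => φ ((lmS A u e q f L (dQ D)).2.2.2.2 r j)), ?_,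
      Prod.ext rfl (Prod.ext rfl (Prod.ext rfl (funext fun j => j.elim)))⟩
    refine mem_gN.2 ⟨fun v w => ?_, ?_⟩
    · have hom : IsDeRhamBettiBilinear QBar A.basis (2 * Real.pi * Complex.I) A.om := by
        rw [AbVar.coe_basis]
        exact A.om_drb
      have h1 := skew_of_mem A.basis AbVar.tau_ne A.om hom (X0_mem A.basis AbVar.tau_ne D φ) v w
      rw [X0_eq A (Sum.elim u q) (Sum.elim e f) (fun j : Empty => j.elim) D φ] at h1
      simp only [LinearMap.sub_apply, LinearMap.smul_apply, Module.End.one_apply, map_sub, map_smul, smul_eq_mul] at h1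
      linear_combination h1
    · have h1 : fl (sm (lmS A u e q f L (dQ D)) 0) ∈ LL T := by
        rw [← der_lmS (dQ D) (hT.isUnit _ hc)]
        exact logder_mem hT (derD (dQ D) QB fun x hx => (QB_iff x).2 hx) hc
      have h2 := (LL_defF hT hG hc).map (ratc φ) h1
      have h3 : fl ((sm (lmS A u e q f L (dQ D)) 0).map (ratc φ)) ∈ LL T := h2
      rw [sm_map (map_zero _), map_zero] at h3
      refine (congrArg (fun x => fl (sm x 0) ∈ LL T) ?_).mp h3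
      refine Prod.ext ?_ (Prod.ext ?_ (Prod.ext rfl (Prod.ext rfl rfl)))
      · ext i j
        change _ = (((Pi.single i 1 ᵥ* ((lam (pe A u e q f) (dQ D)).1.map φ)) j : ℚ) : ℂ)
        rw [Matrix.single_one_vecMul]
        rfl
      · exact tz_map φ _

variable {F : IntermediateField ℚ ℂ}

/-- the relations of the points -/
def RelN (A : AbVar g) (u : R → Fin g → ℂ) (q : J → Fin g → ℂ) (N : R ⊕ J → Fin (2 * g) → ℂ) : Prop :=
  ∀ (Q : R ⊕ J → (Fin g → ℂ) →ₗ[ℂ] (Fin g → ℂ)) (m : R ⊕ J → Matrix (Fin (2 * g)) (Fin (2 * g)) ℤ),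
    (∀ r j, Q r (A.lam j) = ∑ i, (m r j i : ℂ) • A.lam i) → ∑ r, Q r (Sum.elim u q r) ∈ Lt A →
      ∀ i, ∑ r, ∑ j, N r j * (m r j i : ℂ) = 0

/-- the commutators -/
def CmS (A : AbVar g) (u : R → Fin g → ℂ) (q : J → Fin g → ℂ) : Submodule ℂ (Matrix R J ℂ) :=
  Submodule.span ℂ {c | ∃ N N' : R ⊕ J → Fin (2 * g) → ℚ, RelN A u q (fun r j => ((N r j : ℚ) : ℂ)) ∧
    RelN A u q (fun r j => ((N' r j : ℚ) : ℂ)) ∧ c = Matrix.of fun r j =>
      ((A.om (N' (Sum.inr j)) (N (Sum.inl r)) - A.om (N (Sum.inr j)) (N' (Sum.inl r)) : ℚ) : ℂ)}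

theorem cS_row (N : R ⊕ J → Fin (2 * g) → ℚ) (w : R → J → ℚ) :
    cS A ((0, N, 0, w) : RS g R J) = (0, tz A (Matrix.of fun j a => ((N (Sum.inr j) a : ℚ) : ℂ)), 0,
      Matrix.of fun r a => ((N (Sum.inl r) a : ℚ) : ℂ), Matrix.of fun r j => ((w r j : ℚ) : ℂ)) := by
  refine Prod.ext ?_ (Prod.ext rfl (Prod.ext Rat.cast_zero (Prod.ext rfl rfl)))
  ext i j
  change (((0 : Module.End ℚ (Fin (2 * g) → ℚ)) (Pi.single i 1) j : ℚ) : ℂ) = 0
  exact Rat.cast_zero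

theorem tz_zero' {Z : Matrix J (Fin (2 * g)) ℂ} (h : Z = 0) : tz A Z = 0 := by
  rw [h]
  have h1 := tz_smul (A := A) (0 : ℂ) (0 : Matrix J (Fin (2 * g)) ℂ)
  rwa [zero_smul, zero_smul] at h1

/-- **Semiabelian 1-motives.** -/
theorem mainN (hT : IsSubtorsor QB T) (hG : GDef QQ T) (hc : sm (prS u e q f L A) 1 ∈ T) (hF : Fld A F)
    (hu : ∀ r, u r ∈ Pt A F) (hq : ∀ j, q j ∈ Pt A F)
    {N : R ⊕ J → Fin (2 * g) → ℂ} (hN : RelN A u q N) : ∃ w₀ : Matrix R J ℂ, ∀ c ∈ CmS A u q, ∀ x ∈ T,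
      sm (1, tz A (Matrix.of fun j a => N (Sum.inr j) a), 1, Matrix.of fun r a => N (Sum.inl r) a, w₀ + c) 1 * x ∈ T := by
  have G := good_gN hT hG hc
  have hpt : ∀ s, Sum.elim u q s ∈ Pt A F := by
    rintro (r | j)
    · exact hu r
    · exact hq j
  -- the rows
  have hrow : ∀ {N : R ⊕ J → Fin (2 * g) → ℂ}, RelN A u q N → ∀ φ : ℂ →ₗ[ℚ] ℚ,
      ∃ w, ((0, fun s a => φ (N s a), 0, w) : RS g R J) ∈ gN A T := by
    intro N hN φ
    obtain ⟨ξ, hξ, h1⟩ := mem_uA.1 (G.uA_mem hF hpt hN φ)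
    refine ⟨ξ.2.2.2, (congrArg (· ∈ gN A T) ?_).mp hξ⟩
    have e1 : ξ.1 = 0 := congrArg (fun p : GT (Fin (2 * g)) (R ⊕ J) Empty => p.1) h1
    have e2 : ξ.2.1 = fun s a => φ (N s a) := congrArg (fun p : GT (Fin (2 * g)) (R ⊕ J) Empty => p.2.1) h1
    have e3 : ξ.2.2.1 = 0 := congrArg (fun p : GT (Fin (2 * g)) (R ⊕ J) Empty => p.2.2.1) h1
    exact Prod.ext e1 (Prod.ext e2 (Prod.ext e3 rfl))
  -- the commutators
  obtain ⟨ψ, hψ⟩ : ∃ ψ : ℂ →ₗ[ℚ] ℚ, ∀ x : ℚ, ψ (x : ℂ) = x := by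
    obtain ⟨ψ, hψ⟩ := LinearMap.exists_leftInverse_of_injective (Algebra.linearMap ℚ ℂ)
      (LinearMap.ker_eq_bot.2 (algebraMap ℚ ℂ).injective)
    exact ⟨ψ, fun x => congrArg (fun F : ℚ →ₗ[ℚ] ℚ => F x) hψ⟩
  have hratrow : ∀ {N : R ⊕ J → Fin (2 * g) → ℚ}, RelN A u q (fun r j => ((N r j : ℚ) : ℂ)) →
      ∃ w, ((0, N, 0, w) : RS g R J) ∈ gN A T := by
    intro N hN
    obtain ⟨w, hw⟩ := hrow hN ψ
    refine ⟨w, ?_⟩
    simp only [hψ] at hw
    exact hw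
  have hcomm : ∀ c ∈ CmS A u q, fl (sm ((0, 0, 0, 0, c) : LS (Fin (2 * g)) R J) 0) ∈ LL T := by
    intro c hc
    induction hc using Submodule.span_induction with
    | mem c h =>
      obtain ⟨N, N', hN, hN', rfl⟩ := h
      obtain ⟨w, hw⟩ := hratrow hN
      obtain ⟨w', hw'⟩ := hratrow hN'
      refine (congrArg (fun x => fl (sm x 0) ∈ LL T) ?_).mp (mem_gN.1 (gN_br hw hw')).2
      have h1 : bS A ((0, N, 0, w) : RS g R J) (0, N', 0, w') = ((0, 0, 0, fun r j =>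
          A.om (N' (Sum.inr j)) (N (Sum.inl r)) - A.om (N (Sum.inr j)) (N' (Sum.inl r))) : RS g R J) := by
        refine Prod.ext ?_ (Prod.ext ?_ (Prod.ext rfl ?_))
        · change (0 : Module.End ℚ (Fin (2 * g) → ℚ)) * 0 - 0 * 0 = 0
          simp
        · funext s
          change (0 : Module.End ℚ (Fin (2 * g) → ℚ)) (N s) - (0 : Module.End ℚ (Fin (2 * g) → ℚ)) (N' s) = 0
          simp
        · funext r j
          change (A.om (N' (Sum.inr j)) (N (Sum.inl r)) + 0 * w r j) -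
            (A.om (N (Sum.inr j)) (N' (Sum.inl r)) + 0 * w' r j) = _
          rw [zero_mul, zero_mul, add_zero, add_zero]
      rw [h1, cS_row]
      refine Prod.ext rfl (Prod.ext ?_ (Prod.ext rfl (Prod.ext ?_ rfl)))
      · exact tz_zero' (by
          ext j a
          exact Rat.cast_zero)
      · ext r a
        exact Rat.cast_zero
    | zero =>
      have h1 : sm ((0, 0, 0, 0, 0) : LS (Fin (2 * g)) R J) 0 = 0 := sm_zero
      rw [h1]
      exact (LL T).zero_mem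
    | add x y _ _ h1 h2 =>
      have h3 := (LL T).add_mem h1 h2
      rw [← fl_add, sm_add, add_zero] at h3
      refine (congrArg (fun x => fl (sm x 0) ∈ LL T) ?_).mp h3
      exact Prod.ext (add_zero _) (Prod.ext (add_zero _) (Prod.ext (add_zero _) (Prod.ext (add_zero _) rfl)))
    | smul a x _ h1 =>
      have h3 := (LL T).smul_mem a h1
      rw [← fl_smul, sm_smul, mul_zero] at h3
      refine (congrArg (fun x => fl (sm x 0) ∈ LL T) ?_).mp h3
      exact Prod.ext (smul_zero _) (Prod.ext (smul_zero _) (Prod.ext (smul_zero _) (Prod.ext (smul_zero _) rfl)))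
  -- the complex elements
  obtain ⟨w₁, hw₁⟩ : ∃ w₁ : Matrix R J ℂ, fl (sm ((0, tz A (Matrix.of fun j a => N (Sum.inr j) a), 0,
      Matrix.of fun r a => N (Sum.inl r) a, w₁) : LS (Fin (2 * g)) R J) 0) ∈ LL T := by
    let S : Submodule ℂ ((R ⊕ J) × Fin (2 * g) → ℂ) :=
      { carrier := {N | ∃ w₁ : Matrix R J ℂ, fl (sm ((0, tz A (Matrix.of fun j a => N (Sum.inr j, a)), 0,
          Matrix.of fun r a => N (Sum.inl r, a), w₁) : LS (Fin (2 * g)) R J) 0) ∈ LL T}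
        zero_mem' := by
          refine ⟨0, (congrArg (fun x => fl (sm x 0) ∈ LL T) ?_).mp
            ((congrArg (· ∈ LL T) (congrArg fl sm_zero)).mpr (LL T).zero_mem)⟩
          refine Prod.ext rfl (Prod.ext ?_ (Prod.ext rfl (Prod.ext rfl rfl)))
          exact (tz_zero' rfl).symm
        add_mem' := by
          rintro N N' ⟨w, h⟩ ⟨w', h'⟩
          refine ⟨w + w', ?_⟩
          have h3 := (LL T).add_mem h h'
          rw [← fl_add, sm_add, add_zero] at h3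
          refine (congrArg (fun x => fl (sm x 0) ∈ LL T) ?_).mp h3
          refine Prod.ext (add_zero _) (Prod.ext ?_ (Prod.ext (add_zero _) (Prod.ext rfl rfl)))
          exact (tz_add _ _).symm
        smul_mem' := by
          rintro a N ⟨w, h⟩
          refine ⟨a • w, ?_⟩
          have h3 := (LL T).smul_mem a h
          rw [← fl_smul, sm_smul, mul_zero] at h3
          refine (congrArg (fun x => fl (sm x 0) ∈ LL T) ?_).mp h3
          refine Prod.ext (smul_zero _) (Prod.ext ?_ (Prod.ext (smul_zero _) (Prod.ext rfl rfl)))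
          exact (tz_smul _ _).symm }
    have hS : (fun p : (R ⊕ J) × Fin (2 * g) => N p.1 p.2) ∈ S := by
      refine mem_of_comp S fun φ => ?_
      obtain ⟨w, hw⟩ := hrow hN φ
      have h1 := (mem_gN.1 hw).2
      rw [cS_row] at h1
      exact ⟨_, h1⟩
    exact hS
  -- the exponential
  set z : Matrix (Fin (2 * g)) J ℂ := tz A (Matrix.of fun j a => N (Sum.inr j) a) with hz
  set Y : Matrix R (Fin (2 * g)) ℂ := Matrix.of fun r a => N (Sum.inl r) a with hY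
  have hEE : ∀ w : Matrix R J ℂ, sm ((0, z, 0, Y, w) : LS (Fin (2 * g)) R J) 0 * sm (0, z, 0, Y, w) 0 =
      sm (0, 0, 0, 0, Y * z) 0 := by
    intro w
    rw [sm_mul, mul_zero]
    congr 1
    refine Prod.ext ?_ (Prod.ext ?_ (Prod.ext ?_ (Prod.ext ?_ ?_)))
    · change (0 : Matrix (Fin (2 * g)) (Fin (2 * g)) ℂ) * 0 = 0
      rw [Matrix.mul_zero]
    · change (0 : Matrix (Fin (2 * g)) (Fin (2 * g)) ℂ) * z + (0 : ℂ) • z = 0
      rw [Matrix.zero_mul, zero_smul, add_zero]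
    · change (0 : ℂ) * 0 = 0
      rw [mul_zero]
    · change Y * (0 : Matrix (Fin (2 * g)) (Fin (2 * g)) ℂ) + (0 : ℂ) • Y = 0
      rw [Matrix.mul_zero, zero_smul, add_zero]
    · change Y * z + (0 : ℂ) • w + (0 : ℂ) • w = Y * z
      rw [zero_smul, add_zero, add_zero]
  have hEEE : ∀ w : Matrix R J ℂ, sm ((0, 0, 0, 0, Y * z) : LS (Fin (2 * g)) R J) 0 * sm (0, z, 0, Y, w) 0 = 0 := by
    intro w
    rw [sm_mul, mul_zero, ← sm_zero]
    congr 1
    refine Prod.ext ?_ (Prod.ext ?_ (Prod.ext ?_ (Prod.ext ?_ ?_)))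
    · change (0 : Matrix (Fin (2 * g)) (Fin (2 * g)) ℂ) * 0 = 0
      rw [Matrix.mul_zero]
    · change (0 : Matrix (Fin (2 * g)) (Fin (2 * g)) ℂ) * z + (0 : ℂ) • (0 : Matrix (Fin (2 * g)) J ℂ) = 0
      rw [Matrix.zero_mul, zero_smul, add_zero]
    · change (0 : ℂ) * 0 = 0
      rw [mul_zero]
    · change (0 : Matrix R (Fin (2 * g)) ℂ) * (0 : Matrix (Fin (2 * g)) (Fin (2 * g)) ℂ) + (0 : ℂ) • Y = 0
      rw [Matrix.mul_zero, zero_smul, add_zero]
    · change (0 : Matrix R (Fin (2 * g)) ℂ) * z + (0 : ℂ) • (Y * z) + (0 : ℂ) • w = 0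
      rw [Matrix.zero_mul, zero_smul, zero_smul, add_zero, add_zero]
  refine ⟨w₁ + (1 / 2 : ℂ) • (Y * z), fun c hc' x hx => ?_⟩
  have hall : fl (sm ((0, z, 0, Y, w₁ + c) : LS (Fin (2 * g)) R J) 0) ∈ LL T := by
    have h3 := (LL T).add_mem hw₁ (hcomm c hc')
    rw [← fl_add, sm_add, add_zero] at h3
    refine (congrArg (fun x => fl (sm x 0) ∈ LL T) ?_).mp h3
    exact Prod.ext (add_zero _) (Prod.ext (add_zero _) (Prod.ext (add_zero _) (Prod.ext (add_zero _) rfl)))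
  have h2 := exp_nil3 hT (E := sm ((0, z, 0, Y, w₁ + c) : LS (Fin (2 * g)) R J) 0) (by rw [hEE, hEEE]) hall hx
  rw [hEE] at h2
  have h3 : 1 + sm ((0, z, 0, Y, w₁ + c) : LS (Fin (2 * g)) R J) 0 +
      (1 / 2 : ℂ) • sm (0, 0, 0, 0, Y * z) 0 = sm (1, z, 1, Y, w₁ + (1 / 2 : ℂ) • (Y * z) + c) 1 := by
    rw [← sm_one, sm_smul, sm_add, sm_add, mul_zero, add_zero, add_zero]
    congr 1
    refine Prod.ext ?_ (Prod.ext ?_ (Prod.ext ?_ (Prod.ext ?_ ?_)))
    · change (1 : Matrix (Fin (2 * g)) (Fin (2 * g)) ℂ) + 0 + (1 / 2 : ℂ) • 0 = 1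
      rw [smul_zero, add_zero, add_zero]
    · change (0 : Matrix (Fin (2 * g)) J ℂ) + z + (1 / 2 : ℂ) • 0 = z
      rw [smul_zero, add_zero, zero_add]
    · change (1 : ℂ) + 0 + (1 / 2) * 0 = 1
      ring
    · change (0 : Matrix R (Fin (2 * g)) ℂ) + Y + (1 / 2 : ℂ) • 0 = Y
      rw [smul_zero, add_zero, zero_add]
    · change (0 : Matrix R J ℂ) + (w₁ + c) + (1 / 2 : ℂ) • (Y * z) = w₁ + (1 / 2 : ℂ) • (Y * z) + c
      rw [zero_add]
      abel
  rwa [h3] at h2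

end Pool.Agent.X306.AV
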