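import Pool.Agent.X306.AV.Grp

set_option autoImplicit false
set_option linter.unusedVariables false
set_option linter.unusedSectionVars false
set_option linter.unusedSimpArgs false

/-!
# Block matrices of semiabelian 1-motives
-/

open Matrix Module TensorProduct MvPolynomial

noncomputable section

namespace Pool.Agent.X306.AV

open Pool.Agent.Y102 Pool.Agent.W516.DR Pool.Agent.H204R3.GP Pool.Agent.W516.KC Pool.Agent.W516.KC2
open Pool.Agent.TH127.PT Pool.Agent.Y123.ST Pool.Agent.TH119.DR Pool.Agent.W245.EB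
open Pool.Agent.X306.RL (LL_br LL_defF GDef derD)
open Pool.Agent.X306.EM (QQ mem_QQ QB_iff)

section expo

variable {N : Type} [Fintype N] [DecidableEq N] {K : Subfield ℂ} {T : Set (Matrix N N ℂ)}

theorem aeval_sb2 {B : Type*} [Fintype B] [DecidableEq B] (L : (B → ℂ) →ₗ[ℂ] (B → ℂ)) (y z t : B → ℂ) (b : B) :
    aeval (fun k => Polynomial.C (y k) + Polynomial.X * Polynomial.C (z k) + Polynomial.X ^ 2 * Polynomial.C (t k))
      (sb L b) = Polynomial.C (L y b) + Polynomial.X * Polynomial.C (L z b) + Polynomial.X ^ 2 * Polynomial.C (L t b) := by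
  unfold sb
  rw [map_sum, lin_apply L y b, lin_apply L z b, lin_apply L t b]
  rw [map_sum, map_sum, map_sum, Finset.mul_sum, Finset.mul_sum, ← Finset.sum_add_distrib, ← Finset.sum_add_distrib]
  refine Finset.sum_congr rfl fun k _ => ?_
  rw [map_mul, aeval_X, aeval_C, map_mul, map_mul, map_mul]
  have : (algebraMap ℂ (Polynomial ℂ)) (L (Pi.single k 1) b) = Polynomial.C (L (Pi.single k 1) b) := rfl
  rw [this]
  ring

theorem eval_aeval2 {B : Type*} [Fintype B] (y z t : B → ℂ) (P : MvPolynomial B ℂ) (s : ℂ) :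
    Polynomial.eval s (aeval (fun k => Polynomial.C (y k) + Polynomial.X * Polynomial.C (z k) +
      Polynomial.X ^ 2 * Polynomial.C (t k)) P) = eval (fun k => y k + s * z k + s ^ 2 * t k) P := by
  induction P using MvPolynomial.induction_on with
  | C a => simp
  | add p q hp hq => rw [map_add, Polynomial.eval_add, hp, hq, map_add]
  | mul_X p b hp =>
    rw [map_mul, Polynomial.eval_mul, hp, aeval_X, map_mul, eval_X]
    simp only [Polynomial.eval_add, Polynomial.eval_C, Polynomial.eval_mul, Polynomial.eval_X, Polynomial.eval_pow]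

/-- nilpotent elements of cube zero can be exponentiated -/
theorem exp_nil3 (hT : IsSubtorsor K T) {E x : Matrix N N ℂ} (hE : E * E * E = 0) (hEL : fl E ∈ LL T) (hx : x ∈ T) :
    (1 + E + (1 / 2 : ℂ) • (E * E)) * x ∈ T := by
  have hxT := hx
  have hT' := hT
  obtain ⟨I, h1, h2⟩ := hT.algebraic
  have hIV : ∀ p ∈ I, Van T p := fun p hp y hy => ((h2 y).1 hy).2 p hp
  have hz := all_zero (Van T)
    (fun P => aeval (fun k => Polynomial.C (fl x k) + Polynomial.X * Polynomial.C (fl (E * x) k) +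
      Polynomial.X ^ 2 * Polynomial.C (fl ((1 / 2 : ℂ) • (E * E * x)) k)) P) (Pool.Agent.Y123.ST.DL E) 0 1
    (by simp) (by
      intro P hP
      have h3 := eval_aeval2 (fl x) (fl (E * x)) (fl ((1 / 2 : ℂ) • (E * E * x))) P 0
      simp only [zero_mul, add_zero, ne_eq, OfNat.ofNat_ne_zero, not_false_eq_true, zero_pow] at h3
      rw [h3]
      exact hP x hx) (fun P hP => van_DL hEL hP) (by
      intro P _
      rw [one_mul, deriv_aeval]
      unfold Pool.Agent.Y123.ST.DL
      rw [map_sum]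
      refine Finset.sum_congr rfl fun b _ => ?_
      rw [map_mul, aeval_sb2, ml_fl, ml_fl, ml_fl, Matrix.mul_smul, ← Matrix.mul_assoc, ← Matrix.mul_assoc,
        ← Matrix.mul_assoc, hE, Matrix.zero_mul, smul_zero]
      congr 1
      have h5 : fl ((1 / 2 : ℂ) • (E * E * x)) b = (1 / 2 : ℂ) * fl (E * E * x) b := rfl
      rw [h5]
      have h6 : (Polynomial.C 2 : Polynomial ℂ) * Polynomial.C (1 / 2 * fl (E * E * x) b) = Polynomial.C (fl (E * E * x) b) := by
        rw [← Polynomial.C_mul]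
        congr 1
        ring
      simp only [Polynomial.derivative_add, Polynomial.derivative_mul, Polynomial.derivative_C, Polynomial.derivative_X,
        Polynomial.derivative_X_pow, mul_zero, add_zero, zero_add, one_mul]
      have h7 : fl (0 : Matrix N N ℂ) b = 0 := rfl
      rw [h7, map_zero, mul_zero, add_zero, ← h6]
      norm_num
      ring)
  rw [h2]
  refine ⟨?_, fun p hp => ?_⟩
  · refine IsUnit.mul ?_ (hT'.isUnit x hxT)
    refine IsUnit.of_mul_eq_one (1 - E + (1 / 2 : ℂ) • (E * E)) ?_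
    have hE' : E * (E * E) = 0 := by rw [← Matrix.mul_assoc, hE]
    have hE4 : (E * E) * (E * E) = 0 := by rw [← Matrix.mul_assoc, hE, Matrix.zero_mul]
    simp only [Matrix.add_mul, Matrix.mul_add, Matrix.mul_sub, Matrix.one_mul, Matrix.mul_one, Matrix.smul_mul,
      Matrix.mul_smul, hE, hE', hE4, smul_zero, add_zero]
    module
  · have h3 := hz p (hIV p hp)
    have h4 := eval_aeval2 (fl x) (fl (E * x)) (fl ((1 / 2 : ℂ) • (E * E * x))) p 1
    rw [h3, Polynomial.eval_zero] at h4
    have h6 : fl ((1 + E + (1 / 2 : ℂ) • (E * E)) * x) =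
        fun k => fl x k + 1 * fl (E * x) k + 1 ^ 2 * fl ((1 / 2 : ℂ) • (E * E * x)) k := by
      funext b
      rw [Matrix.add_mul, Matrix.add_mul, Matrix.one_mul, Matrix.smul_mul, one_mul, one_pow, one_mul]
      rfl
    change eval (fl ((1 + E + (1 / 2 : ℂ) • (E * E)) * x)) p = 0
    rw [h6, ← h4]

end expo

section blocks

variable {n R J : Type} [Fintype n] [DecidableEq n] [Fintype R] [DecidableEq R] [Fintype J] [DecidableEq J]

/-- The index set. -/
abbrev Iz (n R J : Type) : Type := (n ⊕ J) ⊕ R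

/-- The blocks. -/
abbrev LS (n R J : Type) : Type := Matrix n n ℂ × Matrix n J ℂ × ℂ × Matrix R n ℂ × Matrix R J ℂ

/-- The block matrices. -/
def sm (x : LS n R J) (k : ℂ) : Matrix (Iz n R J) (Iz n R J) ℂ :=
  fromBlocks (fromBlocks x.1 x.2.1 0 (x.2.2.1 • 1)) 0 (fromCols x.2.2.2.1 x.2.2.2.2) (k • 1)

/-- The product of block matrices. -/
def sq (x y : LS n R J) (k : ℂ) : LS n R J :=
  (x.1 * y.1, x.1 * y.2.1 + y.2.2.1 • x.2.1, x.2.2.1 * y.2.2.1, x.2.2.2.1 * y.1 + k • y.2.2.2.1,
    x.2.2.2.1 * y.2.1 + y.2.2.1 • x.2.2.2.2 + k • y.2.2.2.2)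

theorem sm_mul (x y : LS n R J) (k l : ℂ) : sm x k * sm y l = sm (sq x y k) (k * l) := by
  unfold sm sq
  rw [fromBlocks_multiply]
  congr 1
  · rw [Matrix.zero_mul, add_zero, fromBlocks_multiply]
    congr 1
    · rw [Matrix.mul_zero, add_zero]
    · rw [Matrix.mul_smul, Matrix.mul_one]
    · rw [Matrix.zero_mul, Matrix.mul_zero, add_zero]
    · rw [Matrix.zero_mul, zero_add, Matrix.smul_mul, Matrix.one_mul, smul_smul]
  · rw [Matrix.mul_zero, Matrix.zero_mul, add_zero]
  · rw [fromCols_mul_fromBlocks, Matrix.mul_zero, add_zero, Matrix.mul_smul, Matrix.mul_one, Matrix.smul_mul,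
      Matrix.one_mul]
    ext r s
    rcases s with s | s <;> rfl
  · rw [Matrix.mul_zero, zero_add, Matrix.smul_mul, Matrix.one_mul, smul_smul]

theorem sm_add (x y : LS n R J) (k l : ℂ) : sm x k + sm y l = sm (x + y) (k + l) := by
  have h1 : ∀ {α : Type} [DecidableEq α] (a b : ℂ), a • (1 : Matrix α α ℂ) + b • 1 = (a + b) • 1 :=
    fun a b => (add_smul a b _).symm
  have h2 : fromCols x.2.2.2.1 x.2.2.2.2 + fromCols y.2.2.2.1 y.2.2.2.2 =
      fromCols (x + y).2.2.2.1 (x + y).2.2.2.2 := by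
    ext r s
    rcases s with s | s <;> rfl
  unfold sm
  rw [fromBlocks_add, fromBlocks_add, h1, h1, h2, add_zero, add_zero]
  rfl

theorem sm_smul (a : ℂ) (x : LS n R J) (k : ℂ) : a • sm x k = sm (a • x) (a * k) := by
  have h2 : a • fromCols x.2.2.2.1 x.2.2.2.2 = fromCols (a • x).2.2.2.1 (a • x).2.2.2.2 := by
    ext r s
    rcases s with s | s <;> rfl
  unfold sm
  rw [fromBlocks_smul, fromBlocks_smul, h2, smul_zero, smul_zero, smul_smul, smul_smul]
  rfl

/-- The entrywise map. -/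
def mpS (f : ℂ → ℂ) (x : LS n R J) : LS n R J :=
  (x.1.map f, x.2.1.map f, f x.2.2.1, x.2.2.2.1.map f, x.2.2.2.2.map f)

theorem sm_map {f : ℂ → ℂ} (hf : f 0 = 0) (x : LS n R J) (k : ℂ) :
    (sm x k).map f = sm (mpS f x) (f k) := by
  have h1 : ∀ {α : Type} [DecidableEq α] (k : ℂ), ((k • (1 : Matrix α α ℂ)).map f) = f k • 1 := by
    intro α _ k
    ext i j
    rw [Matrix.map_apply, Matrix.smul_apply, Matrix.smul_apply, Matrix.one_apply]
    split_ifs
    · rw [smul_eq_mul, smul_eq_mul, mul_one, mul_one]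
    · rw [smul_eq_mul, smul_eq_mul, mul_zero, mul_zero, hf]
  unfold sm mpS
  rw [fromBlocks_map, fromBlocks_map, Matrix.map_zero _ hf, Matrix.map_zero _ hf, h1, h1]
  congr 1
  ext r s
  rcases s with s | s <;> rfl

/-- The unit. -/
def uS : LS n R J := (1, 0, 1, 0, 0)

theorem sm_one : sm (uS : LS n R J) 1 = 1 := by
  unfold sm uS
  have h2 : (fromCols (0 : Matrix R n ℂ) (0 : Matrix R J ℂ)) = 0 := by
    ext r s
    rcases s with s | s <;> rfl
  simp only [one_smul, h2, fromBlocks_one]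

theorem sm_zero : sm (0 : LS n R J) 0 = 0 := by
  have h := sm_smul (0 : ℂ) (0 : LS n R J) 0
  rw [zero_smul, zero_smul, zero_mul] at h
  exact h.symm

theorem sm_neg (x : LS n R J) : -sm x 0 = sm (-x) 0 := by
  have h := sm_smul (-1 : ℂ) x 0
  rw [mul_zero, neg_one_smul, neg_one_smul] at h
  exact h

end blocks

end Pool.Agent.X306.AV
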