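import Pool.Agent.X306.AV.NS

set_option autoImplicit false
set_option linter.unusedVariables false
set_option linter.unusedSectionVars false
set_option linter.unusedSimpArgs false

/-!
# The Lie algebra of a semiabelian 1-motive
-/

open Matrix Module TensorProduct

noncomputable section

namespace Pool.Agent.X306.AV

open Pool.Agent.Y102 Pool.Agent.W516.DR Pool.Agent.H204R3.GP Pool.Agent.W516.KC Pool.Agent.W516.KC2
open Pool.Agent.TH127.PT Pool.Agent.Y123.ST Pool.Agent.TH119.DR Pool.Agent.W245.EB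
open Pool.Agent.X306.RL (LL_br LL_defF GDef derD)
open Pool.Agent.X306.EM (QQ mem_QQ QB_iff)

variable {g : ℕ} {A : AbVar g} {R J : Type} [Fintype R] [DecidableEq R] [Fintype J] [DecidableEq J]

/-- the twisted transpose of the rows -/
def sw (W : Matrix J (Fin (2 * g)) ℂ) : Matrix (Fin (2 * g)) J ℂ :=
  Matrix.of fun s j => Sum.elim (fun k => W j (eqv g (Sum.inr k))) (fun k => -W j (eqv g (Sum.inl k))) ((eqv g).symm s)

variable (A)

/-- the columns given by the Riemann form -/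
def tz (Z : Matrix J (Fin (2 * g)) ℂ) : Matrix (Fin (2 * g)) J ℂ :=
  Matrix.of fun i j => ∑ a, Z j a * ((A.om (A.bas a) (A.bas i) : ℚ) : ℂ)

variable {A}

theorem sum_eqv (F : Fin (2 * g) → ℂ) : ∑ s, F s = ∑ k, F (eqv g (Sum.inl k)) + ∑ k, F (eqv g (Sum.inr k)) := by
  rw [← (eqv g).sum_comp, Fintype.sum_sum_type]

theorem PA_inl (i : Fin (2 * g)) (k : Fin g) : PA A i (eqv g (Sum.inl k)) = A.per (A.bas i) k := by
  rw [PA_apply]
  rfl

theorem PA_inr (i : Fin (2 * g)) (k : Fin g) : PA A i (eqv g (Sum.inr k)) = A.eta (A.bas i) k := by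
  rw [PA_apply]
  rfl

theorem PA_sw (Z : Matrix J (Fin (2 * g)) ℂ) : PA A * sw (Z * PA A) = (2 * Real.pi * Complex.I : ℂ) • tz A Z := by
  ext i j
  rw [Matrix.mul_apply, sum_eqv, Matrix.smul_apply, smul_eq_mul]
  change ∑ k, PA A i (eqv g (Sum.inl k)) * Sum.elim (fun k => (Z * PA A) j (eqv g (Sum.inr k)))
    (fun k => -(Z * PA A) j (eqv g (Sum.inl k))) ((eqv g).symm (eqv g (Sum.inl k))) +
    ∑ k, PA A i (eqv g (Sum.inr k)) * Sum.elim (fun k => (Z * PA A) j (eqv g (Sum.inr k)))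
    (fun k => -(Z * PA A) j (eqv g (Sum.inl k))) ((eqv g).symm (eqv g (Sum.inr k))) =
    2 * Real.pi * Complex.I * ∑ a, Z j a * ((A.om (A.bas a) (A.bas i) : ℚ) : ℂ)
  simp only [Equiv.symm_apply_apply, Sum.elim_inl, Sum.elim_inr, Matrix.mul_apply, PA_inl, PA_inr]
  rw [Finset.mul_sum, ← Finset.sum_add_distrib]
  have h1 : ∀ a, 2 * Real.pi * Complex.I * (Z j a * ((A.om (A.bas a) (A.bas i) : ℚ) : ℂ)) =
      ∑ k, Z j a * (A.eta (A.bas a) k * A.per (A.bas i) k - A.eta (A.bas i) k * A.per (A.bas a) k) := by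
    intro a
    rw [A.om_pairing, ← Finset.mul_sum]
    have := Complex.two_pi_I_ne_zero
    field_simp
  simp only [h1]
  rw [Finset.sum_comm]
  refine Finset.sum_congr rfl fun k _ => ?_
  rw [mul_neg, Finset.mul_sum, Finset.mul_sum, ← sub_eq_add_neg, ← Finset.sum_sub_distrib]
  refine Finset.sum_congr rfl fun a _ => ?_
  ring

/-- the periods of the 1-motive -/
def prS (u e : R → Fin g → ℂ) (q f : J → Fin g → ℂ) (L : Matrix R J ℂ) (A : AbVar g) : LS (Fin (2 * g)) R J :=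
  (PA A, PA A * sw (Matrix.of fun j s => UU (q j) (f j) ((eqv g).symm s)), 2 * Real.pi * Complex.I,
    Matrix.of fun r s => UU (u r) (e r) ((eqv g).symm s), L)

/-- the periods of the family of all the points -/
abbrev pe (A : AbVar g) (u e : R → Fin g → ℂ) (q f : J → Fin g → ℂ) : Per (Fin (2 * g)) (R ⊕ J) Empty :=
  pers A (Sum.elim u q) (Sum.elim e f) (fun j : Empty => j.elim)

variable {u e : R → Fin g → ℂ} {q f : J → Fin g → ℂ} {L : Matrix R J ℂ}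

/-- the logarithmic derivative -/
def lmS (A : AbVar g) (u e : R → Fin g → ℂ) (q f : J → Fin g → ℂ) (L : Matrix R J ℂ) (δ : Derivation ℚ ℂ ℂ) :
    LS (Fin (2 * g)) R J :=
  ((lam (pe A u e q f) δ).1, tz A (Matrix.of fun j s => (lam (pe A u e q f) δ).2.1 (Sum.inr j) s),
    (lam (pe A u e q f) δ).2.2.1, Matrix.of fun r s => (lam (pe A u e q f) δ).2.1 (Sum.inl r) s,
    (1 / (2 * Real.pi * Complex.I) : ℂ) • (L.map δ - (Matrix.of fun r s => (lam (pe A u e q f) δ).2.1 (Sum.inl r) s) *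
      (prS u e q f L A).2.1))

theorem map_mul_der (δ : Derivation ℚ ℂ ℂ) {α β γ : Type} [Fintype β] (x : Matrix α β ℂ) (y : Matrix β γ ℂ) :
    (x * y).map δ = x.map δ * y + x * y.map δ := by
  ext i j
  rw [Matrix.map_apply, Matrix.add_apply, Matrix.mul_apply, Matrix.mul_apply, Matrix.mul_apply, map_sum,
    ← Finset.sum_add_distrib]
  refine Finset.sum_congr rfl fun k _ => ?_
  rw [Derivation.leibniz, smul_eq_mul, smul_eq_mul, Matrix.map_apply, Matrix.map_apply]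
  ring

theorem sw_map (δ : Derivation ℚ ℂ ℂ) (W : Matrix J (Fin (2 * g)) ℂ) : (sw W).map δ = sw (W.map δ) := by
  ext s j
  change δ (Sum.elim (fun k => W j (eqv g (Sum.inr k))) (fun k => -W j (eqv g (Sum.inl k))) ((eqv g).symm s)) =
    Sum.elim (fun k => δ (W j (eqv g (Sum.inr k)))) (fun k => -δ (W j (eqv g (Sum.inl k)))) ((eqv g).symm s)
  rcases (eqv g).symm s with k | k
  · rfl
  · exact map_neg δ _

theorem der_lmS (δ : Derivation ℚ ℂ ℂ) (hu : IsUnit (sm (prS u e q f L A) 1)) :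
    (sm (prS u e q f L A) 1).map δ * (sm (prS u e q f L A) 1)⁻¹ = sm (lmS A u e q f L δ) 0 := by
  have hw : (2 * Real.pi * Complex.I : ℂ) ≠ 0 := Complex.two_pi_I_ne_zero
  have h1 : (sm (prS u e q f L A) 1).map δ = sm (lmS A u e q f L δ) 0 * sm (prS u e q f L A) 1 := by
    rw [sm_map (map_zero δ), sm_mul, zero_mul, Derivation.map_one_eq_zero]
    congr 1
    set lm := lam (pe A u e q f) δ with hlm
    have e1 : lm.1 * PA A = (PA A).map δ := pers_PP _ _ _ _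
    have e2 : ∀ s, lm.2.1 s ᵥ* PA A = fun j => δ (UU (Sum.elim u q s) (Sum.elim e f s) ((eqv g).symm j)) :=
      fun s => pers_UP _ _ _ _ s
    have e3 : (Matrix.of fun j s => lm.2.1 (Sum.inr j) s) * PA A =
        (Matrix.of fun j s => UU (q j) (f j) ((eqv g).symm s)).map δ := by
      ext j s
      exact congrFun (e2 (Sum.inr j)) s
    have e4 : (Matrix.of fun r s => lm.2.1 (Sum.inl r) s) * PA A =
        (Matrix.of fun r s => UU (u r) (e r) ((eqv g).symm s)).map δ := by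
      ext j s
      exact congrFun (e2 (Sum.inl j)) s
    refine Prod.ext ?_ (Prod.ext ?_ (Prod.ext ?_ (Prod.ext ?_ ?_)))
    · exact e1.symm
    · change (PA A * sw (Matrix.of fun j s => UU (q j) (f j) ((eqv g).symm s))).map δ =
        lm.1 * (PA A * sw (Matrix.of fun j s => UU (q j) (f j) ((eqv g).symm s))) +
          (2 * Real.pi * Complex.I : ℂ) • tz A (Matrix.of fun j s => lm.2.1 (Sum.inr j) s)
      rw [map_mul_der, sw_map, ← PA_sw, e3, ← Matrix.mul_assoc, e1]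
    · change δ (2 * Real.pi * Complex.I) = δ (2 * Real.pi * Complex.I) / (2 * Real.pi * Complex.I) * (2 * Real.pi * Complex.I)
      rw [div_mul_cancel₀ _ hw]
    · change (Matrix.of fun r s => UU (u r) (e r) ((eqv g).symm s)).map δ =
        (Matrix.of fun r s => lm.2.1 (Sum.inl r) s) * PA A +
          (0 : ℂ) • (Matrix.of fun r s => UU (u r) (e r) ((eqv g).symm s))
      rw [zero_smul, add_zero]
      exact e4.symm
    · change L.map δ = (Matrix.of fun r s => lm.2.1 (Sum.inl r) s) * (prS u e q f L A).2.1 +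
        (2 * Real.pi * Complex.I : ℂ) • ((1 / (2 * Real.pi * Complex.I) : ℂ) • (L.map δ -
          (Matrix.of fun r s => lm.2.1 (Sum.inl r) s) * (prS u e q f L A).2.1)) + (0 : ℂ) • L
      rw [smul_smul, mul_one_div_cancel hw, one_smul, zero_smul, add_zero, add_sub_cancel]
  rw [h1, Matrix.mul_assoc, Matrix.mul_nonsing_inv _ ((Matrix.isUnit_iff_isUnit_det _).1 hu), Matrix.mul_one]

/-! ## Rational elements -/

/-- The blocks over the rational numbers. -/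
abbrev RS (g : ℕ) (R J : Type) : Type :=
  Module.End ℚ (Fin (2 * g) → ℚ) × ((R ⊕ J) → Fin (2 * g) → ℚ) × ℚ × (R → J → ℚ)

variable (A)

/-- the complex matrices given by rational blocks -/
def cS (ξ : RS g R J) : LS (Fin (2 * g)) R J :=
  (mt ξ.1, tz A (Matrix.of fun j a => ((ξ.2.1 (Sum.inr j) a : ℚ) : ℂ)), ((ξ.2.2.1 : ℚ) : ℂ),
    Matrix.of fun r a => ((ξ.2.1 (Sum.inl r) a : ℚ) : ℂ), Matrix.of fun r j => ((ξ.2.2.2 r j : ℚ) : ℂ))

variable {A}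

theorem tz_add (Z Z' : Matrix J (Fin (2 * g)) ℂ) : tz A (Z + Z') = tz A Z + tz A Z' := by
  ext i j
  change ∑ a, (Z j a + Z' j a) * _ = ∑ a, Z j a * _ + ∑ a, Z' j a * _
  rw [← Finset.sum_add_distrib]
  exact Finset.sum_congr rfl fun a _ => add_mul _ _ _

theorem tz_smul (c : ℂ) (Z : Matrix J (Fin (2 * g)) ℂ) : tz A (c • Z) = c • tz A Z := by
  ext i j
  change ∑ a, (c * Z j a) * _ = c * ∑ a, Z j a * _
  rw [Finset.mul_sum]
  exact Finset.sum_congr rfl fun a _ => mul_assoc _ _ _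

theorem cS_add (ξ ξ' : RS g R J) : cS A (ξ + ξ') = cS A ξ + cS A ξ' := by
  refine Prod.ext ?_ (Prod.ext ?_ (Prod.ext ?_ (Prod.ext ?_ ?_)))
  · ext i j
    exact Rat.cast_add _ _
  · change tz A _ = tz A _ + tz A _
    rw [← tz_add]
    congr 1
    ext j a
    exact Rat.cast_add _ _
  · exact Rat.cast_add _ _
  · ext r a
    exact Rat.cast_add _ _
  · ext r a
    exact Rat.cast_add _ _

theorem cS_smul (c : ℚ) (ξ : RS g R J) : cS A (c • ξ) = (c : ℂ) • cS A ξ := by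
  refine Prod.ext ?_ (Prod.ext ?_ (Prod.ext ?_ (Prod.ext ?_ ?_)))
  · ext i j
    exact Rat.cast_mul _ _
  · change tz A _ = (c : ℂ) • tz A _
    rw [← tz_smul]
    congr 1
    ext j a
    exact Rat.cast_mul _ _
  · exact Rat.cast_mul _ _
  · ext r a
    exact Rat.cast_mul _ _
  · ext r a
    exact Rat.cast_mul _ _

theorem cS_zero : cS A (0 : RS g R J) = 0 := by
  have h := cS_smul (A := A) (0 : ℚ) (0 : RS g R J)
  rwa [zero_smul, Rat.cast_zero, zero_smul] at h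

/-- the commutator -/
def bS (A : AbVar g) (ξ ξ' : RS g R J) : RS g R J :=
  (ξ'.1 * ξ.1 - ξ.1 * ξ'.1, fun s => ξ'.1 (ξ.2.1 s) - ξ.1 (ξ'.2.1 s), 0,
    fun r j => (A.om (ξ'.2.1 (Sum.inr j)) (ξ.2.1 (Sum.inl r)) + ξ'.2.2.1 * ξ.2.2.2 r j) -
      (A.om (ξ.2.1 (Sum.inr j)) (ξ'.2.1 (Sum.inl r)) + ξ.2.2.1 * ξ'.2.2.2 r j))

/-- the columns of rational rows -/
theorem tz_rat (Z : J → Fin (2 * g) → ℚ) (i : Fin (2 * g)) (j : J) :
    tz A (Matrix.of fun j a => ((Z j a : ℚ) : ℂ)) i j = ((A.om (Z j) (A.bas i) : ℚ) : ℂ) := by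
  change ∑ a, ((Z j a : ℚ) : ℂ) * ((A.om (A.bas a) (A.bas i) : ℚ) : ℂ) = _
  have h1 : Z j = ∑ a, Z j a • A.bas a := by
    conv_lhs => rw [← A.bas.sum_repr (Z j)]
    rfl
  conv_rhs => rw [h1]
  rw [map_sum, LinearMap.sum_apply, Rat.cast_sum]
  refine Finset.sum_congr rfl fun a _ => ?_
  rw [map_smul, LinearMap.smul_apply, smul_eq_mul, Rat.cast_mul]

/-- a rational row times the columns -/
theorem row_tz (y : Fin (2 * g) → ℚ) (Z : J → Fin (2 * g) → ℚ) (j : J) :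
    ∑ i, ((y i : ℚ) : ℂ) * tz A (Matrix.of fun j a => ((Z j a : ℚ) : ℂ)) i j = ((A.om (Z j) y : ℚ) : ℂ) := by
  have h1 : y = ∑ a, y a • A.bas a := by
    conv_lhs => rw [← A.bas.sum_repr y]
    rfl
  conv_rhs => rw [h1]
  rw [map_sum, Rat.cast_sum]
  refine Finset.sum_congr rfl fun a _ => ?_
  rw [map_smul, smul_eq_mul, Rat.cast_mul, tz_rat]

/-- the Lie algebra of the similitudes -/
def Sk (A : AbVar g) (ξ : RS g R J) : Prop := ∀ v w, A.om (ξ.1 v) w + A.om v (ξ.1 w) = ξ.2.2.1 * A.om v w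

theorem sm_bS {ξ ξ' : RS g R J} (h : Sk A ξ) (h' : Sk A ξ') :
    sm (cS A ξ) 0 * sm (cS A ξ') 0 - sm (cS A ξ') 0 * sm (cS A ξ) 0 = sm (cS A (bS A ξ ξ')) 0 := by
  have hz : ∀ {ξ ξ' : RS g R J}, Sk A ξ → ∀ i j, (mt ξ.1 * (cS A ξ').2.1) i j =
      ((ξ.2.2.1 * A.om (ξ'.2.1 (Sum.inr j)) (A.bas i) - A.om (ξ.1 (ξ'.2.1 (Sum.inr j))) (A.bas i) : ℚ) : ℂ) := by
    intro ξ ξ' h i j
    rw [← h, add_sub_cancel_left, ← row_tz (ξ.1 (A.bas i)) (fun j => ξ'.2.1 (Sum.inr j)) j, Matrix.mul_apply]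
    refine Finset.sum_congr rfl fun k _ => ?_
    rw [bas_eq]
    rfl
  rw [sm_mul, sm_mul, mul_zero, sub_eq_add_neg, sm_neg, sm_add, add_zero]
  congr 1
  refine Prod.ext ?_ (Prod.ext ?_ (Prod.ext ?_ (Prod.ext ?_ ?_)))
  · ext i j
    change (mt ξ.1 * mt ξ'.1) i j + -(mt ξ'.1 * mt ξ.1) i j =
      (((ξ'.1 (ξ.1 (Pi.single i 1)) j - ξ.1 (ξ'.1 (Pi.single i 1)) j : ℚ)) : ℂ)
    rw [Rat.cast_sub, row_mul, row_mul ξ.1, Matrix.mul_apply, Matrix.mul_apply, sub_eq_add_neg]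
    rfl
  · ext i j
    change ((mt ξ.1 * (cS A ξ').2.1) i j + ((ξ'.2.2.1 : ℚ) : ℂ) * (cS A ξ).2.1 i j) +
      -((mt ξ'.1 * (cS A ξ).2.1) i j + ((ξ.2.2.1 : ℚ) : ℂ) * (cS A ξ').2.1 i j) = (cS A (bS A ξ ξ')).2.1 i j
    rw [hz h, hz h']
    have e1 : ∀ ξ : RS g R J, (cS A ξ).2.1 i j = ((A.om (ξ.2.1 (Sum.inr j)) (A.bas i) : ℚ) : ℂ) := fun ξ =>
      tz_rat (fun j => ξ.2.1 (Sum.inr j)) i j
    rw [e1, e1, e1]
    have e2 : (bS A ξ ξ').2.1 (Sum.inr j) = ξ'.1 (ξ.2.1 (Sum.inr j)) - ξ.1 (ξ'.2.1 (Sum.inr j)) := rfl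
    rw [e2, map_sub, LinearMap.sub_apply]
    push_cast
    ring
  · change ((ξ.2.2.1 : ℚ) : ℂ) * ((ξ'.2.2.1 : ℚ) : ℂ) + -(((ξ'.2.2.1 : ℚ) : ℂ) * ((ξ.2.2.1 : ℚ) : ℂ)) = ((0 : ℚ) : ℂ)
    rw [Rat.cast_zero]
    ring
  · ext r j
    change (((cS A ξ).2.2.2.1 * mt ξ'.1) r j + (0 : ℂ) * _) + -(((cS A ξ').2.2.2.1 * mt ξ.1) r j + (0 : ℂ) * _) =
      (((ξ'.1 (ξ.2.1 (Sum.inl r)) j - ξ.1 (ξ'.2.1 (Sum.inl r)) j : ℚ)) : ℂ)
    rw [Rat.cast_sub, row_mul, row_mul ξ.1, Matrix.mul_apply, Matrix.mul_apply, sub_eq_add_neg, zero_mul, zero_mul,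
      add_zero, add_zero]
    rfl
  · ext r j
    change (((cS A ξ).2.2.2.1 * (cS A ξ').2.1) r j + ((ξ'.2.2.1 : ℚ) : ℂ) * ((ξ.2.2.2 r j : ℚ) : ℂ) + (0 : ℂ) * _) +
      -(((cS A ξ').2.2.2.1 * (cS A ξ).2.1) r j + ((ξ.2.2.1 : ℚ) : ℂ) * ((ξ'.2.2.2 r j : ℚ) : ℂ) + (0 : ℂ) * _) =
      (((A.om (ξ'.2.1 (Sum.inr j)) (ξ.2.1 (Sum.inl r)) + ξ'.2.2.1 * ξ.2.2.2 r j) -
      (A.om (ξ.2.1 (Sum.inr j)) (ξ'.2.1 (Sum.inl r)) + ξ.2.2.1 * ξ'.2.2.2 r j) : ℚ) : ℂ)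
    have e3 : ∀ ξ ξ' : RS g R J, ((cS A ξ).2.2.2.1 * (cS A ξ').2.1) r j =
        ((A.om (ξ'.2.1 (Sum.inr j)) (ξ.2.1 (Sum.inl r)) : ℚ) : ℂ) := by
      intro ξ ξ'
      rw [← row_tz (ξ.2.1 (Sum.inl r)) (fun j => ξ'.2.1 (Sum.inr j)) j, Matrix.mul_apply]
      rfl
    rw [e3, e3, zero_mul, zero_mul, add_zero, add_zero]
    push_cast
    ring

end Pool.Agent.X306.AV
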