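import Pool.Agent.X306.AV.NC

set_option autoImplicit false
set_option linter.unusedVariables false
set_option linter.unusedSectionVars false
set_option linter.unusedSimpArgs false

/-!
# Arbitrary 1-motives: the elements of the Lie algebra which satisfy the relations
-/

open Matrix Module TensorProduct

noncomputable section

namespace Pool.Agent.X306.AV

open Pool.Agent.Y102 Pool.Agent.W516.DR Pool.Agent.H204R3.GP Pool.Agent.W516.KC Pool.Agent.W516.KC2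
open Pool.Agent.TH127.PT Pool.Agent.Y123.ST Pool.Agent.TH119.DR Pool.Agent.W245.EB
open Pool.Agent.X306.RL (LL_br LL_defF GDef derD)
open Pool.Agent.X306.EM (QQ mem_QQ QB_iff)

variable {g : ℕ} {A : AbVar g} {R J : Type} [Fintype R] [DecidableEq R] [Fintype J] [DecidableEq J]

/-- the matrices of the endomorphisms -/
def EndM (A : AbVar g) (m : Matrix (Fin (2 * g)) (Fin (2 * g)) ℤ) : Prop :=
  ∃ Q : (Fin g → ℂ) →ₗ[ℂ] (Fin g → ℂ), ∀ j, Q (A.lam j) = ∑ i, (m j i : ℂ) • A.lam i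

/-- the matrix over the rational numbers -/
abbrev mQ (m : Matrix (Fin (2 * g)) (Fin (2 * g)) ℤ) : Matrix (Fin (2 * g)) (Fin (2 * g)) ℚ :=
  m.map (Int.cast : ℤ → ℚ)

/-- the matrix over the complex numbers -/
abbrev mC (m : Matrix (Fin (2 * g)) (Fin (2 * g)) ℤ) : Matrix (Fin (2 * g)) (Fin (2 * g)) ℂ :=
  m.map (Int.cast : ℤ → ℂ)

/-- the endomorphisms act on the differentials of the first and second kind by algebraic matrices -/
def EndAlg (A : AbVar g) : Prop := ∀ m, EndM A m → ∃ b : Matrix (Fin (2 * g)) (Fin (2 * g)) ℂ,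
  (∀ i j, IsAlgebraic ℚ (b i j)) ∧ mC m * PA A = PA A * b

/-- the relations over the rational numbers -/
def RelQ (A : AbVar g) (u : R → Fin g → ℂ) (q : J → Fin g → ℂ) (N : R ⊕ J → Fin (2 * g) → ℚ) : Prop :=
  ∀ (Q : R ⊕ J → (Fin g → ℂ) →ₗ[ℂ] (Fin g → ℂ)) (m : R ⊕ J → Matrix (Fin (2 * g)) (Fin (2 * g)) ℤ),
    (∀ r j, Q r (A.lam j) = ∑ i, (m r j i : ℂ) • A.lam i) → ∑ r, Q r (Sum.elim u q r) ∈ Lt A →
      ∑ r, N r ᵥ* mQ (m r) = 0

variable {u e : R → Fin g → ℂ} {q f : J → Fin g → ℂ} {L : Matrix R J ℂ}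

theorem relN_vec {N : R ⊕ J → Fin (2 * g) → ℂ} : RelN A u q N ↔
    ∀ (Q : R ⊕ J → (Fin g → ℂ) →ₗ[ℂ] (Fin g → ℂ)) (m : R ⊕ J → Matrix (Fin (2 * g)) (Fin (2 * g)) ℤ),
    (∀ r j, Q r (A.lam j) = ∑ i, (m r j i : ℂ) • A.lam i) → ∑ r, Q r (Sum.elim u q r) ∈ Lt A →
      ∑ r, N r ᵥ* mC (m r) = 0 := by
  unfold RelN
  refine forall_congr' fun Q => forall_congr' fun m => forall_congr' fun h => forall_congr' fun h' => ?_
  rw [funext_iff]
  refine forall_congr' fun i => ?_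
  rw [Finset.sum_apply]
  rfl

theorem relQ_iff {N : R ⊕ J → Fin (2 * g) → ℚ} : RelN A u q (fun s a => ((N s a : ℚ) : ℂ)) ↔ RelQ A u q N := by
  unfold RelN RelQ
  refine forall_congr' fun Q => forall_congr' fun m => forall_congr' fun h => forall_congr' fun h' => ?_
  rw [funext_iff]
  refine forall_congr' fun i => ?_
  rw [Finset.sum_apply]
  have h1 : ∑ r, ∑ j, ((N r j : ℚ) : ℂ) * (m r j i : ℂ) = ((∑ r, (N r ᵥ* mQ (m r)) i : ℚ) : ℂ) := by
    rw [Rat.cast_sum]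
    refine Finset.sum_congr rfl fun r _ => ?_
    change _ = ((∑ j, N r j * ((m r j i : ℤ) : ℚ) : ℚ) : ℂ)
    rw [Rat.cast_sum]
    refine Finset.sum_congr rfl fun j _ => ?_
    rw [Rat.cast_mul, Rat.cast_intCast]
  rw [h1]
  exact Rat.cast_eq_zero

theorem relN_comp {N : R ⊕ J → Fin (2 * g) → ℂ} (h : RelN A u q N) (φ : ℂ →ₗ[ℚ] ℚ) :
    RelQ A u q (fun s a => φ (N s a)) := by
  intro Q m hQ hs
  funext i
  rw [Finset.sum_apply]
  have h1 := congrArg φ (h Q m hQ hs i)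
  rw [map_zero, map_sum] at h1
  refine Eq.trans (Finset.sum_congr rfl fun r _ => ?_) h1
  rw [map_sum]
  change ∑ j, φ (N r j) * ((m r j i : ℤ) : ℚ) = _
  refine Finset.sum_congr rfl fun j _ => ?_
  have h2 : N r j * ((m r j i : ℤ) : ℂ) = ((m r j i : ℤ) : ℚ) • N r j := by
    rw [Rat.smul_def, Rat.cast_intCast, mul_comm]
  rw [h2, map_smul, smul_eq_mul, mul_comm]

variable (A u q)

/-- the elements of the Lie algebra which commute with the endomorphisms and satisfy the relations -/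
def gR (T : Set (Matrix (Iz (Fin (2 * g)) R J) (Iz (Fin (2 * g)) R J) ℂ)) : Submodule ℚ (RS g R J) where
  carrier := {ξ | ξ ∈ gN A T ∧ (∀ m, EndM A m → ∀ v, ξ.1 (v ᵥ* mQ m) = ξ.1 v ᵥ* mQ m) ∧ RelQ A u q ξ.2.1}
  zero_mem' := by
    refine ⟨(gN A T).zero_mem, fun m _ v => ?_, fun Q m _ _ => ?_⟩
    · change (0 : Module.End ℚ (Fin (2 * g) → ℚ)) _ = (0 : Module.End ℚ (Fin (2 * g) → ℚ)) v ᵥ* mQ m
      rw [LinearMap.zero_apply, LinearMap.zero_apply, Matrix.zero_vecMul]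
    · refine Finset.sum_eq_zero fun r _ => ?_
      exact Matrix.zero_vecMul _
  add_mem' := by
    rintro ξ ξ' ⟨h1, h2, h3⟩ ⟨h1', h2', h3'⟩
    refine ⟨(gN A T).add_mem h1 h1', fun m hm v => ?_, fun Q m hQ hs => ?_⟩
    · change (ξ.1 + ξ'.1) _ = (ξ.1 + ξ'.1) v ᵥ* mQ m
      rw [LinearMap.add_apply, LinearMap.add_apply, Matrix.add_vecMul, h2 m hm, h2' m hm]
    · change ∑ r, (ξ.2.1 r + ξ'.2.1 r) ᵥ* mQ (m r) = 0
      simp only [Matrix.add_vecMul, Finset.sum_add_distrib]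
      rw [h3 Q m hQ hs, h3' Q m hQ hs, add_zero]
  smul_mem' := by
    rintro c ξ ⟨h1, h2, h3⟩
    refine ⟨(gN A T).smul_mem c h1, fun m hm v => ?_, fun Q m hQ hs => ?_⟩
    · change (c • ξ.1) _ = (c • ξ.1) v ᵥ* mQ m
      rw [LinearMap.smul_apply, LinearMap.smul_apply, Matrix.smul_vecMul, h2 m hm]
    · change ∑ r, (c • ξ.2.1 r) ᵥ* mQ (m r) = 0
      simp only [Matrix.smul_vecMul]
      rw [← Finset.smul_sum, h3 Q m hQ hs, smul_zero]

variable {A u q}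
variable {T : Set (Matrix (Iz (Fin (2 * g)) R J) (Iz (Fin (2 * g)) R J) ℂ)}

theorem mem_gR {ξ : RS g R J} : ξ ∈ gR A u q T ↔
    ξ ∈ gN A T ∧ (∀ m, EndM A m → ∀ v, ξ.1 (v ᵥ* mQ m) = ξ.1 v ᵥ* mQ m) ∧ RelQ A u q ξ.2.1 := Iff.rfl

theorem gR_br {ξ ξ' : RS g R J} (h : ξ ∈ gR A u q T) (h' : ξ' ∈ gR A u q T) : bS A ξ ξ' ∈ gR A u q T := by
  obtain ⟨h1, h2, h3⟩ := mem_gR.1 h
  obtain ⟨h1', h2', h3'⟩ := mem_gR.1 h'
  refine mem_gR.2 ⟨gN_br h1 h1', fun m hm v => ?_, fun Q m hQ hs => ?_⟩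
  · change ξ'.1 (ξ.1 (v ᵥ* mQ m)) - ξ.1 (ξ'.1 (v ᵥ* mQ m)) = (ξ'.1 (ξ.1 v) - ξ.1 (ξ'.1 v)) ᵥ* mQ m
    rw [h2 m hm, h2' m hm, h2' m hm, h2 m hm, Matrix.sub_vecMul]
  · change ∑ r, (ξ'.1 (ξ.2.1 r) - ξ.1 (ξ'.2.1 r)) ᵥ* mQ (m r) = 0
    have hm : ∀ r, EndM A (m r) := fun r => ⟨Q r, hQ r⟩
    simp only [Matrix.sub_vecMul, Finset.sum_sub_distrib]
    have e1 : ∑ r, ξ'.1 (ξ.2.1 r) ᵥ* mQ (m r) = ξ'.1 (∑ r, ξ.2.1 r ᵥ* mQ (m r)) := by
      rw [map_sum]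
      exact Finset.sum_congr rfl fun r _ => (h2' _ (hm r) _).symm
    have e2 : ∑ r, ξ.1 (ξ'.2.1 r) ᵥ* mQ (m r) = ξ.1 (∑ r, ξ'.2.1 r ᵥ* mQ (m r)) := by
      rw [map_sum]
      exact Finset.sum_congr rfl fun r _ => (h2 _ (hm r) _).symm
    rw [e1, e2, h3 Q m hQ hs, h3' Q m hQ hs, map_zero, map_zero, sub_zero]

/-- the coordinates of the logarithms of the points -/
def Nm (A : AbVar g) (u e : R → Fin g → ℂ) (q f : J → Fin g → ℂ) : R ⊕ J → Fin (2 * g) → ℂ :=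
  fun s => (fun j => UU (Sum.elim u q s) (Sum.elim e f s) ((eqv g).symm j)) ᵥ* (PA A)⁻¹

theorem Nm_PA (s : R ⊕ J) : Nm A u e q f s ᵥ* PA A = fun j => UU (Sum.elim u q s) (Sum.elim e f s) ((eqv g).symm j) := by
  unfold Nm
  rw [Matrix.vecMul_vecMul, inv_PA, Matrix.vecMul_one]

/-- a derivation is zero on algebraic numbers -/
theorem dQ_alg (D : Derivation QBar ℂ ℂ) {x : ℂ} (hx : IsAlgebraic ℚ x) : dQ D x = 0 := by
  rw [dQ_apply]
  exact D.map_algebraMap (⟨x, mem_algebraicClosure_iff.2 hx⟩ : QBar)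

theorem dQ_int (D : Derivation QBar ℂ ℂ) (k : ℤ) : dQ D (k : ℂ) = 0 :=
  dQ_alg D (isAlgebraic_intCast k)

theorem mulr_cancel {α : Type} {X Y : Matrix α (Fin (2 * g)) ℂ} (h : X * PA A = Y * PA A) : X = Y := by
  have h1 := congrArg (fun Z : Matrix α (Fin (2 * g)) ℂ => Z * (PA A)⁻¹) h
  simpa only [Matrix.mul_assoc, PA_inv, Matrix.mul_one] using h1

theorem vec_cancel {x : Fin (2 * g) → ℂ} (h : x ᵥ* PA A = 0) : x = 0 := by
  have h1 := congrArg (fun z : Fin (2 * g) → ℂ => z ᵥ* (PA A)⁻¹) h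
  simpa only [Matrix.vecMul_vecMul, PA_inv, Matrix.vecMul_one, Matrix.zero_vecMul] using h1

theorem dQ_map_zero (D : Derivation QBar ℂ ℂ) {b : Matrix (Fin (2 * g)) (Fin (2 * g)) ℂ} (hb : ∀ i j, IsAlgebraic ℚ (b i j)) :
    b.map (dQ D) = 0 := by
  ext i j
  exact dQ_alg D (hb i j)

/-- the logarithmic derivative commutes with the endomorphisms -/
theorem lam_comm (hE : EndAlg A) (D : Derivation QBar ℂ ℂ) {m : Matrix (Fin (2 * g)) (Fin (2 * g)) ℤ} (hm : EndM A m) :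
    mC m * (lam (pe A u e q f) (dQ D)).1 = (lam (pe A u e q f) (dQ D)).1 * mC m := by
  obtain ⟨b, hb, h⟩ := hE m hm
  have hX : (lam (pe A u e q f) (dQ D)).1 * PA A = (PA A).map (dQ D) := pers_PP _ _ _ _
  refine mulr_cancel (A := A) ?_
  rw [Matrix.mul_assoc, hX, Matrix.mul_assoc, h, ← Matrix.mul_assoc, hX]
  have h1 := congrArg (fun Z : Matrix (Fin (2 * g)) (Fin (2 * g)) ℂ => Z.map (dQ D)) h
  simp only [map_mul_der] at h1
  rw [dQ_map_zero D hb, Matrix.mul_zero, add_zero] at h1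
  have h2 : (mC m).map (dQ D) = 0 := dQ_map_zero D fun i j => isAlgebraic_intCast _
  rw [h2, Matrix.zero_mul, zero_add] at h1
  exact h1

/-- the logarithmic derivative satisfies the relations -/
theorem lam_rel (hE : EndAlg A) (hN : RelN A u q (Nm A u e q f)) (D : Derivation QBar ℂ ℂ) :
    RelN A u q (fun s a => (lam (pe A u e q f) (dQ D)).2.1 s a) := by
  rw [relN_vec] at hN ⊢
  intro Q m hQ hs
  choose b hb h using fun r => hE (m r) ⟨Q r, hQ r⟩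
  refine vec_cancel (A := A) ?_
  rw [Matrix.sum_vecMul]
  have h1 : ∀ r, (lam (pe A u e q f) (dQ D)).2.1 r ᵥ* mC (m r) ᵥ* PA A = fun j => dQ D ((Nm A u e q f r ᵥ* mC (m r) ᵥ* PA A) j) := by
    intro r
    have e2 : (lam (pe A u e q f) (dQ D)).2.1 r ᵥ* PA A =
      fun j => dQ D (UU (Sum.elim u q r) (Sum.elim e f r) ((eqv g).symm j)) := pers_UP _ _ _ _ r
    rw [Matrix.vecMul_vecMul, h, ← Matrix.vecMul_vecMul, e2, Matrix.vecMul_vecMul, h, ← Matrix.vecMul_vecMul, Nm_PA]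
    funext j
    change ∑ i, dQ D _ * b r i j = dQ D (∑ i, _ * b r i j)
    rw [map_sum]
    refine Finset.sum_congr rfl fun i _ => ?_
    rw [Derivation.leibniz, dQ_alg D (hb r i j), smul_zero, zero_add, smul_eq_mul, mul_comm]
  have h2 := hN Q m hQ hs
  have h3 : ∑ r, Nm A u e q f r ᵥ* mC (m r) ᵥ* PA A = 0 := by
    rw [← Matrix.sum_vecMul, h2, Matrix.zero_vecMul]
  rw [Finset.sum_congr rfl fun r _ => h1 r]
  funext j
  rw [Finset.sum_apply, ← map_sum]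
  have h4 := congrFun h3 j
  rw [Finset.sum_apply] at h4
  rw [h4]
  exact map_zero _

/-- the rational components of the logarithmic derivative -/
def cD (A : AbVar g) (u e : R → Fin g → ℂ) (q f : J → Fin g → ℂ) (L : Matrix R J ℂ) (D : Derivation QBar ℂ ℂ)
    (φ : ℂ →ₗ[ℚ] ℚ) : RS g R J :=
  ((cmp φ (lam (pe A u e q f) (dQ D))).1, (cmp φ (lam (pe A u e q f) (dQ D))).2.1,
      (cmp φ (lam (pe A u e q f) (dQ D))).2.2.1, fun r j => φ ((lmS A u e q f L (dQ D)).2.2.2.2 r j))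

theorem cD_gN (hT : IsSubtorsor QB T) (hG : GDef QQ T) (hc : sm (prS u e q f L A) 1 ∈ T) (D : Derivation QBar ℂ ℂ)
    (φ : ℂ →ₗ[ℚ] ℚ) : cD A u e q f L D φ ∈ gN A T := by
  refine mem_gN.2 ⟨fun v w => ?_, ?_⟩
  · have hom : IsDeRhamBettiBilinear QBar A.basis (2 * Real.pi * Complex.I) A.om := by
      rw [AbVar.coe_basis]
      exact A.om_drb
    have h1 := skew_of_mem A.basis AbVar.tau_ne A.om hom (X0_mem A.basis AbVar.tau_ne D φ) v w
    rw [X0_eq A (Sum.elim u q) (Sum.elim e f) (fun j : Empty => j.elim) D φ] at h1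
    simp only [LinearMap.sub_apply, LinearMap.smul_apply, Module.End.one_apply, map_sub, map_smul, smul_eq_mul] at h1
    change A.om ((cmp φ (lam (pe A u e q f) (dQ D))).1 v) w + A.om v ((cmp φ (lam (pe A u e q f) (dQ D))).1 w) =
      (cmp φ (lam (pe A u e q f) (dQ D))).2.2.1 * A.om v w
    linear_combination h1
  · have h1 : fl (sm (lmS A u e q f L (dQ D)) 0) ∈ LL T := by
      rw [← der_lmS (dQ D) (hT.isUnit _ hc)]
      exact logder_mem hT (derD (dQ D) QB fun x hx => (QB_iff x).2 hx) hc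
    have h2 := (LL_defF hT hG hc).map (ratc φ) h1
    have h3 : fl ((sm (lmS A u e q f L (dQ D)) 0).map (ratc φ)) ∈ LL T := h2
    rw [sm_map (map_zero _), map_zero] at h3
    refine (congrArg (fun x => fl (sm x 0) ∈ LL T) ?_).mp h3
    refine Prod.ext ?_ (Prod.ext ?_ (Prod.ext rfl (Prod.ext rfl rfl)))
    · ext i j
      change _ = (((Pi.single i 1 ᵥ* ((lam (pe A u e q f) (dQ D)).1.map φ)) j : ℚ) : ℂ)
      rw [Matrix.single_one_vecMul]
      rfl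
    · exact tz_map φ _

theorem cD_gR (hT : IsSubtorsor QB T) (hG : GDef QQ T) (hc : sm (prS u e q f L A) 1 ∈ T) (hE : EndAlg A)
    (hN : RelN A u q (Nm A u e q f)) (D : Derivation QBar ℂ ℂ) (φ : ℂ →ₗ[ℚ] ℚ) : cD A u e q f L D φ ∈ gR A u q T := by
  refine mem_gR.2 ⟨cD_gN hT hG hc D φ, fun m hm v => ?_, relN_comp (lam_rel hE hN D) φ⟩
  change (v ᵥ* mQ m) ᵥ* ((lam (pe A u e q f) (dQ D)).1.map φ) = (v ᵥ* ((lam (pe A u e q f) (dQ D)).1.map φ)) ᵥ* mQ m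
  rw [Matrix.vecMul_vecMul, Matrix.vecMul_vecMul]
  congr 1
  have h1 := lam_comm (u := u) (e := e) (q := q) (f := f) hE D hm
  ext i j
  have h2 := congrArg φ (congrFun (congrFun h1 i) j)
  rw [Matrix.mul_apply, Matrix.mul_apply, map_sum, map_sum] at h2
  rw [Matrix.mul_apply, Matrix.mul_apply]
  have e1 : ∀ (k : ℤ) (x : ℂ), φ ((k : ℂ) * x) = (k : ℚ) * φ x := by
    intro k x
    have : (k : ℂ) * x = (k : ℚ) • x := by rw [Rat.smul_def, Rat.cast_intCast]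
    rw [this, map_smul, smul_eq_mul]
  refine Eq.trans ?_ (h2.trans ?_)
  · exact Finset.sum_congr rfl fun k _ => (e1 _ _).symm
  · refine Finset.sum_congr rfl fun k _ => ?_
    rw [mul_comm]
    refine (e1 _ _).trans ?_
    rw [mul_comm]
    rfl

theorem good_gR (hT : IsSubtorsor QB T) (hG : GDef QQ T) (hc : sm (prS u e q f L A) 1 ∈ T) (hE : EndAlg A)
    (hN : RelN A u q (Nm A u e q f)) :
    Good A (Sum.elim u q) (Sum.elim e f) (fun j : Empty => j.elim) ((gR A u q T).map (prj g R J)) where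
  skew := by
    rintro _ ⟨ξ, hξ, rfl⟩
    exact (mem_gR.1 hξ).1.1
  br := by
    rintro _ ⟨ξ, hξ, rfl⟩ _ ⟨ξ', hξ', rfl⟩
    refine ⟨bS A ξ ξ', gR_br hξ hξ', ?_⟩
    exact Prod.ext rfl (Prod.ext rfl (Prod.ext rfl (funext fun j => j.elim)))
  der D φ := ⟨cD A u e q f L D φ, cD_gR hT hG hc hE hN D φ,
    Prod.ext rfl (Prod.ext rfl (Prod.ext rfl (funext fun j => j.elim)))⟩

end Pool.Agent.X306.AV
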