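import Pool.Agent.X306.AV.OM

set_option autoImplicit false
set_option linter.unusedVariables false
set_option linter.unusedSectionVars false
set_option linter.unusedSimpArgs false

/-!
# Arbitrary 1-motives: the commutator and the part of weight -2 of the logarithmic derivative
-/

open Matrix Module TensorProduct

noncomputable section

namespace Pool.Agent.X306.AV

open Pool.Agent.Y102 Pool.Agent.W516.DR Pool.Agent.H204R3.GP Pool.Agent.W516.KC Pool.Agent.W516.KC2
open Pool.Agent.TH127.PT Pool.Agent.Y123.ST Pool.Agent.TH119.DR Pool.Agent.W245.EB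
open Pool.Agent.X306.RL (LL_br LL_defF GDef derD)
open Pool.Agent.X306.EM (QQ mem_QQ QB_iff)

variable {g : ℕ} {A : AbVar g} {R J : Type} [Fintype R] [DecidableEq R] [Fintype J] [DecidableEq J]

/-- the rows -/
def yM (N : R ⊕ J → Fin (2 * g) → ℂ) : Matrix R (Fin (2 * g)) ℂ := Matrix.of fun r a => N (Sum.inl r) a

/-- the dual rows -/
def zM (N : R ⊕ J → Fin (2 * g) → ℂ) : Matrix J (Fin (2 * g)) ℂ := Matrix.of fun j a => N (Sum.inr j) a

variable (A)

/-- the commutator -/
def cC (N N' : R ⊕ J → Fin (2 * g) → ℂ) : Matrix R J ℂ := yM N * tz A (zM N') - yM N' * tz A (zM N)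

variable {A}

variable {u e : R → Fin g → ℂ} {q f : J → Fin g → ℂ} {L : Matrix R J ℂ}

theorem cC_rat (N N' : R ⊕ J → Fin (2 * g) → ℚ) :
    cC A (fun s a => ((N s a : ℚ) : ℂ)) (fun s a => ((N' s a : ℚ) : ℂ)) = Matrix.of fun r j =>
      ((A.om (N' (Sum.inr j)) (N (Sum.inl r)) - A.om (N (Sum.inr j)) (N' (Sum.inl r)) : ℚ) : ℂ) := by
  ext r j
  unfold cC
  rw [Matrix.sub_apply, Matrix.mul_apply, Matrix.mul_apply, Matrix.of_apply, Rat.cast_sub]
  congr 1
  · exact row_tz (N (Sum.inl r)) (fun j => N' (Sum.inr j)) j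
  · exact row_tz (N' (Sum.inl r)) (fun j => N (Sum.inr j)) j

theorem cC_mem_rat {N N' : R ⊕ J → Fin (2 * g) → ℚ} (h : RelQ A u q N) (h' : RelQ A u q N') :
    cC A (fun s a => ((N s a : ℚ) : ℂ)) (fun s a => ((N' s a : ℚ) : ℂ)) ∈ CmS A u q :=
  Submodule.subset_span ⟨N, N', relQ_iff.2 h, relQ_iff.2 h', cC_rat N N'⟩

theorem cC_add_left (N₁ N₂ N' : R ⊕ J → Fin (2 * g) → ℂ) : cC A (N₁ + N₂) N' = cC A N₁ N' + cC A N₂ N' := by
  have h1 : (yM (N₁ + N₂) : Matrix R (Fin (2 * g)) ℂ) = yM N₁ + yM N₂ := rfl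
  have h2 : (zM (N₁ + N₂) : Matrix J (Fin (2 * g)) ℂ) = zM N₁ + zM N₂ := rfl
  unfold cC
  rw [h1, h2, tz_add, Matrix.add_mul, Matrix.mul_add]
  abel

theorem cC_smul_left (c : ℂ) (N N' : R ⊕ J → Fin (2 * g) → ℂ) : cC A (c • N) N' = c • cC A N N' := by
  have h1 : (yM (c • N) : Matrix R (Fin (2 * g)) ℂ) = c • yM N := rfl
  have h2 : (zM (c • N) : Matrix J (Fin (2 * g)) ℂ) = c • zM N := rfl
  unfold cC
  rw [h1, h2, tz_smul, Matrix.smul_mul, Matrix.mul_smul, smul_sub]

theorem cC_swap (N N' : R ⊕ J → Fin (2 * g) → ℂ) : cC A N' N = -cC A N N' := by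
  unfold cC
  rw [neg_sub]

/-- the commutators of complex families which satisfy the relations -/
theorem cC_mem {N N' : R ⊕ J → Fin (2 * g) → ℂ} (h : RelN A u q N) (h' : RelN A u q N') :
    cC A N N' ∈ CmS A u q := by
  have key : ∀ (N' : R ⊕ J → Fin (2 * g) → ℂ), ∀ {N : R ⊕ J → Fin (2 * g) → ℂ}, RelN A u q N →
      (∀ φ : ℂ →ₗ[ℚ] ℚ, cC A (fun s a => ((φ (N s a) : ℚ) : ℂ)) N' ∈ CmS A u q) → cC A N N' ∈ CmS A u q := by
    intro N' N hN hφ
    let S : Submodule ℂ ((R ⊕ J) × Fin (2 * g) → ℂ) :=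
      { carrier := {N | cC A (fun s a => N (s, a)) N' ∈ CmS A u q}
        zero_mem' := by
          change cC A (fun s a => 0) N' ∈ CmS A u q
          have h1 := cC_smul_left (A := A) 0 (fun (s : R ⊕ J) (a : Fin (2 * g)) => (0 : ℂ)) N'
          rw [zero_smul, zero_smul] at h1
          have h2 : cC A (fun (s : R ⊕ J) (a : Fin (2 * g)) => (0 : ℂ)) N' = 0 := h1
          rw [h2]
          exact (CmS A u q).zero_mem
        add_mem' := by
          intro N₁ N₂ h₁ h₂
          have h1 := cC_add_left (A := A) (fun s a => N₁ (s, a)) (fun s a => N₂ (s, a)) N'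
          have h2 := (CmS A u q).add_mem h₁ h₂
          rw [← h1] at h2
          exact h2
        smul_mem' := by
          intro c N₁ h₁
          have h1 := cC_smul_left (A := A) c (fun s a => N₁ (s, a)) N'
          have h2 := (CmS A u q).smul_mem c h₁
          rw [← h1] at h2
          exact h2 }
    have hS : (fun p : (R ⊕ J) × Fin (2 * g) => N p.1 p.2) ∈ S := mem_of_comp S fun φ => hφ φ
    exact hS
  refine key N' h fun φ => ?_
  rw [cC_swap]
  refine (CmS A u q).neg_mem (key _ h' fun ψ => ?_)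
  exact cC_mem_rat (relN_comp h' ψ) (relN_comp h φ)

theorem tz_der (δ : Derivation ℚ ℂ ℂ) (Z : Matrix J (Fin (2 * g)) ℂ) : (tz A Z).map δ = tz A (Z.map δ) := by
  ext i j
  change δ (∑ a, Z j a * ((A.om (A.bas a) (A.bas i) : ℚ) : ℂ)) = ∑ a, δ (Z j a) * ((A.om (A.bas a) (A.bas i) : ℚ) : ℂ)
  rw [map_sum]
  refine Finset.sum_congr rfl fun a _ => ?_
  have h1 : δ ((A.om (A.bas a) (A.bas i) : ℚ) : ℂ) = 0 := δ.map_algebraMap (A.om (A.bas a) (A.bas i))
  rw [Derivation.leibniz, h1, smul_zero, zero_add, smul_eq_mul, mul_comm]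

theorem smul_map_der (δ : Derivation ℚ ℂ ℂ) {α β : Type} (c : ℂ) (X : Matrix α β ℂ) :
    (c • X).map δ = δ c • X + c • X.map δ := by
  ext i j
  rw [Matrix.map_apply, Matrix.smul_apply, smul_eq_mul, Derivation.leibniz]
  change c • δ (X i j) + X i j • δ c = δ c * X i j + c * δ (X i j)
  rw [smul_eq_mul, smul_eq_mul, mul_comm (X i j)]
  ring

/-- the logarithmic derivative is a similitude -/
theorem tz_skew (δ : Derivation ℚ ℂ ℂ) {X : Matrix (Fin (2 * g)) (Fin (2 * g)) ℂ} (hX : X * PA A = (PA A).map δ)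
    (Z : Matrix J (Fin (2 * g)) ℂ) :
    (2 * Real.pi * Complex.I : ℂ) • tz A (Z * X) + (2 * Real.pi * Complex.I : ℂ) • (X * tz A Z) =
      δ (2 * Real.pi * Complex.I) • tz A Z := by
  have h1 := congrArg (fun Y : Matrix (Fin (2 * g)) J ℂ => Y.map δ) (PA_sw (A := A) Z)
  simp only [map_mul_der, sw_map, smul_map_der, tz_der] at h1
  have h2 : Z.map δ * PA A + Z * (PA A).map δ = (Z.map δ + Z * X) * PA A := by
    rw [Matrix.add_mul, Matrix.mul_assoc, hX]
  rw [h2, PA_sw, ← hX, Matrix.mul_assoc, PA_sw, tz_add, smul_add, Matrix.mul_smul] at h1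
  have h3 : (2 * Real.pi * Complex.I : ℂ) • (X * tz A Z) + ((2 * Real.pi * Complex.I : ℂ) • tz A (Z.map δ) +
    (2 * Real.pi * Complex.I : ℂ) • tz A (Z * X)) = δ (2 * Real.pi * Complex.I) • tz A Z +
    (2 * Real.pi * Complex.I : ℂ) • tz A (Z.map δ) := h1
  rw [← sub_eq_zero] at h3 ⊢
  rw [← h3]
  abel

/-- the logarithm of the period matrix, in weight -2 -/
def ell (A : AbVar g) (u e : R → Fin g → ℂ) (q f : J → Fin g → ℂ) (L : Matrix R J ℂ) : Matrix R J ℂ :=
  L - ((2 * Real.pi * Complex.I) / 2 : ℂ) • (yM (Nm A u e q f) * tz A (zM (Nm A u e q f)))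

theorem yM_PA : yM (Nm A u e q f) * PA A = Matrix.of fun r s => UU (u r) (e r) ((eqv g).symm s) := by
  ext r s
  exact congrFun (Nm_PA (A := A) (u := u) (e := e) (q := q) (f := f) (Sum.inl r)) s

theorem zM_PA : zM (Nm A u e q f) * PA A = Matrix.of fun j s => UU (q j) (f j) ((eqv g).symm s) := by
  ext r s
  exact congrFun (Nm_PA (A := A) (u := u) (e := e) (q := q) (f := f) (Sum.inr r)) s

/-- the part of weight -2 of the logarithmic derivative -/
theorem lmS_last (δ : Derivation ℚ ℂ ℂ) :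
    (2 * Real.pi * Complex.I : ℂ) • (lmS A u e q f L δ).2.2.2.2 = (ell A u e q f L).map δ +
      ((2 * Real.pi * Complex.I) / 2 : ℂ) • cC A (Nm A u e q f) (fun s a => (lam (pe A u e q f) δ).2.1 s a) := by
  have hw : (2 * Real.pi * Complex.I : ℂ) ≠ 0 := Complex.two_pi_I_ne_zero
  set τ : ℂ := 2 * Real.pi * Complex.I with hτ
  set X := (lam (pe A u e q f) δ).1 with hXdef
  have hX : X * PA A = (PA A).map δ := pers_PP _ _ _ _
  set Y := yM (Nm A u e q f) with hY
  set Z := zM (Nm A u e q f) with hZ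
  have hY' : yM (fun s a => (lam (pe A u e q f) δ).2.1 s a) = Y.map δ + Y * X := by
    refine mulr_cancel (A := A) ?_
    have h1 : yM (fun s a => (lam (pe A u e q f) δ).2.1 s a) * PA A = (Y * PA A).map δ := by
      rw [hY, yM_PA]
      ext r s
      exact congrFun (pers_UP (A := A) (Sum.elim u q) (Sum.elim e f) (fun j : Empty => j.elim) δ (Sum.inl r)) s
    rw [h1, map_mul_der, Matrix.add_mul, Matrix.mul_assoc, hX]
  have hZ' : zM (fun s a => (lam (pe A u e q f) δ).2.1 s a) = Z.map δ + Z * X := by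
    refine mulr_cancel (A := A) ?_
    have h1 : zM (fun s a => (lam (pe A u e q f) δ).2.1 s a) * PA A = (Z * PA A).map δ := by
      rw [hZ, zM_PA]
      ext r s
      exact congrFun (pers_UP (A := A) (Sum.elim u q) (Sum.elim e f) (fun j : Empty => j.elim) δ (Sum.inr r)) s
    rw [h1, map_mul_der, Matrix.add_mul, Matrix.mul_assoc, hX]
  have hz : (prS u e q f L A).2.1 = τ • tz A Z := by
    change PA A * sw (Matrix.of fun j s => UU (q j) (f j) ((eqv g).symm s)) = _
    rw [← zM_PA (A := A) (u := u) (e := e) (q := q) (f := f), PA_sw]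
  have hl : (lmS A u e q f L δ).2.2.2.2 = (1 / τ) • (L.map δ -
      yM (fun s a => (lam (pe A u e q f) δ).2.1 s a) * (prS u e q f L A).2.1) := rfl
  have hL : L.map δ = (ell A u e q f L).map δ + ((τ / 2) • (Y * tz A Z)).map δ := by
    have h1 : L = ell A u e q f L + (τ / 2) • (Y * tz A Z) := by
      unfold ell
      rw [sub_add_cancel]
    conv_lhs => rw [h1]
    ext i j
    exact map_add δ _ _
  have hsk := tz_skew δ hX Z
  rw [← hτ] at hsk
  have hδ : δ (τ / 2) = δ τ / 2 := by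
    have h1 : τ / 2 = (1 / 2 : ℚ) • τ := by
      rw [Rat.smul_def]
      push_cast
      ring
    rw [h1, δ.map_smul, Rat.smul_def]
    push_cast
    ring
  rw [hl, smul_smul, mul_one_div_cancel hw, one_smul, hz, hY', hL, smul_map_der, map_mul_der, tz_der, hδ]
  unfold cC
  rw [hY', hZ', ← hY, ← hZ]
  have h5 := congrArg (fun W : Matrix (Fin (2 * g)) J ℂ => Y * W) hsk
  simp only [Matrix.mul_add, Matrix.mul_smul] at h5
  simp only [tz_add, Matrix.mul_add, Matrix.add_mul, Matrix.mul_smul, Matrix.mul_assoc]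
  ext r j
  have h6 := congrFun (congrFun h5 r) j
  simp only [Matrix.add_apply, Matrix.sub_apply, Matrix.smul_apply, smul_eq_mul] at h6 ⊢
  linear_combination (-1 / 2 : ℂ) * h6

end Pool.Agent.X306.AV
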