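import Pool.Agent.X306.AV.ON

set_option autoImplicit false
set_option linter.unusedVariables false
set_option linter.unusedSectionVars false
set_option linter.unusedSimpArgs false

/-!
# Arbitrary 1-motives: the main theorem
-/

open Matrix Module TensorProduct

noncomputable section

namespace Pool.Agent.X306.AV

open Pool.Agent.Y102 Pool.Agent.W516.DR Pool.Agent.H204R3.GP Pool.Agent.W516.KC Pool.Agent.W516.KC2
open Pool.Agent.TH127.PT Pool.Agent.Y123.ST Pool.Agent.TH119.DR Pool.Agent.W245.EB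
open Pool.Agent.X306.RL (LL_br LL_defF GDef derD)
open Pool.Agent.X306.EM (QQ mem_QQ QB_iff)

variable {g : ℕ} {A : AbVar g} {R J : Type} [Fintype R] [DecidableEq R] [Fintype J] [DecidableEq J]
variable {u e : R → Fin g → ℂ} {q f : J → Fin g → ℂ} {L : Matrix R J ℂ} {F : IntermediateField ℚ ℂ}
variable {T : Set (Matrix (Iz (Fin (2 * g)) R J) (Iz (Fin (2 * g)) R J) ℂ)}

/-- the part of weight -2 -/
def U2 (𝔤 : Submodule ℚ (RS g R J)) : Submodule ℚ (R → J → ℚ) where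
  carrier := {w | ((0, 0, 0, w) : RS g R J) ∈ 𝔤}
  zero_mem' := 𝔤.zero_mem
  add_mem' := by
    intro Y Y' h h'
    have h1 := 𝔤.add_mem h h'
    simpa using h1
  smul_mem' := by
    intro q Y h
    have h1 := 𝔤.smul_mem q h
    simpa using h1

/-- the pure part of weight -1 -/
def B0 (𝔤 : Submodule ℚ (RS g R J)) : Submodule ℚ (R ⊕ J → Fin (2 * g) → ℚ) where
  carrier := {N | ((0, N, 0, 0) : RS g R J) ∈ 𝔤}
  zero_mem' := 𝔤.zero_mem
  add_mem' := by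
    intro Y Y' h h'
    have h1 := 𝔤.add_mem h h'
    simpa using h1
  smul_mem' := by
    intro q Y h
    have h1 := 𝔤.smul_mem q h
    simpa using h1

theorem mem_U2 {𝔤 : Submodule ℚ (RS g R J)} {w : R → J → ℚ} : w ∈ U2 𝔤 ↔ ((0, 0, 0, w) : RS g R J) ∈ 𝔤 := Iff.rfl

theorem mem_B0 {𝔤 : Submodule ℚ (RS g R J)} {N : R ⊕ J → Fin (2 * g) → ℚ} :
    N ∈ B0 𝔤 ↔ ((0, N, 0, 0) : RS g R J) ∈ 𝔤 := Iff.rfl

/-- the bracket with an element without part of weight -1 -/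
theorem bS_right (ξ : RS g R J) (X : Module.End ℚ (Fin (2 * g) → ℚ)) (x : ℚ) (w₂ : R → J → ℚ) :
    bS A ξ (X, 0, x, w₂) = (X * ξ.1 - ξ.1 * X, fun s => X (ξ.2.1 s), 0,
      fun r j => x * ξ.2.2.2 r j - ξ.2.2.1 * w₂ r j) := by
  unfold bS
  refine Prod.ext rfl (Prod.ext ?_ (Prod.ext rfl ?_))
  · funext s
    change X (ξ.2.1 s) - ξ.1 (0 : Fin (2 * g) → ℚ) = X (ξ.2.1 s)
    rw [map_zero, sub_zero]
  · funext r j
    change (A.om (0 : Fin (2 * g) → ℚ) (ξ.2.1 (Sum.inl r)) + x * ξ.2.2.2 r j) -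
      (A.om (ξ.2.1 (Sum.inr j)) (0 : Fin (2 * g) → ℚ) + ξ.2.2.1 * w₂ r j) = _
    rw [map_zero, map_zero, LinearMap.zero_apply, zero_add, zero_add]

theorem hratrow (hT : IsSubtorsor QB T) (hG : GDef QQ T) (hc : sm (prS u e q f L A) 1 ∈ T) (hF : Fld A F)
    (hu : ∀ r, u r ∈ Pt A F) (hq : ∀ j, q j ∈ Pt A F) (hE : EndAlg A) (hN0 : RelN A u q (Nm A u e q f))
    {N : R ⊕ J → Fin (2 * g) → ℚ} (hN : RelQ A u q N) : ∃ w, ((0, N, 0, w) : RS g R J) ∈ gR A u q T := by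
  have G := good_gR hT hG hc hE hN0
  have hpt : ∀ s, Sum.elim u q s ∈ Pt A F := by
    rintro (r | j)
    · exact hu r
    · exact hq j
  obtain ⟨ψ, hψ⟩ : ∃ ψ : ℂ →ₗ[ℚ] ℚ, ∀ x : ℚ, ψ (x : ℂ) = x := by
    obtain ⟨ψ, hψ⟩ := LinearMap.exists_leftInverse_of_injective (Algebra.linearMap ℚ ℂ)
      (LinearMap.ker_eq_bot.2 (algebraMap ℚ ℂ).injective)
    exact ⟨ψ, fun x => congrArg (fun F : ℚ →ₗ[ℚ] ℚ => F x) hψ⟩
  obtain ⟨ξ, hξ, h1⟩ := mem_uA.1 (G.uA_mem hF hpt (relQ_iff.2 hN) ψ)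
  refine ⟨ξ.2.2.2, (congrArg (· ∈ gR A u q T) ?_).mp hξ⟩
  have e1 : ξ.1 = 0 := congrArg (fun p : GT (Fin (2 * g)) (R ⊕ J) Empty => p.1) h1
  have e2 : ξ.2.1 = fun s a => ψ (((N s a : ℚ)) : ℂ) := congrArg (fun p : GT (Fin (2 * g)) (R ⊕ J) Empty => p.2.1) h1
  have e3 : ξ.2.2.1 = 0 := congrArg (fun p : GT (Fin (2 * g)) (R ⊕ J) Empty => p.2.2.1) h1
  refine Prod.ext e1 (Prod.ext ?_ (Prod.ext e3 rfl))
  rw [e2]
  funext s a
  exact hψ _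

/-- the structure of the Lie algebra -/
theorem shapeO (hT : IsSubtorsor QB T) (hG : GDef QQ T) (hc : sm (prS u e q f L A) 1 ∈ T) (hF : Fld A F)
    (hu : ∀ r, u r ∈ Pt A F) (hq : ∀ j, q j ∈ Pt A F) (hE : EndAlg A) (hN0 : RelN A u q (Nm A u e q f)) :
    (∀ N w, ((0, N, 0, w) : RS g R J) ∈ gR A u q T → N ∈ B0 (gR A u q T) ∧ w ∈ U2 (gR A u q T)) ∧
    ∃ s : R → J → ℚ, ∀ ξ ∈ gR A u q T, (fun r j => ξ.2.2.2 r j - ξ.2.2.1 * s r j) ∈ U2 (gR A u q T) := by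
  have G := good_gR hT hG hc hE hN0
  obtain ⟨_, ⟨ξ₁, hξ₁, rfl⟩, ζ, hx, hX, hsk, hcen⟩ := G.exists_Z
  change ξ₁.2.2.1 ≠ 0 at hx
  change ξ₁.1 = (ξ₁.2.2.1 / 2) • (1 : Module.End ℚ (Fin (2 * g) → ℚ)) + ζ at hX
  obtain ⟨M, hM⟩ := G.hodge hcen
  have hz2 : ξ₁.2.2.1 / 2 ≠ 0 := div_ne_zero hx two_ne_zero
  have inj2 : ∀ v, (ξ₁.1 - ξ₁.2.2.1 • (1 : Module.End ℚ (Fin (2 * g) → ℚ))) v = 0 → v = 0 := by
    intro v hv
    refine Good.inj_Z hsk hM (c := -(ξ₁.2.2.1 / 2)) (neg_ne_zero.2 hz2) ?_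
    rw [← hv, LinearMap.sub_apply, LinearMap.smul_apply, Module.End.one_apply]
    conv_rhs => rw [hX, LinearMap.add_apply, LinearMap.smul_apply, Module.End.one_apply]
    have h1 : ξ₁.2.2.1 • v = (ξ₁.2.2.1 / 2) • v + (ξ₁.2.2.1 / 2) • v := by
      rw [← add_smul, add_halves]
    rw [h1, neg_smul]
    abel
  have hcomm : ∀ ξ ∈ gR A u q T, ξ₁.1 * ξ.1 - ξ.1 * ξ₁.1 = 0 := by
    intro ξ hξ
    have h2 := hcen (tl (prj g R J ξ)) (mem_hh.2 ⟨prj g R J ξ, ⟨ξ, hξ, rfl⟩, rfl⟩)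
    have h1 : ξ.1 = tl (prj g R J ξ) + (ξ.2.2.1 / 2) • (1 : Module.End ℚ (Fin (2 * g) → ℚ)) := by
      rw [tl_apply]
      exact (sub_add_cancel _ _).symm
    rw [h1, hX]
    simp only [mul_add, add_mul, smul_mul_assoc, mul_smul_comm, one_mul, mul_one, h2]
    module
  -- remove the part of weight -1
  obtain ⟨w₁, hw₁⟩ := hratrow hT hG hc hF hu hq hE hN0 (mem_gR.1 hξ₁).2.2
  set w₂ : R → J → ℚ := ξ₁.2.2.2 - w₁ with hw₂
  set x := ξ₁.2.2.1 with hxdef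
  set X := ξ₁.1 with hXdef
  have hξ₂ : ((X, 0, x, w₂) : RS g R J) ∈ gR A u q T := by
    refine (congrArg (· ∈ gR A u q T) ?_).mp ((gR A u q T).sub_mem hξ₁ hw₁)
    exact Prod.ext (sub_zero _) (Prod.ext (sub_self _) (Prod.ext (sub_zero _) rfl))
  have key : ∀ N w, ((0, N, 0, w) : RS g R J) ∈ gR A u q T →
      (fun s => (X - x • (1 : Module.End ℚ (Fin (2 * g) → ℚ))) (N s)) ∈ B0 (gR A u q T) := by
    intro N w h
    have h1 := gR_br h hξ₂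
    rw [bS_right] at h1
    have h2 := (gR A u q T).sub_mem h1 ((gR A u q T).smul_mem x h)
    refine mem_B0.2 ((congrArg (· ∈ gR A u q T) ?_).mp h2)
    refine Prod.ext ?_ (Prod.ext rfl (Prod.ext ?_ ?_))
    · change (X * (0 : Module.End ℚ (Fin (2 * g) → ℚ)) - (0 : Module.End ℚ (Fin (2 * g) → ℚ)) * X) -
        x • (0 : Module.End ℚ (Fin (2 * g) → ℚ)) = 0
      rw [mul_zero, zero_mul, sub_zero, smul_zero, sub_zero]
    · change (0 : ℚ) - x * 0 = 0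
      ring
    · funext r j
      change (x * w r j - 0 * w₂ r j) - x * w r j = 0
      ring
  have hsplit : ∀ N w, ((0, N, 0, w) : RS g R J) ∈ gR A u q T → N ∈ B0 (gR A u q T) ∧ w ∈ U2 (gR A u q T) := by
    intro N w h
    have h1 : N ∈ B0 (gR A u q T) := by
      refine inv_of_stable inj2 (B0 (gR A u q T)) (fun N' hN' => ?_) (key N w h)
      exact key N' 0 (mem_B0.1 hN')
    refine ⟨h1, mem_U2.2 ((congrArg (· ∈ gR A u q T) ?_).mp ((gR A u q T).sub_mem h (mem_B0.1 h1)))⟩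
    exact Prod.ext (sub_zero _) (Prod.ext (sub_self _) (Prod.ext (sub_zero _) (sub_zero _)))
  refine ⟨hsplit, fun r j => w₂ r j / x, fun ξ hξ => ?_⟩
  have h1 := gR_br hξ hξ₂
  rw [bS_right, hcomm ξ hξ] at h1
  have h2 := (U2 (gR A u q T)).smul_mem x⁻¹ (hsplit _ _ h1).2
  refine (congrArg (· ∈ U2 (gR A u q T)) ?_).mp h2
  funext r j
  change x⁻¹ * (x * ξ.2.2.2 r j - ξ.2.2.1 * w₂ r j) = ξ.2.2.2 r j - ξ.2.2.1 * (w₂ r j / x)
  field_simp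

/-- the commutators are in the part of weight -2 -/
theorem cm_U2 (hT : IsSubtorsor QB T) (hG : GDef QQ T) (hc : sm (prS u e q f L A) 1 ∈ T) (hF : Fld A F)
    (hu : ∀ r, u r ∈ Pt A F) (hq : ∀ j, q j ∈ Pt A F) (hE : EndAlg A) (hN0 : RelN A u q (Nm A u e q f))
    {N N' : R ⊕ J → Fin (2 * g) → ℚ} (hN : RelQ A u q N) (hN' : RelQ A u q N') :
    (fun r j => A.om (N' (Sum.inr j)) (N (Sum.inl r)) - A.om (N (Sum.inr j)) (N' (Sum.inl r))) ∈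
      U2 (gR A u q T) := by
  obtain ⟨w, hw⟩ := hratrow hT hG hc hF hu hq hE hN0 hN
  obtain ⟨w', hw'⟩ := hratrow hT hG hc hF hu hq hE hN0 hN'
  refine mem_U2.2 ((congrArg (· ∈ gR A u q T) ?_).mp (gR_br hw hw'))
  refine Prod.ext ?_ (Prod.ext ?_ (Prod.ext rfl ?_))
  · change (0 : Module.End ℚ (Fin (2 * g) → ℚ)) * 0 - 0 * 0 = 0
    simp
  · funext s
    change (0 : Module.End ℚ (Fin (2 * g) → ℚ)) (N s) - (0 : Module.End ℚ (Fin (2 * g) → ℚ)) (N' s) = 0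
    simp
  · funext r j
    change (A.om (N' (Sum.inr j)) (N (Sum.inl r)) + 0 * w r j) -
      (A.om (N (Sum.inr j)) (N' (Sum.inl r)) + 0 * w' r j) = _
    rw [zero_mul, zero_mul, add_zero, add_zero]

end Pool.Agent.X306.AV
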