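import Pool.Agent.X306.AV.OP

set_option autoImplicit false
set_option linter.unusedVariables false
set_option linter.unusedSectionVars false
set_option linter.unusedSimpArgs false

/-!
# Arbitrary 1-motives: the main theorem
-/

open Matrix Module TensorProduct

noncomputable section

namespace Pool.Agent.X306.AV

open Pool.Agent.Y102 Pool.Agent.W516.DR Pool.Agent.H204R3.GP Pool.Agent.W516.KC Pool.Agent.W516.KC2
open Pool.Agent.TH127.PT Pool.Agent.Y123.ST Pool.Agent.TH119.DR Pool.Agent.W245.EB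
open Pool.Agent.X306.RL (LL_br LL_defF GDef derD)
open Pool.Agent.X306.EM (QQ mem_QQ QB_iff)

variable {g : ℕ} {A : AbVar g} {R J : Type} [Fintype R] [DecidableEq R] [Fintype J] [DecidableEq J]
variable {u e : R → Fin g → ℂ} {q f : J → Fin g → ℂ} {L : Matrix R J ℂ} {F : IntermediateField ℚ ℂ}
variable {T : Set (Matrix (Iz (Fin (2 * g)) R J) (Iz (Fin (2 * g)) R J) ℂ)}

theorem phi_sum (φ : (R → J → ℚ) →ₗ[ℚ] ℚ) (y : R → J → ℚ) :
    φ y = ∑ r, ∑ j, φ (Pi.single r (Pi.single j 1)) * y r j := by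
  have h1 : y = ∑ r, ∑ j, y r j • (Pi.single r (Pi.single j 1) : R → J → ℚ) := by
    funext r j
    rw [Finset.sum_apply, Finset.sum_eq_single r]
    · rw [Finset.sum_apply, Finset.sum_apply, Finset.sum_eq_single j]
      · rw [Pi.smul_apply, Pi.smul_apply, Pi.single_eq_same, Pi.single_eq_same, smul_eq_mul, mul_one]
      · intro k _ hk
        rw [Pi.smul_apply, Pi.smul_apply, Pi.single_eq_same, Pi.single_eq_of_ne (Ne.symm hk), smul_zero]
      · intro h
        exact absurd (Finset.mem_univ _) h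
    · intro s _ hs
      rw [Finset.sum_apply]
      refine Finset.sum_eq_zero fun k _ => ?_
      rw [Pi.smul_apply, Pi.single_eq_of_ne (Ne.symm hs), smul_zero]
    · intro h
      exact absurd (Finset.mem_univ _) h
  conv_lhs => rw [h1]
  rw [map_sum]
  refine Finset.sum_congr rfl fun r _ => ?_
  rw [map_sum]
  refine Finset.sum_congr rfl fun j _ => ?_
  rw [map_smul, smul_eq_mul, mul_comm]

theorem int_mul_der (D : Derivation QBar ℂ ℂ) (k : ℤ) (y : ℂ) : D ((k : ℂ) * y) = (k : ℂ) * D y := by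
  have h := dQ_int D k
  rw [dQ_apply] at h
  rw [Derivation.leibniz, h, smul_zero, add_zero, smul_eq_mul]

/-- **The part of weight `-2`.** -/
theorem w2_mem (hT : IsSubtorsor QB T) (hG : GDef QQ T) (hc : sm (prS u e q f L A) 1 ∈ T) (hF : Fld A F)
    (hu : ∀ r, u r ∈ Pt A F) (hq : ∀ j, q j ∈ Pt A F) (hE : EndAlg A) (hN0 : RelN A u q (Nm A u e q f))
    {w : Matrix R J ℂ}
    (hw : ∀ χ : Matrix R J ℤ, (∀ c ∈ CmS A u q, ∑ r, ∑ j, (χ r j : ℂ) * c r j = 0) →
      (∃ n : ℤ, IsAlgebraic ℚ (∑ r, ∑ j, (χ r j : ℂ) * ell A u e q f L r j - (n : ℂ) * (2 * Real.pi * Complex.I))) →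
      ∑ r, ∑ j, (χ r j : ℂ) * w r j = 0) (ψ : ℂ →ₗ[ℚ] ℚ) : (fun r j => ψ (w r j)) ∈ U2 (gR A u q T) := by
  classical
  have hτ : (2 * Real.pi * Complex.I : ℂ) ≠ 0 := Complex.two_pi_I_ne_zero
  obtain ⟨-, s, hs⟩ := shapeO hT hG hc hF hu hq hE hN0
  by_contra hcon
  obtain ⟨φ, hφ, hφU⟩ := Submodule.exists_le_ker_of_notMem hcon
  obtain ⟨d, hd0, hd⟩ := exists_den (ι := (R × J) ⊕ Unit)
    (Sum.elim (fun p => φ (Pi.single p.1 (Pi.single p.2 1))) (fun _ => φ s))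
  choose m hm using fun p => hd (Sum.inl p)
  obtain ⟨n, hn⟩ := hd (Sum.inr ())
  simp only [Sum.elim_inl, Sum.elim_inr] at hm hn
  have hmC : ∀ r j, ((m (r, j) : ℤ) : ℂ) = (d : ℂ) * ((φ (Pi.single r (Pi.single j 1)) : ℚ) : ℂ) := by
    intro r j
    have h7 := congrArg (fun q : ℚ => (q : ℂ)) (hm (r, j))
    simp only [Rat.cast_mul, Rat.cast_natCast, Rat.cast_intCast] at h7
    exact h7.symm
  have hnC : ((n : ℤ) : ℂ) = (d : ℂ) * ((φ s : ℚ) : ℂ) := by
    have h7 := congrArg (fun q : ℚ => (q : ℂ)) hn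
    simp only [Rat.cast_mul, Rat.cast_natCast, Rat.cast_intCast] at h7
    exact h7.symm
  -- the commutators
  have hkill : ∀ c ∈ CmS A u q, ∑ r, ∑ j, ((m (r, j) : ℤ) : ℂ) * c r j = 0 := by
    intro c hc'
    induction hc' using Submodule.span_induction with
    | mem c h =>
      obtain ⟨N, N', hN, hN', rfl⟩ := h
      have h1 := hφU (cm_U2 hT hG hc hF hu hq hE hN0 (relQ_iff.1 hN) (relQ_iff.1 hN'))
      rw [LinearMap.mem_ker, phi_sum] at h1
      have h2 : ∑ r, ∑ j, ((m (r, j) : ℤ) : ℂ) * (Matrix.of fun r j => ((A.om (N' (Sum.inr j)) (N (Sum.inl r)) -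
          A.om (N (Sum.inr j)) (N' (Sum.inl r)) : ℚ) : ℂ)) r j = (d : ℂ) * ((∑ r, ∑ j,
          φ (Pi.single r (Pi.single j 1)) * (A.om (N' (Sum.inr j)) (N (Sum.inl r)) -
          A.om (N (Sum.inr j)) (N' (Sum.inl r))) : ℚ) : ℂ) := by
        rw [Rat.cast_sum, Finset.mul_sum]
        refine Finset.sum_congr rfl fun r _ => ?_
        rw [Rat.cast_sum, Finset.mul_sum]
        refine Finset.sum_congr rfl fun j _ => ?_
        rw [hmC, Rat.cast_mul, mul_assoc]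
        rfl
      rw [h2, h1, Rat.cast_zero, mul_zero]
    | zero => simp
    | add x y _ _ h1 h2 =>
      simp only [Matrix.add_apply, mul_add, Finset.sum_add_distrib]
      rw [h1, h2, add_zero]
    | smul a x _ h1 =>
      have h2 : ∑ r, ∑ j, ((m (r, j) : ℤ) : ℂ) * (a • x) r j = a * ∑ r, ∑ j, ((m (r, j) : ℤ) : ℂ) * x r j := by
        rw [Finset.mul_sum]
        refine Finset.sum_congr rfl fun r _ => ?_
        rw [Finset.mul_sum]
        refine Finset.sum_congr rfl fun j _ => ?_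
        rw [Matrix.smul_apply, smul_eq_mul]
        ring
      rw [h2, h1, mul_zero]
  -- the derivations
  have hder : ∀ D : Derivation QBar ℂ ℂ,
      D (∑ r, ∑ j, ((m (r, j) : ℤ) : ℂ) * ell A u e q f L r j - (n : ℂ) * (2 * Real.pi * Complex.I)) = 0 := by
    intro D
    have h2 : ∑ r, ∑ j, (φ (Pi.single r (Pi.single j 1))) • (lmS A u e q f L (dQ D)).2.2.2.2 r j -
        φ s • (D (2 * Real.pi * Complex.I) / (2 * Real.pi * Complex.I)) = 0 := by
      refine eq_zero_of_dual (k := ℚ) fun f' => ?_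
      have h3 := hs _ (cD_gR hT hG hc hE hN0 D f')
      have h4 := hφU h3
      rw [LinearMap.mem_ker] at h4
      have h5 : (fun r j => (cD A u e q f L D f').2.2.2 r j - (cD A u e q f L D f').2.2.1 * s r j) =
          (fun r j => f' ((lmS A u e q f L (dQ D)).2.2.2.2 r j)) -
            (f' (D (2 * Real.pi * Complex.I) / (2 * Real.pi * Complex.I))) • s := rfl
      rw [h5, map_sub, phi_sum φ (fun r j => f' ((lmS A u e q f L (dQ D)).2.2.2.2 r j)), map_smul, smul_eq_mul] at h4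
      rw [map_sub, map_smul, smul_eq_mul, mul_comm (φ s), ← h4, map_sum]
      congr 1
      refine Finset.sum_congr rfl fun r _ => ?_
      rw [map_sum]
      refine Finset.sum_congr rfl fun j _ => ?_
      rw [map_smul, smul_eq_mul]
    have h3 := hkill _ (cC_mem hN0 (lam_rel hE hN0 D))
    have h4 := lmS_last (A := A) (u := u) (e := e) (q := q) (f := f) (L := L) (dQ D)
    have h5 : ∀ r j, D (ell A u e q f L r j) = (2 * Real.pi * Complex.I) * (lmS A u e q f L (dQ D)).2.2.2.2 r j -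
        ((2 * Real.pi * Complex.I) / 2) *
          cC A (Nm A u e q f) (fun s a => (lam (pe A u e q f) (dQ D)).2.1 s a) r j := by
      intro r j
      have h6 := congrFun (congrFun h4 r) j
      rw [Matrix.smul_apply, Matrix.add_apply, Matrix.smul_apply, Matrix.map_apply, dQ_apply, smul_eq_mul,
        smul_eq_mul] at h6
      rw [h6]
      ring
    have h6 : D (∑ r, ∑ j, ((m (r, j) : ℤ) : ℂ) * ell A u e q f L r j) =
        ∑ r, ∑ j, ((m (r, j) : ℤ) : ℂ) * D (ell A u e q f L r j) := by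
      rw [map_sum]
      refine Finset.sum_congr rfl fun r _ => ?_
      rw [map_sum]
      exact Finset.sum_congr rfl fun j _ => int_mul_der D _ _
    rw [map_sub, h6, int_mul_der]
    have h7 : ∑ r, ∑ j, ((m (r, j) : ℤ) : ℂ) * D (ell A u e q f L r j) =
        (2 * Real.pi * Complex.I) * ∑ r, ∑ j, ((m (r, j) : ℤ) : ℂ) * (lmS A u e q f L (dQ D)).2.2.2.2 r j -
        ((2 * Real.pi * Complex.I) / 2) * ∑ r, ∑ j, ((m (r, j) : ℤ) : ℂ) *
          cC A (Nm A u e q f) (fun s a => (lam (pe A u e q f) (dQ D)).2.1 s a) r j := by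
      rw [Finset.mul_sum, Finset.mul_sum, ← Finset.sum_sub_distrib]
      refine Finset.sum_congr rfl fun r _ => ?_
      rw [Finset.mul_sum, Finset.mul_sum, ← Finset.sum_sub_distrib]
      refine Finset.sum_congr rfl fun j _ => ?_
      rw [h5]
      ring
    have h8 : ∑ r, ∑ j, ((m (r, j) : ℤ) : ℂ) * (lmS A u e q f L (dQ D)).2.2.2.2 r j =
        (d : ℂ) * ∑ r, ∑ j, (φ (Pi.single r (Pi.single j 1))) • (lmS A u e q f L (dQ D)).2.2.2.2 r j := by
      rw [Finset.mul_sum]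
      refine Finset.sum_congr rfl fun r _ => ?_
      rw [Finset.mul_sum]
      refine Finset.sum_congr rfl fun j _ => ?_
      rw [hmC, Rat.smul_def]
      ring
    rw [h7, h3, h8, sub_eq_zero.1 h2, hnC, Rat.smul_def]
    field_simp
    ring
  obtain ⟨y, hy⟩ := mem_of_derivation hder
  have halg : IsAlgebraic ℚ (∑ r, ∑ j, ((m (r, j) : ℤ) : ℂ) * ell A u e q f L r j -
      (n : ℂ) * (2 * Real.pi * Complex.I)) := by
    rw [← hy]
    exact QBar.alg y
  have h1 := congrArg ψ (hw (Matrix.of fun r j => m (r, j)) hkill ⟨n, halg⟩)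
  apply hφ
  rw [phi_sum]
  rw [map_zero, map_sum] at h1
  have h2 : ∑ r, ψ (∑ j, ((m (r, j) : ℤ) : ℂ) * w r j) =
      (d : ℚ) * ∑ r, ∑ j, φ (Pi.single r (Pi.single j 1)) * ψ (w r j) := by
    rw [Finset.mul_sum]
    refine Finset.sum_congr rfl fun r _ => ?_
    rw [map_sum, Finset.mul_sum]
    refine Finset.sum_congr rfl fun j _ => ?_
    have h3 : ((m (r, j) : ℤ) : ℂ) * w r j = ((d : ℚ) * φ (Pi.single r (Pi.single j 1))) • w r j := by
      rw [hm (r, j), Rat.smul_def, Rat.cast_intCast]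
    rw [h3, map_smul, smul_eq_mul, mul_assoc]
  have h3 : (d : ℚ) * ∑ r, ∑ j, φ (Pi.single r (Pi.single j 1)) * ψ (w r j) = 0 := by
    rw [← h2]
    exact h1
  exact (mul_eq_zero.1 h3).resolve_left (Nat.cast_ne_zero.2 hd0)

/-- **Arbitrary 1-motives.** -/
theorem mainO (hT : IsSubtorsor QB T) (hG : GDef QQ T) (hc : sm (prS u e q f L A) 1 ∈ T) (hF : Fld A F)
    (hu : ∀ r, u r ∈ Pt A F) (hq : ∀ j, q j ∈ Pt A F) (hE : EndAlg A) (hN0 : RelN A u q (Nm A u e q f))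
    {N : R ⊕ J → Fin (2 * g) → ℂ} (hN : RelN A u q N) {w : Matrix R J ℂ}
    (hw : ∀ χ : Matrix R J ℤ, (∀ c ∈ CmS A u q, ∑ r, ∑ j, (χ r j : ℂ) * c r j = 0) →
      (∃ n : ℤ, IsAlgebraic ℚ (∑ r, ∑ j, (χ r j : ℂ) * ell A u e q f L r j - (n : ℂ) * (2 * Real.pi * Complex.I))) →
      ∑ r, ∑ j, (χ r j : ℂ) * (w - (1 / 2 : ℂ) • (yM N * tz A (zM N))) r j = 0) {x : Matrix (Iz (Fin (2 * g)) R J) (Iz (Fin (2 * g)) R J) ℂ}
    (hx : x ∈ T) : sm (1, tz A (zM N), 1, yM N, w) 1 * x ∈ T := by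
  set w' : Matrix R J ℂ := w - (1 / 2 : ℂ) • (yM N * tz A (zM N)) with hw'
  have hLL : fl (sm ((0, tz A (zM N), 0, yM N, w') : LS (Fin (2 * g)) R J) 0) ∈ LL T := by
    refine mem_of_comp (LL T) fun ψ => ?_
    obtain ⟨hsplit, -⟩ := shapeO hT hG hc hF hu hq hE hN0
    obtain ⟨v, hv⟩ := hratrow hT hG hc hF hu hq hE hN0 (relN_comp hN ψ)
    have h1 := mem_B0.1 (hsplit _ _ hv).1
    have h2 := mem_U2.1 (w2_mem hT hG hc hF hu hq hE hN0 hw ψ)
    have h3 := (mem_gN.1 (mem_gR.1 ((gR A u q T).add_mem h1 h2)).1).2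
    refine (congrArg (· ∈ LL T) ?_).mp h3
    have h6 : (fun a => ((ψ (fl (sm ((0, tz A (zM N), 0, yM N, w') : LS (Fin (2 * g)) R J) 0) a) : ℚ) : ℂ)) =
        fl ((sm ((0, tz A (zM N), 0, yM N, w') : LS (Fin (2 * g)) R J) 0).map fun z => ((ψ z : ℚ) : ℂ)) := rfl
    rw [h6, sm_map (by rw [map_zero, Rat.cast_zero])]
    congr 1
    rw [map_zero, Rat.cast_zero]
    congr 1
    have h7 : ((0, fun s a => ψ (N s a), 0, 0) : RS g R J) + (0, 0, 0, fun r j => ψ (w' r j)) =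
        (0, fun s a => ψ (N s a), 0, fun r j => ψ (w' r j)) :=
      Prod.ext (add_zero _) (Prod.ext (add_zero _) (Prod.ext (add_zero _) (zero_add _)))
    rw [h7, cS_row]
    refine Prod.ext ?_ (Prod.ext ?_ (Prod.ext ?_ (Prod.ext ?_ ?_)))
    · ext i j
      change (0 : ℂ) = ((ψ 0 : ℚ) : ℂ)
      rw [map_zero, Rat.cast_zero]
    · exact (tz_map ψ (zM N)).symm
    · change (0 : ℂ) = ((ψ 0 : ℚ) : ℂ)
      rw [map_zero, Rat.cast_zero]
    · rfl
    · rfl
  -- the exponential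
  set z : Matrix (Fin (2 * g)) J ℂ := tz A (zM N) with hz
  set Y : Matrix R (Fin (2 * g)) ℂ := yM N with hY
  have hEE : sm ((0, z, 0, Y, w') : LS (Fin (2 * g)) R J) 0 * sm (0, z, 0, Y, w') 0 =
      sm (0, 0, 0, 0, Y * z) 0 := by
    rw [sm_mul, mul_zero]
    congr 1
    refine Prod.ext ?_ (Prod.ext ?_ (Prod.ext ?_ (Prod.ext ?_ ?_)))
    · change (0 : Matrix (Fin (2 * g)) (Fin (2 * g)) ℂ) * 0 = 0
      rw [Matrix.mul_zero]
    · change (0 : Matrix (Fin (2 * g)) (Fin (2 * g)) ℂ) * z + (0 : ℂ) • z = 0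
      rw [Matrix.zero_mul, zero_smul, add_zero]
    · change (0 : ℂ) * 0 = 0
      rw [mul_zero]
    · change Y * (0 : Matrix (Fin (2 * g)) (Fin (2 * g)) ℂ) + (0 : ℂ) • Y = 0
      rw [Matrix.mul_zero, zero_smul, add_zero]
    · change Y * z + (0 : ℂ) • w' + (0 : ℂ) • w' = Y * z
      rw [zero_smul, add_zero, add_zero]
  have hEEE : sm ((0, 0, 0, 0, Y * z) : LS (Fin (2 * g)) R J) 0 * sm (0, z, 0, Y, w') 0 = 0 := by
    rw [sm_mul, mul_zero, ← sm_zero]
    congr 1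
    refine Prod.ext ?_ (Prod.ext ?_ (Prod.ext ?_ (Prod.ext ?_ ?_)))
    · change (0 : Matrix (Fin (2 * g)) (Fin (2 * g)) ℂ) * 0 = 0
      rw [Matrix.mul_zero]
    · change (0 : Matrix (Fin (2 * g)) (Fin (2 * g)) ℂ) * z + (0 : ℂ) • (0 : Matrix (Fin (2 * g)) J ℂ) = 0
      rw [Matrix.zero_mul, zero_smul, add_zero]
    · change (0 : ℂ) * 0 = 0
      rw [mul_zero]
    · change (0 : Matrix R (Fin (2 * g)) ℂ) * (0 : Matrix (Fin (2 * g)) (Fin (2 * g)) ℂ) + (0 : ℂ) • Y = 0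
      rw [Matrix.mul_zero, zero_smul, add_zero]
    · change (0 : Matrix R (Fin (2 * g)) ℂ) * z + (0 : ℂ) • (Y * z) + (0 : ℂ) • w' = 0
      rw [Matrix.zero_mul, zero_smul, zero_smul, add_zero, add_zero]
  have h2 := exp_nil3 hT (E := sm ((0, z, 0, Y, w') : LS (Fin (2 * g)) R J) 0) (by rw [hEE, hEEE]) hLL hx
  rw [hEE] at h2
  have h3 : 1 + sm ((0, z, 0, Y, w') : LS (Fin (2 * g)) R J) 0 +
      (1 / 2 : ℂ) • sm (0, 0, 0, 0, Y * z) 0 = sm (1, z, 1, Y, w) 1 := by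
    rw [← sm_one, sm_smul, sm_add, sm_add, mul_zero, add_zero, add_zero]
    congr 1
    refine Prod.ext ?_ (Prod.ext ?_ (Prod.ext ?_ (Prod.ext ?_ ?_)))
    · change (1 : Matrix (Fin (2 * g)) (Fin (2 * g)) ℂ) + 0 + (1 / 2 : ℂ) • 0 = 1
      rw [smul_zero, add_zero, add_zero]
    · change (0 : Matrix (Fin (2 * g)) J ℂ) + z + (1 / 2 : ℂ) • 0 = z
      rw [smul_zero, add_zero, zero_add]
    · change (1 : ℂ) + 0 + (1 / 2) * 0 = 1
      ring
    · change (0 : Matrix R (Fin (2 * g)) ℂ) + Y + (1 / 2 : ℂ) • 0 = Y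
      rw [smul_zero, add_zero, zero_add]
    · change (0 : Matrix R J ℂ) + w' + (1 / 2 : ℂ) • (Y * z) = w
      rw [hw', zero_add, sub_add_cancel]
  rwa [h3] at h2

end Pool.Agent.X306.AV
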