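import Pool.Agent.X306.AV.Blk
import Pool.Agent.Y102.AV13

set_option autoImplicit false
set_option linter.unusedVariables false
set_option linter.unusedSectionVars false
set_option linter.unusedSimpArgs false

/-!
# The period matrix of an abelian variety and its logarithmic derivatives
-/

open Matrix Module TensorProduct

noncomputable section

namespace Pool.Agent.X306.AV

open Pool.Agent.Y102 Pool.Agent.W516.DR Pool.Agent.H204R3.GP Pool.Agent.W516.KC

/-- the index of the de Rham basis -/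
def eqv (g : ℕ) : Fin g ⊕ Fin g ≃ Fin (2 * g) := finSumFinEquiv.trans (finCongr (two_mul g).symm)

variable {g : ℕ} (A : AbVar g)

/-- the period matrix -/
def PA : Matrix (Fin (2 * g)) (Fin (2 * g)) ℂ := Matrix.of fun i j => A.dR ((eqv g).symm j) (A.bas i)

theorem PA_apply (i : Fin (2 * g)) (s : Fin g ⊕ Fin g) : PA A i (eqv g s) = A.dR s (A.bas i) := by
  unfold PA
  rw [Matrix.of_apply, Equiv.symm_apply_apply]

/-- evaluation on the basis -/
def ev : (A.H1 →ₗ[ℚ] ℂ) →ₗ[ℂ] (Fin (2 * g) → ℂ) where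
  toFun φ i := φ (A.bas i)
  map_add' _ _ := rfl
  map_smul' _ _ := rfl

theorem ev_inj : Function.Injective (ev A) := by
  intro φ ψ h
  exact A.bas.ext fun i => congrFun h i

theorem PA_unit : IsUnit (PA A) := by
  rw [← Matrix.linearIndependent_cols_iff_isUnit]
  have h1 := (A.indep_dR.map' (ev A) (LinearMap.ker_eq_bot.2 (ev_inj A)))
  have h2 : (PA A).col = (ev A ∘ A.dR) ∘ (eqv g).symm := by
    funext j i
    rfl
  rw [h2]
  exact h1.comp _ (eqv g).symm.injective

theorem PA_inv : PA A * (PA A)⁻¹ = 1 := Matrix.mul_nonsing_inv _ ((Matrix.isUnit_iff_isUnit_det _).1 (PA_unit A))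

theorem inv_PA : (PA A)⁻¹ * PA A = 1 := Matrix.nonsing_inv_mul _ ((Matrix.isUnit_iff_isUnit_det _).1 (PA_unit A))

/-- the row of the first and second kind integrals from the origin to `z` -/
def UU (z e : Fin g → ℂ) : Fin g ⊕ Fin g → ℂ := Sum.elim z e

variable {R J : Type} [Fintype R] [DecidableEq R] [Fintype J] [DecidableEq J]

/-- the periods of the 1-motive -/
def pers (u e : R → Fin g → ℂ) (l : J → ℂ) : Per (Fin (2 * g)) R J where
  P := PA A
  P' := (PA A)⁻¹
  U := Matrix.of fun r j => UU (u r) (e r) ((eqv g).symm j)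
  w := 2 * Real.pi * Complex.I
  l := l
  PP' := PA_inv A
  w0 := Complex.two_pi_I_ne_zero

/-- a derivation over the algebraic numbers -/
def dQ (D : Derivation QBar ℂ ℂ) : Derivation ℚ ℂ ℂ := D.restrictScalars ℚ

theorem dQ_apply (D : Derivation QBar ℂ ℂ) (x : ℂ) : dQ D x = D x := rfl

theorem etaL_ext {z z' : ℂ ⊗[ℚ] A.H1} (h : ∀ s, etaL A.basis s z = etaL A.basis s z') : z = z' := by
  rw [← sum_ee A.basis z, ← sum_ee A.basis z']
  exact Finset.sum_congr rfl fun s _ => by rw [h]

/-- the matrix of the logarithmic derivative -/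
theorem XX_bas (D : Derivation QBar ℂ ℂ) (i : Fin (2 * g)) :
    XX A.basis D ((1 : ℂ) ⊗ₜ[ℚ] A.bas i) =
      ∑ j, ((PA A).map (dQ D) * (PA A)⁻¹) i j ⊗ₜ[ℚ] A.bas j := by
  apply etaL_ext
  intro s
  rw [etaL_XX_one, map_sum]
  have h1 : ((PA A).map (dQ D) * (PA A)⁻¹ * PA A) i (eqv g s) = D (A.basis s (A.bas i)) := by
    rw [Matrix.mul_assoc, inv_PA, Matrix.mul_one, Matrix.map_apply, PA_apply, A.coe_basis]
    rfl
  rw [← h1, Matrix.mul_apply]
  refine Finset.sum_congr rfl fun j _ => ?_
  rw [etaL_tmul, PA_apply, A.coe_basis]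

theorem vml_apply (M : Matrix (Fin (2 * g)) (Fin (2 * g)) ℚ) (i : Fin (2 * g)) :
    M.vecMulLinear (A.bas i) = fun j => M i j := by
  funext j
  have h : A.bas i = Pi.single i 1 := by
    unfold AbVar.bas
    rw [Pi.basisFun_apply]
  rw [h, Matrix.vecMulLinear_apply, Matrix.single_one_vecMul]
  rfl

/-- the components of the logarithmic derivatives -/
theorem X0_eq (u e : R → Fin g → ℂ) (l : J → ℂ) (D : Derivation QBar ℂ ℂ) (f : ℂ →ₗ[ℚ] ℚ) :
    X0 A.basis (2 * Real.pi * Complex.I) D f =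
      (cmp f (lam (pers A u e l) (dQ D))).1 -
        ((cmp f (lam (pers A u e l) (dQ D))).2.2.1 / 2) • (1 : Module.End ℚ A.H1) := by
  refine A.bas.ext fun i => ?_
  unfold X0 XL
  rw [cmpE_apply, LinearMap.sub_apply, map_sub, LinearMap.sub_apply, LinearMap.smul_apply, LinearMap.smul_apply]
  congr 1
  · rw [XX_bas, map_sum]
    have h1 : (cmp f (lam (pers A u e l) (dQ D))).1 (A.bas i) =
        fun j => f (((PA A).map (dQ D) * (PA A)⁻¹) i j) := by
      change (((PA A).map (dQ D) * (PA A)⁻¹).map f).vecMulLinear (A.bas i) = _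
      rw [vml_apply]
      rfl
    rw [h1]
    funext j
    rw [Finset.sum_apply, Finset.sum_eq_single j]
    · rw [cmp_tmul, Pi.smul_apply, AbVar.bas, Pi.basisFun_apply, Pi.single_eq_same, smul_eq_mul, mul_one]
    · intro k _ hk
      rw [cmp_tmul, Pi.smul_apply, AbVar.bas, Pi.basisFun_apply, Pi.single_eq_of_ne (Ne.symm hk), smul_zero]
    · intro h
      exact absurd (Finset.mem_univ _) h
  · rw [Module.End.one_apply, Module.End.one_apply, TensorProduct.smul_tmul', cmp_tmul]
    congr 1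
    change f ((D (2 * Real.pi * Complex.I) / (2 * (2 * Real.pi * Complex.I))) • (1 : ℂ)) =
      f (D (2 * Real.pi * Complex.I) / (2 * Real.pi * Complex.I)) / 2
    have h2 : (D (2 * Real.pi * Complex.I) / (2 * (2 * Real.pi * Complex.I))) • (1 : ℂ) =
        (1 / 2 : ℚ) • (D (2 * Real.pi * Complex.I) / (2 * Real.pi * Complex.I)) := by
      rw [smul_eq_mul, mul_one, Rat.smul_def]
      push_cast
      have := Complex.two_pi_I_ne_zero
      field_simp
    rw [h2, map_smul, smul_eq_mul]
    ring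

end Pool.Agent.X306.AV
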