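import Pool.Agent.X306.AV.Rec
import Pool.Agent.X306.AV.SL1
import Pool.Agent.Y102.Theta3

set_option autoImplicit false
set_option linter.unusedVariables false
set_option linter.unusedSectionVars false
set_option linter.unusedSimpArgs false

/-!
# Algebraic vectors in the tangent space do not lie over algebraic points
-/

open Module Filter Topology MvPolynomial

noncomputable section

namespace Pool.Agent.X306.AV

open Pool.Agent.Y102 Pool.Agent.W245.EB

variable {g : ℕ} (A : AbVar g)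

/-- the preimage of the set of the points with coordinates in `F` -/
def Pt (F : IntermediateField ℚ ℂ) : Set (Fin g → ℂ) := {z | ∃ i, A.θ i z ≠ 0 ∧ ∀ j, A.θ j z / A.θ i z ∈ F}

/-- the field `F` contains the coefficients of the equations between the theta functions and their derivatives -/
def Wr (F : IntermediateField ℚ ℂ) : Prop :=
  ∀ k i j, ∃ a : Fin (A.N + 1) → Fin (A.N + 1) → ℂ, (∀ p q, a p q ∈ F) ∧
    ∀ z, A.θ i z * pd k (A.θ j) z - A.θ j z * pd k (A.θ i) z = ∑ p, ∑ q, a p q * (A.θ p z * A.θ q z)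

/-- a combination of the theta functions -/
def tc (c : Fin (A.N + 1) → ℂ) (z : Fin g → ℂ) : ℂ := ∑ j, c j * A.θ j z

variable {A}

theorem tc_lt {c : Fin (A.N + 1) → ℂ} {e : ℂ} {z w : Fin g → ℂ} (h : ∀ i, A.θ i (z + w) = e * A.θ i z) :
    tc A c (z + w) = e * tc A c z := by
  unfold tc
  rw [Finset.mul_sum]
  exact Finset.sum_congr rfl fun j _ => by rw [h]; ring

theorem theta_diff (i : Fin (A.N + 1)) : Differentiable ℂ (A.θ i) := fun z => (A.entire i z trivial).differentiableAt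

theorem tc_diff (c : Fin (A.N + 1) → ℂ) : Differentiable ℂ (tc A c) := by
  unfold tc
  exact Differentiable.fun_sum fun j _ => (theta_diff j).const_mul _

theorem line_deriv {f : (Fin g → ℂ) → ℂ} (hf : Differentiable ℂ f) (z : Fin g → ℂ) (t : ℂ) :
    HasDerivAt (fun t : ℂ => f (t • z)) (∑ k, z k * pd k f (t • z)) t := by
  have h1 : HasDerivAt (fun t : ℂ => t • z) z t := by
    simpa using (hasDerivAt_id t).smul_const z
  have h2 := (hf (t • z)).hasFDerivAt.comp_hasDerivAt t h1
  have h3 : fderiv ℂ f (t • z) z = ∑ k, z k * pd k f (t • z) := by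
    have h4 : z = ∑ k, z k • (Pi.single k 1 : Fin g → ℂ) := by
      funext l
      rw [Finset.sum_apply, Finset.sum_eq_single l]
      · simp
      · intro k _ hk
        rw [Pi.smul_apply, Pi.single_eq_of_ne (Ne.symm hk), smul_zero]
      · intro h
        exact absurd (Finset.mem_univ _) h
    conv_lhs => rw [h4]
    rw [map_sum]
    refine Finset.sum_congr rfl fun k _ => ?_
    rw [map_smul, smul_eq_mul, ← h4]
    rfl
  rw [← h3]
  exact h2

theorem pd_tc (c : Fin (A.N + 1) → ℂ) (k : Fin g) (z : Fin g → ℂ) :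
    pd k (tc A c) z = ∑ j, c j * pd k (A.θ j) z := by
  unfold pd
  have h1 : HasFDerivAt (tc A c) (∑ j, c j • fderiv ℂ (A.θ j) z) z := by
    unfold tc
    exact HasFDerivAt.fun_sum fun j _ => ((theta_diff j z).hasFDerivAt.const_mul (c j))
  rw [h1.fderiv, ContinuousLinearMap.sum_apply]
  rfl

theorem swap4 {α β γ δ : Type} [Fintype α] [Fintype β] [Fintype γ] [Fintype δ] (T : α → β → γ → δ → ℂ) :
    ∑ a, ∑ b, ∑ c, ∑ d, T a b c d = ∑ c, ∑ d, ∑ a, ∑ b, T a b c d := by
  calc ∑ a, ∑ b, ∑ c, ∑ d, T a b c d = ∑ a, ∑ c, ∑ b, ∑ d, T a b c d :=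
        Finset.sum_congr rfl fun a _ => Finset.sum_comm
    _ = ∑ c, ∑ a, ∑ b, ∑ d, T a b c d := Finset.sum_comm
    _ = ∑ c, ∑ a, ∑ d, ∑ b, T a b c d :=
        Finset.sum_congr rfl fun c _ => Finset.sum_congr rfl fun a _ => Finset.sum_comm
    _ = _ := Finset.sum_congr rfl fun c _ => Finset.sum_comm

/-- the derivative of the quotient along a line -/
theorem quot_deriv {F : IntermediateField ℚ ℂ} {c : Fin (A.N + 1) → ℂ}
    {a : Fin g → Fin (A.N + 1) → Fin (A.N + 1) → Fin (A.N + 1) → Fin (A.N + 1) → ℂ}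
    (ha : ∀ k i j z, A.θ i z * pd k (A.θ j) z - A.θ j z * pd k (A.θ i) z = ∑ p, ∑ q, a k i j p q * (A.θ p z * A.θ q z))
    (z : Fin g → ℂ) (i : Fin (A.N + 1)) {t : ℂ} (h0 : tc A c (t • z) ≠ 0) :
    HasDerivAt (fun t : ℂ => A.θ i (t • z) / tc A c (t • z))
      (∑ p, ∑ q, (∑ k, ∑ j, z k * (c j * a k j i p q)) * (A.θ p (t • z) / tc A c (t • z) * (A.θ q (t • z) / tc A c (t • z)))) t := by
  have h1 := (line_deriv (theta_diff i) z t).div (line_deriv (tc_diff c) z t) h0
  refine h1.congr_deriv ?_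
  rw [div_eq_iff (pow_ne_zero 2 h0)]
  have h2 : (∑ k, z k * pd k (A.θ i) (t • z)) * tc A c (t • z) - A.θ i (t • z) * ∑ k, z k * pd k (tc A c) (t • z) =
      ∑ k, ∑ j, z k * (c j * (A.θ j (t • z) * pd k (A.θ i) (t • z) - A.θ i (t • z) * pd k (A.θ j) (t • z))) := by
    rw [Finset.sum_mul, Finset.mul_sum, ← Finset.sum_sub_distrib]
    refine Finset.sum_congr rfl fun k _ => ?_
    rw [pd_tc]
    unfold tc
    rw [Finset.mul_sum, Finset.mul_sum, Finset.mul_sum, ← Finset.sum_sub_distrib]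
    refine Finset.sum_congr rfl fun j _ => ?_
    ring
  rw [h2]
  have h3 : ∀ p q, (∑ k, ∑ j, z k * (c j * a k j i p q)) *
      (A.θ p (t • z) / tc A c (t • z) * (A.θ q (t • z) / tc A c (t • z))) * tc A c (t • z) ^ 2 =
      ∑ k, ∑ j, z k * (c j * (a k j i p q * (A.θ p (t • z) * A.θ q (t • z)))) := by
    intro p q
    have h4 : (∑ k, ∑ j, z k * (c j * a k j i p q)) *
      (A.θ p (t • z) / tc A c (t • z) * (A.θ q (t • z) / tc A c (t • z))) * tc A c (t • z) ^ 2 =
      (∑ k, ∑ j, z k * (c j * a k j i p q)) * (A.θ p (t • z) * A.θ q (t • z)) := by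
      field_simp
    rw [h4, Finset.sum_mul]
    refine Finset.sum_congr rfl fun k _ => ?_
    rw [Finset.sum_mul]
    exact Finset.sum_congr rfl fun j _ => by ring
  have h5 : (∑ p, ∑ q, (∑ k, ∑ j, z k * (c j * a k j i p q)) *
      (A.θ p (t • z) / tc A c (t • z) * (A.θ q (t • z) / tc A c (t • z)))) * tc A c (t • z) ^ 2 =
      ∑ p, ∑ q, ∑ k, ∑ j, z k * (c j * (a k j i p q * (A.θ p (t • z) * A.θ q (t • z)))) := by
    rw [Finset.sum_mul]
    refine Finset.sum_congr rfl fun p _ => ?_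
    rw [Finset.sum_mul]
    exact Finset.sum_congr rfl fun q _ => h3 p q
  rw [h5]
  simp only [ha, Finset.mul_sum]
  exact swap4 _

theorem finite_zeros {p : MvPolynomial (Fin 1) ℂ} (hp : p ≠ 0) : {w : ℂ | eval (fun _ => w) p = 0}.Finite := by
  let q : Polynomial ℂ := aeval (fun _ => Polynomial.X) p
  have hq : ∀ w, q.eval w = eval (fun _ => w) p := by
    intro w
    change (Polynomial.aeval w) (aeval (fun _ => Polynomial.X) p) = _
    rw [← AlgHom.comp_apply, MvPolynomial.comp_aeval]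
    simp only [Polynomial.aeval_X]
    rfl
  have hq0 : q ≠ 0 := by
    intro h
    apply hp
    apply MvPolynomial.funext
    intro x
    have h1 := hq (x 0)
    rw [h, Polynomial.eval_zero] at h1
    have h2 : (fun _ => x 0) = x := by
      funext i
      rw [Fin.fin_one_eq_zero i]
    rw [h2] at h1
    rw [← h1, map_zero]
  refine (Polynomial.finite_setOf_isRoot hq0).subset fun w hw => ?_
  change q.eval w = 0
  rw [hq]
  exact hw

/-- some coordinate is not algebraic over the coordinate on a line -/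
theorem no_rel {c : Fin (A.N + 1) → ℂ} (hc : tc A c 0 ≠ 0) {z : Fin g → ℂ} (hz : z ≠ 0) :
    ∃ i, ∀ P : MvPolynomial (Fin 2) ℂ, (∀ t : ℂ, tc A c (t • z) ≠ 0 →
      eval (Fin.cons t (fun _ => A.θ i (t • z) / tc A c (t • z)) : Fin 2 → ℂ) P = 0) → P = 0 := by
  have hc' : tc A c ((0 : ℂ) • z) ≠ 0 := by rwa [zero_smul]
  have hfd : ∀ i, HasDerivAt (fun t : ℂ => A.θ i (t • z) / tc A c (t • z))
      (((∑ k, z k * pd k (A.θ i) ((0 : ℂ) • z)) * tc A c ((0 : ℂ) • z) -
        A.θ i ((0 : ℂ) • z) * (∑ k, z k * pd k (tc A c) ((0 : ℂ) • z))) / tc A c ((0 : ℂ) • z) ^ 2) 0 := fun i =>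
    (line_deriv (theta_diff i) z 0).div (line_deriv (tc_diff c) z 0) hc'
  have hex : ∃ i, ((∑ k, z k * pd k (A.θ i) ((0 : ℂ) • z)) * tc A c ((0 : ℂ) • z) -
        A.θ i ((0 : ℂ) • z) * (∑ k, z k * pd k (tc A c) ((0 : ℂ) • z))) / tc A c ((0 : ℂ) • z) ^ 2 ≠ 0 := by
    by_contra hcon
    push Not at hcon
    apply hz
    apply A.immersion
    intro i
    have hd : ∀ i, fderiv ℂ (A.θ i) 0 z = ∑ k, z k * pd k (A.θ i) ((0 : ℂ) • z) := by
      intro i
      have h1 := line_deriv (theta_diff i) z 0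
      have h2 : HasDerivAt (fun t : ℂ => t • z) z 0 := by
        simpa using (hasDerivAt_id (0 : ℂ)).smul_const z
      have h3 := ((theta_diff i ((0 : ℂ) • z)).hasFDerivAt.comp_hasDerivAt (0 : ℂ) h2)
      have h4 := h3.unique h1
      rw [zero_smul] at h4 ⊢
      exact h4
    have h1 : ∀ i, (∑ k, z k * pd k (A.θ i) ((0 : ℂ) • z)) * tc A c ((0 : ℂ) • z) =
        A.θ i ((0 : ℂ) • z) * (∑ k, z k * pd k (tc A c) ((0 : ℂ) • z)) := by
      intro i
      have h2 := (div_eq_zero_iff.1 (hcon i)).resolve_right (pow_ne_zero 2 hc')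
      exact sub_eq_zero.1 h2
    rw [hd, hd]
    have e1 := h1 i
    have e0 := h1 0
    rw [zero_smul] at e0 e1 ⊢
    apply mul_right_cancel₀ hc
    linear_combination A.θ 0 0 * e1 - A.θ i 0 * e0
  obtain ⟨i, hi⟩ := hex
  refine ⟨i, fun P hP => ?_⟩
  by_contra hP0
  set Φ := finSuccEquiv ℂ 1 P with hΦ
  have hΦ0 : Φ ≠ 0 := by
    rw [hΦ]
    exact (map_ne_zero_iff _ (finSuccEquiv ℂ 1).injective).2 hP0
  have hrel : ∀ t : ℂ, tc A c (t • z) ≠ 0 →
      Polynomial.eval t (Polynomial.map (eval (fun _ => A.θ i (t • z) / tc A c (t • z))) Φ) = 0 := by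
    intro t ht
    rw [hΦ, ← eval_eq_eval_mv_eval']
    exact hP t ht
  obtain ⟨n, ε, hn, hε, hl⟩ := recur A z
  have hroot : ∀ t : ℂ, tc A c (t • z) ≠ 0 →
      eval (fun _ => A.θ i (t • z) / tc A c (t • z)) Φ.leadingCoeff = 0 := by
    intro t ht
    have hcont : ContinuousAt (fun w => A.θ i w / tc A c w) (t • z) :=
      ((theta_diff i).continuous.continuousAt).div ((tc_diff c).continuous.continuousAt) ht
    have hlim : Tendsto (fun k => t • z + ε k) atTop (𝓝 (t • z)) := by
      have h1 := hε.const_add (t • z)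
      rwa [add_zero] at h1
    refine lead (x := fun k => t + n k) (y := fun k => A.θ i (t • z + ε k) / tc A c (t • z + ε k)) ?_
      (hcont.tendsto.comp hlim) ?_
    · have h1 : Tendsto (fun k => ‖((n k : ℕ) : ℂ)‖ - ‖t‖) atTop atTop := by
        have h2 : Tendsto (fun k => ‖((n k : ℕ) : ℂ)‖) atTop atTop := by
          have h3 : (fun k => ‖((n k : ℕ) : ℂ)‖) = fun k => ((n k : ℕ) : ℝ) := by
            funext k
            rw [Complex.norm_natCast]
          rw [h3]
          exact tendsto_natCast_atTop_atTop.comp hn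
        exact tendsto_atTop_add_const_right _ _ h2
      refine tendsto_atTop_mono (fun k => ?_) h1
      have h2 := norm_sub_norm_le ((n k : ℕ) : ℂ) (-t)
      rw [norm_neg, sub_neg_eq_add, add_comm ((n k : ℕ) : ℂ)] at h2
      exact h2
    · have h1 : ∀ᶠ k in atTop, tc A c (t • z + ε k) ≠ 0 :=
        hlim.eventually ((tc_diff c).continuous.continuousAt.eventually_ne ht)
      filter_upwards [h1] with k hk
      obtain ⟨e, he, he'⟩ := theta_lt A (hl k) (t • z + ε k)
      have h2 : t • z + ε k + (((n k : ℕ) : ℂ) • z - ε k) = (t + n k) • z := by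
        rw [add_smul]
        abel
      rw [h2] at he'
      have h3 : tc A c ((t + n k) • z) = e * tc A c (t • z + ε k) := by
        rw [← h2]
        exact tc_lt (fun i => by rw [h2]; exact he' i)
      have h4 := hrel (t + n k) (by rw [h3]; exact mul_ne_zero he hk)
      rw [he', h3, mul_div_mul_left _ _ he] at h4
      exact h4
  have hconst := const_of_finite (finite_zeros (Polynomial.leadingCoeff_ne_zero.2 hΦ0)) (hfd i).continuousAt (by
    have h1 : ∀ᶠ t in 𝓝 (0 : ℂ), tc A c (t • z) ≠ 0 := by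
      have h2 : ContinuousAt (fun t : ℂ => tc A c (t • z)) 0 := (line_deriv (tc_diff c) z 0).continuousAt
      exact h2.eventually_ne hc'
    filter_upwards [h1] with t ht
    exact hroot t ht)
  have h5 : HasDerivAt (fun t : ℂ => A.θ i (t • z) / tc A c (t • z)) 0 0 :=
    (hasDerivAt_const (0 : ℂ) _).congr_of_eventuallyEq hconst
  exact hi ((hfd i).unique h5)

end Pool.Agent.X306.AV
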