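import Pool.Agent.X306.AV.RT

set_option autoImplicit false
set_option linter.unusedVariables false
set_option linter.unusedSectionVars false
set_option linter.unusedSimpArgs false

/-!
# Disjoint objects
-/

open Matrix Module TensorProduct

noncomputable section

namespace Pool.Agent.X306.AV

open Pool.Agent.Y102 Pool.Agent.W516.DR Pool.Agent.H204R3.GP Pool.Agent.W516.KC Pool.Agent.W516.KC2
open Pool.Agent.TH127.PT Pool.Agent.Y123.ST Pool.Agent.TH119.DR Pool.Agent.W245.EB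
open Pool.Agent.X306.RL (LL_br LL_defF GDef derD c0_inv inv_c0)
open Pool.Agent.X306.EM (QQ mem_QQ QB_iff)

variable {g : ℕ} {A : AbVar g} {R J B : Type} [Fintype R] [DecidableEq R] [Fintype J] [DecidableEq J] [Fintype B]
  [DecidableEq B]

/-- no nonzero quotient of `H_1(A)` is a subquotient of the endomorphisms of the object with period matrix `C₀` -/
def Dj (A : AbVar g) (C₀ : Matrix B B ℂ) : Prop :=
  ∀ Γ : Submodule ℂ (Matrix B B ℂ × (Fin (2 * g) → ℂ)),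
    (∀ (f : ℂ →ₗ[QQ] ℂ), ∀ p ∈ Γ, (p.1.map f, fun j => f (p.2 j)) ∈ Γ) →
    (∀ (f : ℂ →ₗ[QB] ℂ), ∀ p ∈ Γ,
      (C₀ * (C₀⁻¹ * p.1 * C₀).map f * C₀⁻¹, (fun j => f ((p.2 ᵥ* PA A) j)) ᵥ* (PA A)⁻¹) ∈ Γ) →
    ∀ p ∈ Γ, ((0 : Matrix B B ℂ), p.2) ∈ Γ

/-- the rows of the Lie algebra -/
def GC (T : Set (Matrix (B ⊕ Ix (Fin (2 * g)) R J) (B ⊕ Ix (Fin (2 * g)) R J) ℂ)) :
    Submodule ℂ (Matrix B B ℂ × Matrix R (Fin (2 * g)) ℂ) where
  carrier := {p | fl (Wm p.1 ((0, p.2, 0, 0) : LT (Fin (2 * g)) R J)) ∈ LL T}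
  zero_mem' := by
    change fl (Wm 0 0) ∈ LL T
    rw [Wm_zero, fl_zero]
    exact (LL T).zero_mem
  add_mem' := by
    intro p q h h'
    have h1 := (LL T).add_mem h h'
    have h2 : fl (Wm p.1 ((0, p.2, 0, 0) : LT (Fin (2 * g)) R J)) + fl (Wm q.1 ((0, q.2, 0, 0) : LT (Fin (2 * g)) R J)) =
        fl (Wm (p.1 + q.1) ((0, p.2 + q.2, 0, 0) : LT (Fin (2 * g)) R J)) := by
      have h3 : ((0, p.2 + q.2, 0, 0) : LT (Fin (2 * g)) R J) = (0, p.2, 0, 0) + (0, q.2, 0, 0) := by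
        refine Prod.ext (add_zero _).symm (Prod.ext rfl (Prod.ext (add_zero _).symm (add_zero _).symm))
      rw [h3, Wm_add]
      rfl
    rwa [h2] at h1
  smul_mem' := by
    intro c p h
    have h1 := (LL T).smul_mem c h
    have h2 : c • fl (Wm p.1 ((0, p.2, 0, 0) : LT (Fin (2 * g)) R J)) =
        fl (Wm (c • p.1) ((0, c • p.2, 0, 0) : LT (Fin (2 * g)) R J)) := by
      have h3 : ((0, c • p.2, 0, 0) : LT (Fin (2 * g)) R J) = c • (0, p.2, 0, 0) := by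
        refine Prod.ext (smul_zero _).symm (Prod.ext rfl (Prod.ext (smul_zero _).symm (smul_zero _).symm))
      rw [h3, Wm_smul]
      rfl
    rwa [h2] at h1

variable {u e : R → Fin g → ℂ} {l : J → ℂ}
  {T : Set (Matrix (B ⊕ Ix (Fin (2 * g)) R J) (B ⊕ Ix (Fin (2 * g)) R J) ℂ)} {C₀ : Matrix B B ℂ}

theorem mem_GC {y : Matrix B B ℂ} {Y : Matrix R (Fin (2 * g)) ℂ} :
    (y, Y) ∈ GC T ↔ fl (Wm y ((0, Y, 0, 0) : LT (Fin (2 * g)) R J)) ∈ LL T := Iff.rfl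

theorem GC_F (hF : DefOver QQ (LL T)) (f : ℂ →ₗ[QQ] ℂ) {y : Matrix B B ℂ} {Y : Matrix R (Fin (2 * g)) ℂ}
    (h : (y, Y) ∈ GC T) : (y.map f, Y.map f) ∈ GC T := by
  have h1 := hF.map f (mem_GC.1 h)
  have h2 : fl ((Wm y ((0, Y, 0, 0) : LT (Fin (2 * g)) R J)).map f) ∈ LL T := h1
  rw [Wm_map (map_zero f)] at h2
  refine mem_GC.2 ((congrArg (fun x => fl (Wm (y.map f) x) ∈ LL T) ?_).mp h2)
  refine Prod.ext ?_ (Prod.ext rfl (Prod.ext ?_ (funext fun j => ?_)))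
  · exact Matrix.map_zero _ (map_zero f)
  · exact map_zero f
  · exact map_zero f

theorem GC_K (hT : IsSubtorsor QB T) (h0 : IsUnit C₀) (hc : cmM (pers A u e l) C₀ ∈ T) (f : ℂ →ₗ[QB] ℂ)
    {y : Matrix B B ℂ} {Y : Matrix R (Fin (2 * g)) ℂ} (h : (y, Y) ∈ GC T) :
    (C₀ * (C₀⁻¹ * y * C₀).map f * C₀⁻¹, (Y * PA A).map f * (PA A)⁻¹) ∈ GC T := by
  have h1 := conj_mem hT hc (mem_GC.1 h)
  rw [cmM_conj (pers A u e l) h0] at h1
  have h2 := (RR_def hT).map f h1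
  have h3 : fl ((Wm (C₀⁻¹ * y * C₀) ((0, Y * PA A, 0, 0) : LT (Fin (2 * g)) R J)).map f) ∈ RR T := h2
  rw [Wm_map (map_zero f)] at h3
  have h3' : fl (Wm ((C₀⁻¹ * y * C₀).map f) ((0, (Y * PA A).map f, 0, 0) : LT (Fin (2 * g)) R J)) ∈ RR T := by
    refine (congrArg (fun x => fl (Wm ((C₀⁻¹ * y * C₀).map f) x) ∈ RR T) ?_).mp h3
    refine Prod.ext ?_ (Prod.ext rfl (Prod.ext ?_ (funext fun j => ?_)))
    · exact Matrix.map_zero _ (map_zero f)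
    · exact map_zero f
    · exact map_zero f
  have h4 := conj_mem' hT hc h3'
  rw [cmM_conj' (pers A u e l) h0] at h4
  exact mem_GC.2 h4

/-- the rows which are in the Lie algebra -/
def kk (T : Set (Matrix (B ⊕ Ix (Fin (2 * g)) R J) (B ⊕ Ix (Fin (2 * g)) R J) ℂ)) (A : AbVar g) :
    Submodule ℚ (R → Fin (2 * g) → ℚ) where
  carrier := {Y | ((0 : Matrix B B ℚ), ((0, Y, 0, 0) : GT (Fin (2 * g)) R J)) ∈ gF A T}
  zero_mem' := (gF A T).zero_mem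
  add_mem' := by
    intro Y Y' h h'
    have h1 := (gF A T).add_mem h h'
    simpa using h1
  smul_mem' := by
    intro q Y h
    have h1 := (gF A T).smul_mem q h
    simpa using h1

theorem mem_kk {Y : R → Fin (2 * g) → ℚ} :
    Y ∈ kk T A ↔ ((0 : Matrix B B ℚ), ((0, Y, 0, 0) : GT (Fin (2 * g)) R J)) ∈ gF A T := Iff.rfl

theorem gF_row {y y' : Matrix B B ℚ} {Y : R → Fin (2 * g) → ℚ} {ξ : GT (Fin (2 * g)) R J}
    (h : (y, ((0, Y, 0, 0) : GT (Fin (2 * g)) R J)) ∈ gF A T) (h' : (y', ξ) ∈ gF A T) :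
    (y * y' - y' * y, ((0, fun r => ξ.1 (Y r), 0, 0) : GT (Fin (2 * g)) R J)) ∈ gF A T := by
  have h1 := gF_br h h'
  rw [br_u] at h1
  refine (congrArg (fun x => (y * y' - y' * y, x) ∈ gF A T) ?_).mp h1
  refine Prod.ext rfl (Prod.ext rfl (Prod.ext rfl ?_))
  funext j
  change (0 : ℚ) * ξ.2.2.1 = 0
  rw [zero_mul]

theorem kk_stable {X : Module.End ℚ (Fin (2 * g) → ℚ)} (hX : X ∈ hh (gS A T)) {Y : R → Fin (2 * g) → ℚ}
    (hY : Y ∈ kk T A) : (fun r => X (Y r)) ∈ kk T A := by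
  obtain ⟨ξ, h, rfl⟩ := mem_hh.1 hX
  obtain ⟨y, hy⟩ := mem_gS.1 h
  have h1 := gF_row hY hy
  rw [zero_mul, mul_zero, sub_zero] at h1
  have h2 := (kk T A).sub_mem (mem_kk.2 h1) ((kk T A).smul_mem (ξ.2.2.1 / 2) hY)
  exact h2

theorem mt_cast (a : Module.End ℚ (Fin (2 * g) → ℚ)) (y : Fin (2 * g) → ℚ) (j : Fin (2 * g)) :
    ((fun i => (y i : ℂ)) ᵥ* mt a) j = ((a y j : ℚ) : ℂ) := by
  rw [row_mul]
  rfl

/-- **Disjoint objects.** -/
theorem mem_kk_of_dj (hT : IsSubtorsor QB T) (hG : GDef QQ T) (h0 : IsUnit C₀) (hc : cmM (pers A u e l) C₀ ∈ T)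
    (hd : Dj A C₀) {Y : R → Fin (2 * g) → ℚ} (hY : Y ∈ uA (gS A T)) : Y ∈ kk T A := by
  have G := good_gS hT hG h0 hc
  have hF := LL_defF hT hG hc
  obtain ⟨a, ha, hmem⟩ := exists_maps (hh (gS A T)) G.semi (kk T A) fun X hX Y hY => kk_stable hX hY
  rw [hmem]
  intro s
  choose b hb using fun r => G.drb (ha r s)
  let Bb : R → Matrix (Fin (2 * g)) (Fin (2 * g)) ℂ := fun r =>
    Matrix.of fun j i => algebraMap QBar ℂ (b r ((eqv g).symm i) ((eqv g).symm j))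
  have hBb : ∀ r, mt (a r s) * PA A = PA A * Bb r := fun r => mt_PA (hb r)
  have hBb' : ∀ r, Bb r * (PA A)⁻¹ = (PA A)⁻¹ * mt (a r s) := by
    intro r
    calc Bb r * (PA A)⁻¹ = (PA A)⁻¹ * (PA A * Bb r) * (PA A)⁻¹ := by
          rw [← Matrix.mul_assoc, inv_PA, Matrix.one_mul]
      _ = (PA A)⁻¹ * mt (a r s) := by
          rw [← hBb, Matrix.mul_assoc, Matrix.mul_assoc, PA_inv, Matrix.mul_one]
  have hBQ : ∀ r i j, Bb r i j ∈ QB := fun r i j => (QB_iff _).1 (QBar.alg _)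
  let φ : Matrix R (Fin (2 * g)) ℂ →ₗ[ℂ] (Fin (2 * g) → ℂ) :=
    { toFun := fun Y => ∑ r, Y r ᵥ* mt (a r s)
      map_add' := fun Y Y' => by
        rw [← Finset.sum_add_distrib]
        exact Finset.sum_congr rfl fun r _ => Matrix.add_vecMul _ _ _
      map_smul' := fun c Y => by
        rw [RingHom.id_apply, Finset.smul_sum]
        exact Finset.sum_congr rfl fun r _ => Matrix.smul_vecMul c (Y r) (mt (a r s)) }
  have hφ : ∀ Y, φ Y = ∑ r, Y r ᵥ* mt (a r s) := fun _ => rfl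
  let Γ : Submodule ℂ (Matrix B B ℂ × (Fin (2 * g) → ℂ)) := (GC T).map (LinearMap.prodMap LinearMap.id φ)
  have hΓ : ∀ y z, (y, z) ∈ Γ ↔ ∃ Y, (y, Y) ∈ GC T ∧ φ Y = z := by
    intro y z
    constructor
    · rintro ⟨⟨y', Y'⟩, h, h'⟩
      have h1 : y' = y := congrArg Prod.fst h'
      have h2 : φ Y' = z := congrArg Prod.snd h'
      subst h1
      exact ⟨Y', h, h2⟩
    · rintro ⟨Y', h, h'⟩
      exact ⟨(y, Y'), h, Prod.ext rfl h'⟩
  have key := hd Γ (by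
    rintro f ⟨y, z⟩ hp
    obtain ⟨Y', h1, rfl⟩ := (hΓ y z).1 hp
    refine (hΓ _ _).2 ⟨Y'.map f, GC_F hF f h1, ?_⟩
    funext j
    change φ (Y'.map f) j = f (φ Y' j)
    rw [hφ, hφ, Finset.sum_apply, Finset.sum_apply, map_sum]
    refine Finset.sum_congr rfl fun r _ => ?_
    change ∑ i, f (Y' r i) * ((a r s (Pi.single i 1) j : ℚ) : ℂ) = f (∑ i, Y' r i * ((a r s (Pi.single i 1) j : ℚ) : ℂ))
    rw [map_sum]
    refine Finset.sum_congr rfl fun i _ => ?_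
    have h2 : Y' r i * ((a r s (Pi.single i 1) j : ℚ) : ℂ) =
        (⟨((a r s (Pi.single i 1) j : ℚ) : ℂ), mem_QQ.2 ⟨_, rfl⟩⟩ : QQ) • Y' r i := mul_comm _ _
    rw [h2, map_smul]
    exact mul_comm _ _) (by
    rintro f ⟨y, z⟩ hp
    obtain ⟨Y', h1, rfl⟩ := (hΓ y z).1 hp
    refine (hΓ _ _).2 ⟨(Y' * PA A).map f * (PA A)⁻¹, GC_K hT h0 hc f h1, ?_⟩
    have h2 : φ Y' ᵥ* PA A = ∑ r, (Y' r ᵥ* PA A) ᵥ* Bb r := by
      rw [hφ, Matrix.sum_vecMul]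
      refine Finset.sum_congr rfl fun r _ => ?_
      rw [Matrix.vecMul_vecMul, Matrix.vecMul_vecMul, hBb]
    have h3 : (fun j => f ((φ Y' ᵥ* PA A) j)) = ∑ r, (fun j => f ((Y' r ᵥ* PA A) j)) ᵥ* Bb r := by
      funext j
      rw [h2, Finset.sum_apply, Finset.sum_apply, map_sum]
      refine Finset.sum_congr rfl fun r _ => ?_
      change f (∑ i, (Y' r ᵥ* PA A) i * Bb r i j) = ∑ i, f ((Y' r ᵥ* PA A) i) * Bb r i j
      rw [map_sum]
      refine Finset.sum_congr rfl fun i _ => ?_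
      have h4 : (Y' r ᵥ* PA A) i * Bb r i j = (⟨Bb r i j, hBQ r i j⟩ : QB) • (Y' r ᵥ* PA A) i := mul_comm _ _
      rw [h4, map_smul]
      exact mul_comm _ _
    change φ ((Y' * PA A).map f * (PA A)⁻¹) = (fun j => f ((φ Y' ᵥ* PA A) j)) ᵥ* (PA A)⁻¹
    rw [h3, Matrix.sum_vecMul, hφ]
    refine Finset.sum_congr rfl fun r _ => ?_
    rw [Matrix.vecMul_vecMul, hBb', ← Matrix.vecMul_vecMul]
    rfl)
  obtain ⟨y, hy⟩ := mem_gS.1 (mem_uA.1 hY)
  have h1 : (cm2 y, (Matrix.of fun r j => ((Y r j : ℚ) : ℂ))) ∈ GC T := by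
    refine mem_GC.2 ((congrArg (fun x => fl (Wm (cm2 y) x) ∈ LL T) ?_).mp (mem_gF.1 hy).2)
    refine Prod.ext ?_ (Prod.ext rfl (Prod.ext ?_ (funext fun j => ?_)))
    · ext i j
      change (((0 : Module.End ℚ (Fin (2 * g) → ℚ)) (Pi.single i 1) j : ℚ) : ℂ) = 0
      exact Rat.cast_zero
    · exact Rat.cast_zero
    · exact Rat.cast_zero
  have h2 := key _ ((hΓ _ _).2 ⟨_, h1, rfl⟩)
  obtain ⟨Y', h3, h4⟩ := (hΓ _ _).1 h2
  have h5 : φ Y' = 0 := by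
    funext j
    refine eq_zero_of_dual (k := ℚ) fun f => ?_
    have h6 : (fun r j => f (Y' r j)) ∈ kk T A := by
      refine mem_kk.2 (mem_gF.2 ⟨fun v w => ?_, ?_⟩)
      · change A.om (0 : Fin (2 * g) → ℚ) w + A.om v (0 : Fin (2 * g) → ℚ) = 0 * A.om v w
        rw [map_zero, LinearMap.zero_apply, map_zero, zero_mul, add_zero]
      · have h7 := Wm_cmp f hT hG hc (mem_GC.1 h3)
        rw [Matrix.map_zero _ (map_zero f)] at h7
        refine (congrArg (fun x => fl (Wm (cm2 (0 : Matrix B B ℚ)) (cb x)) ∈ LL T) ?_).mp h7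
        refine Prod.ext ?_ (Prod.ext rfl (Prod.ext (map_zero f) (funext fun j => map_zero f)))
        change ((0 : Matrix (Fin (2 * g)) (Fin (2 * g)) ℂ).map f).vecMulLinear = 0
        rw [Matrix.map_zero _ (map_zero f)]
        refine LinearMap.ext fun v => ?_
        rw [Matrix.vecMulLinear_apply, Matrix.vecMul_zero]
        rfl
    have h8 := congrFun ((hmem _).1 h6 s) j
    rw [Finset.sum_apply] at h8
    rw [hφ, Finset.sum_apply, map_sum]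
    refine Eq.trans ?_ h8
    exact Finset.sum_congr rfl fun r _ => comp_mt f (a r s) (Y' r) j
  rw [h5] at h4
  funext j
  have h6 := congrFun h4 j
  change (0 : ℂ) = φ (Matrix.of fun r j => ((Y r j : ℚ) : ℂ)) j at h6
  rw [hφ, Finset.sum_apply] at h6
  rw [Finset.sum_apply]
  have h7 : ∀ r, ((Matrix.of fun r j => ((Y r j : ℚ) : ℂ)) r ᵥ* mt (a r s)) j = ((a r s (Y r) j : ℚ) : ℂ) :=
    fun r => mt_cast (a r s) (Y r) j
  simp only [h7] at h6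
  rw [← Rat.cast_sum] at h6
  exact_mod_cast h6.symm

end Pool.Agent.X306.AV
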