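import Pool.Agent.X306.AV.RA

set_option autoImplicit false
set_option linter.unusedVariables false
set_option linter.unusedSectionVars false
set_option linter.unusedSimpArgs false

/-!
# Objects with triangularizable group
-/

open Matrix Module TensorProduct

noncomputable section

namespace Pool.Agent.X306.AV

open Pool.Agent.Y102 Pool.Agent.W516.DR Pool.Agent.H204R3.GP Pool.Agent.W516.KC Pool.Agent.W516.KC2
open Pool.Agent.TH127.PT Pool.Agent.Y123.ST Pool.Agent.TH119.DR Pool.Agent.W245.EB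
open Pool.Agent.X306.RL (LL_br LL_defF GDef derD c0_inv inv_c0)
open Pool.Agent.X306.EM (QQ mem_QQ QB_iff)

variable {g : ℕ} {A : AbVar g} {R J : Type} [Fintype R] [DecidableEq R] [Fintype J] [DecidableEq J]

/-! ## Complex multiplication -/

/-- `A` has no part with complex multiplication -/
def NoCM (A : AbVar g) : Prop :=
  ∀ w : Fin (2 * g) → ℚ, w ≠ 0 → ∃ S T : Module.End ℚ (Fin (2 * g) → ℚ),
    (∀ P : Module.End ℚ (Fin (2 * g) → ℚ), (∃ M : (Fin g → ℂ) →ₗ[ℂ] (Fin g → ℂ), ∀ v, M (A.per v) = A.per (P v)) →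
      S * P = P * S ∧ T * P = P * T) ∧ S (T w) ≠ T (S w)

theorem exists_proj {V : Type*} [AddCommGroup V] [Module ℚ V] {𝔥 : Submodule ℚ (Module.End ℚ V)} (hs : Semi 𝔥)
    (U : Submodule ℚ V) (hU : ∀ X ∈ 𝔥, ∀ v ∈ U, X v ∈ U) :
    ∃ e : Module.End ℚ V, (∀ v, e v ∈ U) ∧ (∀ v ∈ U, e v = v) ∧ ∀ X ∈ 𝔥, X * e = e * X := by
  obtain ⟨U', h1, h2⟩ := hs U hU
  let e : Module.End ℚ V := U.subtype.comp (U.projectionOnto U' h2)
  have e1 : ∀ v, e v ∈ U := fun v => (U.projectionOnto U' h2 v).2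
  have e2 : ∀ v ∈ U, e v = v := fun v hv =>
    congrArg Subtype.val (Submodule.projectionOnto_apply_left h2 ⟨v, hv⟩)
  have e3 : ∀ v ∈ U', e v = 0 := fun v hv => by
    have h3 := (Submodule.projectionOnto_apply_eq_zero_iff h2).2 hv
    change ((U.projectionOnto U' h2 v : U) : V) = 0
    rw [h3]
    rfl
  refine ⟨e, e1, e2, fun X hX => LinearMap.ext fun v => ?_⟩
  obtain ⟨a, b, ha, hb, rfl⟩ := Submodule.codisjoint_iff_exists_add_eq.1 h2.codisjoint v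
  change X (e (a + b)) = e (X (a + b))
  rw [map_add, map_add, map_add, map_add, e2 a ha, e3 b hb, map_zero, e2 _ (hU X hX a ha), e3 _ (h1 X hX b hb)]

variable {u e : R → Fin g → ℂ} {l : J → ℂ} {𝔤 : Submodule ℚ (GT (Fin (2 * g)) R J)}

theorem Good.comm_of_killed (G : Good A u e l 𝔤) {w : Fin (2 * g) → ℚ}
    (hw : ∀ X ∈ hh 𝔤, ∀ Y ∈ hh 𝔤, X (Y w) = Y (X w)) {S T : Module.End ℚ (Fin (2 * g) → ℚ)}
    (h : ∀ P : Module.End ℚ (Fin (2 * g) → ℚ), (∃ M : (Fin g → ℂ) →ₗ[ℂ] (Fin g → ℂ), ∀ v, M (A.per v) = A.per (P v)) →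
      S * P = P * S ∧ T * P = P * T) : S (T w) = T (S w) := by
  let V₀ : Submodule ℚ (Fin (2 * g) → ℚ) :=
    { carrier := {w | ∀ X ∈ hh 𝔤, ∀ Y ∈ hh 𝔤, X (Y w) = Y (X w)}
      zero_mem' := fun X _ Y _ => by simp
      add_mem' := fun {a b} ha hb X hX Y hY => by
        simp only [map_add, ha X hX Y hY, hb X hX Y hY]
      smul_mem' := fun q a ha X hX Y hY => by
        simp only [map_smul, ha X hX Y hY] }
  have hmem : ∀ {w : Fin (2 * g) → ℚ}, w ∈ V₀ ↔ ∀ X ∈ hh 𝔤, ∀ Y ∈ hh 𝔤, X (Y w) = Y (X w) := fun {w} => Iff.rfl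
  have hst : ∀ Z ∈ hh 𝔤, ∀ v ∈ V₀, Z v ∈ V₀ := by
    intro Z hZ v hv
    refine hmem.2 fun X hX Y hY => ?_
    have h1 := hmem.1 hv _ (G.br_hh hX hY) Z hZ
    have h2 := hmem.1 hv X hX Y hY
    simp only [LinearMap.sub_apply, Module.End.mul_apply] at h1
    rw [h2, sub_self, map_zero] at h1
    exact sub_eq_zero.1 h1
  obtain ⟨p, p1, p2, p3⟩ := exists_proj G.semi V₀ hst
  have hcX : ∀ X ∈ hh 𝔤, ∀ Y ∈ hh 𝔤, Y * (X * p) = (X * p) * Y := by
    intro X hX Y hY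
    refine LinearMap.ext fun v => ?_
    have h1 := hmem.1 (p1 v) Y hY X hX
    have h2 := congrArg (fun F : Module.End ℚ (Fin (2 * g) → ℚ) => F v) (p3 Y hY)
    simp only [Module.End.mul_apply] at h2 ⊢
    rw [h1, h2]
  obtain ⟨hSp, hTp⟩ := h p (G.hodge p3)
  have hSX : ∀ X ∈ hh 𝔤, X * (S * p) = (S * p) * X := by
    intro X hX
    have h1 := (h (X * p) (G.hodge (hcX X hX))).1
    calc X * (S * p) = X * p * S := by rw [hSp, mul_assoc]
      _ = S * (X * p) := h1.symm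
      _ = S * p * X := by rw [p3 X hX, mul_assoc]
  have h2 := (h (S * p) (G.hodge hSX)).2
  have hwV : w ∈ V₀ := hmem.2 hw
  have h3 := congrArg (fun F : Module.End ℚ (Fin (2 * g) → ℚ) => F w) h2
  have h4 := congrArg (fun F : Module.End ℚ (Fin (2 * g) → ℚ) => F w) hTp
  simp only [Module.End.mul_apply] at h3 h4
  rw [p2 w hwV] at h3 h4
  rw [← h4] at h3
  exact h3.symm

/-- the commutators generate -/
theorem Good.span_br (G : Good A u e l 𝔤) (hA : NoCM A) :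
    uA 𝔤 ≤ Submodule.span ℚ {Z | ∃ ξ ∈ 𝔤, ∃ ξ' ∈ 𝔤, ∃ Y ∈ uA 𝔤, Z = fun r => (Pool.Agent.X306.AV.br ξ ξ').1 (Y r)} := by
  set V := Submodule.span ℚ {Z | ∃ ξ ∈ 𝔤, ∃ ξ' ∈ 𝔤, ∃ Y ∈ uA 𝔤, Z = fun r => (Pool.Agent.X306.AV.br ξ ξ').1 (Y r)}
    with hV
  have hVu : V ≤ uA 𝔤 := by
    refine Submodule.span_le.2 ?_
    rintro _ ⟨ξ, hξ, ξ', hξ', Y, hY, rfl⟩
    exact G.uA_stable hY (G.br ξ hξ ξ' hξ')
  have hst : ∀ X ∈ hh 𝔤, ∀ Z ∈ V, (fun r => X (Z r)) ∈ V := by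
    intro X hX Z hZ
    obtain ⟨η, hη, rfl⟩ := mem_hh.1 hX
    have key : ∀ Z ∈ V, (fun r => η.1 (Z r)) ∈ V := by
      intro Z hZ
      induction hZ using Submodule.span_induction with
      | mem Z h =>
        obtain ⟨ξ, hξ, ξ', hξ', Y, hY, rfl⟩ := h
        have h1 : (fun r => η.1 ((Pool.Agent.X306.AV.br ξ ξ').1 (Y r))) =
            (fun r => (Pool.Agent.X306.AV.br ξ ξ').1 (η.1 (Y r))) +
            (fun r => (Pool.Agent.X306.AV.br (Pool.Agent.X306.AV.br ξ ξ') η).1 (Y r)) := by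
          funext r
          change _ = _ + (η.1 ((Pool.Agent.X306.AV.br ξ ξ').1 (Y r)) - (Pool.Agent.X306.AV.br ξ ξ').1 (η.1 (Y r)))
          abel
        rw [h1]
        exact V.add_mem (Submodule.subset_span ⟨ξ, hξ, ξ', hξ', _, G.uA_stable hY hη, rfl⟩)
          (Submodule.subset_span ⟨_, G.br ξ hξ ξ' hξ', η, hη, Y, hY, rfl⟩)
      | zero =>
        have h1 : (fun r => η.1 ((0 : R → Fin (2 * g) → ℚ) r)) = 0 := funext fun r => map_zero _
        rw [h1]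
        exact V.zero_mem
      | add x y _ _ h1 h2 =>
        have h3 : (fun r => η.1 ((x + y) r)) = (fun r => η.1 (x r)) + (fun r => η.1 (y r)) := funext fun r => map_add _ _ _
        rw [h3]
        exact V.add_mem h1 h2
      | smul q x _ h1 =>
        have h3 : (fun r => η.1 ((q • x) r)) = q • (fun r => η.1 (x r)) := funext fun r => LinearMap.map_smul η.1 q (x r)
        rw [h3]
        exact V.smul_mem q h1
    exact V.sub_mem (key Z hZ) (V.smul_mem (η.2.2.1 / 2) hZ)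
  obtain ⟨a, ha, hmem⟩ := exists_maps (hh 𝔤) G.semi V hst
  intro Y hY
  rw [hmem]
  intro s
  by_contra hne
  obtain ⟨S, T, hST, hne'⟩ := hA _ hne
  apply hne'
  refine G.comm_of_killed (fun X hX X' hX' => ?_) hST
  obtain ⟨ξ, hξ, rfl⟩ := mem_hh.1 hX
  obtain ⟨ξ', hξ', rfl⟩ := mem_hh.1 hX'
  have h1 : (fun r => (Pool.Agent.X306.AV.br ξ' ξ).1 (Y r)) ∈ V := Submodule.subset_span ⟨ξ', hξ', ξ, hξ, Y, hY, rfl⟩
  have h2 := (hmem _).1 h1 s
  have h3 : ∀ r, a r s ((Pool.Agent.X306.AV.br ξ' ξ).1 (Y r)) = (Pool.Agent.X306.AV.br ξ' ξ).1 (a r s (Y r)) := fun r =>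
    (G.comm_fst (ha r s) (G.br ξ' hξ' ξ hξ) (Y r)).symm
  simp only [h3] at h2
  rw [← map_sum] at h2
  have h4 : (Pool.Agent.X306.AV.br ξ' ξ).1 = tl ξ * tl ξ' - tl ξ' * tl ξ := by
    rw [← tl_br, tl_apply]
    change _ = (Pool.Agent.X306.AV.br ξ' ξ).1 - ((0 : ℚ) / 2) • (1 : Module.End ℚ (Fin (2 * g) → ℚ))
    rw [zero_div, zero_smul, sub_zero]
  rw [h4, LinearMap.sub_apply, Module.End.mul_apply, Module.End.mul_apply] at h2
  exact sub_eq_zero.1 h2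

/-! ## Triangular matrices -/

/-- the filtration of the upper triangular matrices -/
def upk {m : ℕ} (k : ℕ) (z : Matrix (Fin m) (Fin m) ℂ) : Prop := ∀ i j : Fin m, (j : ℕ) < i + k → z i j = 0

theorem upk_mul {m k k' : ℕ} {z z' : Matrix (Fin m) (Fin m) ℂ} (h : upk k z) (h' : upk k' z') : upk (k + k') (z * z') := by
  intro i j hij
  rw [Matrix.mul_apply]
  refine Finset.sum_eq_zero fun p _ => ?_
  by_cases hp : (p : ℕ) < i + k
  · rw [h i p hp, zero_mul]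
  · rw [h' p j (by omega), mul_zero]

theorem upk_sub {m k : ℕ} {z z' : Matrix (Fin m) (Fin m) ℂ} (h : upk k z) (h' : upk k z') : upk k (z - z') := by
  intro i j hij
  rw [Matrix.sub_apply, h i j hij, h' i j hij, sub_zero]

theorem upk_comm {m : ℕ} {z z' : Matrix (Fin m) (Fin m) ℂ} (h : upk 0 z) (h' : upk 0 z') : upk 1 (z * z' - z' * z) := by
  intro i j hij
  have h1 := upk_sub (upk_mul h h') (upk_mul h' h)
  by_cases hj : (j : ℕ) < i
  · exact h1 i j (by omega)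
  · have hij' : j = i := Fin.ext (by omega)
    subst hij'
    have key : ∀ {z z' : Matrix (Fin m) (Fin m) ℂ}, upk 0 z → upk 0 z' → (z * z') j j = z j j * z' j j := by
      intro z z' h h'
      rw [Matrix.mul_apply, Finset.sum_eq_single j]
      · intro p _ hp
        rcases lt_or_gt_of_ne (fun h : (p : ℕ) = j => hp (Fin.ext h)) with h2 | h2
        · rw [h j p (by omega), zero_mul]
        · rw [h' p j (by omega), mul_zero]
      · intro h2
        exact absurd (Finset.mem_univ _) h2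
    rw [Matrix.sub_apply, key h h', key h' h, mul_comm, sub_self]

theorem upk_top {m : ℕ} {z : Matrix (Fin m) (Fin m) ℂ} (h : upk m z) : z = 0 := by
  ext i j
  exact h i j (by omega)

theorem upper_LL {m : ℕ} {T₀ : Set (Matrix (Fin m) (Fin m) ℂ)} {C₀ : Matrix (Fin m) (Fin m) ℂ} (h0 : IsUnit C₀)
    (hc : C₀ ∈ T₀) {S S' : Matrix (Fin m) (Fin m) ℂ}
    (hU : ∀ x ∈ T₀, ∀ y ∈ T₀, ∀ i j, j < i → (S * (x * y⁻¹) * S') i j = 0) {w : Matrix (Fin m) (Fin m) ℂ}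
    (hw : fl w ∈ LL T₀) : upk 0 (S * w * S') := by
  intro i j hij
  have h1 : Van T₀ (sb (ml S ∘ₗ mr (C₀⁻¹ * S')) (i, j)) := by
    intro x hx
    rw [eval_sb]
    change (S * (x * (C₀⁻¹ * S'))) i j = 0
    rw [← hU x hx C₀ hc i j (by
      rw [Fin.lt_def]
      omega)]
    simp only [Matrix.mul_assoc]
  have h2 := hw _ h1 C₀ hc
  rw [dd_sb] at h2
  change (S * (w * C₀ * (C₀⁻¹ * S'))) i j = 0 at h2
  have h3 : S * (w * C₀ * (C₀⁻¹ * S')) = S * w * S' := by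
    rw [Matrix.mul_assoc w, ← Matrix.mul_assoc C₀, c0_inv h0, Matrix.one_mul, Matrix.mul_assoc]
  rwa [h3] at h2

/-! ## The restricted Lie algebra -/

section

variable {B : Type} [Fintype B] [DecidableEq B]
  {T : Set (Matrix (B ⊕ Ix (Fin (2 * g)) R J) (B ⊕ Ix (Fin (2 * g)) R J) ℂ)} {C₀ : Matrix B B ℂ}

/-- the second projection of a part of the Lie algebra -/
def gU (A : AbVar g) (T : Set (Matrix (B ⊕ Ix (Fin (2 * g)) R J) (B ⊕ Ix (Fin (2 * g)) R J) ℂ))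
    (𝔱 : Submodule ℚ (Matrix B B ℚ)) : Submodule ℚ (GT (Fin (2 * g)) R J) :=
  (gF A T ⊓ 𝔱.comap (LinearMap.fst ℚ (Matrix B B ℚ) (GT (Fin (2 * g)) R J))).map
    (LinearMap.snd ℚ (Matrix B B ℚ) (GT (Fin (2 * g)) R J))

theorem mem_gU {𝔱 : Submodule ℚ (Matrix B B ℚ)} {ξ : GT (Fin (2 * g)) R J} :
    ξ ∈ gU A T 𝔱 ↔ ∃ y ∈ 𝔱, (y, ξ) ∈ gF A T := by
  constructor
  · rintro ⟨⟨y, x⟩, h, rfl⟩
    exact ⟨y, h.2, h.1⟩
  · rintro ⟨y, hy, h⟩
    exact ⟨(y, ξ), ⟨h, hy⟩, rfl⟩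

theorem good_gU (hT : IsSubtorsor QB T) (hG : GDef QQ T) (h0 : IsUnit C₀) (hc : cmM (pers A u e l) C₀ ∈ T)
    {𝔱 : Submodule ℚ (Matrix B B ℚ)} (ht : ∀ y ∈ 𝔱, ∀ y' ∈ 𝔱, y * y' - y' * y ∈ 𝔱)
    (hd : ∀ (D : Derivation QBar ℂ ℂ) (f : ℂ →ₗ[ℚ] ℚ), (C₀.map (dQ D) * C₀⁻¹).map f ∈ 𝔱) :
    Good A u e l (gU A T 𝔱) where
  skew ξ hξ := by
    obtain ⟨y, hy, h⟩ := mem_gU.1 hξ
    exact h.1
  br ξ hξ ξ' hξ' := by
    obtain ⟨y, hy, h⟩ := mem_gU.1 hξ
    obtain ⟨y', hy', h'⟩ := mem_gU.1 hξ'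
    exact mem_gU.2 ⟨_, ht y hy y' hy', gF_br h h'⟩
  der D f := by
    refine mem_gU.2 ⟨(C₀.map (dQ D) * C₀⁻¹).map f, hd D f, mem_gF.2 ⟨fun v w => ?_, ?_⟩⟩
    · have hom : IsDeRhamBettiBilinear QBar A.basis (2 * Real.pi * Complex.I) A.om := by
        rw [AbVar.coe_basis]
        exact A.om_drb
      have h1 := skew_of_mem A.basis AbVar.tau_ne A.om hom (X0_mem A.basis AbVar.tau_ne D f) v w
      rw [X0_eq A u e l D f] at h1
      simp only [LinearMap.sub_apply, LinearMap.smul_apply, Module.End.one_apply, map_sub, map_smul, smul_eq_mul] at h1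
      linear_combination h1
    · refine Wm_cmp f hT hG hc ?_
      rw [← cmM_der (pers A u e l) h0]
      exact logder_mem hT (derD (dQ D) QB fun x hx => (QB_iff x).2 hx) hc

end

section

variable {m : ℕ} {T : Set (Matrix (Fin m ⊕ Ix (Fin (2 * g)) R J) (Fin m ⊕ Ix (Fin (2 * g)) R J) ℂ)}
  {C₀ : Matrix (Fin m) (Fin m) ℂ}

/-- **Objects with triangularizable group.** -/
theorem mem_kk_of_tri (hA : NoCM A) {𝔱 : Submodule ℚ (Matrix (Fin m) (Fin m) ℚ)} (G : Good A u e l (gU A T 𝔱))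
    {S S' : Matrix (Fin m) (Fin m) ℂ} (hS : S' * S = 1) (hS' : S * S' = 1) (hU : ∀ y ∈ 𝔱, upk 0 (S * cm2 y * S'))
    {Y : R → Fin (2 * g) → ℚ} (hY : Y ∈ uA (gU A T 𝔱)) : Y ∈ kk T A := by
  have hmul : ∀ y y' : Matrix (Fin m) (Fin m) ℚ, S * cm2 (y * y') * S' = (S * cm2 y * S') * (S * cm2 y' * S') := by
    intro y y'
    calc S * cm2 (y * y') * S' = S * cm2 y * (1 * cm2 y') * S' := by rw [cm2_mul, Matrix.one_mul]; simp only [Matrix.mul_assoc]
      _ = (S * cm2 y * S') * (S * cm2 y' * S') := by rw [← hS]; simp only [Matrix.mul_assoc]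
  have hsub : ∀ y y' : Matrix (Fin m) (Fin m) ℚ, S * cm2 (y - y') * S' = S * cm2 y * S' - S * cm2 y' * S' := by
    intro y y'
    rw [cm2_sub, Matrix.mul_sub, Matrix.sub_mul]
  -- the filtration
  let W : ℕ → Submodule ℚ (R → Fin (2 * g) → ℚ) := fun k =>
    { carrier := {Y | ∃ y, upk k (S * cm2 y * S') ∧ (y, ((0, Y, 0, 0) : GT (Fin (2 * g)) R J)) ∈ gF A T}
      zero_mem' := by
        refine ⟨0, fun i j _ => ?_, (gF A T).zero_mem⟩
        rw [cm2_zero, Matrix.mul_zero, Matrix.zero_mul]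
        rfl
      add_mem' := by
        rintro Y Y' ⟨y, h1, h2⟩ ⟨y', h3, h4⟩
        refine ⟨y + y', fun i j hij => ?_, ?_⟩
        · rw [cm2_add, Matrix.mul_add, Matrix.add_mul, Matrix.add_apply, h1 i j hij, h3 i j hij, add_zero]
        · have h5 := (gF A T).add_mem h2 h4
          simpa using h5
      smul_mem' := by
        rintro q Y ⟨y, h1, h2⟩
        refine ⟨q • y, fun i j hij => ?_, ?_⟩
        · rw [cm2_smul, Matrix.mul_smul, Matrix.smul_mul, Matrix.smul_apply, h1 i j hij, smul_zero]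
        · have h5 := (gF A T).smul_mem q h2
          simpa using h5 }
  have hW : ∀ k Y, Y ∈ W k ↔ ∃ y, upk k (S * cm2 y * S') ∧ (y, ((0, Y, 0, 0) : GT (Fin (2 * g)) R J)) ∈ gF A T :=
    fun k Y => Iff.rfl
  have key : ∀ k, uA (gU A T 𝔱) ≤ W k := by
    intro k
    induction k with
    | zero =>
      intro Y hY
      obtain ⟨y, hy, h⟩ := mem_gU.1 (mem_uA.1 hY)
      exact (hW _ _).2 ⟨y, hU y hy, h⟩
    | succ k ih =>
      refine (G.span_br hA).trans (Submodule.span_le.2 ?_)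
      rintro _ ⟨ξ, hξ, ξ', hξ', Y, hY, rfl⟩
      obtain ⟨y, h1, h2⟩ := (hW _ _).1 (ih hY)
      obtain ⟨z, hz, h3⟩ := mem_gU.1 hξ
      obtain ⟨z', hz', h4⟩ := mem_gU.1 hξ'
      refine (hW _ _).2 ⟨y * (z * z' - z' * z) - (z * z' - z' * z) * y, ?_, gF_row h2 (gF_br h3 h4)⟩
      have h5 : upk 1 (S * cm2 (z * z' - z' * z) * S') := by
        rw [hsub, hmul, hmul]
        exact upk_comm (hU z hz) (hU z' hz')
      rw [hsub, hmul, hmul]
      have h6 := upk_mul h5 h1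
      rw [Nat.add_comm 1 k] at h6
      exact upk_sub (upk_mul h1 h5) h6
  obtain ⟨y, h1, h2⟩ := (hW _ _).1 (key m hY)
  have h3 := upk_top h1
  have h4 : cm2 y = 0 := by
    have h5 : S' * (S * cm2 y * S') * S = cm2 y := by
      rw [Matrix.mul_assoc S, ← Matrix.mul_assoc S', hS, Matrix.one_mul, Matrix.mul_assoc, hS, Matrix.mul_one]
    rw [← h5, h3, Matrix.mul_zero, Matrix.zero_mul]
  have h5 : y = 0 := by
    ext i j
    have h6 := congrFun (congrFun h4 i) j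
    change ((y i j : ℚ) : ℂ) = 0 at h6
    exact_mod_cast h6
  rw [h5] at h2
  exact mem_kk.2 h2

/-- the rational elements of the Lie algebra of a torsor -/
def gt (T₀ : Set (Matrix (Fin m) (Fin m) ℂ)) : Submodule ℚ (Matrix (Fin m) (Fin m) ℚ) where
  carrier := {y | fl (cm2 y) ∈ LL T₀}
  zero_mem' := by
    change fl (cm2 0) ∈ LL T₀
    rw [cm2_zero]
    exact (LL T₀).zero_mem
  add_mem' := by
    intro y y' h h'
    have h1 := (LL T₀).add_mem h h'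
    rw [← fl_add, ← cm2_add] at h1
    exact h1
  smul_mem' := by
    intro q y h
    have h1 := (LL T₀).smul_mem (q : ℂ) h
    rw [← fl_smul, ← cm2_smul] at h1
    exact h1

theorem gt_br {T₀ : Set (Matrix (Fin m) (Fin m) ℂ)} : ∀ y ∈ gt T₀, ∀ y' ∈ gt T₀, y * y' - y' * y ∈ gt T₀ := by
  intro y hy y' hy'
  change fl (cm2 (y * y' - y' * y)) ∈ LL T₀
  rw [cm2_sub, cm2_mul, cm2_mul]
  exact LL_br hy hy'

theorem gt_der {T₀ : Set (Matrix (Fin m) (Fin m) ℂ)} (hT : IsSubtorsor QB T₀) (hG : GDef QQ T₀) (hc : C₀ ∈ T₀)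
    (D : Derivation QBar ℂ ℂ) (f : ℂ →ₗ[ℚ] ℚ) : (C₀.map (dQ D) * C₀⁻¹).map f ∈ gt T₀ := by
  have h1 := logder_mem hT (derD (dQ D) QB fun x hx => (QB_iff x).2 hx) hc
  have h2 := (LL_defF hT hG hc).map (ratc f) h1
  exact h2

end

end Pool.Agent.X306.AV
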