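import Pool.Agent.X306.AV.RB

set_option autoImplicit false
set_option linter.unusedVariables false
set_option linter.unusedSectionVars false
set_option linter.unusedSimpArgs false

/-!
# Subobjects and rationality
-/

open Matrix Module TensorProduct

noncomputable section

namespace Pool.Agent.X306.AV

open Pool.Agent.TH119.DR

variable {B n : Type} [Fintype B] [DecidableEq B] [Fintype n] [DecidableEq n]

/-- coordinates -/
def evv : (Matrix B B ℂ × (n → ℂ)) →ₗ[ℂ] ((B × B) ⊕ n → ℂ) where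
  toFun p := Sum.elim (fun b => p.1 b.1 b.2) p.2
  map_add' p q := by
    funext s
    rcases s with s | s <;> rfl
  map_smul' a p := by
    funext s
    rcases s with s | s <;> rfl

/-- the inverse -/
def vev : ((B × B) ⊕ n → ℂ) →ₗ[ℂ] (Matrix B B ℂ × (n → ℂ)) where
  toFun w := (Matrix.of fun i j => w (Sum.inl (i, j)), fun j => w (Sum.inr j))
  map_add' _ _ := rfl
  map_smul' _ _ := rfl

theorem vev_evv (p : Matrix B B ℂ × (n → ℂ)) : vev (evv p) = p := rfl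

variable {F K : Subfield ℂ}

theorem spanv {Γ : Submodule ℂ (Matrix B B ℂ × (n → ℂ))}
    (h : ∀ f : ℂ →ₗ[F] ℂ, ∀ p ∈ Γ, (p.1.map f, fun j => f (p.2 j)) ∈ Γ) :
    Γ ≤ Submodule.span ℂ {p | p ∈ Γ ∧ (∀ i j, p.1 i j ∈ F) ∧ ∀ j, p.2 j ∈ F} := by
  have h1 : DefOver F (Γ.comap vev) := by
    refine defOver_of_map fun f w hw => ?_
    exact h f _ hw
  intro p hp
  have h2 : evv p ∈ Γ.comap vev := by
    change vev (evv p) ∈ Γ
    rwa [vev_evv]
  have h3 := h1 h2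
  have h4 := Submodule.mem_map_of_mem (f := vev) h3
  rw [vev_evv, Submodule.map_span] at h4
  refine Submodule.span_mono ?_ h4
  rintro _ ⟨w, ⟨hw1, hw2⟩, rfl⟩
  exact ⟨hw1, fun i j => hw2 _, fun j => hw2 _⟩

variable {C C' : Matrix B B ℂ} {P P' : Matrix n n ℂ}

/-- conjugation -/
def cjv (C C' : Matrix B B ℂ) (P' : Matrix n n ℂ) : (Matrix B B ℂ × (n → ℂ)) →ₗ[ℂ] (Matrix B B ℂ × (n → ℂ)) where
  toFun p := (C * p.1 * C', p.2 ᵥ* P')
  map_add' p q := by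
    refine Prod.ext ?_ ?_
    · change C * (p.1 + q.1) * C' = C * p.1 * C' + C * q.1 * C'
      rw [Matrix.mul_add, Matrix.add_mul]
    · exact Matrix.add_vecMul _ _ _
  map_smul' a p := by
    refine Prod.ext ?_ ?_
    · change C * (a • p.1) * C' = a • (C * p.1 * C')
      rw [Matrix.mul_smul, Matrix.smul_mul]
    · exact Matrix.smul_vecMul a p.2 P'

theorem spanv' (h1 : C * C' = 1) (h1' : C' * C = 1) (h2 : P * P' = 1) (h2' : P' * P = 1)
    {Γ : Submodule ℂ (Matrix B B ℂ × (n → ℂ))}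
    (h : ∀ f : ℂ →ₗ[K] ℂ, ∀ p ∈ Γ, (C * (C' * p.1 * C).map f * C', (fun j => f ((p.2 ᵥ* P) j)) ᵥ* P') ∈ Γ) :
    Γ ≤ Submodule.span ℂ {p | p ∈ Γ ∧ (∀ i j, (C' * p.1 * C) i j ∈ K) ∧ ∀ j, (p.2 ᵥ* P) j ∈ K} := by
  have e1 : ∀ y : Matrix B B ℂ, C' * (C * y * C') * C = y := by
    intro y
    rw [Matrix.mul_assoc C y, ← Matrix.mul_assoc C', h1', Matrix.one_mul, Matrix.mul_assoc, h1', Matrix.mul_one]
  have e1' : ∀ y : Matrix B B ℂ, C * (C' * y * C) * C' = y := by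
    intro y
    rw [Matrix.mul_assoc C' y, ← Matrix.mul_assoc C, h1, Matrix.one_mul, Matrix.mul_assoc, h1, Matrix.mul_one]
  have e2 : ∀ z : n → ℂ, (z ᵥ* P') ᵥ* P = z := by
    intro z
    rw [Matrix.vecMul_vecMul, h2', Matrix.vecMul_one]
  have e2' : ∀ z : n → ℂ, (z ᵥ* P) ᵥ* P' = z := by
    intro z
    rw [Matrix.vecMul_vecMul, h2, Matrix.vecMul_one]
  have h4 := spanv (F := K) (Γ := Γ.comap (cjv C C' P')) (fun f p hp => by
    have h5 := h f _ hp
    change (C * (C' * (C * p.1 * C') * C).map f * C', (fun j => f (((p.2 ᵥ* P') ᵥ* P) j)) ᵥ* P') ∈ Γ at h5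
    rw [e1, e2] at h5
    exact h5)
  intro p hp
  have h5 : (C' * p.1 * C, p.2 ᵥ* P) ∈ Γ.comap (cjv C C' P') := by
    change (C * (C' * p.1 * C) * C', (p.2 ᵥ* P) ᵥ* P') ∈ Γ
    rw [e1', e2']
    exact hp
  have h6 := Submodule.mem_map_of_mem (f := cjv C C' P') (h4 h5)
  have h7 : cjv C C' P' (C' * p.1 * C, p.2 ᵥ* P) = p := Prod.ext (e1' _) (e2' _)
  rw [h7, Submodule.map_span] at h6
  refine Submodule.span_mono ?_ h6
  rintro _ ⟨w, ⟨hw1, hw2, hw3⟩, rfl⟩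
  refine ⟨hw1, fun i j => ?_, fun j => ?_⟩
  · change (C' * (C * w.1 * C') * C) i j ∈ K
    rw [e1]
    exact hw2 i j
  · change ((w.2 ᵥ* P') ᵥ* P) j ∈ K
    rw [e2]
    exact hw3 j

end Pool.Agent.X306.AV
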