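import Pool.Agent.X306.AV.Grp

set_option autoImplicit false
set_option linter.unusedVariables false
set_option linter.unusedSectionVars false
set_option linter.unusedSimpArgs false

/-!
# The Lie algebra relative to another object
-/

open Matrix Module TensorProduct

noncomputable section

namespace Pool.Agent.X306.AV

open Pool.Agent.Y102 Pool.Agent.W516.DR Pool.Agent.H204R3.GP Pool.Agent.W516.KC Pool.Agent.W516.KC2
open Pool.Agent.TH127.PT Pool.Agent.Y123.ST Pool.Agent.TH119.DR Pool.Agent.W245.EB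
open Pool.Agent.X306.RL (LL_br LL_defF GDef derD c0_inv inv_c0)
open Pool.Agent.X306.EM (QQ mem_QQ QB_iff)

section blocks

variable {B n R J : Type} [Fintype B] [DecidableEq B] [Fintype n] [DecidableEq n] [Fintype R] [DecidableEq R] [Fintype J]
  [DecidableEq J]

/-- elements of the Lie algebra with two blocks -/
def Wm (y : Matrix B B ℂ) (x : LT n R J) : Matrix (B ⊕ Ix n R J) (B ⊕ Ix n R J) ℂ := fromBlocks y 0 0 (bm x 0)

theorem Wm_add (y y' : Matrix B B ℂ) (x x' : LT n R J) : Wm (y + y') (x + x') = Wm y x + Wm y' x' := by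
  unfold Wm
  rw [fromBlocks_add, bm_add, add_zero, add_zero, add_zero]

theorem Wm_smul (a : ℂ) (y : Matrix B B ℂ) (x : LT n R J) : Wm (a • y) (a • x) = a • Wm y x := by
  unfold Wm
  rw [fromBlocks_smul, bm_smul, smul_zero, smul_zero, mul_zero]

theorem Wm_zero : Wm (0 : Matrix B B ℂ) (0 : LT n R J) = 0 := by
  have h := Wm_smul 0 (0 : Matrix B B ℂ) (0 : LT n R J)
  rwa [zero_smul, zero_smul, zero_smul] at h

theorem Wm_map {f : ℂ → ℂ} (hf : f 0 = 0) (y : Matrix B B ℂ) (x : LT n R J) :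
    (Wm y x).map f = Wm (y.map f) (mp f x) := by
  unfold Wm
  rw [fromBlocks_map, bm_map hf, hf, Matrix.map_zero _ hf, Matrix.map_zero _ hf]

/-- the complex matrix of a rational matrix -/
def cm2 (y : Matrix B B ℚ) : Matrix B B ℂ := y.map fun q => (q : ℂ)

theorem cm2_add (y y' : Matrix B B ℚ) : cm2 (y + y') = cm2 y + cm2 y' := by
  ext i j
  exact Rat.cast_add _ _

theorem cm2_smul (q : ℚ) (y : Matrix B B ℚ) : cm2 (q • y) = (q : ℂ) • cm2 y := by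
  ext i j
  exact Rat.cast_mul _ _

theorem cm2_zero : cm2 (0 : Matrix B B ℚ) = 0 := by
  ext i j
  exact Rat.cast_zero

theorem cm2_mul (y y' : Matrix B B ℚ) : cm2 (y * y') = cm2 y * cm2 y' := by
  ext i j
  change (((y * y') i j : ℚ) : ℂ) = (cm2 y * cm2 y') i j
  rw [Matrix.mul_apply, Matrix.mul_apply, Rat.cast_sum]
  exact Finset.sum_congr rfl fun k _ => Rat.cast_mul _ _

theorem cm2_sub (y y' : Matrix B B ℚ) : cm2 (y - y') = cm2 y - cm2 y' := by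
  ext i j
  exact Rat.cast_sub _ _

theorem Wm_br (y y' : Matrix B B ℚ) (ξ ξ' : GT n R J) :
    Wm (cm2 y) (cb ξ) * Wm (cm2 y') (cb ξ') - Wm (cm2 y') (cb ξ') * Wm (cm2 y) (cb ξ) =
      Wm (cm2 (y * y' - y' * y)) (cb (br ξ ξ')) := by
  unfold Wm
  rw [fromBlocks_multiply, fromBlocks_multiply, ← cb_br, sub_eq_add_neg, fromBlocks_neg, fromBlocks_add, cm2_sub,
    cm2_mul, cm2_mul]
  simp [sub_eq_add_neg]

variable (D : Per n R J) (C₀ : Matrix B B ℂ)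

/-- the period matrix of the sum -/
def cmM : Matrix (B ⊕ Ix n R J) (B ⊕ Ix n R J) ℂ := fromBlocks C₀ 0 0 (pm D)

variable {C₀} (h0 : IsUnit C₀)
include h0

theorem cmM_inv : (cmM D C₀)⁻¹ = fromBlocks C₀⁻¹ 0 0 (pm' D) := by
  apply Matrix.inv_eq_right_inv
  unfold cmM
  rw [fromBlocks_multiply, pm_pm', c0_inv h0]
  simp

theorem cmM_der (δ : Derivation ℚ ℂ ℂ) :
    (cmM D C₀).map δ * (cmM D C₀)⁻¹ = Wm (C₀.map δ * C₀⁻¹) (lam D δ) := by
  rw [cmM_inv D h0]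
  unfold cmM Wm
  rw [fromBlocks_map, Matrix.map_zero _ (map_zero δ), Matrix.map_zero _ (map_zero δ), fromBlocks_multiply, ← der_lam,
    pm_inv]
  simp

theorem conj_row (Y : Matrix R n ℂ) :
    pm' D * bm ((0, Y, 0, 0) : LT n R J) 0 * pm D = bm (0, Y * D.P, 0, 0) 0 := by
  unfold pm' pm
  rw [bm_mul, bm_mul, mul_zero, zero_mul]
  congr 1
  refine Prod.ext ?_ (Prod.ext ?_ (Prod.ext ?_ (funext fun j => ?_)))
  · change D.P' * (0 : Matrix n n ℂ) * D.P = 0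
    rw [Matrix.mul_zero, Matrix.zero_mul]
  · change (-(D.U * D.P') * (0 : Matrix n n ℂ) + (1 : ℂ) • Y) * D.P + (0 : ℂ) • D.U = Y * D.P
    rw [Matrix.mul_zero, zero_add, one_smul, zero_smul, add_zero]
  · change 1 / D.w * (0 : ℂ) * D.w = 0
    ring
  · change (-(D.l j / D.w) * (0 : ℂ) + 1 * (0 : ℂ)) * D.w + 0 * D.l j = 0
    ring

theorem conj_row' (Y : Matrix R n ℂ) :
    pm D * bm ((0, Y, 0, 0) : LT n R J) 0 * pm' D = bm (0, Y * D.P', 0, 0) 0 := by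
  unfold pm' pm
  rw [bm_mul, bm_mul, mul_zero, zero_mul]
  congr 1
  refine Prod.ext ?_ (Prod.ext ?_ (Prod.ext ?_ (funext fun j => ?_)))
  · change D.P * (0 : Matrix n n ℂ) * D.P' = 0
    rw [Matrix.mul_zero, Matrix.zero_mul]
  · change (D.U * (0 : Matrix n n ℂ) + (1 : ℂ) • Y) * D.P' + (0 : ℂ) • (-(D.U * D.P')) = Y * D.P'
    rw [Matrix.mul_zero, zero_add, one_smul, zero_smul, add_zero]
  · change D.w * (0 : ℂ) * (1 / D.w) = 0
    ring
  · change (D.l j * (0 : ℂ) + 1 * (0 : ℂ)) * (1 / D.w) + 0 * (-(D.l j / D.w)) = 0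
    ring

theorem cmM_conj (y : Matrix B B ℂ) (Y : Matrix R n ℂ) :
    (cmM D C₀)⁻¹ * Wm y ((0, Y, 0, 0) : LT n R J) * cmM D C₀ = Wm (C₀⁻¹ * y * C₀) (0, Y * D.P, 0, 0) := by
  rw [cmM_inv D h0]
  unfold cmM Wm
  rw [fromBlocks_multiply, fromBlocks_multiply, ← conj_row D h0]
  simp

theorem cmM_conj' (y : Matrix B B ℂ) (Y : Matrix R n ℂ) :
    cmM D C₀ * Wm y ((0, Y, 0, 0) : LT n R J) * (cmM D C₀)⁻¹ = Wm (C₀ * y * C₀⁻¹) (0, Y * D.P', 0, 0) := by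
  rw [cmM_inv D h0]
  unfold cmM Wm
  rw [fromBlocks_multiply, fromBlocks_multiply, ← conj_row' D h0]
  simp

end blocks

variable {g : ℕ} {A : AbVar g} {R J B : Type} [Fintype R] [DecidableEq R] [Fintype J] [DecidableEq J] [Fintype B]
  [DecidableEq B]

variable (A)

/-- the rational elements of the Lie algebra -/
def gF (T : Set (Matrix (B ⊕ Ix (Fin (2 * g)) R J) (B ⊕ Ix (Fin (2 * g)) R J) ℂ)) :
    Submodule ℚ (Matrix B B ℚ × GT (Fin (2 * g)) R J) where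
  carrier := {p | (∀ v w, A.om (p.2.1 v) w + A.om v (p.2.1 w) = p.2.2.2.1 * A.om v w) ∧
    fl (Wm (cm2 p.1) (cb p.2)) ∈ LL T}
  zero_mem' := by
    refine ⟨fun v w => ?_, ?_⟩
    · change A.om (0 : Fin (2 * g) → ℚ) w + A.om v (0 : Fin (2 * g) → ℚ) = 0 * A.om v w
      rw [map_zero, LinearMap.zero_apply, map_zero, zero_mul, add_zero]
    · change fl (Wm (cm2 0) (cb 0)) ∈ LL T
      rw [cb_zero, cm2_zero, Wm_zero]
      exact (LL T).zero_mem
  add_mem' := by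
    rintro p p' ⟨h1, h2⟩ ⟨h3, h4⟩
    refine ⟨fun v w => ?_, ?_⟩
    · change A.om (p.2.1 v + p'.2.1 v) w + A.om v (p.2.1 w + p'.2.1 w) = (p.2.2.2.1 + p'.2.2.2.1) * A.om v w
      rw [map_add, LinearMap.add_apply, map_add]
      linear_combination h1 v w + h3 v w
    · have h5 := (LL T).add_mem h2 h4
      have h6 : fl (Wm (cm2 (p.1 + p'.1)) (cb (p.2 + p'.2))) = fl (Wm (cm2 p.1) (cb p.2)) + fl (Wm (cm2 p'.1) (cb p'.2)) := by
        rw [cb_add, cm2_add, Wm_add]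
        rfl
      rwa [← h6] at h5
  smul_mem' := by
    rintro q p ⟨h1, h2⟩
    refine ⟨fun v w => ?_, ?_⟩
    · change A.om (q • p.2.1 v) w + A.om v (q • p.2.1 w) = (q * p.2.2.2.1) * A.om v w
      rw [map_smul, LinearMap.smul_apply, map_smul, smul_eq_mul, smul_eq_mul]
      linear_combination q * h1 v w
    · have h5 := (LL T).smul_mem (q : ℂ) h2
      have h6 : fl (Wm (cm2 (q • p.1)) (cb (q • p.2))) = (q : ℂ) • fl (Wm (cm2 p.1) (cb p.2)) := by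
        rw [cb_smul, cm2_smul, Wm_smul]
        rfl
      rwa [← h6] at h5

variable {A}

theorem mem_gF {T : Set (Matrix (B ⊕ Ix (Fin (2 * g)) R J) (B ⊕ Ix (Fin (2 * g)) R J) ℂ)} {y : Matrix B B ℚ}
    {ξ : GT (Fin (2 * g)) R J} :
    (y, ξ) ∈ gF A T ↔ (∀ v w, A.om (ξ.1 v) w + A.om v (ξ.1 w) = ξ.2.2.1 * A.om v w) ∧
      fl (Wm (cm2 y) (cb ξ)) ∈ LL T := Iff.rfl

theorem gF_br {T : Set (Matrix (B ⊕ Ix (Fin (2 * g)) R J) (B ⊕ Ix (Fin (2 * g)) R J) ℂ)} {y y' : Matrix B B ℚ}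
    {ξ ξ' : GT (Fin (2 * g)) R J} (h : (y, ξ) ∈ gF A T) (h' : (y', ξ') ∈ gF A T) :
    (y * y' - y' * y, br ξ ξ') ∈ gF A T := by
  refine mem_gF.2 ⟨fun v w => ?_, ?_⟩
  · change A.om (ξ'.1 (ξ.1 v) - ξ.1 (ξ'.1 v)) w + A.om v (ξ'.1 (ξ.1 w) - ξ.1 (ξ'.1 w)) = 0 * A.om v w
    rw [map_sub, LinearMap.sub_apply, map_sub]
    linear_combination h'.1 (ξ.1 v) w - h.1 (ξ'.1 v) w + h'.1 v (ξ.1 w) - h.1 v (ξ'.1 w) -
      ξ.2.2.1 * h'.1 v w + ξ'.2.2.1 * h.1 v w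
  · rw [← Wm_br]
    exact LL_br h.2 h'.2

/-- the projection to the second block -/
def gS (A : AbVar g) (T : Set (Matrix (B ⊕ Ix (Fin (2 * g)) R J) (B ⊕ Ix (Fin (2 * g)) R J) ℂ)) :
    Submodule ℚ (GT (Fin (2 * g)) R J) := (gF A T).map (LinearMap.snd ℚ (Matrix B B ℚ) (GT (Fin (2 * g)) R J))

theorem mem_gS {T : Set (Matrix (B ⊕ Ix (Fin (2 * g)) R J) (B ⊕ Ix (Fin (2 * g)) R J) ℂ)} {ξ : GT (Fin (2 * g)) R J} :
    ξ ∈ gS A T ↔ ∃ y, (y, ξ) ∈ gF A T := by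
  constructor
  · rintro ⟨⟨y, x⟩, h, rfl⟩
    exact ⟨y, h⟩
  · rintro ⟨y, h⟩
    exact ⟨(y, ξ), h, rfl⟩

variable {u e : R → Fin g → ℂ} {l : J → ℂ}
  {T : Set (Matrix (B ⊕ Ix (Fin (2 * g)) R J) (B ⊕ Ix (Fin (2 * g)) R J) ℂ)} {C₀ : Matrix B B ℂ}

theorem Wm_cmp (f : ℂ →ₗ[ℚ] ℚ) (hT : IsSubtorsor QB T) (hG : GDef QQ T) {c : Matrix _ _ ℂ} (hc : c ∈ T)
    {y : Matrix B B ℂ} {x : LT (Fin (2 * g)) R J} (h : fl (Wm y x) ∈ LL T) :
    fl (Wm (cm2 (y.map f)) (cb (cmp f x))) ∈ LL T := by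
  have h2 := (LL_defF hT hG hc).map (ratc f) h
  have h3 : fl ((Wm y x).map (ratc f)) ∈ LL T := h2
  rw [Wm_map (map_zero _)] at h3
  rw [cb_cmp]
  exact h3

theorem good_gS (hT : IsSubtorsor QB T) (hG : GDef QQ T) (h0 : IsUnit C₀) (hc : cmM (pers A u e l) C₀ ∈ T) :
    Good A u e l (gS A T) where
  skew ξ hξ := by
    obtain ⟨y, h⟩ := mem_gS.1 hξ
    exact h.1
  br ξ hξ ξ' hξ' := by
    obtain ⟨y, h⟩ := mem_gS.1 hξ
    obtain ⟨y', h'⟩ := mem_gS.1 hξ'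
    exact mem_gS.2 ⟨_, gF_br h h'⟩
  der D f := by
    refine mem_gS.2 ⟨(C₀.map (dQ D) * C₀⁻¹).map f, mem_gF.2 ⟨fun v w => ?_, ?_⟩⟩
    · have hom : IsDeRhamBettiBilinear QBar A.basis (2 * Real.pi * Complex.I) A.om := by
        rw [AbVar.coe_basis]
        exact A.om_drb
      have h1 := skew_of_mem A.basis AbVar.tau_ne A.om hom (X0_mem A.basis AbVar.tau_ne D f) v w
      rw [X0_eq A u e l D f] at h1
      simp only [LinearMap.sub_apply, LinearMap.smul_apply, Module.End.one_apply, map_sub, map_smul, smul_eq_mul] at h1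
      linear_combination h1
    · refine Wm_cmp f hT hG hc ?_
      rw [← cmM_der (pers A u e l) h0]
      exact logder_mem hT (derD (dQ D) QB fun x hx => (QB_iff x).2 hx) hc

/-- **From the Lie algebra to the group.** -/
theorem to_group (hT : IsSubtorsor QB T) {N : Matrix R (Fin (2 * g)) ℂ}
    (h : ∀ f : ℂ →ₗ[ℚ] ℚ, ((0 : Matrix B B ℚ), ((0, fun r j => f (N r j), 0, 0) : GT (Fin (2 * g)) R J)) ∈ gF A T) :
    ∀ x ∈ T, fromBlocks 1 0 0 (bm (1, N, 1, 0) 1) * x ∈ T := by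
  have h1 : fl (Wm (0 : Matrix B B ℂ) ((0, N, 0, 0) : LT (Fin (2 * g)) R J)) ∈ LL T := by
    refine mem_of_comp (LL T) fun f => ?_
    have h5 := (mem_gF.1 (h f)).2
    refine (congrArg (· ∈ LL T) ?_).mp h5
    have h6 : (fun a => ((f (fl (Wm (0 : Matrix B B ℂ) ((0, N, 0, 0) : LT (Fin (2 * g)) R J)) a) : ℚ) : ℂ)) =
        fl ((Wm (0 : Matrix B B ℂ) ((0, N, 0, 0) : LT (Fin (2 * g)) R J)).map fun z => ((f z : ℚ) : ℂ)) := rfl
    rw [h6, Wm_map (by rw [map_zero, Rat.cast_zero])]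
    congr 1
    have h7 : cm2 (0 : Matrix B B ℚ) = (0 : Matrix B B ℂ).map fun z => ((f z : ℚ) : ℂ) := by
      rw [cm2_zero, Matrix.map_zero _ (by rw [map_zero, Rat.cast_zero])]
    rw [h7]
    congr 1
    refine Prod.ext ?_ (Prod.ext ?_ (Prod.ext ?_ ?_))
    · ext i j
      change ((((0 : Module.End ℚ (Fin (2 * g) → ℚ))) (Pi.single i 1) j : ℚ) : ℂ) = ((f 0 : ℚ) : ℂ)
      rw [map_zero]
      rfl
    · rfl
    · change (((0 : ℚ)) : ℂ) = ((f 0 : ℚ) : ℂ)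
      rw [map_zero]
    · funext j
      change (((0 : ℚ)) : ℂ) = ((f 0 : ℚ) : ℂ)
      rw [map_zero]
  have hE0 : bm ((0, N, 0, 0) : LT (Fin (2 * g)) R J) 0 * bm (0, N, 0, 0) 0 = 0 := by
    rw [bm_mul, mul_zero, ← bm_zero]
    congr 1
    refine Prod.ext ?_ (Prod.ext ?_ (Prod.ext ?_ (funext fun j => ?_)))
    · change (0 : Matrix (Fin (2 * g)) (Fin (2 * g)) ℂ) * 0 = 0
      rw [Matrix.mul_zero]
    · change N * (0 : Matrix (Fin (2 * g)) (Fin (2 * g)) ℂ) + (0 : ℂ) • N = 0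
      rw [Matrix.mul_zero, zero_smul, add_zero]
    · change (0 : ℂ) * 0 = 0
      rw [mul_zero]
    · change (0 : ℂ) * (0 : ℂ) + 0 * 0 = 0
      ring
  have hE : Wm (0 : Matrix B B ℂ) ((0, N, 0, 0) : LT (Fin (2 * g)) R J) * Wm 0 (0, N, 0, 0) = 0 := by
    unfold Wm
    rw [fromBlocks_multiply, hE0]
    simp
  intro x hx
  have h2 := exp_nil hT hE h1 hx 1
  rw [one_smul] at h2
  have h3 : 1 + Wm (0 : Matrix B B ℂ) ((0, N, 0, 0) : LT (Fin (2 * g)) R J) =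
      fromBlocks 1 0 0 (bm (1, N, 1, 0) 1) := by
    unfold Wm
    rw [← fromBlocks_one, fromBlocks_add, ← bm_one, bm_add, add_zero, add_zero, add_zero, add_zero]
    congr 2
    refine Prod.ext ?_ (Prod.ext ?_ (Prod.ext ?_ (funext fun j => ?_)))
    · exact add_zero _
    · exact zero_add _
    · exact add_zero _
    · exact add_zero _
  rwa [h3] at h2

end Pool.Agent.X306.AV
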