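import Pool.Agent.Y102.Theta2

set_option autoImplicit false
set_option linter.unusedVariables false
set_option linter.unusedSectionVars false
set_option linter.unusedSimpArgs false

/-!
# Recurrence of lines in the torus and leading coefficients
-/

open Module Filter Topology

noncomputable section

namespace Pool.Agent.X306.AV

open Pool.Agent.Y102

/-- the leading coefficient of a relation between an unbounded and a convergent sequence -/
theorem lead {Φ : Polynomial (MvPolynomial (Fin 1) ℂ)} {x y : ℕ → ℂ} {y' : ℂ}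
    (hx : Tendsto (fun k => ‖x k‖) atTop atTop) (hy : Tendsto y atTop (𝓝 y'))
    (h : ∀ᶠ k in atTop, Polynomial.eval (x k) (Polynomial.map (MvPolynomial.eval (fun _ => y k)) Φ) = 0) :
    MvPolynomial.eval (fun _ => y') Φ.leadingCoeff = 0 := by
  have hc : ∀ d, Tendsto (fun k => MvPolynomial.eval (fun _ => y k) (Φ.coeff d)) atTop
      (𝓝 (MvPolynomial.eval (fun _ => y') (Φ.coeff d))) := by
    intro d
    have h1 : Continuous fun z : ℂ => MvPolynomial.eval (fun _ : Fin 1 => z) (Φ.coeff d) :=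
      (MvPolynomial.continuous_eval (Φ.coeff d)).comp (continuous_pi fun _ => continuous_id)
    exact (h1.tendsto y').comp hy
  have hx0 : ∀ᶠ k in atTop, x k ≠ 0 := by
    filter_upwards [hx.eventually_gt_atTop 0] with k hk
    exact norm_pos_iff.1 hk
  have hxi : ∀ d, d < Φ.natDegree → Tendsto (fun k => x k ^ d / x k ^ Φ.natDegree) atTop (𝓝 0) := by
    intro d hd
    rw [tendsto_zero_iff_norm_tendsto_zero]
    have h1 : Tendsto (fun k => (‖x k‖ ^ (Φ.natDegree - d))⁻¹) atTop (𝓝 0) :=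
      ((tendsto_pow_atTop (Nat.sub_ne_zero_of_lt hd)).comp hx).inv_tendsto_atTop
    refine h1.congr' ?_
    filter_upwards [hx0] with k hk
    have h2 : ‖x k‖ ≠ 0 := norm_ne_zero_iff.2 hk
    rw [norm_div, norm_pow, norm_pow]
    have h3 : ‖x k‖ ^ Φ.natDegree = ‖x k‖ ^ d * ‖x k‖ ^ (Φ.natDegree - d) := by
      rw [← pow_add, Nat.add_sub_cancel' hd.le]
    rw [h3]
    field_simp
  have h1 : Tendsto (fun k => -∑ d ∈ Finset.range Φ.natDegree,
      MvPolynomial.eval (fun _ => y k) (Φ.coeff d) * (x k ^ d / x k ^ Φ.natDegree)) atTop (𝓝 0) := by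
    have h2 : Tendsto (fun k => ∑ d ∈ Finset.range Φ.natDegree,
      MvPolynomial.eval (fun _ => y k) (Φ.coeff d) * (x k ^ d / x k ^ Φ.natDegree)) atTop
        (𝓝 (∑ d ∈ Finset.range Φ.natDegree, MvPolynomial.eval (fun _ => y') (Φ.coeff d) * 0)) := by
      refine tendsto_finsetSum _ fun d hd => ?_
      exact (hc d).mul (hxi d (Finset.mem_range.1 hd))
    simp only [mul_zero, Finset.sum_const_zero] at h2
    have h3 := h2.neg
    rwa [neg_zero] at h3
  have h2 : Tendsto (fun k => MvPolynomial.eval (fun _ => y k) (Φ.coeff Φ.natDegree)) atTop (𝓝 0) := by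
    refine h1.congr' ?_
    filter_upwards [hx0, h] with k hk hk'
    rw [Polynomial.eval_map, Polynomial.eval₂_eq_sum_range, Finset.sum_range_succ] at hk'
    have h4 : x k ^ Φ.natDegree ≠ 0 := pow_ne_zero _ hk
    rw [neg_eq_iff_add_eq_zero]
    have h5 : ∑ d ∈ Finset.range Φ.natDegree,
        MvPolynomial.eval (fun _ => y k) (Φ.coeff d) * (x k ^ d / x k ^ Φ.natDegree) =
        (∑ d ∈ Finset.range Φ.natDegree, MvPolynomial.eval (fun _ => y k) (Φ.coeff d) * x k ^ d) /
          x k ^ Φ.natDegree := by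
      rw [Finset.sum_div]
      exact Finset.sum_congr rfl fun d _ => by rw [mul_div_assoc]
    rw [h5, div_add' _ _ _ h4, div_eq_zero_iff]
    exact Or.inl hk'
  exact tendsto_nhds_unique (hc Φ.natDegree) h2

/-- a continuous function with finitely many values is locally constant -/
theorem const_of_finite {f : ℂ → ℂ} {Z : Set ℂ} (hZ : Z.Finite) (hf : ContinuousAt f 0)
    (h : ∀ᶠ t in 𝓝 (0 : ℂ), f t ∈ Z) : ∀ᶠ t in 𝓝 (0 : ℂ), f t = f 0 := by
  have h1 : IsOpen (Z \ {f 0})ᶜ := (hZ.subset Set.diff_subset).isClosed.isOpen_compl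
  have h2 : (Z \ {f 0})ᶜ ∈ 𝓝 (f 0) := h1.mem_nhds (by
    intro h
    exact h.2 rfl)
  filter_upwards [h, hf.preimage_mem_nhds h2] with t ht ht'
  by_contra hne
  exact ht' ⟨ht, hne⟩

variable {g : ℕ} (A : AbVar g)

/-- the lattice -/
def Lt : Submodule ℤ (Fin g → ℂ) := Submodule.span ℤ (Set.range A.lam)

theorem theta_lt {w : Fin g → ℂ} (hw : w ∈ Lt A) (z : Fin g → ℂ) :
    ∃ e : ℂ, e ≠ 0 ∧ ∀ i, A.θ i (z + w) = e * A.θ i z := by
  unfold Lt at hw
  revert z
  induction hw using Submodule.span_induction with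
  | mem w hw =>
    obtain ⟨j, rfl⟩ := hw
    intro z
    exact ⟨_, Complex.exp_ne_zero _, fun i => A.quasiperiodic i j z⟩
  | zero =>
    intro z
    exact ⟨1, one_ne_zero, fun i => by rw [add_zero, one_mul]⟩
  | add x y _ _ h h' =>
    intro z
    obtain ⟨e, h1, h2⟩ := h z
    obtain ⟨e', h1', h2'⟩ := h' (z + x)
    exact ⟨e' * e, mul_ne_zero h1' h1, fun i => by rw [← add_assoc, h2', h2, mul_assoc]⟩
  | smul n x _ h =>
    intro z
    have hneg : ∀ z, ∃ e : ℂ, e ≠ 0 ∧ ∀ i, A.θ i (z + -x) = e * A.θ i z := by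
      intro z
      obtain ⟨e, h1, h2⟩ := h (z + -x)
      refine ⟨e⁻¹, inv_ne_zero h1, fun i => ?_⟩
      have h3 := h2 i
      rw [neg_add_cancel_right] at h3
      rw [h3, inv_mul_cancel_left₀ h1]
    have hnat : ∀ (y : Fin g → ℂ), (∀ z, ∃ e : ℂ, e ≠ 0 ∧ ∀ i, A.θ i (z + y) = e * A.θ i z) →
        ∀ n : ℕ, ∀ z, ∃ e : ℂ, e ≠ 0 ∧ ∀ i, A.θ i (z + n • y) = e * A.θ i z := by
      intro y hy n
      induction n with
      | zero =>
        intro z
        exact ⟨1, one_ne_zero, fun i => by rw [zero_smul, add_zero, one_mul]⟩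
      | succ n ih =>
        intro z
        obtain ⟨e, h1, h2⟩ := ih z
        obtain ⟨e', h1', h2'⟩ := hy (z + n • y)
        exact ⟨e' * e, mul_ne_zero h1' h1, fun i => by rw [succ_nsmul, ← add_assoc, h2', h2, mul_assoc]⟩
    rcases Int.eq_nat_or_neg n with ⟨m, rfl | rfl⟩
    · obtain ⟨e, h1, h2⟩ := hnat x h m z
      exact ⟨e, h1, fun i => by rw [natCast_zsmul]; exact h2 i⟩
    · obtain ⟨e, h1, h2⟩ := hnat (-x) hneg m z
      exact ⟨e, h1, fun i => by rw [neg_smul, natCast_zsmul, ← smul_neg]; exact h2 i⟩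

/-- **Recurrence.** -/
theorem recur (z : Fin g → ℂ) : ∃ (n : ℕ → ℕ) (ε : ℕ → (Fin g → ℂ)), Tendsto n atTop atTop ∧
    Tendsto ε atTop (𝓝 0) ∧ ∀ k, (n k : ℂ) • z - ε k ∈ Lt A := by
  let x : ℕ → (Fin g → ℂ) := fun n => ZSpan.fract A.lam ((n : ℂ) • z)
  have hb : Bornology.IsBounded (Metric.closedBall (0 : Fin g → ℂ) (∑ i, ‖A.lam i‖)) := Metric.isBounded_closedBall
  obtain ⟨a, -, φ, hφ, hlim⟩ := tendsto_subseq_of_bounded hb (x := x) (fun n => by
    rw [mem_closedBall_zero_iff]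
    exact ZSpan.norm_fract_le (K := ℝ) A.lam _)
  have h2 : Tendsto (fun k : ℕ => 2 * k) atTop atTop := tendsto_id.const_mul_atTop' (by norm_num)
  refine ⟨fun k => φ (2 * k) - φ k, fun k => x (φ (2 * k)) - x (φ k), ?_, ?_, fun k => ?_⟩
  · refine tendsto_atTop_mono (fun k => ?_) tendsto_id
    have h3 : φ k + k ≤ φ (k + k) := by
      have h4 : ∀ m, φ k + m ≤ φ (k + m) := by
        intro m
        induction m with
        | zero => exact le_rfl
        | succ m ih => exact Nat.succ_le_of_lt (lt_of_le_of_lt ih (hφ (Nat.lt_succ_self (k + m))))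
      exact h4 k
    rw [← two_mul] at h3
    change k ≤ φ (2 * k) - φ k
    omega
  · have h3 : Tendsto (fun k => x (φ (2 * k))) atTop (𝓝 a) := hlim.comp h2
    have h4 := h3.sub hlim
    rwa [sub_self] at h4
  · have hle : φ k ≤ φ (2 * k) := hφ.monotone (by omega)
    have h3 : ((φ (2 * k) - φ k : ℕ) : ℂ) • z - (x (φ (2 * k)) - x (φ k)) =
        (ZSpan.floor A.lam (((φ (2 * k) : ℕ) : ℂ) • z) : Fin g → ℂ) - ZSpan.floor A.lam (((φ k : ℕ) : ℂ) • z) := by
      simp only [x, ZSpan.fract_apply]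
      rw [Nat.cast_sub hle, sub_smul]
      abel
    change ((φ (2 * k) - φ k : ℕ) : ℂ) • z - (x (φ (2 * k)) - x (φ k)) ∈ Lt A
    rw [h3]
    exact (Lt A).sub_mem (ZSpan.floor A.lam _).2 (ZSpan.floor A.lam _).2

end Pool.Agent.X306.AV
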