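import Pool.Agent.X306.AV.Pt

set_option autoImplicit false
set_option linter.unusedVariables false
set_option linter.unusedSectionVars false
set_option linter.unusedSimpArgs false

/-!
# The theorem of Lang: an algebraic vector with algebraic multiples is zero
-/

open Module Filter Topology MvPolynomial

noncomputable section

namespace Pool.Agent.X306.AV

open Pool.Agent.Y102 Pool.Agent.W245.EB Pool.Agent

theorem gr_line {g : ℕ} {f : (Fin g → ℂ) → ℂ} (hf : Y102.Gr f) (z : Fin g → ℂ) :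
    H667R3.Gr (fun t : ℂ => f (t • z)) := by
  obtain ⟨C, hC, h⟩ := hf
  refine ⟨C * (1 + ‖z‖ ^ 3), by positivity, fun t => (h _).trans (Real.exp_le_exp.2 ?_)⟩
  rw [norm_smul, mul_pow, mul_assoc]
  apply mul_le_mul_of_nonneg_left _ hC
  have h1 : 0 ≤ ‖t‖ ^ 3 := by positivity
  have h2 : 0 ≤ ‖z‖ ^ 3 := by positivity
  nlinarith

theorem gr_const (c : ℂ) : H667R3.Gr (fun _ => c) := by
  refine ⟨‖c‖, norm_nonneg _, fun t => ?_⟩
  have h1 := Real.add_one_le_exp (‖c‖ * (1 + ‖t‖ ^ 3))
  have h2 : 0 ≤ ‖c‖ * ‖t‖ ^ 3 := by positivity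
  nlinarith

theorem gr_id : H667R3.Gr (fun t => t) := by
  refine ⟨1, zero_le_one, fun t => ?_⟩
  have h1 := Real.add_one_le_exp (1 * (1 + ‖t‖ ^ 3))
  have h2 : ‖t‖ ≤ 1 + ‖t‖ ^ 3 := by
    have h0 := norm_nonneg t
    rcases le_total ‖t‖ 1 with h | h
    · have : 0 ≤ ‖t‖ ^ 3 := by positivity
      linarith
    · have : ‖t‖ ≤ ‖t‖ ^ 3 := by
        calc ‖t‖ = ‖t‖ ^ 1 := (pow_one _).symm
          _ ≤ ‖t‖ ^ 3 := pow_le_pow_right₀ h (by norm_num)
      linarith
  linarith

theorem gr_mul {f h : ℂ → ℂ} (hf : H667R3.Gr f) (hh : H667R3.Gr h) : H667R3.Gr (fun z => f z * h z) := by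
  obtain ⟨C, hC, h1⟩ := hf
  obtain ⟨C', hC', h2⟩ := hh
  refine ⟨C + C', by positivity, fun z => ?_⟩
  rw [norm_mul, add_mul, Real.exp_add]
  exact mul_le_mul (h1 z) (h2 z) (norm_nonneg _) (Real.exp_nonneg _)

theorem gr_add {f k : ℂ → ℂ} (hf : H667R3.Gr f) (hg : H667R3.Gr k) : H667R3.Gr (fun z => f z + k z) := by
  obtain ⟨C, hC, h⟩ := hf
  obtain ⟨C', hC', h'⟩ := hg
  refine ⟨C + C' + 1, by positivity, fun z => (norm_add_le _ _).trans ?_⟩
  have h0 : 0 ≤ 1 + ‖z‖ ^ 3 := by positivity
  have h1 : Real.exp (C * (1 + ‖z‖ ^ 3)) ≤ Real.exp ((C + C') * (1 + ‖z‖ ^ 3)) :=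
    Real.exp_le_exp.2 (mul_le_mul_of_nonneg_right (by linarith) h0)
  have h2 : Real.exp (C' * (1 + ‖z‖ ^ 3)) ≤ Real.exp ((C + C') * (1 + ‖z‖ ^ 3)) :=
    Real.exp_le_exp.2 (mul_le_mul_of_nonneg_right (by linarith) h0)
  have h3 : (2 : ℝ) ≤ Real.exp (1 * (1 + ‖z‖ ^ 3)) := by
    have h4 := Real.add_one_le_exp (1 * (1 + ‖z‖ ^ 3))
    have h5 : 0 ≤ ‖z‖ ^ 3 := by positivity
    linarith
  calc ‖f z‖ + ‖k z‖ ≤ 2 * Real.exp ((C + C') * (1 + ‖z‖ ^ 3)) := by
        linarith [h z, h' z]
    _ ≤ Real.exp (1 * (1 + ‖z‖ ^ 3)) * Real.exp ((C + C') * (1 + ‖z‖ ^ 3)) :=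
        mul_le_mul_of_nonneg_right h3 (Real.exp_nonneg _)
    _ = _ := by
        rw [← Real.exp_add]
        congr 1
        ring

theorem gr_sum {ι : Type} (s : Finset ι) {f : ι → ℂ → ℂ} (hf : ∀ i ∈ s, H667R3.Gr (f i)) :
    H667R3.Gr (fun z => ∑ i ∈ s, f i z) := by
  classical
  induction s using Finset.induction_on with
  | empty =>
    simp only [Finset.sum_empty]
    exact gr_const 0
  | insert i s hi ih =>
    simp only [Finset.sum_insert hi]
    exact gr_add (hf i (Finset.mem_insert_self _ _)) (ih fun j hj => hf j (Finset.mem_insert_of_mem hj))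

variable {g : ℕ} {A : AbVar g}

theorem gr_tc (c : Fin (A.N + 1) → ℂ) (z : Fin g → ℂ) : H667R3.Gr (fun t : ℂ => tc A c (t • z)) := by
  unfold tc
  exact gr_sum _ fun j _ => gr_mul (gr_const (c j)) (gr_line (A.gr_theta j) z)

/-- a combination which does not vanish at given points -/
theorem exists_c (S : ℕ) (y : ℕ → (Fin g → ℂ)) (hy : ∀ s < S, ∃ i, A.θ i (y s) ≠ 0) :
    ∃ m : ℕ, ∀ s < S, tc A (fun j => (m : ℂ) ^ (j : ℕ)) (y s) ≠ 0 := by
  let q : ℕ → Polynomial ℂ := fun s => ∑ j : Fin (A.N + 1), Polynomial.C (A.θ j (y s)) * Polynomial.X ^ (j : ℕ)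
  have hq0 : ∀ s < S, q s ≠ 0 := by
    intro s hs h
    obtain ⟨i, hi⟩ := hy s hs
    apply hi
    have h1 := congrArg (fun p : Polynomial ℂ => p.coeff i) h
    simp only [q, Polynomial.finset_sum_coeff, Polynomial.coeff_C_mul, Polynomial.coeff_X_pow, Polynomial.coeff_zero] at h1
    rw [Finset.sum_eq_single i] at h1
    · simpa using h1
    · intro j _ hj
      rw [if_neg (fun h => hj (Fin.ext h.symm)), mul_zero]
    · intro h
      exact absurd (Finset.mem_univ _) h
  have hqe : ∀ s (m : ℕ), (q s).eval (m : ℂ) = tc A (fun j => (m : ℂ) ^ (j : ℕ)) (y s) := by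
    intro s m
    simp only [q, tc, Polynomial.eval_finset_sum, Polynomial.eval_mul, Polynomial.eval_C, Polynomial.eval_pow,
      Polynomial.eval_X]
    exact Finset.sum_congr rfl fun j _ => mul_comm _ _
  have hfin : (⋃ s ∈ Finset.range S, {m : ℕ | (q s).eval (m : ℂ) = 0}).Finite := by
    refine Set.Finite.biUnion (Finset.finite_toSet _) fun s hs => ?_
    have h1 := Polynomial.finite_setOf_isRoot (hq0 s (Finset.mem_range.1 hs))
    exact h1.preimage (f := fun m : ℕ => (m : ℂ)) (Nat.cast_injective.injOn)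
  obtain ⟨m, hm⟩ := hfin.infinite_compl.nonempty
  refine ⟨m, fun s hs h => hm ?_⟩
  rw [Set.mem_iUnion₂]
  exact ⟨s, Finset.mem_range.2 hs, by rw [Set.mem_setOf_eq, hqe, h]⟩

theorem coeff_mem {F : IntermediateField ℚ ℂ} {V : Type} [Fintype V] {ι : Type} [Fintype ι] (e : ι → V)
    (B : ι → ι → ℂ) (hB : ∀ p q, B p q ∈ F) (m : V →₀ ℕ) :
    (∑ p, ∑ q, C (B p q) * (X (e p) * X (e q)) : MvPolynomial V ℂ).coeff m ∈ F := by
  classical
  rw [coeff_sum]
  refine F.sum_mem fun p _ => ?_
  rw [coeff_sum]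
  refine F.sum_mem fun q _ => ?_
  have h1 : (C (B p q) * (X (e p) * X (e q)) : MvPolynomial V ℂ) =
      monomial (Finsupp.single (e p) 1 + Finsupp.single (e q) 1) (B p q) := by
    rw [X, X, monomial_mul, C_mul_monomial, mul_one, mul_one]
  rw [h1, coeff_monomial]
  split_ifs
  · exact hB p q
  · exact F.zero_mem

theorem degree_le {V : Type} [Fintype V] {ι : Type} [Fintype ι] (e : ι → V) (B : ι → ι → ℂ) :
    (∑ p, ∑ q, C (B p q) * (X (e p) * X (e q)) : MvPolynomial V ℂ).totalDegree ≤ 2 := by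
  refine totalDegree_finsetSum_le fun p _ => totalDegree_finsetSum_le fun q _ => ?_
  refine (totalDegree_mul _ _).trans ?_
  rw [totalDegree_C, zero_add]
  refine (totalDegree_mul _ _).trans ?_
  rw [totalDegree_X, totalDegree_X]

/-- **The theorem of Lang.** -/
theorem sl_point {F : IntermediateField ℚ ℂ} [FiniteDimensional ℚ F] (hW : Wr A F) {z : Fin g → ℂ}
    (hz : ∀ k, IsAlgebraic ℚ (z k)) (hpt : ∀ s : ℕ, (s : ℂ) • z ∈ Pt A F) : z = 0 := by
  classical
  by_contra hz0
  have hfz : FiniteDimensional ℚ (IntermediateField.adjoin ℚ (Set.range z)) :=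
    IntermediateField.finiteDimensional_adjoin fun x hx => by
      obtain ⟨k, rfl⟩ := hx
      exact (hz k).isIntegral
  let F' : IntermediateField ℚ ℂ := F ⊔ IntermediateField.adjoin ℚ (Set.range z)
  have hF' : FiniteDimensional ℚ F' := IntermediateField.finiteDimensional_sup _ _
  have hFF : ∀ x ∈ F, x ∈ F' := fun x hx => (le_sup_left : F ≤ F') hx
  have hzF : ∀ k, z k ∈ F' := fun k =>
    (le_sup_right : IntermediateField.adjoin ℚ (Set.range z) ≤ F') (IntermediateField.subset_adjoin ℚ _ ⟨k, rfl⟩)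
  set S := AD.Snum 1 (finrank ℚ F') with hS
  obtain ⟨m, hm⟩ := exists_c (A := A) S (fun s => (s : ℂ) • z) fun s _ => by
    obtain ⟨i, hi, -⟩ := hpt s
    exact ⟨i, hi⟩
  set c : Fin (A.N + 1) → ℂ := fun j => (m : ℂ) ^ (j : ℕ) with hc
  have hcF : ∀ j, c j ∈ F' := fun j => by
    change (m : ℂ) ^ (j : ℕ) ∈ F'
    exact _root_.pow_mem (F'.natCast_mem m) _
  choose a ha ha' using hW
  have hS0 : 0 < S := by
    rw [hS]
    unfold AD.Snum
    omega
  have hc0 : tc A c 0 ≠ 0 := by
    have h1 := hm 0 hS0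
    rwa [Nat.cast_zero, zero_smul] at h1
  obtain ⟨i₀, hi₀⟩ := no_rel hc0 hz0
  let val : Option (Fin (A.N + 1)) → ℂ → ℂ := fun o => o.elim (fun t => t) (fun i t => A.θ i (t • z) / tc A c (t • z))
  let Bm : Fin (A.N + 1) → Fin (A.N + 1) → Fin (A.N + 1) → ℂ := fun i p q => ∑ k, ∑ j, z k * (c j * a k j i p q)
  have hBm : ∀ i p q, Bm i p q ∈ F' := fun i p q => F'.sum_mem fun k _ => F'.sum_mem fun j _ =>
    F'.mul_mem (hzF k) (F'.mul_mem (hcF j) (hFF _ (ha k j i p q)))
  let δ : Option (Fin (A.N + 1)) → MvPolynomial (Option (Fin (A.N + 1))) ℂ := fun o =>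
    o.elim 1 (fun i => ∑ p, ∑ q, C (Bm i p q) * (X (some p) * X (some q)))
  let b : Fin 2 → Option (Fin (A.N + 1)) := ![none, some i₀]
  let Th : Fin 2 → ℂ → ℂ := ![fun _ => 1, fun t => tc A c (t • z)]
  let Af : Fin 2 → ℂ → ℂ := ![fun t => t, fun t => A.θ i₀ (t • z)]
  have hOopen : IsOpen {t : ℂ | tc A c (t • z) ≠ 0} := by
    have h1 : Continuous fun t : ℂ => tc A c (t • z) :=
      (tc_diff c).continuous.comp (continuous_id.smul continuous_const)
    exact isOpen_ne_fun h1 continuous_const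
  have hline : Differentiable ℂ fun t : ℂ => t • z := fun t => by
    have h1 : HasDerivAt (fun t : ℂ => t • z) z t := by
      simpa using (hasDerivAt_id t).smul_const z
    exact h1.differentiableAt
  obtain ⟨P, hP0, hP⟩ := slS val {t : ℂ | tc A c (t • z) ≠ 0} hOopen 1 one_ne_zero F'
    (fun s hs => by
      rw [mul_one]
      exact hm s hs)
    (fun o s hs => by
      rw [mul_one]
      cases o with
      | none => exact F'.natCast_mem s
      | some i =>
        change A.θ i ((s : ℂ) • z) / tc A c ((s : ℂ) • z) ∈ F'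
        obtain ⟨i', hi', hi''⟩ := hpt s
        have h1 : tc A c ((s : ℂ) • z) / A.θ i' ((s : ℂ) • z) ∈ F' := by
          unfold tc
          rw [Finset.sum_div]
          refine F'.sum_mem fun j _ => ?_
          rw [mul_div_assoc]
          exact F'.mul_mem (hcF j) (hFF _ (hi'' j))
        have h2 : A.θ i ((s : ℂ) • z) / tc A c ((s : ℂ) • z) =
            (A.θ i ((s : ℂ) • z) / A.θ i' ((s : ℂ) • z)) / (tc A c ((s : ℂ) • z) / A.θ i' ((s : ℂ) • z)) := by
          rw [div_div_div_cancel_right₀ hi']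
        rw [h2]
        exact F'.div_mem (hFF _ (hi'' i)) h1)
    δ
    (fun o m => by
      cases o with
      | none =>
        change (1 : MvPolynomial (Option (Fin (A.N + 1))) ℂ).coeff m ∈ F'
        rw [coeff_one]
        split_ifs
        · exact F'.one_mem
        · exact F'.zero_mem
      | some i => exact coeff_mem some (Bm i) (hBm i) m)
    (fun o => by
      cases o with
      | none =>
        change (1 : MvPolynomial (Option (Fin (A.N + 1))) ℂ).totalDegree ≤ 2
        rw [totalDegree_one]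
        exact Nat.zero_le _
      | some i => exact degree_le some (Bm i))
    (fun o t ht => by
      cases o with
      | none =>
        change HasDerivAt (fun t : ℂ => t) (eval _ (1 : MvPolynomial (Option (Fin (A.N + 1))) ℂ)) t
        rw [map_one]
        exact hasDerivAt_id t
      | some i =>
        refine (quot_deriv (F := F) (a := a) ha' z i ht).congr_deriv ?_
        change _ = eval _ (∑ p, ∑ q, C (Bm i p q) * (X (some p) * X (some q)) : MvPolynomial (Option (Fin (A.N + 1))) ℂ)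
        rw [map_sum]
        refine Finset.sum_congr rfl fun p _ => ?_
        rw [map_sum]
        refine Finset.sum_congr rfl fun q _ => ?_
        rw [map_mul, map_mul, eval_C, eval_X, eval_X]
        rfl)
    b (by
      intro x y hxy
      fin_cases x <;> fin_cases y <;> simp_all [b])
    Th Af
    (fun i => by
      fin_cases i
      · exact differentiable_const _
      · exact (tc_diff c).comp hline)
    (fun i => by
      fin_cases i
      · exact differentiable_id
      · exact (theta_diff i₀).comp hline)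
    (fun i => by
      fin_cases i
      · exact gr_const 1
      · exact gr_tc c z)
    (fun i => by
      fin_cases i
      · exact gr_id
      · exact gr_line (A.gr_theta i₀) z)
    (fun i t ht => by
      fin_cases i
      · change (1 : ℂ) * t = t
        rw [one_mul]
      · change tc A c (t • z) * (A.θ i₀ (t • z) / tc A c (t • z)) = A.θ i₀ (t • z)
        exact mul_div_cancel₀ _ ht)
    (fun i s hs => by
      rw [mul_one]
      fin_cases i
      · exact one_ne_zero
      · exact hm s hs)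
  apply hP0
  apply hi₀
  intro t ht
  have h1 := hP t ht (fun i => by
    fin_cases i
    · exact one_ne_zero
    · exact ht)
  have h2 : (fun i => val (b i) t) = (Fin.cons t (fun _ => A.θ i₀ (t • z) / tc A c (t • z)) : Fin 2 → ℂ) := by
    funext i
    fin_cases i
    · rfl
    · rfl
  rw [h2] at h1
  exact h1

end Pool.Agent.X306.AV
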