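import Pool.Agent.X306.AV.Alg
import Pool.Agent.X306.AV.SLp

set_option autoImplicit false
set_option linter.unusedVariables false
set_option linter.unusedSectionVars false
set_option linter.unusedSimpArgs false

/-!
# The relations between the unipotent components are relations between the points
-/

open Matrix Module TensorProduct

noncomputable section

namespace Pool.Agent.X306.AV

open Pool.Agent.Y102 Pool.Agent.W516.DR Pool.Agent.H204R3.GP Pool.Agent.W516.KC Pool.Agent.W516.KC2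

variable {g : ℕ} {A : AbVar g} {R J : Type} [Fintype R] [DecidableEq R] [Fintype J] [DecidableEq J]

/-- `A`, with its embedding and its endomorphisms, is defined over the number field `F` -/
structure Fld (A : AbVar g) (F : IntermediateField ℚ ℂ) : Prop where
  fin : FiniteDimensional ℚ F
  wr : Wr A F
  add : ∀ z ∈ Pt A F, ∀ w ∈ Pt A F, z + w ∈ Pt A F
  endo : ∀ Q : (Fin g → ℂ) →ₗ[ℂ] (Fin g → ℂ), (∀ w ∈ Lt A, Q w ∈ Lt A) → ∀ z ∈ Pt A F, Q z ∈ Pt A F

variable {F : IntermediateField ℚ ℂ}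

theorem pt_lt {z w : Fin g → ℂ} (hz : z ∈ Pt A F) (hw : w ∈ Lt A) : z + w ∈ Pt A F := by
  obtain ⟨i, h1, h2⟩ := hz
  obtain ⟨e, he, h3⟩ := theta_lt (A := A) hw z
  refine ⟨i, ?_, fun j => ?_⟩
  · rw [h3]
    exact mul_ne_zero he h1
  · rw [h3, h3, mul_div_mul_left _ _ he]
    exact h2 j

/-- a common denominator -/
theorem exists_den {ι : Type} [Fintype ι] (q : ι → ℚ) : ∃ d : ℕ, d ≠ 0 ∧ ∀ i, ∃ n : ℤ, (d : ℚ) * q i = n := by
  refine ⟨∏ i, (q i).den, Finset.prod_ne_zero_iff.2 fun i _ => (q i).den_nz, fun i => ?_⟩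
  obtain ⟨k, hk⟩ := Finset.dvd_prod_of_mem (fun i => (q i).den) (Finset.mem_univ i)
  refine ⟨(q i).num * k, ?_⟩
  rw [hk]
  push_cast
  have h1 : ((q i).den : ℚ) * q i = (q i).num := by
    rw [mul_comm]
    exact Rat.mul_den_eq_num _
  rw [← h1]
  ring

theorem per_eq (w : Fin (2 * g) → ℚ) : A.per w = ∑ j, (w j : ℂ) • A.lam j := by
  unfold AbVar.per
  rw [Fintype.linearCombination_apply]
  refine Finset.sum_congr rfl fun j _ => ?_
  funext k
  rw [Pi.smul_apply, Pi.smul_apply, Rat.smul_def, smul_eq_mul]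

theorem lam_per (j : Fin (2 * g)) : A.per (Pi.single j 1) = A.lam j := by
  rw [per_eq, Finset.sum_eq_single j]
  · rw [Pi.single_eq_same, Rat.cast_one, one_smul]
  · intro k _ hk
    rw [Pi.single_eq_of_ne hk, Rat.cast_zero, zero_smul]
  · intro h
    exact absurd (Finset.mem_univ _) h

theorem int_smul (n : ℤ) (z : Fin g → ℂ) : (n : ℂ) • z = n • z := by
  funext k
  rw [Pi.smul_apply, Pi.smul_apply, smul_eq_mul, zsmul_eq_mul]

theorem per_int {w : Fin (2 * g) → ℚ} (h : ∀ j, ∃ n : ℤ, w j = n) : A.per w ∈ Lt A := by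
  rw [per_eq]
  refine (Lt A).sum_mem fun j _ => ?_
  obtain ⟨n, hn⟩ := h j
  rw [hn, Rat.cast_intCast, int_smul]
  exact (Lt A).smul_mem n (Submodule.subset_span ⟨j, rfl⟩)

theorem lt_stable {Q : (Fin g → ℂ) →ₗ[ℂ] (Fin g → ℂ)} (h : ∀ j, Q (A.lam j) ∈ Lt A) : ∀ w ∈ Lt A, Q w ∈ Lt A := by
  intro w hw
  unfold Lt at hw
  induction hw using Submodule.span_induction with
  | mem w hw =>
    obtain ⟨j, rfl⟩ := hw
    exact h j
  | zero =>
    rw [map_zero]
    exact (Lt A).zero_mem
  | add x y _ _ h1 h2 =>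
    rw [map_add]
    exact (Lt A).add_mem h1 h2
  | smul n x _ h1 =>
    rw [← int_smul, map_smul, int_smul]
    exact (Lt A).smul_mem n h1

theorem pt_sum (hF : Fld A F) {R : Type} [Fintype R] [DecidableEq R] {y : R → Fin g → ℂ} (h0 : (0 : Fin g → ℂ) ∈ Pt A F)
    (h : ∀ r, y r ∈ Pt A F) : ∑ r, y r ∈ Pt A F := by
  have key : ∀ s : Finset R, ∑ r ∈ s, y r ∈ Pt A F := by
    intro s
    induction s using Finset.induction_on with
    | empty =>
      rw [Finset.sum_empty]
      exact h0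
    | insert b s hb ih =>
      rw [Finset.sum_insert hb]
      exact hF.add _ (h b) _ ih
  exact key _

variable {u e : R → Fin g → ℂ} {l : J → ℂ} {𝔤 : Submodule ℚ (GT (Fin (2 * g)) R J)}

/-- **The weight `-1` part.** -/
theorem Good.uA_mem (G : Good A u e l 𝔤) (hF : Fld A F) (hu : ∀ r, u r ∈ Pt A F) {N : R → Fin (2 * g) → ℂ}
    (hN : ∀ (Q : R → (Fin g → ℂ) →ₗ[ℂ] (Fin g → ℂ)) (m : R → Matrix (Fin (2 * g)) (Fin (2 * g)) ℤ),
      (∀ r j, Q r (A.lam j) = ∑ i, (m r j i : ℂ) • A.lam i) → ∑ r, Q r (u r) ∈ Lt A →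
      ∀ i, ∑ r, ∑ j, N r j * (m r j i : ℂ) = 0)
    (f : ℂ →ₗ[ℚ] ℚ) : (fun r j => f (N r j)) ∈ uA 𝔤 := by
  haveI := hF.fin
  obtain ⟨a, ha, hmem⟩ := exists_maps (hh 𝔤) G.semi (uA 𝔤) fun X hX Y hY => G.uA_hh hX hY
  rw [hmem]
  intro s
  obtain ⟨t, M, hM, halg⟩ := G.alg_point (a := fun r => a r s) (fun r => ha r s) fun Y hY => (hmem Y).1 hY s
  -- the denominators
  obtain ⟨d, hd0, hd⟩ := exists_den (ι := (R × Fin (2 * g) × Fin (2 * g)) ⊕ Fin (2 * g))
    (Sum.elim (fun p => a p.1 s (Pi.single p.2.1 1) p.2.2) t)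
  choose m hm using fun r i j => hd (Sum.inl (r, i, j))
  choose n hn using fun j => hd (Sum.inr j)
  simp only [Sum.elim_inl, Sum.elim_inr] at hm hn
  have hdC : (d : ℂ) ≠ 0 := Nat.cast_ne_zero.2 hd0
  have hQ : ∀ r j, ((d : ℂ) • M r) (A.lam j) = ∑ i, (m r j i : ℂ) • A.lam i := by
    intro r j
    rw [LinearMap.smul_apply, ← lam_per, hM, per_eq, Finset.smul_sum]
    refine Finset.sum_congr rfl fun i _ => ?_
    rw [smul_smul]
    congr 1
    have h1 := congrArg (fun q : ℚ => (q : ℂ)) (hm r j i)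
    simp only [Rat.cast_mul, Rat.cast_natCast, Rat.cast_intCast] at h1
    exact h1
  have hst : ∀ r, ∀ w ∈ Lt A, ((d : ℂ) • M r) w ∈ Lt A := fun r => lt_stable fun j => by
    rw [hQ]
    refine (Lt A).sum_mem fun i _ => ?_
    rw [int_smul]
    exact (Lt A).smul_mem _ (Submodule.subset_span ⟨i, rfl⟩)
  have hsum : ∑ r, ((d : ℂ) • M r) (u r) ∈ Lt A := by
    have hper : (d : ℂ) • A.per t ∈ Lt A := by
      have h1 : (d : ℂ) • A.per t = A.per (fun j => (d : ℚ) * t j) := by
        rw [per_eq, per_eq, Finset.smul_sum]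
        refine Finset.sum_congr rfl fun j _ => ?_
        rw [smul_smul, Rat.cast_mul, Rat.cast_natCast]
      rw [h1]
      exact per_int fun j => ⟨n j, hn j⟩
    by_cases hR : Nonempty R
    · obtain ⟨r₀⟩ := hR
      have h0 : (0 : Fin g → ℂ) ∈ Pt A F := by
        have h1 := hF.endo 0 (fun w _ => by
          rw [LinearMap.zero_apply]
          exact (Lt A).zero_mem) _ (hu r₀)
        rwa [LinearMap.zero_apply] at h1
      have hz : (d : ℂ) • (∑ r, M r (u r) - A.per t) = 0 := by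
        refine sl_point (A := A) hF.wr (fun k => ?_) fun s => ?_
        · rw [Pi.smul_apply, smul_eq_mul]
          exact (isAlgebraic_natCast d).mul (halg k)
        · have h1 : (s : ℂ) • ((d : ℂ) • (∑ r, M r (u r) - A.per t)) =
              ((s : ℂ) • (LinearMap.id : (Fin g → ℂ) →ₗ[ℂ] (Fin g → ℂ)))
                (∑ r, ((d : ℂ) • M r) (u r) + -((d : ℂ) • A.per t)) := by
            rw [LinearMap.smul_apply, LinearMap.id_apply, smul_sub, Finset.smul_sum, ← sub_eq_add_neg]
            rfl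
          rw [h1]
          refine hF.endo _ (fun w hw => ?_) _ (pt_lt (pt_sum hF h0 fun r => hF.endo _ (hst r) _ (hu r))
            ((Lt A).neg_mem hper))
          rw [LinearMap.smul_apply, LinearMap.id_apply]
          have h2 := (Lt A).smul_mem (s : ℤ) hw
          rw [← int_smul, Int.cast_natCast] at h2
          exact h2
      have h1 : ∑ r, ((d : ℂ) • M r) (u r) = (d : ℂ) • A.per t := by
        rw [smul_sub, Finset.smul_sum, sub_eq_zero] at hz
        exact hz
      rw [h1]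
      exact hper
    · haveI := not_nonempty_iff.1 hR
      rw [Finset.univ_eq_empty, Finset.sum_empty]
      exact (Lt A).zero_mem
  have h1 := hN _ m hQ hsum
  funext j
  rw [Finset.sum_apply]
  have h2 := congrArg f (h1 j)
  rw [map_zero, map_sum] at h2
  have h3 : ∀ r, f (∑ i, N r i * (m r i j : ℂ)) = (d : ℚ) * a r s (fun i => f (N r i)) j := by
    intro r
    rw [← comp_mt]
    have h4 : ∑ i, N r i * (m r i j : ℂ) = (d : ℚ) • (N r ᵥ* mt (a r s)) j := by
      change _ = (d : ℚ) • ∑ i, N r i * ((a r s (Pi.single i 1) j : ℚ) : ℂ)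
      rw [Finset.smul_sum]
      refine Finset.sum_congr rfl fun i _ => ?_
      have h5 := congrArg (fun q : ℚ => (q : ℂ)) (hm r i j)
      simp only [Rat.cast_mul, Rat.cast_natCast, Rat.cast_intCast] at h5
      rw [← h5, Rat.smul_def, Rat.cast_natCast]
      ring
    rw [h4, map_smul, smul_eq_mul]
  simp only [h3] at h2
  rw [← Finset.mul_sum] at h2
  exact (mul_eq_zero.1 h2).resolve_left (Nat.cast_ne_zero.2 hd0)

/-- **The weight `-2` part.** -/
theorem Good.uJ_mem (G : Good A u e l 𝔤) (hl : ∀ j, IsAlgebraic ℚ (Complex.exp (l j))) {v : J → ℂ}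
    (hv : ∀ m : J → ℤ, Complex.exp (∑ j, (m j : ℂ) * l j) = 1 → ∑ j, (m j : ℂ) * v j = 0)
    (f : ℂ →ₗ[ℚ] ℚ) : (fun j => f (v j)) ∈ uJ 𝔤 := by
  classical
  have hw : (2 * Real.pi * Complex.I : ℂ) ≠ 0 := Complex.two_pi_I_ne_zero
  obtain ⟨σ, s, -, hs⟩ := G.shape
  by_contra hcon
  obtain ⟨φ, hφ, hφU⟩ := Submodule.exists_le_ker_of_notMem hcon
  obtain ⟨d, hd0, hd⟩ := exists_den (ι := J ⊕ Unit)
    (Sum.elim (fun j => φ (Pi.single j 1)) (fun _ => ∑ j, φ (Pi.single j 1) * s j))
  choose m hm using fun j => hd (Sum.inl j)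
  obtain ⟨n, hn⟩ := hd (Sum.inr ())
  simp only [Sum.elim_inl, Sum.elim_inr] at hm hn
  have hφv : ∀ y : J → ℚ, φ y = ∑ j, φ (Pi.single j 1) * y j := by
    intro y
    conv_lhs => rw [LinearMap.pi_apply_eq_sum_univ φ y]
    refine Finset.sum_congr rfl fun j _ => ?_
    have h : (fun k => if j = k then (1 : ℚ) else 0) = Pi.single j 1 := by
      funext k
      rw [Pi.single_apply]
      simp only [eq_comm]
    rw [h, smul_eq_mul, mul_comm]
  have h1 : ∀ D : Derivation QBar ℂ ℂ, D (∑ j, (m j : ℂ) * l j - (n : ℂ) * (2 * Real.pi * Complex.I)) = 0 := by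
    intro D
    have h2 : ∑ j, (φ (Pi.single j 1)) • (D (l j) / (2 * Real.pi * Complex.I)) -
        (∑ j, φ (Pi.single j 1) * s j) • (D (2 * Real.pi * Complex.I) / (2 * Real.pi * Complex.I)) = 0 := by
      refine eq_zero_of_dual (k := ℚ) fun f' => ?_
      have h3 := hs _ (G.der D f')
      have h4 := hφU h3
      rw [LinearMap.mem_ker, hφv] at h4
      rw [map_sub, map_sum, map_smul, Finset.sum_smul, ← h4, ← Finset.sum_sub_distrib]
      refine Finset.sum_congr rfl fun j _ => ?_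
      rw [map_smul, smul_eq_mul, smul_eq_mul]
      change _ = φ (Pi.single j 1) * (f' (D (l j) / (2 * Real.pi * Complex.I)) -
        f' (D (2 * Real.pi * Complex.I) / (2 * Real.pi * Complex.I)) * s j)
      ring
    have h5 : ∀ k : ℤ, D (k : ℂ) = 0 := fun k => by
      have h6 := D.map_algebraMap (k : QBar)
      rwa [map_intCast] at h6
    have h8 : ∀ (k : ℤ) (y : ℂ), D ((k : ℂ) * y) = (k : ℂ) * D y := fun k y => by
      rw [Derivation.leibniz, h5, smul_zero, add_zero, smul_eq_mul]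
    rw [map_sub, map_sum, h8]
    simp only [h8]
    have h6 : ∑ x, (m x : ℂ) * D (l x) - (n : ℂ) * D (2 * Real.pi * Complex.I) = (d : ℂ) * (2 * Real.pi * Complex.I) *
        (∑ j, (φ (Pi.single j 1)) • (D (l j) / (2 * Real.pi * Complex.I)) -
        (∑ j, φ (Pi.single j 1) * s j) • (D (2 * Real.pi * Complex.I) / (2 * Real.pi * Complex.I))) := by
      rw [mul_sub, Finset.mul_sum]
      congr 1
      · refine Finset.sum_congr rfl fun j _ => ?_
        have h7 := congrArg (fun q : ℚ => (q : ℂ)) (hm j)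
        simp only [Rat.cast_mul, Rat.cast_natCast, Rat.cast_intCast] at h7
        rw [← h7, Rat.smul_def]
        field_simp
      · have h7 := congrArg (fun q : ℚ => (q : ℂ)) hn
        simp only [Rat.cast_mul, Rat.cast_natCast, Rat.cast_intCast] at h7
        rw [← h7, Rat.smul_def]
        field_simp
    rw [h6, h2, mul_zero]
  obtain ⟨x, hx⟩ := mem_of_derivation h1
  have halg : IsAlgebraic ℚ (∑ j, (m j : ℂ) * l j - (n : ℂ) * (2 * Real.pi * Complex.I)) := by
    rw [← hx]
    exact QBar.alg x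
  have hexp : Complex.exp (∑ j, (m j : ℂ) * l j - (n : ℂ) * (2 * Real.pi * Complex.I)) =
      ∏ j, Complex.exp (l j) ^ m j := by
    rw [Complex.exp_sub, Complex.exp_int_mul_two_pi_mul_I, div_one, Complex.exp_sum]
    refine Finset.prod_congr rfl fun j _ => ?_
    rw [Complex.exp_int_mul]
  have hexpalg : IsAlgebraic ℚ (Complex.exp (∑ j, (m j : ℂ) * l j - (n : ℂ) * (2 * Real.pi * Complex.I))) := by
    rw [hexp]
    have hz : ∀ (x : ℂ) (hx : IsAlgebraic ℚ x) (k : ℤ), IsAlgebraic ℚ (x ^ k) := by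
      intro x hx k
      cases k with
      | ofNat k =>
        rw [Int.ofNat_eq_natCast, zpow_natCast]
        exact hx.pow k
      | negSucc k =>
        rw [zpow_negSucc]
        exact (hx.pow _).inv
    have key : ∀ E : Finset J, IsAlgebraic ℚ (∏ j ∈ E, Complex.exp (l j) ^ m j) := by
      intro E
      induction E using Finset.induction_on with
      | empty =>
        rw [Finset.prod_empty]
        exact isAlgebraic_one
      | insert b E hb ih =>
        rw [Finset.prod_insert hb]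
        exact (hz _ (hl b) _).mul ih
    exact key _
  have hzero : ∑ j, (m j : ℂ) * l j - (n : ℂ) * (2 * Real.pi * Complex.I) = 0 := by
    by_contra hne
    exact Pool.Agent.H340R2.LW.transcendental_cexp _ halg hne hexpalg
  have hone : Complex.exp (∑ j, (m j : ℂ) * l j) = 1 := by
    rw [sub_eq_zero.1 hzero, Complex.exp_int_mul_two_pi_mul_I]
  have h2 := congrArg f (hv m hone)
  apply hφ
  rw [hφv]
  rw [map_zero, map_sum] at h2
  have h3 : ∀ j, f ((m j : ℂ) * v j) = (d : ℚ) * (φ (Pi.single j 1) * f (v j)) := by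
    intro j
    have h4 : (m j : ℂ) * v j = ((d : ℚ) * φ (Pi.single j 1)) • v j := by
      rw [hm j, Rat.smul_def, Rat.cast_intCast]
    rw [h4, map_smul, smul_eq_mul, mul_assoc]
  simp only [h3] at h2
  rw [← Finset.mul_sum] at h2
  exact (mul_eq_zero.1 h2).resolve_left (Nat.cast_ne_zero.2 hd0)

end Pool.Agent.X306.AV
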