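import Pool.Agent.X306.RL.Br
import Mathlib.Analysis.Complex.TaylorSeries
import Mathlib.Analysis.Normed.Algebra.MatrixExponential

set_option autoImplicit false
set_option linter.unusedVariables false
set_option linter.unusedSectionVars false
set_option linter.unusedSimpArgs false

/-!
# One-parameter subgroups and the algebraic hull of a semisimple element
-/

open Matrix MvPolynomial

noncomputable section

namespace Pool.Agent.X306.AV

open Pool.Agent.TH127.PT Pool.Agent.Y123.ST
open Pool.Agent.X306.RL (Dv Dv_apply Dv_X)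

variable {N : Type} [Fintype N] [DecidableEq N] {K : Subfield ℂ} {T : Set (Matrix N N ℂ)}

/-! ## Curves -/

theorem curve_der {W : Matrix N N ℂ} {c : ℂ → Matrix N N ℂ}
    (hc : ∀ t i j, HasDerivAt (fun s => c s i j) ((W * c t) i j) t) (P : MvPolynomial (N × N) ℂ) (t : ℂ) :
    HasDerivAt (fun s => eval (fl (c s)) P) (eval (fl (c t)) (DL W P)) t := by
  rw [← Dv_apply]
  induction P using MvPolynomial.induction_on with
  | C a =>
    have h1 : Dv W (C a) = 0 := (Dv W).map_algebraMap a
    rw [h1, map_zero]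
    simp only [eval_C]
    exact hasDerivAt_const _ _
  | add p q hp hq =>
    simp only [map_add]
    exact hp.add hq
  | mul_X p b hp =>
    have h1 := hp.mul (hc t b.1 b.2)
    rw [Derivation.leibniz, Dv_X]
    have h2 : eval (fl (c t)) (p • sb (ml W) b + (X b : MvPolynomial (N × N) ℂ) • Dv W p) =
        eval (fl (c t)) (Dv W p) * c t b.1 b.2 + eval (fl (c t)) p * (W * c t) b.1 b.2 := by
      rw [smul_eq_mul, smul_eq_mul, map_add, map_mul, map_mul, eval_X, eval_sb, ml_fl]
      change _ * (W * c t) b.1 b.2 + c t b.1 b.2 * _ = _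
      ring
    rw [h2]
    refine h1.congr_of_eventuallyEq (Filter.Eventually.of_forall fun s => ?_)
    change eval (fl (c s)) (p * X b) = eval (fl (c s)) p * c s b.1 b.2
    rw [map_mul, eval_X]
    rfl

theorem van_iter {W : Matrix N N ℂ} (hW : fl W ∈ LL T) {P : MvPolynomial (N × N) ℂ} (hP : Van T P) (n : ℕ) :
    Van T ((DL W)^[n] P) := by
  induction n with
  | zero => exact hP
  | succ n ih =>
    rw [Function.iterate_succ_apply']
    exact van_DL hW ih

/-- a curve with constant logarithmic derivative in the Lie algebra -/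
theorem curve_mem (hT : IsSubtorsor K T) {W : Matrix N N ℂ} (hW : fl W ∈ LL T) {c : ℂ → Matrix N N ℂ}
    (hc : ∀ t i j, HasDerivAt (fun s => c s i j) ((W * c t) i j) t) (h0 : c 0 ∈ T) (t : ℂ) (hu : IsUnit (c t)) :
    c t ∈ T := by
  obtain ⟨I, h1, h2⟩ := hT.algebraic
  have hIV : ∀ p ∈ I, Van T p := fun p hp y hy => ((h2 y).1 hy).2 p hp
  refine (h2 _).2 ⟨hu, fun p hp => ?_⟩
  have hder := fun P => curve_der (W := W) hc P
  have hit : ∀ n : ℕ, ∀ P : MvPolynomial (N × N) ℂ,
      iteratedDeriv n (fun s => eval (fl (c s)) P) = fun s => eval (fl (c s)) ((DL W)^[n] P) := by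
    intro n
    induction n with
    | zero =>
      intro P
      rw [iteratedDeriv_zero]
      rfl
    | succ n ih =>
      intro P
      rw [iteratedDeriv_succ, ih]
      funext s
      rw [(hder _ s).deriv, Function.iterate_succ_apply']
  have hdiff : Differentiable ℂ (fun s => eval (fl (c s)) p) := fun s => (hder p s).differentiableAt
  have h3 := Complex.taylorSeries_eq_of_entire hdiff 0 t
  have h4 : ∀ n : ℕ, iteratedDeriv n (fun s => eval (fl (c s)) p) 0 = 0 := by
    intro n
    rw [hit]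
    exact van_iter hW (hIV p hp) n _ h0
  simp only [h4, smul_zero, tsum_zero] at h3
  exact h3.symm

section expo

open scoped Matrix.Norms.Operator

set_option backward.isDefEq.respectTransparency false in
theorem exp_entry (W : Matrix N N ℂ) (t : ℂ) (i j : N) :
    HasDerivAt (fun s : ℂ => (NormedSpace.exp (s • W)) i j) ((W * NormedSpace.exp (t • W)) i j) t := by
  have h1 := hasDerivAt_exp_smul_const' (𝕂 := ℂ) W t
  let E : Matrix N N ℂ →ₗ[ℂ] ℂ := Matrix.entryLinearMap ℂ ℂ i j
  exact (LinearMap.toContinuousLinearMap E).hasFDerivAt.comp_hasDerivAt t h1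

end expo

/-- exponentials of the elements of the Lie algebra -/
theorem exp_mem_LL (hT : IsSubtorsor K T) {W x : Matrix N N ℂ} (hW : fl W ∈ LL T) (hx : x ∈ T) :
    NormedSpace.exp W * x ∈ T := by
  have h1 := curve_mem hT hW (c := fun t => NormedSpace.exp (t • W) * x) (fun t i j => by
    have h2 : ∀ k, HasDerivAt (fun s : ℂ => (NormedSpace.exp (s • W)) i k * x k j)
        ((W * NormedSpace.exp (t • W)) i k * x k j) t := fun k => (exp_entry W t i k).mul_const _
    have h3 := HasDerivAt.fun_sum (u := Finset.univ) fun k _ => h2 k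
    rw [← Matrix.mul_assoc, Matrix.mul_apply (N := x)]
    exact h3) (by
      have h2 : NormedSpace.exp ((0 : ℂ) • W) * x = x := by
        rw [zero_smul, NormedSpace.exp_zero, Matrix.one_mul]
      change NormedSpace.exp ((0 : ℂ) • W) * x ∈ T
      rw [h2]
      exact hx) 1 ((Matrix.isUnit_exp _).mul (hT.isUnit x hx))
  change NormedSpace.exp ((1 : ℂ) • W) * x ∈ T at h1
  rwa [one_smul] at h1

/-! ## The hull of a semisimple element -/

/-- the Euler derivation -/
def eu (β : N → ℂ) : MvPolynomial N ℂ →ₗ[ℂ] MvPolynomial N ℂ := ∑ k, β k • (LinearMap.mulLeft ℂ (X k)).comp (pderiv k).toLinearMap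

theorem eu_apply (β : N → ℂ) (Q : MvPolynomial N ℂ) : eu β Q = ∑ k, β k • (X k * pderiv k Q) := by
  unfold eu
  rw [LinearMap.sum_apply]
  rfl

theorem eu_monomial (β : N → ℂ) (α : N →₀ ℕ) : eu β (monomial α 1) = (∑ k, (α k : ℂ) * β k) • monomial α 1 := by
  rw [eu_apply, Finset.sum_smul]
  refine Finset.sum_congr rfl fun k _ => ?_
  rw [X_mul_pderiv_monomial, nsmul_eq_mul, mul_smul, smul_comm]
  congr 1
  rw [← nsmul_eq_mul, Nat.cast_smul_eq_nsmul]

/-- the polynomial functions on the torus -/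
def Gt (S y : Matrix N N ℂ) : MvPolynomial (N × N) ℂ →ₐ[ℂ] MvPolynomial N ℂ :=
  aeval fun b => ∑ k, C (S b.1 k * y k b.2) * X k

theorem eval_Gt (S y : Matrix N N ℂ) (P : MvPolynomial (N × N) ℂ) (t : N → ℂ) :
    eval t (Gt S y P) = eval (fl (S * Matrix.diagonal t * y)) P := by
  have h1 : (fun b : N × N => eval t (∑ k, C (S b.1 k * y k b.2) * X k)) = fl (S * Matrix.diagonal t * y) := by
    funext b
    change _ = (S * Matrix.diagonal t * y) b.1 b.2
    rw [map_sum, Matrix.mul_apply]
    refine Finset.sum_congr rfl fun k _ => ?_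
    rw [map_mul, eval_C, eval_X, Matrix.mul_diagonal]
    ring
  rw [← h1]
  unfold Gt
  induction P using MvPolynomial.induction_on with
  | C a => simp
  | add p q hp hq => rw [map_add, map_add, map_add, hp, hq]
  | mul_X p b hp => rw [map_mul, map_mul, map_mul, hp, aeval_X, eval_X]

theorem pderiv_Gt (S y : Matrix N N ℂ) (P : MvPolynomial (N × N) ℂ) (k : N) :
    pderiv k (Gt S y P) = ∑ b, Gt S y (pderiv b P) * C (S b.1 k * y k b.2) := by
  have hX : ∀ b : N × N, pderiv k (Gt S y (X b)) = C (S b.1 k * y k b.2) := by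
    intro b
    unfold Gt
    rw [aeval_X, map_sum, Finset.sum_eq_single k]
    · rw [pderiv_mul, pderiv_C, zero_mul, zero_add, pderiv_X_self, mul_one]
    · intro l _ hl
      rw [pderiv_mul, pderiv_C, zero_mul, zero_add, pderiv_X_of_ne hl, mul_zero]
    · intro h
      exact absurd (Finset.mem_univ _) h
  induction P using MvPolynomial.induction_on with
  | C a =>
    have h1 : Gt S y (C a) = C a := (Gt S y).commutes a
    rw [h1, pderiv_C]
    refine (Finset.sum_eq_zero fun b _ => ?_).symm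
    rw [pderiv_C, map_zero, zero_mul]
  | add p q hp hq =>
    rw [map_add, map_add, hp, hq, ← Finset.sum_add_distrib]
    refine Finset.sum_congr rfl fun b _ => ?_
    rw [map_add, map_add, add_mul]
  | mul_X p b hp =>
    rw [map_mul, pderiv_mul, hX, hp]
    have h1 : ∀ b', Gt S y (pderiv b' (p * X b)) * C (S b'.1 k * y k b'.2) =
        Gt S y (pderiv b' p) * C (S b'.1 k * y k b'.2) * Gt S y (X b) +
          (if b = b' then Gt S y p * C (S b.1 k * y k b.2) else 0) := by
      intro b'
      rw [pderiv_mul, map_add, map_mul, map_mul]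
      by_cases h2 : b = b'
      · subst h2
        rw [pderiv_X_self, map_one, if_pos rfl]
        ring
      · rw [pderiv_X_of_ne h2, map_zero, if_neg h2]
        ring
    rw [Finset.sum_congr rfl fun b' _ => h1 b', Finset.sum_add_distrib, Finset.sum_ite_eq, if_pos (Finset.mem_univ b),
      Finset.sum_mul]

/-- the vector field on the torus -/
theorem Gt_DL {S W : Matrix N N ℂ} {β : N → ℂ} (hW : W * S = S * Matrix.diagonal β) (y : Matrix N N ℂ)
    (P : MvPolynomial (N × N) ℂ) : Gt S y (DL W P) = eu β (Gt S y P) := by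
  apply MvPolynomial.funext
  intro t
  rw [eval_Gt, eval_DL, ml_fl, eu_apply, map_sum]
  have h1 : ∀ k, eval t (β k • (X k * pderiv k (Gt S y P))) =
      ∑ b, eval (fl (S * Matrix.diagonal t * y)) (pderiv b P) * (S b.1 k * (β k * t k) * y k b.2) := by
    intro k
    rw [smul_eval, map_mul, eval_X, pderiv_Gt, map_sum, Finset.mul_sum, Finset.mul_sum]
    refine Finset.sum_congr rfl fun b _ => ?_
    rw [map_mul, eval_C, eval_Gt]
    ring
  rw [Finset.sum_congr rfl fun k _ => h1 k, Finset.sum_comm]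
  unfold dd
  refine Finset.sum_congr rfl fun b _ => ?_
  rw [← Finset.mul_sum]
  congr 1
  change (W * (S * Matrix.diagonal t * y)) b.1 b.2 = _
  have h2 : W * (S * Matrix.diagonal t * y) = S * Matrix.diagonal (fun k => β k * t k) * y := by
    rw [← Matrix.mul_assoc, ← Matrix.mul_assoc, hW, Matrix.mul_assoc S, Matrix.diagonal_mul_diagonal]
  rw [h2, Matrix.mul_apply]
  refine Finset.sum_congr rfl fun k _ => ?_
  rw [Matrix.mul_diagonal]

/-- the functional -/
def fc (φ : (N →₀ ℕ) → ℂ) : MvPolynomial N ℂ →ₗ[ℂ] ℂ := (basisMonomials N ℂ).constr ℂ φ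

theorem fc_monomial (φ : (N →₀ ℕ) → ℂ) (α : N →₀ ℕ) : fc φ (monomial α 1) = φ α := by
  have h1 := (basisMonomials N ℂ).constr_basis ℂ φ α
  rwa [coe_basisMonomials] at h1

theorem lin_ext {M : Type} [AddCommGroup M] [Module ℂ M] {F F' : MvPolynomial N ℂ →ₗ[ℂ] M}
    (h : ∀ α, F (monomial α 1) = F' (monomial α 1)) : F = F' := by
  refine (basisMonomials N ℂ).ext fun α => ?_
  rw [coe_basisMonomials]
  exact h α

theorem fc_eu (φ : (N →₀ ℕ) → ℂ) (β : N → ℂ) (Q : MvPolynomial N ℂ) :
    fc φ (eu β Q) = fc (fun α => (∑ k, (α k : ℂ) * β k) * φ α) Q := by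
  have h1 : (fc φ).comp (eu β) = fc (fun α => (∑ k, (α k : ℂ) * β k) * φ α) := lin_ext fun α => by
    rw [LinearMap.comp_apply, eu_monomial, map_smul, fc_monomial, fc_monomial, smul_eq_mul]
  exact congrArg (fun F : MvPolynomial N ℂ →ₗ[ℂ] ℂ => F Q) h1

theorem fc_one (Q : MvPolynomial N ℂ) : fc (fun _ => 1) Q = eval (fun _ => 1) Q := by
  have h1 : fc (fun _ => 1) = (aeval (fun _ : N => (1 : ℂ))).toLinearMap := lin_ext fun α => by
    rw [fc_monomial, AlgHom.toLinearMap_apply, aeval_monomial]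
    simp
  rw [h1, AlgHom.toLinearMap_apply, aeval_eq_eval]

theorem fc_sum (φ : (N →₀ ℕ) → ℂ) (Q : MvPolynomial N ℂ) : fc φ Q = ∑ α ∈ Q.support, Q.coeff α * φ α := by
  conv_lhs => rw [Q.as_sum]
  rw [map_sum]
  refine Finset.sum_congr rfl fun α _ => ?_
  have h1 : (monomial α (Q.coeff α) : MvPolynomial N ℂ) = Q.coeff α • monomial α 1 := by
    rw [smul_monomial, smul_eq_mul, mul_one]
  rw [h1, map_smul, fc_monomial, smul_eq_mul]

/-- **The hull of a semisimple element.** -/
theorem hull {S W W' : Matrix N N ℂ} {β β' : N → ℂ} (hS : IsUnit S) (hW : W * S = S * Matrix.diagonal β)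
    (hW' : W' * S = S * Matrix.diagonal β') (hrel : ∀ n : N → ℤ, ∑ k, (n k : ℂ) * β k = 0 → ∑ k, (n k : ℂ) * β' k = 0)
    (h : fl W ∈ LL T) : fl W' ∈ LL T := by
  classical
  intro P hP x hx
  rw [um_fl, ← ml_fl, ← eval_DL]
  have hSS : S * S⁻¹ = 1 := Matrix.mul_nonsing_inv _ ((Matrix.isUnit_iff_isUnit_det _).1 hS)
  have hx1 : S * Matrix.diagonal (fun _ => (1 : ℂ)) * (S⁻¹ * x) = x := by
    have h1 : Matrix.diagonal (fun _ : N => (1 : ℂ)) = 1 := Matrix.diagonal_one
    rw [h1, Matrix.mul_one, ← Matrix.mul_assoc, hSS, Matrix.one_mul]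
  set y := S⁻¹ * x with hy
  have hev : ∀ Q, eval (fun _ => 1) (Gt S y Q) = eval (fl x) Q := by
    intro Q
    rw [eval_Gt, hx1]
  -- the powers
  have hpow : ∀ n : ℕ, ∀ Q, Van T Q → fc (fun α => (∑ k, (α k : ℂ) * β k) ^ n) (Gt S y Q) = 0 := by
    intro n
    induction n with
    | zero =>
      intro Q hQ
      simp only [pow_zero]
      rw [fc_one, hev]
      exact hQ x hx
    | succ n ih =>
      intro Q hQ
      have h1 := ih _ (van_DL h hQ)
      rw [Gt_DL hW, fc_eu] at h1
      simp only [pow_succ']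
      exact h1
  -- the polynomials
  have hpoly : ∀ p : Polynomial ℂ, fc (fun α => p.eval (∑ k, (α k : ℂ) * β k)) (Gt S y P) = 0 := by
    intro p
    have h1 : fc (fun α => p.eval (∑ k, (α k : ℂ) * β k)) (Gt S y P) =
        ∑ i ∈ p.support, p.coeff i * fc (fun α => (∑ k, (α k : ℂ) * β k) ^ i) (Gt S y P) := by
      simp only [fc_sum, Finset.mul_sum]
      rw [Finset.sum_comm]
      refine Finset.sum_congr rfl fun α _ => ?_
      rw [Polynomial.eval_eq_sum, Polynomial.sum, Finset.mul_sum]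
      refine Finset.sum_congr rfl fun i _ => ?_
      ring
    rw [h1]
    refine Finset.sum_eq_zero fun i _ => ?_
    rw [hpow i P hP, mul_zero]
  -- the interpolation
  have hdiff : ∀ α α' : N →₀ ℕ, ∑ k, (α k : ℂ) * β k = ∑ k, (α' k : ℂ) * β k →
      ∑ k, (α k : ℂ) * β' k = ∑ k, (α' k : ℂ) * β' k := by
    intro α α' h1
    have h2 := hrel (fun k => (α k : ℤ) - (α' k : ℤ)) (by
      push_cast
      simp only [sub_mul, Finset.sum_sub_distrib]
      rw [h1, sub_self])
    push_cast at h2
    simp only [sub_mul, Finset.sum_sub_distrib] at h2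
    exact sub_eq_zero.1 h2
  let vals : Finset ℂ := (Gt S y P).support.image fun α => ∑ k, (α k : ℂ) * β k
  let f : ℂ → ℂ := fun z => if h : ∃ α : N →₀ ℕ, ∑ k, (α k : ℂ) * β k = z then ∑ k, ((Classical.choose h) k : ℂ) * β' k else 0
  have hf : ∀ α : N →₀ ℕ, f (∑ k, (α k : ℂ) * β k) = ∑ k, (α k : ℂ) * β' k := by
    intro α
    have h2 : ∃ α' : N →₀ ℕ, ∑ k, (α' k : ℂ) * β k = ∑ k, (α k : ℂ) * β k := ⟨α, rfl⟩
    simp only [f]
    rw [dif_pos h2]
    exact hdiff _ _ (Classical.choose_spec h2)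
  have h1 := hpoly (Lagrange.interpolate vals id f)
  rw [fc_sum] at h1
  have h2 : fc (fun α => ∑ k, (α k : ℂ) * β' k) (Gt S y P) = 0 := by
    rw [fc_sum, ← h1]
    refine Finset.sum_congr rfl fun α hα => ?_
    congr 1
    have h3 := Lagrange.eval_interpolate_at_node (s := vals) (v := id) f (fun _ _ _ _ h => h)
      (Finset.mem_image_of_mem (fun α : N →₀ ℕ => ∑ k, (α k : ℂ) * β k) hα)
    rw [id] at h3
    rw [h3, hf]
  have h3 := fc_eu (fun _ => 1) β' (Gt S y P)
  simp only [mul_one] at h3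
  rw [h2, ← Gt_DL hW', fc_one, hev] at h3
  exact h3

end Pool.Agent.X306.AV
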