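import Pool.Agent.X306.AV.OQ
import Pool.Agent.X306.AV.TA
import Pool.Agent.Y102.AV12

set_option autoImplicit false
set_option linter.unusedVariables false
set_option linter.unusedSectionVars false
set_option linter.unusedSimpArgs false

/-!
# 1-motives whose abelian part has maximal real multiplication: the part of weight zero
-/

open Matrix Module TensorProduct

noncomputable section

namespace Pool.Agent.X306.AV

open Pool.Agent.Y102 Pool.Agent.W516.DR Pool.Agent.H204R3.GP Pool.Agent.W516.KC Pool.Agent.W516.KC2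
open Pool.Agent.TH127.PT Pool.Agent.Y123.ST Pool.Agent.TH119.DR Pool.Agent.W245.EB Pool.Agent.H204R3.SP
open Pool.Agent.X306.RL (LL_br LL_defF GDef derD)
open Pool.Agent.X306.EM (QQ mem_QQ QB_iff)

variable {g : ℕ} {A : AbVar g} {R J : Type} [Fintype R] [DecidableEq R] [Fintype J] [DecidableEq J]
variable {u e : R → Fin g → ℂ} {q f : J → Fin g → ℂ} {L : Matrix R J ℂ} {F : IntermediateField ℚ ℂ}
variable {T : Set (Matrix (Iz (Fin (2 * g)) R J) (Iz (Fin (2 * g)) R J) ℂ)}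

/-- an integral multiple of an endomorphism -/
theorem endM_of_EA {P : Module.End ℚ A.H1} (hP : P ∈ A.EA) :
    ∃ d : ℕ, d ≠ 0 ∧ ∃ m, EndM A m ∧ ∀ v : Fin (2 * g) → ℚ, v ᵥ* mQ m = (d : ℚ) • P v := by
  obtain ⟨M, hM⟩ := A.hodge_end (A.mem_EA.1 hP)
  have hM' : ∀ w, M (A.per w) = A.per (P w) := hM
  obtain ⟨d, hd0, hd⟩ := exists_den (fun p : Fin (2 * g) × Fin (2 * g) => P (A.bas p.1) p.2)
  choose m hm using hd
  refine ⟨d, hd0, Matrix.of fun i j => m (i, j), ⟨(d : ℂ) • M, fun j => ?_⟩, fun v => ?_⟩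
  · rw [LinearMap.smul_apply, ← A.per_bas, hM', per_eq, Finset.smul_sum]
    refine Finset.sum_congr rfl fun i _ => ?_
    rw [smul_smul]
    congr 1
    have h1 := congrArg (fun x : ℚ => (x : ℂ)) (hm (j, i))
    simp only [Rat.cast_mul, Rat.cast_natCast, Rat.cast_intCast] at h1
    exact h1
  · funext i
    have h1 : v = ∑ j, v j • A.bas j := by
      conv_lhs => rw [← A.bas.sum_repr v]
      rfl
    conv_rhs => rw [h1]
    rw [map_sum, Finset.smul_sum, Finset.sum_apply]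
    change ∑ j, v j * ((m (j, i) : ℤ) : ℚ) = _
    refine Finset.sum_congr rfl fun j _ => ?_
    rw [← hm (j, i), map_smul, Pi.smul_apply, Pi.smul_apply, smul_eq_mul, smul_eq_mul]
    ring

/-- the elements commute with the endomorphisms -/
theorem comm_EA {ξ : RS g R J} (hξ : ξ ∈ gR A u q T) {P : Module.End ℚ A.H1} (hP : P ∈ A.EA) :
    ξ.1 * P = P * ξ.1 := by
  obtain ⟨d, hd0, m, hm, h⟩ := endM_of_EA hP
  refine LinearMap.ext fun v => ?_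
  have h1 := (mem_gR.1 hξ).2.1 m hm v
  rw [h, h, map_smul] at h1
  have hd : (d : ℚ) ≠ 0 := Nat.cast_ne_zero.2 hd0
  exact smul_right_injective _ hd h1

/-- the normalised Lie algebra of weight zero -/
abbrev HH (A : AbVar g) (u : R → Fin g → ℂ) (q : J → Fin g → ℂ)
    (T : Set (Matrix (Iz (Fin (2 * g)) R J) (Iz (Fin (2 * g)) R J) ℂ)) : Submodule ℚ (Module.End ℚ (Fin (2 * g) → ℚ)) :=
  hh ((gR A u q T).map (prj g R J))

theorem mem_HH {X : Module.End ℚ (Fin (2 * g) → ℚ)} : X ∈ HH A u q T ↔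
    ∃ ξ ∈ gR A u q T, ξ.1 - (ξ.2.2.1 / 2) • (1 : Module.End ℚ (Fin (2 * g) → ℚ)) = X := by
  constructor
  · intro h
    obtain ⟨_, ⟨ξ, hξ, rfl⟩, h1⟩ := mem_hh.1 h
    exact ⟨ξ, hξ, h1⟩
  · rintro ⟨ξ, hξ, h1⟩
    exact mem_hh.2 ⟨_, ⟨ξ, hξ, rfl⟩, h1⟩

theorem HH_EA {X : Module.End ℚ (Fin (2 * g) → ℚ)} (hX : X ∈ HH A u q T) {P : Module.End ℚ A.H1} (hP : P ∈ A.EA) :
    X * P = P * X := by
  obtain ⟨ξ, hξ, rfl⟩ := mem_HH.1 hX
  rw [sub_mul, mul_sub, comm_EA hξ hP, smul_mul_assoc, mul_smul_comm, one_mul, mul_one]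

/-- the part without complex multiplication -/
theorem idem_span {𝔤 : Submodule ℚ (GT (Fin (2 * g)) (R ⊕ J) Empty)} {uu ee : R ⊕ J → Fin g → ℂ}
    (G : Good A uu ee (fun j : Empty => j.elim) 𝔤)
    (hcomm : ∀ X ∈ hh 𝔤, ∀ P ∈ A.EA, X * P = P * X) {e' : Basis (Fin g) ℂ (Fin g → ℂ)} (he : AbVar.Adapted A.EA e')
    {ε : Module.End ℚ A.H1} (hε : A.Idem ε) (h0 : ∀ R ∈ A.ZA, R * ε = 0)
    {Z : Module.End ℚ A.H1} (hZ : IsSkew A.om Z) (hZc : ∀ Q ∈ A.EA, Z * Q = Q * Z) :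
    ε * Z ∈ Submodule.span ℚ {Y | ∃ X ∈ hh 𝔤, ∃ X' ∈ hh 𝔤, Y = X * X' - X' * X} := by
  have hεs : ∀ u v, A.om (ε u) v = A.om u (ε v) := hε.sym
  have hZε : ε * Z = Z * ε := (hZc ε hε.mem).symm
  have hEA : ∀ P : Module.End ℚ A.H1, (∀ X ∈ hh 𝔤, X * P = P * X) → P ∈ A.EA := fun P hP => A.mem_EA.2 (G.drb hP)
  have h1 := mem_of_idem (hh 𝔤) G.semi (fun X hX Y hY => G.br_hh hX hY) A.om
    (fun X hX => G.skew_hh hX) (fun u hu => A.om_nondeg hu) ε hε.idem (fun X hX => hcomm X hX ε hε.mem)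
    (fun Q hQ => hε.cen Q (hEA Q hQ)) hεs
    (fun X _ _ hX hXs Y hY => hcomm Y hY X (A.mem_EA_of_sym he hXs fun Q hQ => hX Q fun Y hY => hcomm Y hY Q hQ))
    (fun Z h1 h2 hZs hZc hZcc => by
      have h3 : Z ∈ A.ZA := ⟨hEA Z hZc, hZs, fun Q hQ => hZcc Q fun Y hY => hcomm Y hY Q hQ⟩
      rw [← h2, h0 Z h3])
    (Z := ε * Z) (fun u v => by
      rw [Module.End.mul_apply, hεs, Module.End.mul_apply]
      have h3 := congrArg (fun T : Module.End ℚ A.H1 => T v) hZε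
      have h4 := hZ u (ε v)
      simp only [Module.End.mul_apply] at h3
      rw [h3]
      exact h4)
    (fun Q hQ => by rw [mul_assoc, hZc Q (hEA Q hQ), ← mul_assoc, hε.cen Q (hEA Q hQ), mul_assoc])
    (by rw [← mul_assoc, hε.idem])
  refine (Submodule.span_le.2 ?_) h1
  rintro _ ⟨X, hX, Y, hY, rfl⟩
  have hXc : (1 - ε) * X ∈ A.ZA := hε.comp X (G.skew_hh hX) fun Q hQ => hcomm X hX Q hQ
  have h2 : ε * (X * Y - Y * X) = X * Y - Y * X := by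
    have h3 : ((1 - ε) * X) * Y = Y * ((1 - ε) * X) := (hcomm Y hY _ hXc.1).symm
    have h4 : (1 - ε) * (X * Y - Y * X) = 0 := by
      have h5 : (1 - ε) * Y = Y * (1 - ε) := by
        rw [sub_mul, mul_sub, one_mul, mul_one, hcomm Y hY ε hε.mem]
      rw [mul_sub, ← mul_assoc, h3, ← mul_assoc, ← mul_assoc, h5, sub_self]
    rw [sub_mul, one_mul, sub_eq_zero] at h4
    exact h4.symm
  rw [h2]
  exact Submodule.subset_span ⟨X, hX, Y, hY, rfl⟩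

/-- the pure elements of weight zero and multiplier zero -/
def L0 (𝔤 : Submodule ℚ (RS g R J)) : Submodule ℚ (Module.End ℚ (Fin (2 * g) → ℚ)) where
  carrier := {X | ((X, 0, 0, 0) : RS g R J) ∈ 𝔤}
  zero_mem' := 𝔤.zero_mem
  add_mem' := by
    intro Y Y' h h'
    have h1 := 𝔤.add_mem h h'
    simpa using h1
  smul_mem' := by
    intro q Y h
    have h1 := 𝔤.smul_mem q h
    simpa using h1

theorem mem_L0 {𝔤 : Submodule ℚ (RS g R J)} {X : Module.End ℚ (Fin (2 * g) → ℚ)} :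
    X ∈ L0 𝔤 ↔ ((X, 0, 0, 0) : RS g R J) ∈ 𝔤 := Iff.rfl

/-- the splitting -/
theorem norm_mem (hT : IsSubtorsor QB T) (hG : GDef QQ T) (hc : sm (prS u e q f L A) 1 ∈ T) (hF : Fld A F)
    (hu : ∀ r, u r ∈ Pt A F) (hq : ∀ j, q j ∈ Pt A F) (hE : EndAlg A) (hN0 : RelN A u q (Nm A u e q f))
    {s : R → J → ℚ} (hs : ∀ ξ ∈ gR A u q T, (fun r j => ξ.2.2.2 r j - ξ.2.2.1 * s r j) ∈ U2 (gR A u q T))
    {ξ : RS g R J} (hξ : ξ ∈ gR A u q T) :
    ((ξ.1, 0, ξ.2.2.1, fun r j => ξ.2.2.1 * s r j) : RS g R J) ∈ gR A u q T := by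
  obtain ⟨w, hw⟩ := hratrow hT hG hc hF hu hq hE hN0 (mem_gR.1 hξ).2.2
  have h1 := (gR A u q T).sub_mem hξ hw
  have h2 := mem_U2.1 (hs _ h1)
  refine (congrArg (· ∈ gR A u q T) ?_).mp ((gR A u q T).sub_mem h1 h2)
  refine Prod.ext ?_ (Prod.ext ?_ (Prod.ext ?_ ?_))
  · change ξ.1 - 0 - 0 = ξ.1
    rw [sub_zero, sub_zero]
  · change ξ.2.1 - ξ.2.1 - 0 = 0
    rw [sub_self, sub_zero]
  · change ξ.2.2.1 - 0 - 0 = ξ.2.2.1
    rw [sub_zero, sub_zero]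
  · funext r j
    change (ξ.2.2.2 r j - w r j) - ((ξ.2.2.2 r j - w r j) - (ξ.2.2.1 - 0) * s r j) = ξ.2.2.1 * s r j
    ring

theorem lift_br (hT : IsSubtorsor QB T) (hG : GDef QQ T) (hc : sm (prS u e q f L A) 1 ∈ T) (hF : Fld A F)
    (hu : ∀ r, u r ∈ Pt A F) (hq : ∀ j, q j ∈ Pt A F) (hE : EndAlg A) (hN0 : RelN A u q (Nm A u e q f))
    {s : R → J → ℚ} (hs : ∀ ξ ∈ gR A u q T, (fun r j => ξ.2.2.2 r j - ξ.2.2.1 * s r j) ∈ U2 (gR A u q T))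
    {X Y : Module.End ℚ (Fin (2 * g) → ℚ)} (hX : X ∈ HH A u q T) (hY : Y ∈ HH A u q T) :
    X * Y - Y * X ∈ L0 (gR A u q T) := by
  obtain ⟨ξ, hξ, rfl⟩ := mem_HH.1 hX
  obtain ⟨ξ', hξ', rfl⟩ := mem_HH.1 hY
  have h1 := norm_mem hT hG hc hF hu hq hE hN0 hs (gR_br hξ' hξ)
  refine mem_L0.2 ((congrArg (· ∈ gR A u q T) ?_).mp h1)
  refine Prod.ext ?_ (Prod.ext rfl (Prod.ext rfl ?_))
  · change ξ.1 * ξ'.1 - ξ'.1 * ξ.1 = _
    simp only [sub_mul, mul_sub, smul_mul_assoc, mul_smul_comm, one_mul, mul_one, smul_sub]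
    rw [smul_comm (ξ.2.2.1 / 2) (ξ'.2.2.1 / 2)]
    abel
  · funext r j
    change (0 : ℚ) * s r j = 0
    rw [zero_mul]

/-- the part without complex multiplication is in the Lie algebra -/
theorem idem_L0 (hT : IsSubtorsor QB T) (hG : GDef QQ T) (hc : sm (prS u e q f L A) 1 ∈ T) (hF : Fld A F)
    (hu : ∀ r, u r ∈ Pt A F) (hq : ∀ j, q j ∈ Pt A F) (hE : EndAlg A) (hN0 : RelN A u q (Nm A u e q f))
    {s : R → J → ℚ} (hs : ∀ ξ ∈ gR A u q T, (fun r j => ξ.2.2.2 r j - ξ.2.2.1 * s r j) ∈ U2 (gR A u q T))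
    {e' : Basis (Fin g) ℂ (Fin g → ℂ)} (he : AbVar.Adapted A.EA e')
    {ε : Module.End ℚ A.H1} (hε : A.Idem ε) (h0 : ∀ R ∈ A.ZA, R * ε = 0)
    {Z : Module.End ℚ A.H1} (hZ : IsSkew A.om Z) (hZc : ∀ Q ∈ A.EA, Z * Q = Q * Z) :
    ε * Z ∈ L0 (gR A u q T) := by
  have h1 := idem_span (good_gR hT hG hc hE hN0) (fun X hX P hP => HH_EA (A := A) (u := u) (q := q) (T := T) hX hP)
    he hε h0 hZ hZc
  refine (Submodule.span_le.2 ?_) h1
  rintro _ ⟨X, hX, Y, hY, rfl⟩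
  exact lift_br hT hG hc hF hu hq hE hN0 hs hX hY

/-- the endomorphisms -/
theorem EA_of_endM (hT : IsSubtorsor QB T) (hG : GDef QQ T) (hc : sm (prS u e q f L A) 1 ∈ T) (hE : EndAlg A)
    (hN0 : RelN A u q (Nm A u e q f)) {m : Matrix (Fin (2 * g)) (Fin (2 * g)) ℤ} (hm : EndM A m) :
    (Matrix.vecMulLinear (mQ m) : Module.End ℚ (Fin (2 * g) → ℚ)) ∈ A.EA := by
  refine A.mem_EA.2 ((good_gR hT hG hc hE hN0).drb fun X hX => ?_)
  obtain ⟨ξ, hξ, rfl⟩ := mem_HH.1 hX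
  have h1 : ξ.1 * (Matrix.vecMulLinear (mQ m) : Module.End ℚ (Fin (2 * g) → ℚ)) = Matrix.vecMulLinear (mQ m) * ξ.1 :=
    LinearMap.ext fun v => (mem_gR.1 hξ).2.1 m hm v
  rw [sub_mul, mul_sub, h1, smul_mul_assoc, mul_smul_comm, one_mul, mul_one]

end Pool.Agent.X306.AV
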