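import Pool.Agent.X306.AV.TB

set_option autoImplicit false
set_option linter.unusedVariables false
set_option linter.unusedSectionVars false
set_option linter.unusedSimpArgs false

/-!
# 1-motives whose abelian part has maximal real multiplication: the central elements
-/

open Matrix Module TensorProduct Polynomial Function

noncomputable section

namespace Pool.Agent.X306.AV

open Pool.Agent.Y102 Pool.Agent.W516.DR Pool.Agent.H204R3.GP Pool.Agent.W516.KC Pool.Agent.H204R3.SP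

variable {g : ℕ} {A : AbVar g}

/-- **Separation**: different characters are different on the Lie algebra. -/
theorem separatedH {𝔥 : Submodule ℚ (Module.End ℚ A.H1)} (hskew : ∀ X ∈ 𝔥, IsSkew A.om X)
    (hcomm : ∀ X ∈ 𝔥, ∀ Q ∈ A.EA, X * Q = Q * X)
    (hEA : ∀ P : Module.End ℚ A.H1, (∀ X ∈ 𝔥, X * P = P * X) → P ∈ A.EA)
    {ε : Module.End ℚ A.H1} (hε : A.Idem ε) (h0 : ∀ R ∈ A.ZA, R * ε = 0) (hεL : ∀ X ∈ 𝔥, ε * X ∈ 𝔥) {n : ℕ}
    {b : Basis (Fin n) ℂ (ℂ ⊗[ℚ] A.H1)} {χ : Fin n → (A.ZA →ₗ[ℚ] ℂ)}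
    (hb : ∀ k (R : A.ZA), (R : Module.End ℚ A.H1).baseChange ℂ (b k) = χ k R • b k)
    {i j : Fin n} (hi : χ i ≠ 0) (hj : χ j ≠ 0)
    (hL : ∀ R : A.ZA, (R : Module.End ℚ A.H1) ∈ 𝔥 → χ i R = χ j R) : χ i = χ j := by
  classical
  -- the Lie algebra on the eigenvectors
  have hact : ∀ k, χ k ≠ 0 → ∀ X ∈ 𝔥, ∃ R : A.ZA, (R : Module.End ℚ A.H1) ∈ 𝔥 ∧
      (R : Module.End ℚ A.H1) = (1 - ε) * X ∧ X.baseChange ℂ (b k) = χ k R • b k := by
    intro k hk X hX
    have hXs := hskew X hX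
    have hXc : ∀ Q ∈ A.EA, X * Q = Q * X := hcomm X hX
    have h1 : (1 - ε) * X ∈ A.ZA := hε.comp X hXs hXc
    have h2 : ε * X ∈ 𝔥 := hεL X hX
    refine ⟨⟨_, h1⟩, ?_, rfl, ?_⟩
    · change (1 - ε) * X ∈ 𝔥
      rw [sub_mul, one_mul]
      exact 𝔥.sub_mem hX h2
    · obtain ⟨R₀, hR₀⟩ : ∃ R₀, χ k R₀ ≠ 0 := by
        by_contra hne
        push Not at hne
        exact hk (LinearMap.ext hne)
      have h3 : ε.baseChange ℂ (b k) = 0 := by
        have h4 : ε * (R₀ : Module.End ℚ A.H1) = 0 := by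
          rw [← h0 R₀ R₀.2, R₀.2.2.2 ε hε.mem]
        have h5 : ε.baseChange ℂ ((R₀ : Module.End ℚ A.H1).baseChange ℂ (b k)) = 0 := by
          rw [← LinearMap.comp_apply, ← LinearMap.baseChange_comp]
          have h6 : ε ∘ₗ (R₀ : Module.End ℚ A.H1) = 0 := h4
          rw [h6, LinearMap.baseChange_zero, LinearMap.zero_apply]
        rw [hb, map_smul] at h5
        exact (smul_eq_zero.1 h5).resolve_left hR₀
      rw [← hb k ⟨_, h1⟩]
      have h7 : X = (1 - ε) * X + X * ε := by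
        rw [sub_mul, one_mul, hXc ε hε.mem]
        abel
      conv_lhs => rw [h7]
      rw [LinearMap.baseChange_add, LinearMap.add_apply]
      have h8 : (X * ε).baseChange ℂ (b k) = 0 := by
        have h9 : (X * ε : Module.End ℚ A.H1) = X ∘ₗ ε := rfl
        rw [h9, LinearMap.baseChange_comp, LinearMap.comp_apply, h3, map_zero]
      rw [h8, add_zero]
  -- the operator between the eigenvectors
  let T : Module.End ℂ (ℂ ⊗[ℚ] A.H1) :=
    { toFun := fun v => b.repr v i • b j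
      map_add' := fun u v => by rw [map_add, Finsupp.add_apply, add_smul]
      map_smul' := fun c v => by
        rw [map_smul, Finsupp.smul_apply, smul_eq_mul, mul_smul, RingHom.id_apply] }
  have hT : ∀ v, T v = b.repr v i • b j := fun v => rfl
  have hTb : ∀ k, T (b k) = if k = i then b j else 0 := by
    intro k
    rw [hT, Basis.repr_self, Finsupp.single_apply]
    split_ifs
    · rw [one_smul]
    · rw [zero_smul]
  have hTX : ∀ X ∈ 𝔥, T * X.baseChange ℂ = X.baseChange ℂ * T := by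
    intro X hX
    refine b.ext fun k => ?_
    rw [Module.End.mul_apply, Module.End.mul_apply, hTb]
    by_cases hk : χ k = 0
    · have hki : k ≠ i := fun h => hi (h ▸ hk)
      rw [if_neg hki, map_zero, hT]
      obtain ⟨R₀, hR₀⟩ : ∃ R₀, χ i R₀ ≠ 0 := by
        by_contra hne
        push Not at hne
        exact hi (LinearMap.ext hne)
      have h1 : (R₀ : Module.End ℚ A.H1).baseChange ℂ (X.baseChange ℂ (b k)) = 0 := by
        have h2 : (R₀ : Module.End ℚ A.H1) * X = X * R₀ := (hcomm X hX _ R₀.2.1).symm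
        have h3 : (R₀ : Module.End ℚ A.H1) ∘ₗ X = X ∘ₗ (R₀ : Module.End ℚ A.H1) := h2
        rw [← LinearMap.comp_apply, ← LinearMap.baseChange_comp, h3, LinearMap.baseChange_comp,
          LinearMap.comp_apply, hb, hk, LinearMap.zero_apply, zero_smul, map_zero]
      have h2 : ∀ v, b.repr ((R₀ : Module.End ℚ A.H1).baseChange ℂ v) i = χ i R₀ * b.repr v i := by
        intro v
        have h3 : (Finsupp.lapply i ∘ₗ b.repr.toLinearMap) ∘ₗ
            ((R₀ : Module.End ℚ A.H1).baseChange ℂ) =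
            (χ i R₀) • (Finsupp.lapply i ∘ₗ b.repr.toLinearMap) := by
          refine b.ext fun l => ?_
          rw [LinearMap.comp_apply, hb, map_smul, LinearMap.smul_apply, LinearMap.comp_apply,
            LinearEquiv.coe_coe, Basis.repr_self, Finsupp.lapply_apply, Finsupp.single_apply,
            smul_eq_mul, smul_eq_mul]
          by_cases hl : l = i
          · rw [if_pos hl, hl]
          · rw [if_neg hl, mul_zero, mul_zero]
        exact congrArg (fun F : ℂ ⊗[ℚ] A.H1 →ₗ[ℂ] ℂ => F v) h3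
      have h3 := h2 (X.baseChange ℂ (b k))
      rw [h1, map_zero, Finsupp.zero_apply] at h3
      rw [(mul_eq_zero.1 h3.symm).resolve_left hR₀, zero_smul]
    · obtain ⟨R, hRL, hR, hXk⟩ := hact k hk X hX
      rw [hXk, map_smul, hTb]
      split_ifs with hki
      · obtain ⟨R', hRL', hR', hXj⟩ := hact j hj X hX
        have h1 : R' = R := Subtype.ext (hR'.trans hR.symm)
        rw [hXj, h1, hki, hL R hRL]
      · rw [map_zero, smul_zero]
  have hTR : ∀ R : A.ZA, T * (R : Module.End ℚ A.H1).baseChange ℂ =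
      (R : Module.End ℚ A.H1).baseChange ℂ * T := by
    intro R
    rw [← comm_iff]
    intro lam
    have h1 : Pool.Agent.W516.DR.cmpE lam T ∈ A.EA := hEA _ fun X hX =>
      (((comm_iff X T).2 (hTX X hX)) lam).symm
    exact (R.2.2.2 _ h1).symm
  refine LinearMap.ext fun R => ?_
  have h1 := congrArg (fun F : Module.End ℂ (ℂ ⊗[ℚ] A.H1) => F (b i)) (hTR R)
  simp only [Module.End.mul_apply] at h1
  rw [hb, map_smul, hTb, if_pos rfl, hb] at h1
  have h2 : (χ i R - χ j R) • b j = 0 := by rw [sub_smul, h1, sub_self]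
  exact sub_eq_zero.1 ((smul_eq_zero.1 h2).resolve_right (b.ne_zero j))

/-- There is a generic element. -/
theorem genericH {𝔥 : Submodule ℚ (Module.End ℚ A.H1)} (hskew : ∀ X ∈ 𝔥, IsSkew A.om X)
    (hcomm : ∀ X ∈ 𝔥, ∀ Q ∈ A.EA, X * Q = Q * X)
    (hEA : ∀ P : Module.End ℚ A.H1, (∀ X ∈ 𝔥, X * P = P * X) → P ∈ A.EA)
    {ε : Module.End ℚ A.H1} (hε : A.Idem ε) (h0 : ∀ R ∈ A.ZA, R * ε = 0) (hεL : ∀ X ∈ 𝔥, ε * X ∈ 𝔥) {n : ℕ}
    {b : Basis (Fin n) ℂ (ℂ ⊗[ℚ] A.H1)} {χ : Fin n → (A.ZA →ₗ[ℚ] ℂ)}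
    (hb : ∀ k (R : A.ZA), (R : Module.End ℚ A.H1).baseChange ℂ (b k) = χ k R • b k) :
    ∃ R : A.ZA, (R : Module.End ℚ A.H1) ∈ 𝔥 ∧ ∀ i j, χ i R = χ j R → χ i = χ j := by
  classical
  obtain ⟨L, hLle, hLdef⟩ : ∃ L : Submodule ℚ (Module.End ℚ A.H1), L ≤ A.ZA ∧
      ∀ R, R ∈ L ↔ R ∈ 𝔥 ∧ R ∈ A.ZA :=
    ⟨𝔥 ⊓ A.ZA, inf_le_right, fun R => Iff.rfl⟩
  obtain ⟨K, hKdef⟩ : ∃ K : {p : Fin n × Fin n // χ p.1 ≠ χ p.2} → Subspace ℚ L,
      ∀ p (R : L), R ∈ K p ↔ χ p.1.1 ⟨R, hLle R.2⟩ = χ p.1.2 ⟨R, hLle R.2⟩ :=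
    ⟨fun p => LinearMap.ker ((χ p.1.1 - χ p.1.2) ∘ₗ Submodule.inclusion hLle),
      fun p R => sub_eq_zero⟩
  have hK0 : ∀ i, χ i ≠ 0 → ¬ ∀ R : A.ZA, (R : Module.End ℚ A.H1) ∈ 𝔥 → χ i R = 0 := by
    intro i hi h
    obtain ⟨j, hj⟩ := A.exists_neg hb i
    have hj0 : χ j ≠ 0 := by rw [hj]; exact neg_ne_zero.2 hi
    have h1 := separatedH hskew hcomm hEA hε h0 hεL hb hj0 hi fun R hR => by
      rw [hj, LinearMap.neg_apply, h R hR, neg_zero]
    rw [hj] at h1
    apply hi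
    refine LinearMap.ext fun R => ?_
    have h2 := congrArg (fun F : A.ZA →ₗ[ℚ] ℂ => F R) h1
    simp only [LinearMap.neg_apply] at h2
    rw [LinearMap.zero_apply]
    have h3 : (2 : ℂ) * χ i R = 0 := by linear_combination -h2
    exact (mul_eq_zero.1 h3).resolve_left two_ne_zero
  have hK : ∀ p, K p ≠ ⊤ := by
    rintro ⟨⟨i, j⟩, hij⟩ htop
    have h1 : ∀ R : A.ZA, (R : Module.End ℚ A.H1) ∈ 𝔥 → χ i R = χ j R := by
      intro R hR
      have h2 : (⟨R, (hLdef R).2 ⟨hR, R.2⟩⟩ : L) ∈ K ⟨⟨i, j⟩, hij⟩ := by rw [htop]; trivial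
      exact (hKdef _ _).1 h2
    by_cases hi : χ i = 0
    · by_cases hj : χ j = 0
      · exact hij (hi.trans hj.symm)
      · refine hK0 j hj fun R hR => ?_
        rw [← h1 R hR, hi, LinearMap.zero_apply]
    · by_cases hj : χ j = 0
      · refine hK0 i hi fun R hR => ?_
        rw [h1 R hR, hj, LinearMap.zero_apply]
      · exact hij (separatedH hskew hcomm hEA hε h0 hεL hb hi hj h1)
  by_contra hne
  push Not at hne
  have hcov : ⋃ p, (K p : Set L) = Set.univ := by
    rw [Set.eq_univ_iff_forall]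
    intro R
    obtain ⟨i, j, h1, h2⟩ := hne ⟨R.1, hLle R.2⟩ ((hLdef _).1 R.2).1
    exact Set.mem_iUnion.2 ⟨⟨(i, j), h2⟩, (hKdef _ _).2 h1⟩
  obtain ⟨p, hp⟩ := Subspace.exists_eq_top_of_iUnion_eq_univ (k := ℚ) (E := L) (p := K) hcov
  exact hK p hp

/-- the generic element generates -/
theorem gen_comm {n : ℕ} {b : Basis (Fin n) ℂ (ℂ ⊗[ℚ] A.H1)} {χ : Fin n → (A.ZA →ₗ[ℚ] ℂ)}
    (hb : ∀ k (R : A.ZA), (R : Module.End ℚ A.H1).baseChange ℂ (b k) = χ k R • b k) {X : A.ZA}
    (hX : ∀ i j, χ i X = χ j X → χ i = χ j) (T : Module.End ℚ A.H1) (hT : T * X = X * T) (R : Module.End ℚ A.H1)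
    (hR : R ∈ A.ZA) : T * R = R * T := by
  classical
  have hrepr : ∀ (R : A.ZA) v i, b.repr ((R : Module.End ℚ A.H1).baseChange ℂ v) i =
      χ i R * b.repr v i := by
    intro R v i
    have h3 : (Finsupp.lapply i ∘ₗ b.repr.toLinearMap) ∘ₗ
        ((R : Module.End ℚ A.H1).baseChange ℂ) =
        (χ i R) • (Finsupp.lapply i ∘ₗ b.repr.toLinearMap) := by
      refine b.ext fun l => ?_
      rw [LinearMap.comp_apply, hb, map_smul, LinearMap.smul_apply, LinearMap.comp_apply,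
        LinearEquiv.coe_coe, Basis.repr_self, Finsupp.lapply_apply, Finsupp.single_apply,
        smul_eq_mul, smul_eq_mul]
      by_cases hl : l = i
      · rw [if_pos hl, hl]
      · rw [if_neg hl, mul_zero, mul_zero]
    exact congrArg (fun F : ℂ ⊗[ℚ] A.H1 →ₗ[ℂ] ℂ => F v) h3
  have h1 : T.baseChange ℂ * R.baseChange ℂ = R.baseChange ℂ * T.baseChange ℂ := by
    refine b.ext fun i => ?_
    rw [Module.End.mul_apply, Module.End.mul_apply, hb i ⟨R, hR⟩, map_smul]
    apply b.ext_elem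
    intro l
    rw [hrepr ⟨R, hR⟩, map_smul, Finsupp.smul_apply, smul_eq_mul]
    by_cases hl : b.repr (T.baseChange ℂ (b i)) l = 0
    · rw [hl, mul_zero, mul_zero]
    · have h2 : T.baseChange ℂ ((X : Module.End ℚ A.H1).baseChange ℂ (b i)) =
          (X : Module.End ℚ A.H1).baseChange ℂ (T.baseChange ℂ (b i)) := by
        rw [← LinearMap.comp_apply, ← LinearMap.comp_apply, ← LinearMap.baseChange_comp,
          ← LinearMap.baseChange_comp]
        have h3 : T ∘ₗ (X : Module.End ℚ A.H1) = (X : Module.End ℚ A.H1) ∘ₗ T := hT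
        rw [h3]
      have h3 := congrArg (fun v => b.repr v l) h2
      rw [hb, map_smul] at h3
      change b.repr (χ i X • _) l = b.repr _ l at h3
      rw [map_smul, Finsupp.smul_apply, smul_eq_mul, hrepr] at h3
      have h4 := hX i l (mul_right_cancel₀ hl h3)
      rw [h4]
  have h2 := (comm_iff (L := ℂ) R (T.baseChange ℂ)).2 h1
  obtain ⟨lam, hlam⟩ : ∃ lam : ℂ →ₗ[ℚ] ℚ, lam 1 = 1 := by
    obtain ⟨G, hG⟩ := exists_lin (F := ℚ) (v := fun _ : Unit => (1 : ℂ)) (by
      rw [linearIndependent_unique_iff]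
      exact one_ne_zero) (fun _ => (1 : ℚ))
    exact ⟨G, hG ()⟩
  have h3 : Pool.Agent.W516.DR.cmpE lam (T.baseChange ℂ) = T := by
    refine LinearMap.ext fun w => ?_
    rw [Pool.Agent.W516.DR.cmpE_apply, LinearMap.baseChange_tmul,
      Pool.Agent.W516.DR.cmp_tmul, hlam, one_smul]
  have h4 := h2 lam
  rwa [h3] at h4

/-- the coordinates -/
def tb (A : AbVar g) : Basis (Fin (2 * g)) ℂ (ℂ ⊗[ℚ] A.H1) := Algebra.TensorProduct.basis ℂ A.bas

theorem tb_apply (i : Fin (2 * g)) : tb A i = (1 : ℂ) ⊗ₜ[ℚ] A.bas i := Algebra.TensorProduct.basis_apply _ _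

/-- the action in coordinates -/
theorem repr_baseChange (φ : Module.End ℚ A.H1) (v : ℂ ⊗[ℚ] A.H1) :
    (fun j => (tb A).repr (φ.baseChange ℂ v) j) = (fun j => (tb A).repr v j) ᵥ* mt φ := by
  funext j
  change _ = ∑ i, (tb A).repr v i * ((φ (Pi.single i 1) j : ℚ) : ℂ)
  conv_lhs => rw [← (tb A).sum_repr v]
  rw [map_sum, map_sum, Finsupp.finsetSum_apply]
  refine Finset.sum_congr rfl fun i _ => ?_
  rw [map_smul, map_smul, Finsupp.smul_apply, smul_eq_mul, tb_apply, LinearMap.baseChange_tmul]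
  congr 1
  have h1 := Algebra.TensorProduct.basis_repr_tmul (A := ℂ) A.bas (1 : ℂ) (φ (A.bas i))
  have h2 := congrArg (fun F => F j) h1
  rw [← bas_eq (A := A) i]
  refine h2.trans ?_
  rw [Finsupp.smul_apply, one_smul] 
  rfl

/-- the eigenvalues of the central endomorphisms are imaginary -/
theorem eig_imag {R : Module.End ℚ A.H1} (hR : R ∈ A.EA) (hs : IsSkew A.om R) {v : ℂ ⊗[ℚ] A.H1} (hv : v ≠ 0) {μ : ℂ}
    (h : R.baseChange ℂ v = μ • v) : μ.re = 0 := by
  obtain ⟨M, hM⟩ := A.hodge_end (A.mem_EA.1 hR)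
  have hM' : ∀ w, M (A.per w) = A.per (R w) := hM
  set y : Fin (2 * g) → ℂ := fun j => (tb A).repr v j with hy
  have hyne : y ≠ 0 := by
    intro h0
    apply hv
    apply (tb A).ext_elem
    intro j
    rw [map_zero, Finsupp.zero_apply]
    exact congrFun h0 j
  have hyR : y ᵥ* mt R = μ • y := by
    rw [hy, ← repr_baseChange, h]
    funext j
    rw [map_smul]
    rfl
  have hsk : ∀ u v, A.E (M u) v = -A.E u (M v) := by
    have h2 : A.E.comp (M.restrictScalars ℝ) = -(A.E.flip.comp (M.restrictScalars ℝ)).flip := by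
      refine A.ext_per fun u => A.ext_per fun v => ?_
      change A.E (M (A.per u)) (A.per v) = -A.E (A.per u) (M (A.per v))
      rw [hM', hM', ← AbVar.om_coe, ← AbVar.om_coe, ← Rat.cast_neg]
      congr 1
      linear_combination hs u v
    intro u v
    exact congrArg (fun F : (Fin g → ℂ) →ₗ[ℝ] (Fin g → ℂ) →ₗ[ℝ] ℝ => F u v) h2
  -- the real and imaginary parts
  let ρ : (Fin (2 * g) → ℝ) → (Fin g → ℂ) := fun x => ∑ j, x j • A.lam j
  have hρ : ∀ x, ρ x = 0 → x = 0 := by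
    intro x hx
    funext j
    exact Fintype.linearIndependent_iff.1 A.lam.linearIndependent x hx j
  have hMlam : ∀ j, M (A.lam j) = ∑ i, ((R (Pi.single j 1) i : ℚ) : ℝ) • A.lam i := by
    intro j
    rw [← A.per_bas, hM', per_eq, bas_eq]
    refine Finset.sum_congr rfl fun i _ => ?_
    rw [← Complex.coe_smul]
    norm_cast
  have hMρ : ∀ x : Fin (2 * g) → ℝ, M (ρ x) = ρ fun i => ∑ j, x j * ((R (Pi.single j 1) i : ℚ) : ℝ) := by
    intro x
    change M (∑ j, x j • A.lam j) = ∑ i, (∑ j, x j * ((R (Pi.single j 1) i : ℚ) : ℝ)) • A.lam i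
    rw [map_sum]
    simp only [Finset.sum_smul]
    rw [Finset.sum_comm]
    refine Finset.sum_congr rfl fun j _ => ?_
    have h1 : M (x j • A.lam j) = x j • M (A.lam j) := by
      rw [← Complex.coe_smul, map_smul, Complex.coe_smul]
    rw [h1, hMlam, Finset.smul_sum]
    refine Finset.sum_congr rfl fun i _ => ?_
    rw [smul_smul]
  set a : Fin (2 * g) → ℝ := fun j => (y j).re with ha
  set b : Fin (2 * g) → ℝ := fun j => (y j).im with hb
  have hre : ∀ i, ∑ j, a j * ((R (Pi.single j 1) i : ℚ) : ℝ) = μ.re * a i - μ.im * b i := by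
    intro i
    have h1 := congrArg Complex.re (congrFun hyR i)
    change (∑ j, y j * ((R (Pi.single j 1) i : ℚ) : ℂ)).re = (μ * y i).re at h1
    rw [Complex.re_sum, Complex.mul_re] at h1
    rw [← h1]
    refine Finset.sum_congr rfl fun j _ => ?_
    rw [Complex.mul_re]
    simp [ha]
  have him : ∀ i, ∑ j, b j * ((R (Pi.single j 1) i : ℚ) : ℝ) = μ.im * a i + μ.re * b i := by
    intro i
    have h1 := congrArg Complex.im (congrFun hyR i)
    change (∑ j, y j * ((R (Pi.single j 1) i : ℚ) : ℂ)).im = (μ * y i).im at h1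
    rw [Complex.im_sum, Complex.mul_im] at h1
    have h2 : μ.im * a i + μ.re * b i = μ.re * (y i).im + μ.im * (y i).re := by
      rw [ha, hb]
      ring
    rw [h2, ← h1]
    refine Finset.sum_congr rfl fun j _ => ?_
    rw [Complex.mul_im]
    simp [hb]
  have hMa : M (ρ a) = μ.re • ρ a - μ.im • ρ b := by
    rw [hMρ]
    simp only [hre]
    change ∑ i, (μ.re * a i - μ.im * b i) • A.lam i = μ.re • ∑ i, a i • A.lam i - μ.im • ∑ i, b i • A.lam i
    rw [Finset.smul_sum, Finset.smul_sum, ← Finset.sum_sub_distrib]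
    refine Finset.sum_congr rfl fun i _ => ?_
    rw [sub_smul, mul_smul, mul_smul]
  have hMb : M (ρ b) = μ.im • ρ a + μ.re • ρ b := by
    rw [hMρ]
    simp only [him]
    change ∑ i, (μ.im * a i + μ.re * b i) • A.lam i = μ.im • ∑ i, a i • A.lam i + μ.re • ∑ i, b i • A.lam i
    rw [Finset.smul_sum, Finset.smul_sum, ← Finset.sum_add_distrib]
    refine Finset.sum_congr rfl fun i _ => ?_
    rw [add_smul, mul_smul, mul_smul]
  -- the positive form
  have hsymI : ∀ u v, A.E u (Complex.I • v) = A.E v (Complex.I • u) := by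
    intro u v
    have e1 := (A.E_I u v).2
    have e2 := A.E_anti (Complex.I • u) v
    linarith
  have hzero : ∀ u, A.E (M u) (Complex.I • u) = 0 := by
    intro u
    have e1 := hsk u (Complex.I • u)
    have e2 : M (Complex.I • u) = Complex.I • M u := map_smul M _ _
    rw [e2, hsymI u (M u)] at e1
    linarith
  have h1 := hzero (ρ a)
  have h2 := hzero (ρ b)
  rw [hMa, map_sub, LinearMap.sub_apply, LinearMap.map_smul A.E, LinearMap.map_smul A.E, LinearMap.smul_apply,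
    LinearMap.smul_apply, smul_eq_mul, smul_eq_mul] at h1
  rw [hMb, map_add, LinearMap.add_apply, LinearMap.map_smul A.E, LinearMap.map_smul A.E, LinearMap.smul_apply,
    LinearMap.smul_apply, smul_eq_mul, smul_eq_mul] at h2
  have h3 := hsymI (ρ a) (ρ b)
  have h4 : μ.re * (A.E (ρ a) (Complex.I • ρ a) + A.E (ρ b) (Complex.I • ρ b)) = 0 := by
    rw [← h3] at h1
    linear_combination h1 + h2
  refine (mul_eq_zero.1 h4).resolve_right (ne_of_gt ?_)
  by_cases ha0 : ρ a = 0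
  · by_cases hb0 : ρ b = 0
    · exfalso
      apply hyne
      funext j
      exact Complex.ext (congrFun (hρ a ha0) j) (congrFun (hρ b hb0) j)
    · rw [ha0, map_zero, LinearMap.zero_apply, zero_add]
      exact A.E_pos hb0
  · by_cases hb0 : ρ b = 0
    · rw [hb0, map_zero, LinearMap.zero_apply, add_zero]
      exact A.E_pos ha0
    · exact add_pos (A.E_pos ha0) (A.E_pos hb0)

end Pool.Agent.X306.AV
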