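import Pool.Agent.X306.AV.TC

set_option autoImplicit false
set_option linter.unusedVariables false
set_option linter.unusedSectionVars false
set_option linter.unusedSimpArgs false

/-!
# 1-motives whose abelian part has maximal real multiplication: the Lie algebra
-/

open Matrix Module TensorProduct Polynomial Function

noncomputable section

namespace Pool.Agent.X306.AV

open Pool.Agent.Y102 Pool.Agent.W516.DR Pool.Agent.H204R3.GP Pool.Agent.W516.KC Pool.Agent.W516.KC2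
open Pool.Agent.TH127.PT Pool.Agent.Y123.ST Pool.Agent.TH119.DR Pool.Agent.W245.EB Pool.Agent.H204R3.SP
open Pool.Agent.X306.RL (LL_br LL_defF GDef derD)
open Pool.Agent.X306.EM (QQ mem_QQ QB_iff)

variable {g : ℕ} {A : AbVar g} {R J : Type} [Fintype R] [DecidableEq R] [Fintype J] [DecidableEq J]
variable {u e : R → Fin g → ℂ} {q f : J → Fin g → ℂ} {L : Matrix R J ℂ} {F : IntermediateField ℚ ℂ}
variable {T : Set (Matrix (Iz (Fin (2 * g)) R J) (Iz (Fin (2 * g)) R J) ℂ)}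

/-- trivial relations with multiplicities -/
theorem oddRel_int {X : Module.End ℚ A.H1} (hX : IsSkew A.om X) (hO : OddRel X) {N : Type} [Fintype N] (x : N → ℂ)
    (hx : ∀ k, aeval (x k) (minpoly ℚ X) = 0) (n : N → ℤ) (h : ∑ k, (n k : ℂ) * x k = 0) (f : ℂ → ℂ)
    (hf : ∀ z, f (-z) = -f z) : ∑ k, (n k : ℂ) * f (x k) = 0 := by
  have key : ∀ F : ℂ → ℂ, (∀ z, F (-z) = -F z) →
      ∑ p : (Σ k, Fin (n k).natAbs), F (((n p.1).sign : ℂ) * x p.1) = ∑ k, (n k : ℂ) * F (x k) := by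
    intro F hF
    rw [Fintype.sum_sigma]
    refine Finset.sum_congr rfl fun k _ => ?_
    change ∑ _ : Fin (n k).natAbs, F (((n k).sign : ℂ) * x k) = _
    rw [Finset.sum_const, Finset.card_univ, Fintype.card_fin, nsmul_eq_mul]
    rcases lt_trichotomy (n k) 0 with h1 | h1 | h1
    · rw [Int.sign_eq_neg_one_of_neg h1]
      have h2 : (((n k).natAbs : ℕ) : ℂ) = -(n k : ℂ) := by
        have h3 : (((n k).natAbs : ℕ) : ℤ) = -(n k) := by omega
        rw [← Int.cast_natCast (R := ℂ) (n k).natAbs, h3, Int.cast_neg]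
      rw [h2]
      push_cast
      rw [neg_one_mul, hF]
      ring
    · rw [h1]
      simp
    · rw [Int.sign_eq_one_of_pos h1]
      have h2 : (((n k).natAbs : ℕ) : ℂ) = (n k : ℂ) := by
        have h3 : (((n k).natAbs : ℕ) : ℤ) = n k := by omega
        rw [← Int.cast_natCast (R := ℂ) (n k).natAbs, h3]
      rw [h2]
      push_cast
      rw [one_mul]
  have h1 := key id fun z => rfl
  simp only [id] at h1
  rw [h] at h1
  rw [← key f hf]
  refine hO (Σ k, Fin (n k).natAbs) (fun p => ((n p.1).sign : ℂ) * x p.1) (fun p => ?_) h1 f hf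
  obtain ⟨k, l⟩ := p
  change aeval (((n k).sign : ℂ) * x k) (minpoly ℚ X) = 0
  rcases lt_trichotomy (n k) 0 with h1 | h1 | h1
  · rw [Int.sign_eq_neg_one_of_neg h1]
    push_cast
    rw [neg_one_mul]
    exact A.neg_root hX (hx k)
  · exfalso
    rw [h1] at l
    exact l.elim0
  · rw [Int.sign_eq_one_of_pos h1]
    push_cast
    rw [one_mul]
    exact hx k

theorem diag_sm (a : Fin (2 * g) → ℂ) (c k : ℂ) : sm ((Matrix.diagonal a, 0, c, 0, 0) : LS (Fin (2 * g)) R J) k =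
    Matrix.diagonal (Sum.elim (Sum.elim a (fun _ => c)) (fun _ => k)) := by
  unfold sm
  have h1 : (fromCols (0 : Matrix R (Fin (2 * g)) ℂ) (0 : Matrix R J ℂ)) = 0 := by
    ext r s
    rcases s with s | s <;> rfl
  change fromBlocks (fromBlocks (Matrix.diagonal a) 0 0 (c • 1)) 0 (fromCols 0 0) (k • 1) = _
  rw [h1, Matrix.smul_one_eq_diagonal, Matrix.smul_one_eq_diagonal, fromBlocks_diagonal, fromBlocks_diagonal]

theorem mt_add_smul (X : Module.End ℚ (Fin (2 * g) → ℚ)) (c : ℚ) :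
    mt (X + c • (1 : Module.End ℚ (Fin (2 * g) → ℚ))) = mt X + ((c : ℚ) : ℂ) • 1 := by
  ext i j
  change ((X (Pi.single i 1) j + c * (Pi.single i 1 : Fin (2 * g) → ℚ) j : ℚ) : ℂ) =
    ((X (Pi.single i 1) j : ℚ) : ℂ) + (c : ℂ) * (1 : Matrix (Fin (2 * g)) (Fin (2 * g)) ℂ) i j
  rw [Rat.cast_add, Rat.cast_mul]
  congr 2
  by_cases h : i = j
  · subst h
    rw [Pi.single_eq_same, Matrix.one_apply_eq, Rat.cast_one]
  · rw [Pi.single_eq_of_ne (Ne.symm h), Matrix.one_apply_ne h, Rat.cast_zero]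

/-- the complex matrices of the elements without part of weight -1 -/
theorem cS_row0 (X : Module.End ℚ (Fin (2 * g) → ℚ)) (x : ℚ) (w : R → J → ℚ) :
    cS A ((X, 0, x, w) : RS g R J) = (mt X, 0, ((x : ℚ) : ℂ), 0, Matrix.of fun r j => ((w r j : ℚ) : ℂ)) := by
  refine Prod.ext rfl (Prod.ext ?_ (Prod.ext rfl (Prod.ext ?_ rfl)))
  · exact tz_zero' (by
      ext j a
      exact Rat.cast_zero)
  · ext r a
    exact Rat.cast_zero

/-- **The central elements are in the Lie algebra.** -/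
theorem ZA_L0 (hT : IsSubtorsor QB T) (hG : GDef QQ T) (hc : sm (prS u e q f L A) 1 ∈ T) (hF : Fld A F)
    (hu : ∀ r, u r ∈ Pt A F) (hq : ∀ j, q j ∈ Pt A F) (hE : EndAlg A) (hN0 : RelN A u q (Nm A u e q f))
    {s : R → J → ℚ} (hs : ∀ ξ ∈ gR A u q T, (fun r j => ξ.2.2.2 r j - ξ.2.2.1 * s r j) ∈ U2 (gR A u q T))
    {e' : Basis (Fin g) ℂ (Fin g → ℂ)} (he : AbVar.Adapted A.EA e')
    (hrel : ∀ X ∈ A.ZA, (∀ T : Module.End ℚ A.H1, T * X = X * T → ∀ R ∈ A.ZA, T * R = R * T) → OddRel X)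
    {R' : Module.End ℚ A.H1} (hR' : R' ∈ A.ZA) : R' ∈ L0 (gR A u q T) := by
  classical
  have G := good_gR hT hG hc hE hN0
  obtain ⟨ε, hε, h0⟩ := A.exists_idem he
  have hskew : ∀ X ∈ HH A u q T, IsSkew A.om X := fun X hX => G.skew_hh hX
  have hcomm : ∀ X ∈ HH A u q T, ∀ Q ∈ A.EA, X * Q = Q * X := fun X hX Q hQ => HH_EA hX hQ
  have hEA : ∀ P : Module.End ℚ A.H1, (∀ X ∈ HH A u q T, X * P = P * X) → P ∈ A.EA :=
    fun P hP => A.mem_EA.2 (G.drb hP)
  have hεL : ∀ X ∈ HH A u q T, ε * X ∈ HH A u q T := by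
    intro X hX
    have h1 := idem_L0 hT hG hc hF hu hq hE hN0 hs he hε h0 (hskew X hX) (hcomm X hX)
    refine mem_HH.2 ⟨_, mem_L0.1 h1, ?_⟩
    change ε * X - ((0 : ℚ) / 2) • (1 : Module.End ℚ (Fin (2 * g) → ℚ)) = ε * X
    rw [zero_div, zero_smul, sub_zero]
  obtain ⟨n, b, χ, hb⟩ := A.exists_basis
  obtain ⟨X, hXH, hX⟩ := genericH hskew hcomm hEA hε h0 hεL hb
  have hOdd : OddRel (X : Module.End ℚ A.H1) := hrel X X.2 fun T hT R hR => gen_comm hb hX T hT R hR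
  obtain ⟨ξ, hξ, hξX⟩ := mem_HH.1 hXH
  have hξ1 : ξ.1 = (X : Module.End ℚ A.H1) + (ξ.2.2.1 / 2) • (1 : Module.End ℚ (Fin (2 * g) → ℚ)) := by
    rw [← hξX, sub_add_cancel]
  have hmem := norm_mem hT hG hc hF hu hq hE hN0 hs hξ
  set x := ξ.2.2.1 with hx
  have hLL := (mem_gN.1 (mem_gR.1 hmem).1).2
  rw [cS_row0, hξ1, mt_add_smul] at hLL
  have hn : n = 2 * g := by
    have h1 := Module.finrank_eq_card_basis b
    have h2 := Module.finrank_eq_card_basis (tb A)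
    rw [Fintype.card_fin] at h1 h2
    omega
  subst hn
  -- the eigenbasis
  let Bm : Matrix (Fin (2 * g)) (Fin (2 * g)) ℂ := Matrix.of fun k j => (tb A).repr (b k) j
  have hBm : IsUnit Bm := by
    refine IsUnit.of_mul_eq_one ((b.toMatrix (tb A))ᵀ) ?_
    have h1 : Bm = ((tb A).toMatrix b)ᵀ := by
      ext k j
      rw [Matrix.transpose_apply, Basis.toMatrix_apply]
      rfl
    rw [h1, ← Matrix.transpose_mul, Basis.toMatrix_mul_toMatrix_flip, Matrix.transpose_one]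
  have hBdet := (Matrix.isUnit_iff_isUnit_det _).1 hBm
  have hBX : ∀ R : A.ZA, mt (R : Module.End ℚ A.H1) * Bm⁻¹ = Bm⁻¹ * Matrix.diagonal (fun k => χ k R) := by
    intro R
    have h1 : Bm * mt (R : Module.End ℚ A.H1) = Matrix.diagonal (fun k => χ k R) * Bm := by
      ext k j
      rw [Matrix.diagonal_mul]
      have h2 := congrFun (repr_baseChange (R : Module.End ℚ A.H1) (b k)) j
      rw [hb] at h2
      refine Eq.trans ?_ (h2.symm.trans ?_)
      · rfl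
      · rw [map_smul]
        rfl
    calc mt (R : Module.End ℚ A.H1) * Bm⁻¹ = Bm⁻¹ * (Bm * mt (R : Module.End ℚ A.H1)) * Bm⁻¹ := by
          rw [← Matrix.mul_assoc Bm⁻¹, Matrix.nonsing_inv_mul _ hBdet, Matrix.one_mul]
      _ = Bm⁻¹ * Matrix.diagonal (fun k => χ k R) := by
          rw [h1, Matrix.mul_assoc, Matrix.mul_assoc, Matrix.mul_nonsing_inv _ hBdet, Matrix.mul_one]
  set ws : Matrix R J ℂ := Matrix.of fun r j => ((s r j : ℚ) : ℂ) with hws
  have hxs : (Matrix.of fun r j => ((x * s r j : ℚ) : ℂ)) = ((x : ℚ) : ℂ) • ws := by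
    ext r j
    exact Rat.cast_mul _ _
  rw [hxs] at hLL
  set S : Matrix (Iz (Fin (2 * g)) R J) (Iz (Fin (2 * g)) R J) ℂ := sm (Bm⁻¹, 0, 1, 0, ws) 1 with hSdef
  have hS : IsUnit S := by
    refine IsUnit.of_mul_eq_one (sm (Bm, 0, 1, 0, -ws) 1) ?_
    rw [hSdef, sm_mul, mul_one, ← sm_one]
    congr 1
    refine Prod.ext ?_ (Prod.ext ?_ (Prod.ext ?_ (Prod.ext ?_ ?_)))
    · exact Matrix.nonsing_inv_mul _ hBdet
    · change Bm⁻¹ * (0 : Matrix (Fin (2 * g)) J ℂ) + (1 : ℂ) • (0 : Matrix (Fin (2 * g)) J ℂ) = 0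
      rw [Matrix.mul_zero, smul_zero, add_zero]
    · change (1 : ℂ) * 1 = 1
      rw [mul_one]
    · change (0 : Matrix R (Fin (2 * g)) ℂ) * Bm + (1 : ℂ) • (0 : Matrix R (Fin (2 * g)) ℂ) = 0
      rw [Matrix.zero_mul, smul_zero, add_zero]
    · change (0 : Matrix R (Fin (2 * g)) ℂ) * (0 : Matrix (Fin (2 * g)) J ℂ) + (1 : ℂ) • ws + (1 : ℂ) • -ws = 0
      rw [Matrix.zero_mul, one_smul, one_smul, zero_add, add_neg_cancel]
  -- the diagonal form
  have hW : ∀ (R : A.ZA) (c y : ℂ), sm ((mt (R : Module.End ℚ A.H1) + c • 1, 0, y, 0, y • ws) :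
      LS (Fin (2 * g)) _ J) 0 * S =
      S * Matrix.diagonal (Sum.elim (Sum.elim (fun k => χ k R + c) (fun _ => y)) (fun _ => 0)) := by
    intro R c y
    rw [← diag_sm, hSdef, sm_mul, sm_mul, zero_mul, mul_zero]
    congr 1
    refine Prod.ext ?_ (Prod.ext ?_ (Prod.ext ?_ (Prod.ext ?_ ?_)))
    · change (mt (R : Module.End ℚ A.H1) + c • 1) * Bm⁻¹ = Bm⁻¹ * Matrix.diagonal (fun k => χ k R + c)
      have h1 : Matrix.diagonal (fun k => χ k R + c) = Matrix.diagonal (fun k => χ k R) + c • 1 := by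
        rw [Matrix.smul_one_eq_diagonal, Matrix.diagonal_add]
      rw [h1, Matrix.add_mul, Matrix.mul_add, hBX, Matrix.smul_mul, Matrix.one_mul, Matrix.mul_smul, Matrix.mul_one]
    · change (mt (R : Module.End ℚ A.H1) + c • 1) * (0 : Matrix (Fin (2 * g)) J ℂ) +
        (1 : ℂ) • (0 : Matrix (Fin (2 * g)) J ℂ) = Bm⁻¹ * (0 : Matrix (Fin (2 * g)) J ℂ) + y • (0 : Matrix (Fin (2 * g)) J ℂ)
      rw [Matrix.mul_zero, Matrix.mul_zero, smul_zero, smul_zero]
    · change y * 1 = 1 * y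
      ring
    · change (0 : Matrix _ (Fin (2 * g)) ℂ) * Bm⁻¹ + (0 : ℂ) • (0 : Matrix _ (Fin (2 * g)) ℂ) =
        (0 : Matrix _ (Fin (2 * g)) ℂ) * Matrix.diagonal (fun k => χ k R + c) + (1 : ℂ) • (0 : Matrix _ (Fin (2 * g)) ℂ)
      rw [Matrix.zero_mul, Matrix.zero_mul, smul_zero, smul_zero]
    · change (0 : Matrix _ (Fin (2 * g)) ℂ) * (0 : Matrix (Fin (2 * g)) J ℂ) + (1 : ℂ) • (y • ws) + (0 : ℂ) • ws =
        (0 : Matrix _ (Fin (2 * g)) ℂ) * (0 : Matrix (Fin (2 * g)) J ℂ) + y • ws + (1 : ℂ) • (0 : Matrix _ J ℂ)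
      rw [one_smul, zero_smul, smul_zero]
  -- the interpolating function
  let fi : ℂ → ℂ := fun z => if h : ∃ i, χ i X = z then χ (Classical.choose h) ⟨R', hR'⟩ else 0
  have hf : ∀ i, fi (χ i X) = χ i ⟨R', hR'⟩ := by
    intro i
    have h2 : ∃ i', χ i' X = χ i X := ⟨i, rfl⟩
    simp only [fi]
    rw [dif_pos h2, hX _ _ (Classical.choose_spec h2)]
  have hfodd : ∀ z, fi (-z) = -fi z := by
    intro z
    by_cases h2 : ∃ i, χ i X = z
    · obtain ⟨i, rfl⟩ := h2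
      obtain ⟨j, hj⟩ := A.exists_neg hb i
      have h3 : χ j X = -χ i X := by rw [hj]; rfl
      rw [← h3, hf, hf, hj]
      rfl
    · have h3 : ¬ ∃ i, χ i X = -z := by
        rintro ⟨i, hi⟩
        obtain ⟨j, hj⟩ := A.exists_neg hb i
        exact h2 ⟨j, by rw [hj, LinearMap.neg_apply, hi, neg_neg]⟩
      simp only [fi]
      rw [dif_neg h2, dif_neg h3, neg_zero]
  have hroot : ∀ k, aeval (χ k X) (minpoly ℚ (X : Module.End ℚ A.H1)) = 0 := by
    intro k
    have h7 := AbVar.aeval_eigen (hb k X) (minpoly ℚ (X : Module.End ℚ A.H1))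
    rw [aeval_baseChange, minpoly.aeval, LinearMap.baseChange_zero, LinearMap.zero_apply] at h7
    exact (smul_eq_zero.1 h7.symm).resolve_right (b.ne_zero _)
  have himag : ∀ k, (χ k X).re = 0 := fun k => eig_imag X.2.1 X.2.2.1 (b.ne_zero k) (hb k X)
  -- the hull
  have h5 := hull hS (hW X (((x / 2 : ℚ) : ℚ) : ℂ) ((x : ℚ) : ℂ)) (hW ⟨R', hR'⟩ 0 0) (fun m hm => by
    rw [Fintype.sum_sum_type, Fintype.sum_sum_type] at hm ⊢
    simp only [Sum.elim_inl, Sum.elim_inr, mul_zero, Finset.sum_const_zero, add_zero] at hm ⊢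
    have h6 : ∑ k, (m (Sum.inl (Sum.inl k)) : ℂ) * χ k X = 0 := by
      have h7 : ∑ k, (m (Sum.inl (Sum.inl k)) : ℂ) * (χ k X + ((x / 2 : ℚ) : ℂ)) + ∑ j, (m (Sum.inl (Sum.inr j)) : ℂ) *
          ((x : ℚ) : ℂ) = ∑ k, (m (Sum.inl (Sum.inl k)) : ℂ) * χ k X +
          (((∑ k, (m (Sum.inl (Sum.inl k)) : ℚ)) * (x / 2) + (∑ j, (m (Sum.inl (Sum.inr j)) : ℚ)) * x : ℚ) : ℂ) := by
        simp only [mul_add, Finset.sum_add_distrib, ← Finset.sum_mul]
        push_cast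
        ring
      rw [h7] at hm
      have h8 := congrArg Complex.re hm
      rw [Complex.add_re, Complex.re_sum, Complex.zero_re] at h8
      have h9 : ∀ k, ((m (Sum.inl (Sum.inl k)) : ℂ) * χ k X).re = 0 := by
        intro k
        rw [Complex.mul_re, himag, mul_zero, Complex.intCast_im, zero_mul, sub_zero]
      simp only [h9, Finset.sum_const_zero, zero_add] at h8
      have h10 : (((∑ k, (m (Sum.inl (Sum.inl k)) : ℚ)) * (x / 2) +
          (∑ j, (m (Sum.inl (Sum.inr j)) : ℚ)) * x : ℚ) : ℂ) = 0 := by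
        rw [← Complex.ofReal_ratCast] at h8 ⊢
        rw [Complex.ofReal_re] at h8
        rw [h8, Complex.ofReal_zero]
      rw [h10, add_zero] at hm
      exact hm
    have h7 := oddRel_int X.2.2.1 hOdd (fun k => χ k X) hroot (fun k => m (Sum.inl (Sum.inl k))) h6 fi hfodd
    simp only [hf] at h7
    exact h7) hLL
  -- the element
  have hEAm : ∀ m, EndM A m → ∀ v : Fin (2 * g) → ℚ, R' (v ᵥ* mQ m) = R' v ᵥ* mQ m := by
    intro m hm v
    have h6 := hR'.2.2 _ (EA_of_endM hT hG hc hE hN0 hm)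
    exact congrArg (fun F : Module.End ℚ (Fin (2 * g) → ℚ) => F v) h6
  refine mem_L0.2 (mem_gR.2 ⟨mem_gN.2 ⟨fun v w => ?_, ?_⟩, hEAm, fun Q m _ _ => ?_⟩)
  · change A.om (R' v) w + A.om v (R' w) = 0 * A.om v w
    rw [zero_mul]
    exact hR'.2.1 v w
  · rw [cS_row0]
    refine (congrArg (fun y => fl (sm y 0) ∈ LL T) ?_).mp h5
    refine Prod.ext ?_ (Prod.ext rfl (Prod.ext ?_ (Prod.ext rfl ?_)))
    · change mt R' + (0 : ℂ) • 1 = mt R'
      rw [zero_smul, add_zero]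
    · exact Rat.cast_zero.symm
    · change (0 : ℂ) • ws = _
      rw [zero_smul]
      ext r j
      exact Rat.cast_zero.symm
  · refine Finset.sum_eq_zero fun r _ => ?_
    exact Matrix.zero_vecMul _

end Pool.Agent.X306.AV
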