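import Pool.Agent.X306.AV.TD

set_option autoImplicit false
set_option linter.unusedVariables false
set_option linter.unusedSectionVars false
set_option linter.unusedSimpArgs false

/-!
# 1-motives whose abelian part has maximal real multiplication: the main theorem
-/

open Matrix Module TensorProduct Polynomial Function

noncomputable section

namespace Pool.Agent.X306.AV

open Pool.Agent.Y102 Pool.Agent.W516.DR Pool.Agent.H204R3.GP Pool.Agent.W516.KC Pool.Agent.W516.KC2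
open Pool.Agent.TH127.PT Pool.Agent.Y123.ST Pool.Agent.TH119.DR Pool.Agent.W245.EB Pool.Agent.H204R3.SP
open Pool.Agent.X306.RL (LL_br LL_defF GDef derD)
open Pool.Agent.X306.EM (QQ mem_QQ QB_iff)

variable {g : ℕ} {A : AbVar g} {R J : Type} [Fintype R] [DecidableEq R] [Fintype J] [DecidableEq J]
variable {u e : R → Fin g → ℂ} {q f : J → Fin g → ℂ} {L : Matrix R J ℂ} {F : IntermediateField ℚ ℂ}
variable {T : Set (Matrix (Iz (Fin (2 * g)) R J) (Iz (Fin (2 * g)) R J) ℂ)}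

/-- the hypothesis on the abelian variety -/
def Many (A : AbVar g) : Prop := (∃ e' : Basis (Fin g) ℂ (Fin g → ℂ), AbVar.Adapted A.EA e') ∧
  ∀ X ∈ A.ZA, (∀ T : Module.End ℚ A.H1, T * X = X * T → ∀ R ∈ A.ZA, T * R = R * T) → OddRel X

theorem skew_L0 (hT : IsSubtorsor QB T) (hG : GDef QQ T) (hc : sm (prS u e q f L A) 1 ∈ T) (hF : Fld A F)
    (hu : ∀ r, u r ∈ Pt A F) (hq : ∀ j, q j ∈ Pt A F) (hE : EndAlg A) (hN0 : RelN A u q (Nm A u e q f))
    {s : R → J → ℚ} (hs : ∀ ξ ∈ gR A u q T, (fun r j => ξ.2.2.2 r j - ξ.2.2.1 * s r j) ∈ U2 (gR A u q T))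
    (hA : Many A) {Z : Module.End ℚ A.H1} (hZ : IsSkew A.om Z) (hZc : ∀ Q ∈ A.EA, Z * Q = Q * Z) :
    Z ∈ L0 (gR A u q T) := by
  obtain ⟨⟨e', he⟩, hrel⟩ := hA
  obtain ⟨ε, hε, h0⟩ := A.exists_idem he
  have h1 := idem_L0 hT hG hc hF hu hq hE hN0 hs he hε h0 hZ hZc
  have h2 := ZA_L0 hT hG hc hF hu hq hE hN0 hs he hrel (hε.comp Z hZ hZc)
  have h3 := (L0 (gR A u q T)).add_mem h1 h2
  have h4 : ε * Z + (1 - ε) * Z = Z := by rw [sub_mul, one_mul]; abel
  rwa [h4] at h3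

/-- the homotheties -/
theorem half_mem (hT : IsSubtorsor QB T) (hG : GDef QQ T) (hc : sm (prS u e q f L A) 1 ∈ T) (hF : Fld A F)
    (hu : ∀ r, u r ∈ Pt A F) (hq : ∀ j, q j ∈ Pt A F) (hE : EndAlg A) (hN0 : RelN A u q (Nm A u e q f))
    {s : R → J → ℚ} (hs : ∀ ξ ∈ gR A u q T, (fun r j => ξ.2.2.2 r j - ξ.2.2.1 * s r j) ∈ U2 (gR A u q T))
    (hA : Many A) (x : ℚ) :
    (((x / 2) • (1 : Module.End ℚ (Fin (2 * g) → ℚ)), 0, x, fun r j => x * s r j) : RS g R J) ∈ gR A u q T := by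
  have G := good_gR hT hG hc hE hN0
  obtain ⟨_, ⟨ξ, hξ, rfl⟩, hx⟩ := G.exists_x
  change ξ.2.2.1 ≠ 0 at hx
  have h1 := norm_mem hT hG hc hF hu hq hE hN0 hs hξ
  have hX : ξ.1 - (ξ.2.2.1 / 2) • (1 : Module.End ℚ (Fin (2 * g) → ℚ)) ∈ HH A u q T := mem_HH.2 ⟨ξ, hξ, rfl⟩
  have h2 := mem_L0.1 (skew_L0 hT hG hc hF hu hq hE hN0 hs hA (G.skew_hh hX) fun Q hQ => HH_EA hX hQ)
  have h3 := (gR A u q T).smul_mem (x / ξ.2.2.1) ((gR A u q T).sub_mem h1 h2)
  refine (congrArg (· ∈ gR A u q T) ?_).mp h3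
  refine Prod.ext ?_ (Prod.ext ?_ (Prod.ext ?_ ?_))
  · change (x / ξ.2.2.1) • (ξ.1 - (ξ.1 - (ξ.2.2.1 / 2) • (1 : Module.End ℚ (Fin (2 * g) → ℚ)))) = _
    rw [sub_sub_cancel, smul_smul]
    congr 1
    field_simp
  · change (x / ξ.2.2.1) • ((0 : R ⊕ J → Fin (2 * g) → ℚ) - 0) = 0
    rw [sub_zero, smul_zero]
  · change (x / ξ.2.2.1) * (ξ.2.2.1 - 0) = x
    field_simp
    ring
  · funext r j
    change (x / ξ.2.2.1) * (ξ.2.2.1 * s r j - 0) = x * s r j
    field_simp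
    ring

/-- **The part of weight `-2`.** -/
theorem w2s_mem (hT : IsSubtorsor QB T) (hG : GDef QQ T) (hc : sm (prS u e q f L A) 1 ∈ T) (hF : Fld A F)
    (hu : ∀ r, u r ∈ Pt A F) (hq : ∀ j, q j ∈ Pt A F) (hE : EndAlg A) (hN0 : RelN A u q (Nm A u e q f))
    {s : R → J → ℚ} (hs : ∀ ξ ∈ gR A u q T, (fun r j => ξ.2.2.2 r j - ξ.2.2.1 * s r j) ∈ U2 (gR A u q T))
    {w : Matrix R J ℂ} {μ : ℂ}
    (hw : ∀ χ : Matrix R J ℤ, (∀ c ∈ CmS A u q, ∑ r, ∑ j, (χ r j : ℂ) * c r j = 0) → ∀ n : ℤ,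
      IsAlgebraic ℚ (∑ r, ∑ j, (χ r j : ℂ) * ell A u e q f L r j - (n : ℂ) * (2 * Real.pi * Complex.I)) →
      ∑ r, ∑ j, (χ r j : ℂ) * w r j = (n : ℂ) * μ) (ψ : ℂ →ₗ[ℚ] ℚ) :
    (fun r j => ψ (w r j) - ψ μ * s r j) ∈ U2 (gR A u q T) := by
  classical
  have hτ : (2 * Real.pi * Complex.I : ℂ) ≠ 0 := Complex.two_pi_I_ne_zero
  by_contra hcon
  obtain ⟨φ, hφ, hφU⟩ := Submodule.exists_le_ker_of_notMem hcon
  obtain ⟨d, hd0, hd⟩ := exists_den (ι := (R × J) ⊕ Unit)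
    (Sum.elim (fun p => φ (Pi.single p.1 (Pi.single p.2 1))) (fun _ => φ s))
  choose m hm using fun p => hd (Sum.inl p)
  obtain ⟨n, hn⟩ := hd (Sum.inr ())
  simp only [Sum.elim_inl, Sum.elim_inr] at hm hn
  have hmC : ∀ r j, ((m (r, j) : ℤ) : ℂ) = (d : ℂ) * ((φ (Pi.single r (Pi.single j 1)) : ℚ) : ℂ) := by
    intro r j
    have h7 := congrArg (fun q : ℚ => (q : ℂ)) (hm (r, j))
    simp only [Rat.cast_mul, Rat.cast_natCast, Rat.cast_intCast] at h7
    exact h7.symm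
  have hnC : ((n : ℤ) : ℂ) = (d : ℂ) * ((φ s : ℚ) : ℂ) := by
    have h7 := congrArg (fun q : ℚ => (q : ℂ)) hn
    simp only [Rat.cast_mul, Rat.cast_natCast, Rat.cast_intCast] at h7
    exact h7.symm
  -- the commutators
  have hkill : ∀ c ∈ CmS A u q, ∑ r, ∑ j, ((m (r, j) : ℤ) : ℂ) * c r j = 0 := by
    intro c hc'
    induction hc' using Submodule.span_induction with
    | mem c h =>
      obtain ⟨N, N', hN, hN', rfl⟩ := h
      have h1 := hφU (cm_U2 hT hG hc hF hu hq hE hN0 (relQ_iff.1 hN) (relQ_iff.1 hN'))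
      rw [LinearMap.mem_ker, phi_sum] at h1
      have h2 : ∑ r, ∑ j, ((m (r, j) : ℤ) : ℂ) * (Matrix.of fun r j => ((A.om (N' (Sum.inr j)) (N (Sum.inl r)) -
          A.om (N (Sum.inr j)) (N' (Sum.inl r)) : ℚ) : ℂ)) r j = (d : ℂ) * ((∑ r, ∑ j,
          φ (Pi.single r (Pi.single j 1)) * (A.om (N' (Sum.inr j)) (N (Sum.inl r)) -
          A.om (N (Sum.inr j)) (N' (Sum.inl r))) : ℚ) : ℂ) := by
        rw [Rat.cast_sum, Finset.mul_sum]
        refine Finset.sum_congr rfl fun r _ => ?_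
        rw [Rat.cast_sum, Finset.mul_sum]
        refine Finset.sum_congr rfl fun j _ => ?_
        rw [hmC, Rat.cast_mul, mul_assoc]
        rfl
      rw [h2, h1, Rat.cast_zero, mul_zero]
    | zero => simp
    | add x y _ _ h1 h2 =>
      simp only [Matrix.add_apply, mul_add, Finset.sum_add_distrib]
      rw [h1, h2, add_zero]
    | smul a x _ h1 =>
      have h2 : ∑ r, ∑ j, ((m (r, j) : ℤ) : ℂ) * (a • x) r j = a * ∑ r, ∑ j, ((m (r, j) : ℤ) : ℂ) * x r j := by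
        rw [Finset.mul_sum]
        refine Finset.sum_congr rfl fun r _ => ?_
        rw [Finset.mul_sum]
        refine Finset.sum_congr rfl fun j _ => ?_
        rw [Matrix.smul_apply, smul_eq_mul]
        ring
      rw [h2, h1, mul_zero]
  -- the derivations
  have hder : ∀ D : Derivation QBar ℂ ℂ,
      D (∑ r, ∑ j, ((m (r, j) : ℤ) : ℂ) * ell A u e q f L r j - (n : ℂ) * (2 * Real.pi * Complex.I)) = 0 := by
    intro D
    have h2 : ∑ r, ∑ j, (φ (Pi.single r (Pi.single j 1))) • (lmS A u e q f L (dQ D)).2.2.2.2 r j -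
        φ s • (D (2 * Real.pi * Complex.I) / (2 * Real.pi * Complex.I)) = 0 := by
      refine eq_zero_of_dual (k := ℚ) fun f' => ?_
      have h3 := hs _ (cD_gR hT hG hc hE hN0 D f')
      have h4 := hφU h3
      rw [LinearMap.mem_ker] at h4
      have h5 : (fun r j => (cD A u e q f L D f').2.2.2 r j - (cD A u e q f L D f').2.2.1 * s r j) =
          (fun r j => f' ((lmS A u e q f L (dQ D)).2.2.2.2 r j)) -
            (f' (D (2 * Real.pi * Complex.I) / (2 * Real.pi * Complex.I))) • s := rfl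
      rw [h5, map_sub, phi_sum φ (fun r j => f' ((lmS A u e q f L (dQ D)).2.2.2.2 r j)), map_smul, smul_eq_mul] at h4
      rw [map_sub, map_smul, smul_eq_mul, mul_comm (φ s), ← h4, map_sum]
      congr 1
      refine Finset.sum_congr rfl fun r _ => ?_
      rw [map_sum]
      refine Finset.sum_congr rfl fun j _ => ?_
      rw [map_smul, smul_eq_mul]
    have h3 := hkill _ (cC_mem hN0 (lam_rel hE hN0 D))
    have h4 := lmS_last (A := A) (u := u) (e := e) (q := q) (f := f) (L := L) (dQ D)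
    have h5 : ∀ r j, D (ell A u e q f L r j) = (2 * Real.pi * Complex.I) * (lmS A u e q f L (dQ D)).2.2.2.2 r j -
        ((2 * Real.pi * Complex.I) / 2) *
          cC A (Nm A u e q f) (fun s a => (lam (pe A u e q f) (dQ D)).2.1 s a) r j := by
      intro r j
      have h6 := congrFun (congrFun h4 r) j
      rw [Matrix.smul_apply, Matrix.add_apply, Matrix.smul_apply, Matrix.map_apply, dQ_apply, smul_eq_mul,
        smul_eq_mul] at h6
      rw [h6]
      ring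
    have h6 : D (∑ r, ∑ j, ((m (r, j) : ℤ) : ℂ) * ell A u e q f L r j) =
        ∑ r, ∑ j, ((m (r, j) : ℤ) : ℂ) * D (ell A u e q f L r j) := by
      rw [map_sum]
      refine Finset.sum_congr rfl fun r _ => ?_
      rw [map_sum]
      exact Finset.sum_congr rfl fun j _ => int_mul_der D _ _
    rw [map_sub, h6, int_mul_der]
    have h7 : ∑ r, ∑ j, ((m (r, j) : ℤ) : ℂ) * D (ell A u e q f L r j) =
        (2 * Real.pi * Complex.I) * ∑ r, ∑ j, ((m (r, j) : ℤ) : ℂ) * (lmS A u e q f L (dQ D)).2.2.2.2 r j -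
        ((2 * Real.pi * Complex.I) / 2) * ∑ r, ∑ j, ((m (r, j) : ℤ) : ℂ) *
          cC A (Nm A u e q f) (fun s a => (lam (pe A u e q f) (dQ D)).2.1 s a) r j := by
      rw [Finset.mul_sum, Finset.mul_sum, ← Finset.sum_sub_distrib]
      refine Finset.sum_congr rfl fun r _ => ?_
      rw [Finset.mul_sum, Finset.mul_sum, ← Finset.sum_sub_distrib]
      refine Finset.sum_congr rfl fun j _ => ?_
      rw [h5]
      ring
    have h8 : ∑ r, ∑ j, ((m (r, j) : ℤ) : ℂ) * (lmS A u e q f L (dQ D)).2.2.2.2 r j =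
        (d : ℂ) * ∑ r, ∑ j, (φ (Pi.single r (Pi.single j 1))) • (lmS A u e q f L (dQ D)).2.2.2.2 r j := by
      rw [Finset.mul_sum]
      refine Finset.sum_congr rfl fun r _ => ?_
      rw [Finset.mul_sum]
      refine Finset.sum_congr rfl fun j _ => ?_
      rw [hmC, Rat.smul_def]
      ring
    rw [h7, h3, h8, sub_eq_zero.1 h2, hnC, Rat.smul_def]
    field_simp
    ring
  obtain ⟨y, hy⟩ := mem_of_derivation hder
  have halg : IsAlgebraic ℚ (∑ r, ∑ j, ((m (r, j) : ℤ) : ℂ) * ell A u e q f L r j -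
      (n : ℂ) * (2 * Real.pi * Complex.I)) := by
    rw [← hy]
    exact QBar.alg y
  have h1 := congrArg ψ (hw (Matrix.of fun r j => m (r, j)) hkill n halg)
  apply hφ
  have h0 : (fun r j => ψ (w r j) - ψ μ * s r j) = (fun r j => ψ (w r j)) - ψ μ • s := rfl
  rw [h0, map_sub, map_smul, phi_sum, smul_eq_mul]
  rw [map_sum] at h1
  have h2 : ∑ r, ψ (∑ j, ((m (r, j) : ℤ) : ℂ) * w r j) =
      (d : ℚ) * ∑ r, ∑ j, φ (Pi.single r (Pi.single j 1)) * ψ (w r j) := by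
    rw [Finset.mul_sum]
    refine Finset.sum_congr rfl fun r _ => ?_
    rw [map_sum, Finset.mul_sum]
    refine Finset.sum_congr rfl fun j _ => ?_
    have h3 : ((m (r, j) : ℤ) : ℂ) * w r j = ((d : ℚ) * φ (Pi.single r (Pi.single j 1))) • w r j := by
      rw [hm (r, j), Rat.smul_def, Rat.cast_intCast]
    rw [h3, map_smul, smul_eq_mul, mul_assoc]
  have h4 : ψ ((n : ℂ) * μ) = (d : ℚ) * (ψ μ * φ s) := by
    have h5 : (n : ℂ) * μ = ((n : ℤ) : ℚ) • μ := by rw [Rat.smul_def, Rat.cast_intCast]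
    rw [h5, map_smul, smul_eq_mul, ← hn]
    ring
  have h3 : (d : ℚ) * (∑ r, ∑ j, φ (Pi.single r (Pi.single j 1)) * ψ (w r j) - ψ μ * φ s) = 0 := by
    rw [mul_sub, ← h2, ← h4, sub_eq_zero]
    exact h1
  exact (mul_eq_zero.1 h3).resolve_left (Nat.cast_ne_zero.2 hd0)

theorem mt_comp (ψ : ℂ →ₗ[ℚ] ℚ) (X : Matrix (Fin (2 * g)) (Fin (2 * g)) ℂ) :
    mt (Matrix.vecMulLinear (X.map ψ) : Module.End ℚ (Fin (2 * g) → ℚ)) = X.map fun z => ((ψ z : ℚ) : ℂ) := by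
  ext i j
  change (((Pi.single i 1 ᵥ* X.map ψ) j : ℚ) : ℂ) = _
  rw [Matrix.single_one_vecMul]
  rfl

/-- **The Lie algebra of the motivic Galois group.** -/
theorem mainT (hT : IsSubtorsor QB T) (hG : GDef QQ T) (hc : sm (prS u e q f L A) 1 ∈ T) (hF : Fld A F)
    (hu : ∀ r, u r ∈ Pt A F) (hq : ∀ j, q j ∈ Pt A F) (hE : EndAlg A) (hN0 : RelN A u q (Nm A u e q f)) (hA : Many A)
    {X : Matrix (Fin (2 * g)) (Fin (2 * g)) ℂ} {μ : ℂ} {N : R ⊕ J → Fin (2 * g) → ℂ} {w : Matrix R J ℂ}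
    (hX : ∀ a b, ∑ c, X a c * ((A.om (A.bas c) (A.bas b) : ℚ) : ℂ) + ∑ c, X b c * ((A.om (A.bas a) (A.bas c) : ℚ) : ℂ) =
      μ * ((A.om (A.bas a) (A.bas b) : ℚ) : ℂ))
    (hXm : ∀ m, EndM A m → mC m * X = X * mC m) (hN : RelN A u q N)
    (hw : ∀ χ : Matrix R J ℤ, (∀ c ∈ CmS A u q, ∑ r, ∑ j, (χ r j : ℂ) * c r j = 0) → ∀ n : ℤ,
      IsAlgebraic ℚ (∑ r, ∑ j, (χ r j : ℂ) * ell A u e q f L r j - (n : ℂ) * (2 * Real.pi * Complex.I)) →
      ∑ r, ∑ j, (χ r j : ℂ) * w r j = (n : ℂ) * μ)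
    {x : Matrix (Iz (Fin (2 * g)) R J) (Iz (Fin (2 * g)) R J) ℂ} (hx : x ∈ T) :
    NormedSpace.exp (sm ((X, tz A (zM N), μ, yM N, w) : LS (Fin (2 * g)) R J) 0) * x ∈ T := by
  refine exp_mem_LL hT (mem_of_comp (LL T) fun ψ => ?_) hx
  obtain ⟨hsplit, s, hs⟩ := shapeO hT hG hc hF hu hq hE hN0
  obtain ⟨v, hv⟩ := hratrow hT hG hc hF hu hq hE hN0 (relN_comp hN ψ)
  have h1 := mem_B0.1 (hsplit _ _ hv).1
  have h2 := mem_U2.1 (w2s_mem hT hG hc hF hu hq hE hN0 hs hw ψ)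
  have h3 := half_mem hT hG hc hF hu hq hE hN0 hs hA (ψ μ)
  -- the part of weight zero
  set Xψ : Module.End ℚ (Fin (2 * g) → ℚ) := Matrix.vecMulLinear (X.map ψ) with hXψ
  have hmul : ∀ (z : ℂ) (c : ℚ), ψ (z * (c : ℂ)) = ψ z * c := by
    intro z c
    have h5 : z * (c : ℂ) = c • z := by rw [Rat.smul_def, mul_comm]
    rw [h5, map_smul, smul_eq_mul, mul_comm]
  have hbas : ∀ a b, A.om (Xψ (A.bas a)) (A.bas b) + A.om (A.bas a) (Xψ (A.bas b)) = ψ μ * A.om (A.bas a) (A.bas b) := by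
    intro a b
    have h4 := congrArg ψ (hX a b)
    rw [map_add, map_sum, map_sum, hmul] at h4
    simp only [hmul] at h4
    have h5 : ∀ a, Xψ (A.bas a) = ∑ c, ψ (X a c) • A.bas c := by
      intro a
      have h6 : Xψ (A.bas a) = fun c => ψ (X a c) := by
        rw [bas_eq]
        change Pi.single a 1 ᵥ* X.map ψ = _
        rw [Matrix.single_one_vecMul]
        rfl
      conv_lhs => rw [← A.bas.sum_repr (Xψ (A.bas a))]
      refine Finset.sum_congr rfl fun c _ => ?_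
      congr 1
      exact congrFun h6 c
    rw [h5, h5, map_sum, LinearMap.sum_apply, map_sum, ← h4]
    congr 1
    · refine Finset.sum_congr rfl fun c _ => ?_
      rw [map_smul, LinearMap.smul_apply, smul_eq_mul]
    · refine Finset.sum_congr rfl fun c _ => ?_
      rw [map_smul, smul_eq_mul]
  have hsim : ∀ v w, A.om (Xψ v) w + A.om v (Xψ w) = ψ μ * A.om v w := by
    have h4 : A.om.comp Xψ + (A.om.flip.comp Xψ).flip = ψ μ • A.om :=
      A.bas.ext fun a => A.bas.ext fun b => hbas a b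
    intro v w
    exact congrArg (fun F : (Fin (2 * g) → ℚ) →ₗ[ℚ] (Fin (2 * g) → ℚ) →ₗ[ℚ] ℚ => F v w) h4
  have hcm : ∀ Q ∈ A.EA, Xψ * Q = Q * Xψ := by
    intro Q hQ
    obtain ⟨d, hd0, m, hm, h⟩ := endM_of_EA hQ
    have hmat : (X.map ψ) * mQ m = mQ m * (X.map ψ) := by
      ext i j
      have h4 := congrArg ψ (congrFun (congrFun (hXm m hm) i) j)
      rw [Matrix.mul_apply, Matrix.mul_apply, map_sum, map_sum] at h4
      rw [Matrix.mul_apply, Matrix.mul_apply]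
      have e1 : ∀ (k : ℤ) (z : ℂ), ψ (z * (k : ℂ)) = ψ z * (k : ℚ) := by
        intro k z
        have := hmul z (k : ℚ)
        rwa [Rat.cast_intCast] at this
      refine Eq.trans ?_ (h4.symm.trans ?_)
      · exact Finset.sum_congr rfl fun k _ => (e1 _ _).symm
      · refine Finset.sum_congr rfl fun k _ => ?_
        rw [mul_comm]
        refine (e1 _ _).trans ?_
        rw [mul_comm]
        rfl
    refine LinearMap.ext fun v => ?_
    have hd : (d : ℚ) ≠ 0 := Nat.cast_ne_zero.2 hd0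
    refine smul_right_injective _ hd ?_
    change (d : ℚ) • Xψ (Q v) = (d : ℚ) • Q (Xψ v)
    rw [← map_smul, ← h, ← h]
    change (v ᵥ* mQ m) ᵥ* X.map ψ = (v ᵥ* X.map ψ) ᵥ* mQ m
    rw [Matrix.vecMul_vecMul, Matrix.vecMul_vecMul, hmat]
  have h4 := mem_L0.1 (skew_L0 hT hG hc hF hu hq hE hN0 hs hA
    (Z := Xψ - (ψ μ / 2) • (1 : Module.End ℚ (Fin (2 * g) → ℚ))) (fun v w => by
      have h5 := hsim v w
      simp only [LinearMap.sub_apply, LinearMap.smul_apply, Module.End.one_apply, map_sub, map_smul, smul_eq_mul]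
      linear_combination h5) (fun Q hQ => by
      rw [sub_mul, mul_sub, hcm Q hQ, smul_mul_assoc, mul_smul_comm, one_mul, mul_one]))
  have h5 := (gR A u q T).add_mem ((gR A u q T).add_mem h4 h3) ((gR A u q T).add_mem h1 h2)
  have h6 : ((Xψ, fun s a => ψ (N s a), ψ μ, fun r j => ψ (w r j)) : RS g R J) ∈ gR A u q T := by
    refine (congrArg (· ∈ gR A u q T) ?_).mp h5
    refine Prod.ext ?_ (Prod.ext ?_ (Prod.ext ?_ ?_))
    · change (Xψ - (ψ μ / 2) • (1 : Module.End ℚ (Fin (2 * g) → ℚ)) + (ψ μ / 2) • 1) + (0 + 0) = Xψ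
      rw [sub_add_cancel, add_zero, add_zero]
    · change (0 + 0) + ((fun s a => ψ (N s a)) + 0) = _
      rw [add_zero, zero_add, add_zero]
    · change ((0 : ℚ) + ψ μ) + (0 + 0) = ψ μ
      rw [add_zero, add_zero, zero_add]
    · funext r j
      change ((0 : ℚ) + ψ μ * s r j) + (0 + (ψ (w r j) - ψ μ * s r j)) = ψ (w r j)
      ring
  have h7 := (mem_gN.1 (mem_gR.1 h6).1).2
  refine (congrArg (· ∈ LL T) ?_).mp h7
  have h8 : (fun a => ((ψ (fl (sm ((X, tz A (zM N), μ, yM N, w) : LS (Fin (2 * g)) R J) 0) a) : ℚ) : ℂ)) =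
      fl ((sm ((X, tz A (zM N), μ, yM N, w) : LS (Fin (2 * g)) R J) 0).map fun z => ((ψ z : ℚ) : ℂ)) := rfl
  rw [h8, sm_map (by rw [map_zero, Rat.cast_zero])]
  congr 1
  rw [map_zero, Rat.cast_zero]
  congr 1
  refine Prod.ext ?_ (Prod.ext ?_ (Prod.ext rfl (Prod.ext rfl rfl)))
  · exact mt_comp ψ X
  · exact (tz_map ψ (zM N)).symm

end Pool.Agent.X306.AV
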