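import Pool.Agent.X306.AV.TE

set_option autoImplicit false
set_option linter.unusedVariables false
set_option linter.unusedSectionVars false
set_option linter.unusedSimpArgs false

/-!
# 1-motives whose abelian part has maximal real multiplication: the endomorphisms
-/

open Matrix Module TensorProduct Polynomial Function

noncomputable section

namespace Pool.Agent.X306.AV

open Pool.Agent.Y102 Pool.Agent.W516.DR Pool.Agent.H204R3.GP Pool.Agent.W516.KC Pool.Agent.W516.KC2
open Pool.Agent.TH127.PT Pool.Agent.Y123.ST Pool.Agent.TH119.DR Pool.Agent.W245.EB Pool.Agent.H204R3.SP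
open Pool.Agent.X306.RL (LL_br LL_defF GDef derD)
open Pool.Agent.X306.EM (QQ mem_QQ QB_iff)

variable {g : ℕ} {A : AbVar g} {R J : Type} [Fintype R] [DecidableEq R] [Fintype J] [DecidableEq J]
variable {u e : R → Fin g → ℂ} {q f : J → Fin g → ℂ} {L : Matrix R J ℂ} {F : IntermediateField ℚ ℂ}
variable {T : Set (Matrix (Iz (Fin (2 * g)) R J) (Iz (Fin (2 * g)) R J) ℂ)}

/-- the endomorphisms of the abelian variety -/
theorem EA_of_hodge (hT : IsSubtorsor QB T) (hG : GDef QQ T) (hc : sm (prS u e q f L A) 1 ∈ T) (hE : EndAlg A)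
    (hN0 : RelN A u q (Nm A u e q f)) {P : Module.End ℚ A.H1}
    (hP : ∃ M : (Fin g → ℂ) →ₗ[ℂ] (Fin g → ℂ), ∀ w, M (A.per w) = A.per (P w)) : P ∈ A.EA := by
  obtain ⟨M, hM⟩ := hP
  obtain ⟨d, hd0, hd⟩ := exists_den (fun p : Fin (2 * g) × Fin (2 * g) => P (A.bas p.1) p.2)
  choose m hm using hd
  have hEnd : EndM A (Matrix.of fun i j => m (i, j)) := by
    refine ⟨(d : ℂ) • M, fun j => ?_⟩
    rw [LinearMap.smul_apply, ← A.per_bas, hM, per_eq, Finset.smul_sum]
    refine Finset.sum_congr rfl fun i _ => ?_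
    rw [smul_smul]
    congr 1
    have h1 := congrArg (fun x : ℚ => (x : ℂ)) (hm (j, i))
    simp only [Rat.cast_mul, Rat.cast_natCast, Rat.cast_intCast] at h1
    exact h1
  have h2 := EA_of_endM hT hG hc hE hN0 hEnd
  have h3 : (Matrix.vecMulLinear (mQ (Matrix.of fun i j => m (i, j))) : Module.End ℚ (Fin (2 * g) → ℚ)) = (d : ℚ) • P := by
    refine LinearMap.ext fun v => ?_
    funext i
    have h1 : v = ∑ j, v j • A.bas j := by
      conv_lhs => rw [← A.bas.sum_repr v]
      rfl
    conv_rhs => rw [h1]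
    rw [LinearMap.smul_apply, map_sum, Finset.smul_sum, Finset.sum_apply]
    change ∑ j, v j * ((m (j, i) : ℤ) : ℚ) = _
    refine Finset.sum_congr rfl fun j _ => ?_
    rw [← hm (j, i), map_smul, Pi.smul_apply, Pi.smul_apply, smul_eq_mul, smul_eq_mul]
    ring
  have h4 := A.EA.smul_mem ((d : ℚ)⁻¹) h2
  rw [h3, smul_smul, inv_mul_cancel₀ (Nat.cast_ne_zero.2 hd0), one_smul] at h4
  exact h4

end Pool.Agent.X306.AV
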