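import Pool.Agent.X306.AV.TF
import Pool.Agent.Y102.V15

set_option autoImplicit false
set_option linter.unusedVariables false
set_option linter.unusedSectionVars false
set_option linter.unusedSimpArgs false

/-!
# 1-motives over arbitrary abelian varieties: the Lie algebra generated by the logarithmic derivatives
-/

open Matrix Module TensorProduct Polynomial Function

noncomputable section

namespace Pool.Agent.X306.AV

open Pool.Agent.Y102 Pool.Agent.W516.DR Pool.Agent.H204R3.GP Pool.Agent.W516.KC Pool.Agent.W516.KC2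
open Pool.Agent.TH127.PT Pool.Agent.Y123.ST Pool.Agent.TH119.DR Pool.Agent.W245.EB Pool.Agent.H204R3.SP
open Pool.Agent.X306.RL (LL_br LL_defF GDef derD)
open Pool.Agent.X306.EM (QQ mem_QQ QB_iff)

variable {g : ℕ} {A : AbVar g} {R J : Type} [Fintype R] [DecidableEq R] [Fintype J] [DecidableEq J]
variable {u e : R → Fin g → ℂ} {q f : J → Fin g → ℂ} {L : Matrix R J ℂ} {F : IntermediateField ℚ ℂ}
variable {T : Set (Matrix (Iz (Fin (2 * g)) R J) (Iz (Fin (2 * g)) R J) ℂ)}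

variable (A)

/-- the Lie algebra generated by the logarithmic derivatives of the periods -/
def mm : Submodule ℚ (Module.End ℚ A.H1) :=
  sInf {𝔥 | (∀ (D : Derivation QBar ℂ ℂ) (f : ℂ →ₗ[ℚ] ℚ), X0 A.basis (2 * Real.pi * Complex.I) D f ∈ 𝔥) ∧
    ∀ X ∈ 𝔥, ∀ Y ∈ 𝔥, X * Y - Y * X ∈ 𝔥}

variable {A}

theorem mm_le {𝔥 : Submodule ℚ (Module.End ℚ A.H1)}
    (h : ∀ (D : Derivation QBar ℂ ℂ) (f : ℂ →ₗ[ℚ] ℚ), X0 A.basis (2 * Real.pi * Complex.I) D f ∈ 𝔥)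
    (hbr : ∀ X ∈ 𝔥, ∀ Y ∈ 𝔥, X * Y - Y * X ∈ 𝔥) : mm A ≤ 𝔥 := sInf_le ⟨h, hbr⟩

theorem X0_mm (D : Derivation QBar ℂ ℂ) (f : ℂ →ₗ[ℚ] ℚ) : X0 A.basis (2 * Real.pi * Complex.I) D f ∈ mm A := by
  unfold mm
  rw [Submodule.mem_sInf]
  exact fun 𝔥 h => h.1 D f

theorem br_mm {X Y : Module.End ℚ A.H1} (hX : X ∈ mm A) (hY : Y ∈ mm A) : X * Y - Y * X ∈ mm A := by
  unfold mm at hX hY ⊢
  rw [Submodule.mem_sInf] at hX hY ⊢
  exact fun 𝔥 h => h.2 X (hX 𝔥 h) Y (hY 𝔥 h)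

theorem mm_le_LA : mm A ≤ A.LA := by
  refine mm_le (fun D f => ?_) fun X hX Y hY => A.LA_bracket hX hY
  rw [A.LA_eq]
  exact X0_mem A.basis AbVar.tau_ne D f

theorem mm_drb {P : Module.End ℚ A.H1} (h : ∀ X ∈ mm A, X * P = P * X) : P ∈ A.EA := by
  have h1 := end_of_comm A.basis (τ := 2 * Real.pi * Complex.I) P fun D f => h _ (X0_mm D f)
  rw [A.coe_basis] at h1
  exact A.mem_EA.2 h1

theorem mm_semi : Semi (mm A) := by
  intro U hU
  have h1 : IsDeRhamBettiSubspace QBar (A.basis : Fin g ⊕ Fin g → (A.H1 →ₗ[ℚ] ℂ)) U :=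
    sub_of_stable A.basis (τ := 2 * Real.pi * Complex.I) U fun D f v hv => hU _ (X0_mm D f) v hv
  rw [A.coe_basis] at h1
  refine ⟨_, ?_, A.isCompl_of_sub h1⟩
  intro X hX v hv w hw
  have h2 := A.LA_skew (mm_le_LA hX) w v
  have h3 : A.om (X w) v = 0 := hv _ (hU X hX w hw)
  rw [h3, zero_add] at h2
  exact h2

theorem full_mm : A.Full (mm A) where
  le := mm_le_LA.trans A.LA_le_NA
  br := fun X hX Y hY => br_mm hX hY
  semi := mm_semi
  comm := fun P hP X hX => A.NA_comm hX (mm_drb hP)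

theorem full_NA : A.Full A.NA where
  le := le_refl _
  br := fun X hX Y hY => A.NA_bracket hX hY
  semi := A.semi_NA
  comm := fun P hP X hX => hP X hX

theorem mm_le_HH (hT : IsSubtorsor QB T) (hG : GDef QQ T) (hc : sm (prS u e q f L A) 1 ∈ T) (hE : EndAlg A)
    (hN0 : RelN A u q (Nm A u e q f)) : mm A ≤ HH A u q T := by
  have G := good_gR hT hG hc hE hN0
  exact mm_le (fun D f => G.X0_hh D f) fun X hX Y hY => G.br_hh hX hY

/-- the derived algebra -/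
theorem der_L0 (hT : IsSubtorsor QB T) (hG : GDef QQ T) (hc : sm (prS u e q f L A) 1 ∈ T) (hF : Fld A F)
    (hu : ∀ r, u r ∈ Pt A F) (hq : ∀ j, q j ∈ Pt A F) (hE : EndAlg A) (hN0 : RelN A u q (Nm A u e q f))
    {s : R → J → ℚ} (hs : ∀ ξ ∈ gR A u q T, (fun r j => ξ.2.2.2 r j - ξ.2.2.1 * s r j) ∈ U2 (gR A u q T))
    {𝔥 : Submodule ℚ (Module.End ℚ A.H1)} (h : A.Full 𝔥) (hd : der 𝔥 ≤ mm A) : der 𝔥 ≤ L0 (gR A u q T) := by
  intro X hX
  refine (Submodule.span_le.2 ?_) (h.perfect hX)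
  rintro _ ⟨X, hX, Y, hY, rfl⟩
  have hle := mm_le_HH hT hG hc hE hN0
  exact lift_br hT hG hc hF hu hq hE hN0 hs (hle (hd hX)) (hle (hd hY))

/-- **The centre**: central elements which satisfy the relations of a central element in the Lie algebra. -/
theorem cen_L0 (hT : IsSubtorsor QB T) (hG : GDef QQ T) (hc : sm (prS u e q f L A) 1 ∈ T) (hE : EndAlg A)
    (hN0 : RelN A u q (Nm A u e q f)) {s : R → J → ℚ} {Z Z' : Module.End ℚ A.H1} (hZ : Z ∈ A.ZA) (hZ' : Z' ∈ A.ZA) {x : ℚ}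
    (hmem : ((Z + (x / 2) • (1 : Module.End ℚ (Fin (2 * g) → ℚ)), 0, x, fun r j => x * s r j) : RS g R J) ∈ gR A u q T)
    (hrel : ∀ (n : ℕ) (b : Basis (Fin n) ℂ (ℂ ⊗[ℚ] A.H1)) (χ : Fin n → (A.ZA →ₗ[ℚ] ℂ)),
      (∀ k (R : A.ZA), (R : Module.End ℚ A.H1).baseChange ℂ (b k) = χ k R • b k) →
      ∀ m : Fin n → ℤ, ∑ k, (m k : ℂ) * χ k ⟨Z, hZ⟩ = 0 → ∑ k, (m k : ℂ) * χ k ⟨Z', hZ'⟩ = 0) : Z' ∈ L0 (gR A u q T) := by
  classical
  obtain ⟨n, b, χ, hb⟩ := A.exists_basis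
  have hLL := (mem_gN.1 (mem_gR.1 hmem).1).2
  rw [cS_row0, mt_add_smul] at hLL
  have hn : n = 2 * g := by
    have h1 := Module.finrank_eq_card_basis b
    have h2 := Module.finrank_eq_card_basis (tb A)
    rw [Fintype.card_fin] at h1 h2
    omega
  subst hn
  -- the eigenbasis
  let Bm : Matrix (Fin (2 * g)) (Fin (2 * g)) ℂ := Matrix.of fun k j => (tb A).repr (b k) j
  have hBm : IsUnit Bm := by
    refine IsUnit.of_mul_eq_one ((b.toMatrix (tb A))ᵀ) ?_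
    have h1 : Bm = ((tb A).toMatrix b)ᵀ := by
      ext k j
      rw [Matrix.transpose_apply, Basis.toMatrix_apply]
      rfl
    rw [h1, ← Matrix.transpose_mul, Basis.toMatrix_mul_toMatrix_flip, Matrix.transpose_one]
  have hBdet := (Matrix.isUnit_iff_isUnit_det _).1 hBm
  have hBX : ∀ R : A.ZA, mt (R : Module.End ℚ A.H1) * Bm⁻¹ = Bm⁻¹ * Matrix.diagonal (fun k => χ k R) := by
    intro R
    have h1 : Bm * mt (R : Module.End ℚ A.H1) = Matrix.diagonal (fun k => χ k R) * Bm := by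
      ext k j
      rw [Matrix.diagonal_mul]
      have h2 := congrFun (repr_baseChange (R : Module.End ℚ A.H1) (b k)) j
      rw [hb] at h2
      refine Eq.trans ?_ (h2.symm.trans ?_)
      · rfl
      · rw [map_smul]
        rfl
    calc mt (R : Module.End ℚ A.H1) * Bm⁻¹ = Bm⁻¹ * (Bm * mt (R : Module.End ℚ A.H1)) * Bm⁻¹ := by
          rw [← Matrix.mul_assoc Bm⁻¹, Matrix.nonsing_inv_mul _ hBdet, Matrix.one_mul]
      _ = Bm⁻¹ * Matrix.diagonal (fun k => χ k R) := by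
          rw [h1, Matrix.mul_assoc, Matrix.mul_assoc, Matrix.mul_nonsing_inv _ hBdet, Matrix.mul_one]
  set ws : Matrix R J ℂ := Matrix.of fun r j => ((s r j : ℚ) : ℂ) with hws
  have hxs : (Matrix.of fun r j => ((x * s r j : ℚ) : ℂ)) = ((x : ℚ) : ℂ) • ws := by
    ext r j
    exact Rat.cast_mul _ _
  rw [hxs] at hLL
  set S : Matrix (Iz (Fin (2 * g)) R J) (Iz (Fin (2 * g)) R J) ℂ := sm (Bm⁻¹, 0, 1, 0, ws) 1 with hSdef
  have hS : IsUnit S := by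
    refine IsUnit.of_mul_eq_one (sm (Bm, 0, 1, 0, -ws) 1) ?_
    rw [hSdef, sm_mul, mul_one, ← sm_one]
    congr 1
    refine Prod.ext ?_ (Prod.ext ?_ (Prod.ext ?_ (Prod.ext ?_ ?_)))
    · exact Matrix.nonsing_inv_mul _ hBdet
    · change Bm⁻¹ * (0 : Matrix (Fin (2 * g)) J ℂ) + (1 : ℂ) • (0 : Matrix (Fin (2 * g)) J ℂ) = 0
      rw [Matrix.mul_zero, smul_zero, add_zero]
    · change (1 : ℂ) * 1 = 1
      rw [mul_one]
    · change (0 : Matrix R (Fin (2 * g)) ℂ) * Bm + (1 : ℂ) • (0 : Matrix R (Fin (2 * g)) ℂ) = 0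
      rw [Matrix.zero_mul, smul_zero, add_zero]
    · change (0 : Matrix R (Fin (2 * g)) ℂ) * (0 : Matrix (Fin (2 * g)) J ℂ) + (1 : ℂ) • ws + (1 : ℂ) • -ws = 0
      rw [Matrix.zero_mul, one_smul, one_smul, zero_add, add_neg_cancel]
  -- the diagonal form
  have hW : ∀ (R : A.ZA) (c y : ℂ), sm ((mt (R : Module.End ℚ A.H1) + c • 1, 0, y, 0, y • ws) :
      LS (Fin (2 * g)) _ J) 0 * S =
      S * Matrix.diagonal (Sum.elim (Sum.elim (fun k => χ k R + c) (fun _ => y)) (fun _ => 0)) := by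
    intro R c y
    rw [← diag_sm, hSdef, sm_mul, sm_mul, zero_mul, mul_zero]
    congr 1
    refine Prod.ext ?_ (Prod.ext ?_ (Prod.ext ?_ (Prod.ext ?_ ?_)))
    · change (mt (R : Module.End ℚ A.H1) + c • 1) * Bm⁻¹ = Bm⁻¹ * Matrix.diagonal (fun k => χ k R + c)
      have h1 : Matrix.diagonal (fun k => χ k R + c) = Matrix.diagonal (fun k => χ k R) + c • 1 := by
        rw [Matrix.smul_one_eq_diagonal, Matrix.diagonal_add]
      rw [h1, Matrix.add_mul, Matrix.mul_add, hBX, Matrix.smul_mul, Matrix.one_mul, Matrix.mul_smul, Matrix.mul_one]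
    · change (mt (R : Module.End ℚ A.H1) + c • 1) * (0 : Matrix (Fin (2 * g)) J ℂ) +
        (1 : ℂ) • (0 : Matrix (Fin (2 * g)) J ℂ) = Bm⁻¹ * (0 : Matrix (Fin (2 * g)) J ℂ) + y • (0 : Matrix (Fin (2 * g)) J ℂ)
      rw [Matrix.mul_zero, Matrix.mul_zero, smul_zero, smul_zero]
    · change y * 1 = 1 * y
      ring
    · change (0 : Matrix _ (Fin (2 * g)) ℂ) * Bm⁻¹ + (0 : ℂ) • (0 : Matrix _ (Fin (2 * g)) ℂ) =
        (0 : Matrix _ (Fin (2 * g)) ℂ) * Matrix.diagonal (fun k => χ k R + c) + (1 : ℂ) • (0 : Matrix _ (Fin (2 * g)) ℂ)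
      rw [Matrix.zero_mul, Matrix.zero_mul, smul_zero, smul_zero]
    · change (0 : Matrix _ (Fin (2 * g)) ℂ) * (0 : Matrix (Fin (2 * g)) J ℂ) + (1 : ℂ) • (y • ws) + (0 : ℂ) • ws =
        (0 : Matrix _ (Fin (2 * g)) ℂ) * (0 : Matrix (Fin (2 * g)) J ℂ) + y • ws + (1 : ℂ) • (0 : Matrix _ J ℂ)
      rw [one_smul, zero_smul, smul_zero]
  have himag : ∀ k, (χ k ⟨Z, hZ⟩).re = 0 := fun k => eig_imag hZ.1 hZ.2.1 (b.ne_zero k) (hb k ⟨Z, hZ⟩)
  -- the hull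
  have h5 := hull hS (hW ⟨Z, hZ⟩ (((x / 2 : ℚ) : ℚ) : ℂ) ((x : ℚ) : ℂ)) (hW ⟨Z', hZ'⟩ 0 0) (fun m hm => by
    rw [Fintype.sum_sum_type, Fintype.sum_sum_type] at hm ⊢
    simp only [Sum.elim_inl, Sum.elim_inr, mul_zero, Finset.sum_const_zero, add_zero] at hm ⊢
    have h6 : ∑ k, (m (Sum.inl (Sum.inl k)) : ℂ) * χ k ⟨Z, hZ⟩ = 0 := by
      have h7 : ∑ k, (m (Sum.inl (Sum.inl k)) : ℂ) * (χ k ⟨Z, hZ⟩ + ((x / 2 : ℚ) : ℂ)) +
          ∑ j, (m (Sum.inl (Sum.inr j)) : ℂ) * ((x : ℚ) : ℂ) = ∑ k, (m (Sum.inl (Sum.inl k)) : ℂ) * χ k ⟨Z, hZ⟩ +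
          (((∑ k, (m (Sum.inl (Sum.inl k)) : ℚ)) * (x / 2) + (∑ j, (m (Sum.inl (Sum.inr j)) : ℚ)) * x : ℚ) : ℂ) := by
        simp only [mul_add, Finset.sum_add_distrib, ← Finset.sum_mul]
        push_cast
        ring
      rw [h7] at hm
      have h8 := congrArg Complex.re hm
      rw [Complex.add_re, Complex.re_sum, Complex.zero_re] at h8
      have h9 : ∀ k, ((m (Sum.inl (Sum.inl k)) : ℂ) * χ k ⟨Z, hZ⟩).re = 0 := by
        intro k
        rw [Complex.mul_re, himag, mul_zero, Complex.intCast_im, zero_mul, sub_zero]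
      simp only [h9, Finset.sum_const_zero, zero_add] at h8
      have h10 : (((∑ k, (m (Sum.inl (Sum.inl k)) : ℚ)) * (x / 2) +
          (∑ j, (m (Sum.inl (Sum.inr j)) : ℚ)) * x : ℚ) : ℂ) = 0 := by
        rw [← Complex.ofReal_ratCast] at h8 ⊢
        rw [Complex.ofReal_re] at h8
        rw [h8, Complex.ofReal_zero]
      rw [h10, add_zero] at hm
      exact hm
    exact hrel _ b χ hb (fun k => m (Sum.inl (Sum.inl k))) h6) hLL
  -- the element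
  have hEAm : ∀ m, EndM A m → ∀ v : Fin (2 * g) → ℚ, Z' (v ᵥ* mQ m) = Z' v ᵥ* mQ m := by
    intro m hm v
    have h6 := hZ'.2.2 _ (EA_of_endM hT hG hc hE hN0 hm)
    exact congrArg (fun F : Module.End ℚ (Fin (2 * g) → ℚ) => F v) h6
  refine mem_L0.2 (mem_gR.2 ⟨mem_gN.2 ⟨fun v w => ?_, ?_⟩, hEAm, fun Q m _ _ => ?_⟩)
  · change A.om (Z' v) w + A.om v (Z' w) = 0 * A.om v w
    rw [zero_mul]
    exact hZ'.2.1 v w
  · rw [cS_row0]
    refine (congrArg (fun y => fl (sm y 0) ∈ LL T) ?_).mp h5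
    refine Prod.ext ?_ (Prod.ext rfl (Prod.ext ?_ (Prod.ext rfl ?_)))
    · change mt Z' + (0 : ℂ) • 1 = mt Z'
      rw [zero_smul, add_zero]
    · exact Rat.cast_zero.symm
    · change (0 : ℂ) • ws = _
      rw [zero_smul]
      ext r j
      exact Rat.cast_zero.symm
  · refine Finset.sum_eq_zero fun r _ => ?_
    exact Matrix.zero_vecMul _

theorem cen_ZA {Z : Module.End ℚ A.H1} (hZ : Z ∈ mm A) (hc : ∀ Y ∈ mm A, Z * Y = Y * Z) : Z ∈ A.ZA :=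
  ⟨mm_drb fun X hX => (hc X hX).symm, A.LA_skew (mm_le_LA hZ), fun Q hQ => hQ Z (mm_le_LA hZ)⟩

/-- **The Lie algebra generated by the logarithmic derivatives is in the Lie algebra of the torsor.** -/
theorem mm_L0 (hT : IsSubtorsor QB T) (hG : GDef QQ T) (hc : sm (prS u e q f L A) 1 ∈ T) (hF : Fld A F)
    (hu : ∀ r, u r ∈ Pt A F) (hq : ∀ j, q j ∈ Pt A F) (hE : EndAlg A) (hN0 : RelN A u q (Nm A u e q f))
    {s : R → J → ℚ} (hs : ∀ ξ ∈ gR A u q T, (fun r j => ξ.2.2.2 r j - ξ.2.2.1 * s r j) ∈ U2 (gR A u q T)) :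
    mm A ≤ L0 (gR A u q T) := by
  intro X hX
  obtain ⟨Z, hZ, d, hd, rfl, hZc⟩ := full_mm.dec hX
  have hdL := der_L0 hT hG hc hF hu hq hE hN0 hs full_mm full_mm.der_le hd
  refine (L0 (gR A u q T)).add_mem ?_ hdL
  obtain ⟨ξ, hξ, hξZ⟩ := mem_HH.1 (mm_le_HH hT hG hc hE hN0 hZ)
  have h1 := norm_mem hT hG hc hF hu hq hE hN0 hs hξ
  have h2 : ξ.1 = Z + (ξ.2.2.1 / 2) • (1 : Module.End ℚ (Fin (2 * g) → ℚ)) := by rw [← hξZ, sub_add_cancel]
  rw [h2] at h1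
  have h3 := cen_ZA hZ hZc
  exact cen_L0 hT hG hc hE hN0 h3 h3 h1 fun n b χ hb m hm => hm

/-- **The homotheties.** -/
theorem half_mm (hT : IsSubtorsor QB T) (hG : GDef QQ T) (hc : sm (prS u e q f L A) 1 ∈ T) (hF : Fld A F)
    (hu : ∀ r, u r ∈ Pt A F) (hq : ∀ j, q j ∈ Pt A F) (hE : EndAlg A) (hN0 : RelN A u q (Nm A u e q f))
    {s : R → J → ℚ} (hs : ∀ ξ ∈ gR A u q T, (fun r j => ξ.2.2.2 r j - ξ.2.2.1 * s r j) ∈ U2 (gR A u q T)) (x : ℚ) :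
    (((x / 2) • (1 : Module.End ℚ (Fin (2 * g) → ℚ)), 0, x, fun r j => x * s r j) : RS g R J) ∈ gR A u q T := by
  have hw : (2 * Real.pi * Complex.I : ℂ) ≠ 0 := Complex.two_pi_I_ne_zero
  obtain ⟨D, φ, hx⟩ : ∃ (D : Derivation QBar ℂ ℂ) (φ : ℂ →ₗ[ℚ] ℚ), (cD A u e q f L D φ).2.2.1 ≠ 0 := by
    by_contra hcon
    push Not at hcon
    have h1 : ∀ D : Derivation QBar ℂ ℂ, D (2 * Real.pi * Complex.I) = 0 := by
      intro D
      have h2 : D (2 * Real.pi * Complex.I) / (2 * Real.pi * Complex.I) = 0 :=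
        eq_zero_of_dual (k := ℚ) fun f => hcon D f
      exact (div_eq_zero_iff.1 h2).resolve_right hw
    obtain ⟨a, ha⟩ := mem_of_derivation h1
    have halg : IsAlgebraic ℚ (2 * Real.pi * Complex.I : ℂ) := by
      rw [← ha]
      exact QBar.alg a
    have h2I : IsAlgebraic ℚ ((2 * Complex.I)⁻¹ : ℂ) := by
      refine IsAlgebraic.inv (IsAlgebraic.mul ?_ Pool.Agent.H340R2.LW.isAlgebraic_I)
      exact_mod_cast (isAlgebraic_natCast (R := ℚ) (A := ℂ) 2)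
    have h3 := halg.mul h2I
    have h4 : (2 * Real.pi * Complex.I : ℂ) * (2 * Complex.I)⁻¹ = Real.pi := by
      have hI := Complex.I_ne_zero
      field_simp
    rw [h4] at h3
    exact Pool.Agent.H340R2.LW.transcendental_pi_complex h3
  set ξ := cD A u e q f L D φ with hξdef
  have hξ : ξ ∈ gR A u q T := cD_gR hT hG hc hE hN0 D φ
  have h1 := norm_mem hT hG hc hF hu hq hE hN0 hs hξ
  have hX : ξ.1 - (ξ.2.2.1 / 2) • (1 : Module.End ℚ (Fin (2 * g) → ℚ)) = X0 A.basis (2 * Real.pi * Complex.I) D φ :=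
    (X0_eq A (Sum.elim u q) (Sum.elim e f) (fun j : Empty => j.elim) D φ).symm
  have h2 := mem_L0.1 (mm_L0 hT hG hc hF hu hq hE hN0 hs (X0_mm D φ))
  rw [← hX] at h2
  have h3 := (gR A u q T).smul_mem (x / ξ.2.2.1) ((gR A u q T).sub_mem h1 h2)
  refine (congrArg (· ∈ gR A u q T) ?_).mp h3
  refine Prod.ext ?_ (Prod.ext ?_ (Prod.ext ?_ ?_))
  · change (x / ξ.2.2.1) • (ξ.1 - (ξ.1 - (ξ.2.2.1 / 2) • (1 : Module.End ℚ (Fin (2 * g) → ℚ)))) = _
    rw [sub_sub_cancel, smul_smul]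
    congr 1
    field_simp
  · change (x / ξ.2.2.1) • ((0 : R ⊕ J → Fin (2 * g) → ℚ) - 0) = 0
    rw [sub_zero, smul_zero]
  · change (x / ξ.2.2.1) * (ξ.2.2.1 - 0) = x
    field_simp
    ring
  · funext r j
    change (x / ξ.2.2.1) * (ξ.2.2.1 * s r j - 0) = x * s r j
    field_simp
    ring

end Pool.Agent.X306.AV
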