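import Pool.Agent.X306.AV.UA

set_option autoImplicit false
set_option linter.unusedVariables false
set_option linter.unusedSectionVars false
set_option linter.unusedSimpArgs false

/-!
# 1-motives over arbitrary abelian varieties: the Lie algebra of the torsor
-/

open Matrix Module TensorProduct Polynomial Function

noncomputable section

namespace Pool.Agent.X306.AV

open Pool.Agent.Y102 Pool.Agent.W516.DR Pool.Agent.H204R3.GP Pool.Agent.W516.KC Pool.Agent.W516.KC2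
open Pool.Agent.TH127.PT Pool.Agent.Y123.ST Pool.Agent.TH119.DR Pool.Agent.W245.EB Pool.Agent.H204R3.SP
open Pool.Agent.X306.RL (LL_br LL_defF GDef derD)
open Pool.Agent.X306.EM (QQ mem_QQ QB_iff)

variable {g : ℕ} {A : AbVar g} {R J : Type} [Fintype R] [DecidableEq R] [Fintype J] [DecidableEq J]
variable {u e : R → Fin g → ℂ} {q f : J → Fin g → ℂ} {L : Matrix R J ℂ} {F : IntermediateField ℚ ℂ}
variable {T : Set (Matrix (Iz (Fin (2 * g)) R J) (Iz (Fin (2 * g)) R J) ℂ)}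

/-- the rational components of an element of the complex span -/
theorem comp_span {𝔥 : Submodule ℚ (Module.End ℚ (Fin (2 * g) → ℚ))} {X : Matrix (Fin (2 * g)) (Fin (2 * g)) ℂ}
    (hX : X ∈ Submodule.span ℂ {Y | ∃ P ∈ 𝔥, Y = mt P}) (ψ : ℂ →ₗ[ℚ] ℚ) :
    (Matrix.vecMulLinear (X.map ψ) : Module.End ℚ (Fin (2 * g) → ℚ)) ∈ 𝔥 := by
  induction hX using Submodule.span_induction generalizing ψ with
  | mem x h =>
    obtain ⟨P, hP, rfl⟩ := h
    have h1 : (Matrix.vecMulLinear ((mt P).map ψ) : Module.End ℚ (Fin (2 * g) → ℚ)) = (ψ 1) • P := by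
      refine (Pi.basisFun ℚ (Fin (2 * g))).ext fun a => ?_
      rw [Pi.basisFun_apply]
      change Pi.single a 1 ᵥ* (mt P).map ψ = (ψ 1) • P (Pi.single a 1)
      rw [Matrix.single_one_vecMul]
      funext i
      change ψ (((P (Pi.single a 1)) i : ℚ) : ℂ) = ψ 1 * (P (Pi.single a 1)) i
      have h5 : (((P (Pi.single a 1)) i : ℚ) : ℂ) = ((P (Pi.single a 1)) i) • (1 : ℂ) := by rw [Rat.smul_def, mul_one]
      rw [h5, map_smul, smul_eq_mul, mul_comm]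
    rw [h1]
    exact 𝔥.smul_mem _ hP
  | zero =>
    have h1 : (Matrix.vecMulLinear ((0 : Matrix (Fin (2 * g)) (Fin (2 * g)) ℂ).map ψ) :
        Module.End ℚ (Fin (2 * g) → ℚ)) = 0 := by
      refine LinearMap.ext fun v => ?_
      change v ᵥ* ((0 : Matrix (Fin (2 * g)) (Fin (2 * g)) ℂ).map ψ) = 0
      rw [Matrix.map_zero _ (map_zero ψ), Matrix.vecMul_zero]
    rw [h1]
    exact 𝔥.zero_mem
  | add x y _ _ h1 h2 =>
    have h3 : (Matrix.vecMulLinear ((x + y).map ψ) : Module.End ℚ (Fin (2 * g) → ℚ)) =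
        Matrix.vecMulLinear (x.map ψ) + Matrix.vecMulLinear (y.map ψ) := by
      refine LinearMap.ext fun v => ?_
      change v ᵥ* ((x + y).map ψ) = v ᵥ* (x.map ψ) + v ᵥ* (y.map ψ)
      rw [Matrix.map_add _ (map_add ψ), Matrix.vecMul_add]
    rw [h3]
    exact 𝔥.add_mem (h1 ψ) (h2 ψ)
  | smul a x _ h1 =>
    have h2 : (a • x).map ψ = x.map (ψ ∘ₗ (LinearMap.mulLeft ℚ a)) := by
      ext i j
      rfl
    rw [h2]
    exact h1 _

/-- **The Lie algebra of the torsor.** -/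
theorem mainLie (hT : IsSubtorsor QB T) (hG : GDef QQ T) (hc : sm (prS u e q f L A) 1 ∈ T) (hF : Fld A F)
    (hu : ∀ r, u r ∈ Pt A F) (hq : ∀ j, q j ∈ Pt A F) (hE : EndAlg A) (hN0 : RelN A u q (Nm A u e q f))
    {𝔥 : Submodule ℚ (Module.End ℚ (Fin (2 * g) → ℚ))} (h𝔥 : 𝔥 ≤ L0 (gR A u q T))
    {X : Matrix (Fin (2 * g)) (Fin (2 * g)) ℂ} {μ : ℂ} {N : R ⊕ J → Fin (2 * g) → ℂ} {w : Matrix R J ℂ}
    (hX : X - (μ / 2) • 1 ∈ Submodule.span ℂ {Y | ∃ P ∈ 𝔥, Y = mt P}) (hN : RelN A u q N)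
    (hw : ∀ χ : Matrix R J ℤ, (∀ c ∈ CmS A u q, ∑ r, ∑ j, (χ r j : ℂ) * c r j = 0) → ∀ n : ℤ,
      IsAlgebraic ℚ (∑ r, ∑ j, (χ r j : ℂ) * ell A u e q f L r j - (n : ℂ) * (2 * Real.pi * Complex.I)) →
      ∑ r, ∑ j, (χ r j : ℂ) * w r j = (n : ℂ) * μ)
    {x : Matrix (Iz (Fin (2 * g)) R J) (Iz (Fin (2 * g)) R J) ℂ} (hx : x ∈ T) :
    NormedSpace.exp (sm ((X, tz A (zM N), μ, yM N, w) : LS (Fin (2 * g)) R J) 0) * x ∈ T := by
  refine exp_mem_LL hT (mem_of_comp (LL T) fun ψ => ?_) hx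
  obtain ⟨hsplit, s, hs⟩ := shapeO hT hG hc hF hu hq hE hN0
  obtain ⟨v, hv⟩ := hratrow hT hG hc hF hu hq hE hN0 (relN_comp hN ψ)
  have h1 := mem_B0.1 (hsplit _ _ hv).1
  have h2 := mem_U2.1 (w2s_mem hT hG hc hF hu hq hE hN0 hs hw ψ)
  have h3 := half_mm hT hG hc hF hu hq hE hN0 hs (ψ μ)
  -- the part of weight zero
  set Pψ : Module.End ℚ (Fin (2 * g) → ℚ) := Matrix.vecMulLinear ((X - (μ / 2) • 1).map ψ) with hPψ
  set Xψ : Module.End ℚ (Fin (2 * g) → ℚ) := Matrix.vecMulLinear (X.map ψ) with hXψ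
  have hP : Pψ ∈ 𝔥 := comp_span hX ψ
  have hXP : Xψ = Pψ + (ψ μ / 2) • (1 : Module.End ℚ (Fin (2 * g) → ℚ)) := by
    have h5 : X.map ψ = (X - (μ / 2) • 1).map ψ + (ψ μ / 2) • (1 : Matrix (Fin (2 * g)) (Fin (2 * g)) ℚ) := by
      have h6 : ψ (μ / 2) = ψ μ / 2 := by
        have h7 : μ / 2 = ((1 / 2 : ℚ)) • μ := by
          rw [Rat.smul_def]
          push_cast
          ring
        rw [h7, map_smul, smul_eq_mul]
        ring
      ext i j
      rw [Matrix.add_apply, Matrix.map_apply, Matrix.map_apply, Matrix.sub_apply, Matrix.smul_apply, Matrix.smul_apply,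
        map_sub, smul_eq_mul, smul_eq_mul]
      rcases eq_or_ne i j with rfl | hij
      · rw [Matrix.one_apply_eq, Matrix.one_apply_eq, mul_one, mul_one, h6, sub_add_cancel]
      · rw [Matrix.one_apply_ne hij, Matrix.one_apply_ne hij, mul_zero, mul_zero, map_zero, sub_zero, add_zero]
    refine LinearMap.ext fun v => ?_
    change v ᵥ* (X.map ψ) = v ᵥ* ((X - (μ / 2) • 1).map ψ) + (ψ μ / 2) • v
    rw [h5, Matrix.vecMul_add, Matrix.vecMul_smul, Matrix.vecMul_one]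
  have h4 := mem_L0.1 (h𝔥 hP)
  have h5 := (gR A u q T).add_mem ((gR A u q T).add_mem h4 h3) ((gR A u q T).add_mem h1 h2)
  have h6 : ((Xψ, fun s a => ψ (N s a), ψ μ, fun r j => ψ (w r j)) : RS g R J) ∈ gR A u q T := by
    refine (congrArg (· ∈ gR A u q T) ?_).mp h5
    refine Prod.ext ?_ (Prod.ext ?_ (Prod.ext ?_ ?_))
    · change Pψ + (ψ μ / 2) • (1 : Module.End ℚ (Fin (2 * g) → ℚ)) + (0 + 0) = Xψ
      rw [add_zero, add_zero, hXP]
    · change (0 + 0) + ((fun s a => ψ (N s a)) + 0) = _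
      rw [add_zero, zero_add, add_zero]
    · change ((0 : ℚ) + ψ μ) + (0 + 0) = ψ μ
      rw [add_zero, add_zero, zero_add]
    · funext r j
      change ((0 : ℚ) + ψ μ * s r j) + (0 + (ψ (w r j) - ψ μ * s r j)) = ψ (w r j)
      ring
  have h7 := (mem_gN.1 (mem_gR.1 h6).1).2
  refine (congrArg (· ∈ LL T) ?_).mp h7
  have h8 : (fun a => ((ψ (fl (sm ((X, tz A (zM N), μ, yM N, w) : LS (Fin (2 * g)) R J) 0) a) : ℚ) : ℂ)) =
      fl ((sm ((X, tz A (zM N), μ, yM N, w) : LS (Fin (2 * g)) R J) 0).map fun z => ((ψ z : ℚ) : ℂ)) := rfl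
  rw [h8, sm_map (by rw [map_zero, Rat.cast_zero])]
  congr 1
  rw [map_zero, Rat.cast_zero]
  congr 1
  refine Prod.ext ?_ (Prod.ext ?_ (Prod.ext rfl (Prod.ext rfl rfl)))
  · exact mt_comp ψ X
  · exact (tz_map ψ (zM N)).symm

/-- **Spin type.** -/
theorem NA_L0_of_spin (hT : IsSubtorsor QB T) (hG : GDef QQ T) (hc : sm (prS u e q f L A) 1 ∈ T) (hF : Fld A F)
    (hu : ∀ r, u r ∈ Pt A F) (hq : ∀ j, q j ∈ Pt A F) (hE : EndAlg A) (hN0 : RelN A u q (Nm A u e q f))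
    {N k r : ℕ} {E : Fin N → Matrix (Fin (2 * g)) (Fin (2 * g)) ℂ} {c : Fin N → Fin k} (hr : 3 ≤ r) (hr5 : r ≠ 5)
    (h1 : ∀ i, E i * E i = 1) (h2 : ∀ i j, i ≠ j → E i * E j = -(E j * E i))
    (hcc : ∀ σ, (Finset.univ.filter fun j => c j = σ).card = r)
    (hl : Submodule.span ℂ {Y | ∃ P ∈ A.NA, Y = mt P} =
      Submodule.span ℂ {Y | ∃ i j, i ≠ j ∧ c i = c j ∧ Y = E i * E j}) : A.NA ≤ L0 (gR A u q T) := by
  obtain ⟨hsplit, s, hs⟩ := shapeO hT hG hc hF hu hq hE hN0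
  refine le_trans ?_ (mm_L0 hT hG hc hF hu hq hE hN0 hs)
  refine full_mm.of_spinMat (E := fun i => (E i)ᵀ) (c := c) hr hr5 (fun i => ?_) (fun i j hij => ?_) hcc ?_
  · rw [← Matrix.transpose_mul, h1, Matrix.transpose_one]
  · rw [← Matrix.transpose_mul, ← Matrix.transpose_mul, h2 j i hij.symm, Matrix.transpose_neg]
  · let t : Matrix (Fin (2 * g)) (Fin (2 * g)) ℂ →ₗ[ℂ] Matrix (Fin (2 * g)) (Fin (2 * g)) ℂ :=
      (Matrix.transposeLinearEquiv (Fin (2 * g)) (Fin (2 * g)) ℂ ℂ).toLinearMap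
    have h3 := congrArg (Submodule.map t) hl
    rw [Submodule.map_span, Submodule.map_span] at h3
    have e1 : t '' {Y | ∃ P ∈ A.NA, Y = mt P} = {Y | ∃ X ∈ A.NA, Y = toC X} := by
      ext Y
      constructor
      · rintro ⟨_, ⟨P, hP, rfl⟩, rfl⟩
        exact ⟨P, hP, by ext i j; rfl⟩
      · rintro ⟨P, hP, rfl⟩
        exact ⟨_, ⟨P, hP, rfl⟩, by ext i j; rfl⟩
    have e2 : t '' {Y | ∃ i j, i ≠ j ∧ c i = c j ∧ Y = E i * E j} =
        {Y | ∃ i j, i ≠ j ∧ c i = c j ∧ Y = (E i)ᵀ * (E j)ᵀ} := by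
      ext Y
      constructor
      · rintro ⟨_, ⟨i, j, hij, hcij, rfl⟩, rfl⟩
        exact ⟨j, i, hij.symm, hcij.symm, Matrix.transpose_mul (E i) (E j)⟩
      · rintro ⟨i, j, hij, hcij, rfl⟩
        exact ⟨_, ⟨j, i, hij.symm, hcij.symm, rfl⟩, Matrix.transpose_mul (E j) (E i)⟩
    rw [e1, e2] at h3
    exact h3

end Pool.Agent.X306.AV
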