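import Pool.Agent.X306.AV.UB
import Pool.Agent.Y102.V13

set_option autoImplicit false
set_option linter.unusedVariables false
set_option linter.unusedSectionVars false
set_option linter.unusedSimpArgs false

/-!
# 1-motives over abelian varieties with rigid centre
-/

open Matrix Module TensorProduct Polynomial Function

noncomputable section

namespace Pool.Agent.X306.AV

open Pool.Agent.Y102 Pool.Agent.W516.DR Pool.Agent.H204R3.GP Pool.Agent.W516.KC Pool.Agent.W516.KC2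
open Pool.Agent.TH127.PT Pool.Agent.Y123.ST Pool.Agent.TH119.DR Pool.Agent.W245.EB Pool.Agent.H204R3.SP
open Pool.Agent.X306.RL (LL_br LL_defF GDef derD)
open Pool.Agent.X306.EM (QQ mem_QQ QB_iff)

variable {g : ℕ} {A : AbVar g} {R J : Type} [Fintype R] [DecidableEq R] [Fintype J] [DecidableEq J]
variable {u e : R → Fin g → ℂ} {q f : J → Fin g → ℂ} {L : Matrix R J ℂ} {F : IntermediateField ℚ ℂ}
variable {T : Set (Matrix (Iz (Fin (2 * g)) R J) (Iz (Fin (2 * g)) R J) ℂ)}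

/-- the centre -/
def cen (𝔥 : Submodule ℚ (Module.End ℚ A.H1)) : Submodule ℚ (Module.End ℚ A.H1) where
  carrier := {X | X ∈ 𝔥 ∧ ∀ Y ∈ 𝔥, X * Y = Y * X}
  zero_mem' := ⟨𝔥.zero_mem, fun Y _ => by rw [mul_zero, zero_mul]⟩
  add_mem' := fun {P Q} hP hQ => ⟨𝔥.add_mem hP.1 hQ.1, fun X hX => by
    rw [mul_add, add_mul, hP.2 X hX, hQ.2 X hX]⟩
  smul_mem' := fun c P hP => ⟨𝔥.smul_mem c hP.1, fun X hX => by
    rw [mul_smul_comm, smul_mul_assoc, hP.2 X hX]⟩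

/-- There is a generic element. -/
theorem exists_generic_sub {𝔠 : Submodule ℚ (Module.End ℚ A.H1)} (hle : 𝔠 ≤ A.ZA) {n : ℕ}
    {b : Basis (Fin n) ℂ (ℂ ⊗[ℚ] A.H1)} {χ : Fin n → (A.ZA →ₗ[ℚ] ℂ)}
    (hb : ∀ k (R : A.ZA), (R : Module.End ℚ A.H1).baseChange ℂ (b k) = χ k R • b k) :
    ∃ R : A.ZA, (R : Module.End ℚ A.H1) ∈ 𝔠 ∧ ∀ i j, χ i R = χ j R →
      ∀ R' : A.ZA, (R' : Module.End ℚ A.H1) ∈ 𝔠 → χ i R' = χ j R' := by
  classical
  obtain ⟨P, hP⟩ : ∃ P : Fin n → Fin n → Prop, ∀ i j, P i j ↔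
      ¬∀ R' : A.ZA, (R' : Module.End ℚ A.H1) ∈ 𝔠 → χ i R' = χ j R' := ⟨_, fun i j => Iff.rfl⟩
  obtain ⟨K, hKdef⟩ : ∃ K : {p : Fin n × Fin n // P p.1 p.2} → Subspace ℚ 𝔠,
      ∀ p (R : 𝔠), R ∈ K p ↔
        χ p.1.1 ⟨R, hle R.2⟩ = χ p.1.2 ⟨R, hle R.2⟩ :=
    ⟨fun p => LinearMap.ker ((χ p.1.1 - χ p.1.2) ∘ₗ Submodule.inclusion hle),
      fun p R => sub_eq_zero⟩
  have hK : ∀ p, K p ≠ ⊤ := by
    rintro ⟨⟨i, j⟩, hij⟩ htop
    refine (hP i j).1 hij fun R hR => ?_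
    have h2 : (⟨R, hR⟩ : 𝔠) ∈ K ⟨⟨i, j⟩, hij⟩ := by rw [htop]; trivial
    exact (hKdef _ _).1 h2
  by_contra hne
  push Not at hne
  have hcov : ⋃ p, (K p : Set 𝔠) = Set.univ := by
    rw [Set.eq_univ_iff_forall]
    intro R
    obtain ⟨i, j, h1, R', h2, h3⟩ := hne ⟨R.1, hle R.2⟩ R.2
    exact Set.mem_iUnion.2 ⟨⟨(i, j), (hP i j).2 fun h4 => h3 (h4 R' h2)⟩, (hKdef _ _).2 h1⟩
  obtain ⟨p, hp⟩ := Subspace.exists_eq_top_of_iUnion_eq_univ (k := ℚ) (E := 𝔠) (p := K) hcov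
  exact hK p hp

/-- Relations between eigenvalues give relations with integral coefficients. -/
theorem rel_of_dom {X Y : Module.End ℚ A.H1} (hX : X ∈ A.ZA) (hY : Y ∈ A.ZA) (hdom : Dom X Y) (n : ℕ)
    (b : Basis (Fin n) ℂ (ℂ ⊗[ℚ] A.H1)) (χ : Fin n → (A.ZA →ₗ[ℚ] ℂ))
    (hb : ∀ k (R : A.ZA), (R : Module.End ℚ A.H1).baseChange ℂ (b k) = χ k R • b k) (m : Fin n → ℤ)
    (h0 : ∑ k, (m k : ℂ) * χ k ⟨X, hX⟩ = 0) : ∑ k, (m k : ℂ) * χ k ⟨Y, hY⟩ = 0 := by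
  classical
  choose j hj using fun i => A.exists_neg hb i
  let σ : Fin n → Fin n := fun k => if 0 ≤ m k then k else j k
  have hsum : ∀ R : A.ZA, ∑ i : (Σ k : Fin n, Fin (m k).natAbs), χ (σ i.1) R = ∑ k, (m k : ℂ) * χ k R := by
    intro R
    rw [Fintype.sum_sigma]
    refine Finset.sum_congr rfl fun k _ => ?_
    change ∑ _y : Fin (m k).natAbs, χ (σ k) R = _
    rw [Finset.sum_const, Finset.card_univ, Fintype.card_fin, nsmul_eq_mul]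
    change ((m k).natAbs : ℂ) * χ (if 0 ≤ m k then k else j k) R = _
    split_ifs with h
    · congr 1
      have h1 : ((m k).natAbs : ℤ) = m k := Int.natAbs_of_nonneg h
      have h2 := congrArg (fun x : ℤ => (x : ℂ)) h1
      simpa only [Int.cast_natCast] using h2
    · have h1 : ((m k).natAbs : ℤ) = -m k := Int.ofNat_natAbs_of_nonpos (by omega)
      have h2 : ((m k).natAbs : ℂ) = -(m k : ℂ) := by
        have h3 := congrArg (fun x : ℤ => (x : ℂ)) h1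
        simpa only [Int.cast_natCast, Int.cast_neg] using h3
      rw [h2, hj k, LinearMap.neg_apply]
      ring
  let e' : (Σ k : Fin n, Fin (m k).natAbs) ≃ Fin (Fintype.card (Σ k : Fin n, Fin (m k).natAbs)) := Fintype.equivFin _
  have h1 := hdom _ (fun i => b (σ (e'.symm i).1)) (fun i => χ (σ (e'.symm i).1) ⟨X, hX⟩)
    (fun i => χ (σ (e'.symm i).1) ⟨Y, hY⟩) (fun i => b.ne_zero _) (fun i => hb _ ⟨X, hX⟩) (fun i => hb _ ⟨Y, hY⟩) (by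
      rw [← h0, ← hsum]
      exact Equiv.sum_comp e'.symm fun i => χ (σ i.1) ⟨X, hX⟩)
  rw [← hsum, ← h1]
  exact (Equiv.sum_comp e'.symm fun i => χ (σ i.1) ⟨Y, hY⟩).symm

/-- **The centre, if it is rigid.** -/
theorem CN_L0 (hT : IsSubtorsor QB T) (hG : GDef QQ T) (hc : sm (prS u e q f L A) 1 ∈ T) (hF : Fld A F)
    (hu : ∀ r, u r ∈ Pt A F) (hq : ∀ j, q j ∈ Pt A F) (hE : EndAlg A) (hN0 : RelN A u q (Nm A u e q f))
    {s : R → J → ℚ} (hs : ∀ ξ ∈ gR A u q T, (fun r j => ξ.2.2.2 r j - ξ.2.2.1 * s r j) ∈ U2 (gR A u q T))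
    (hrig : ∀ X ∈ A.CN, (∀ T : Module.End ℚ A.H1,
      (∀ Y ∈ A.NA, ∀ Z ∈ A.NA, T * (Y * Z - Z * Y) = (Y * Z - Z * Y) * T) → T * X = X * T →
      ∀ Z ∈ A.CN, T * Z = Z * T) → ∀ Y ∈ A.CN, Dom X Y) : A.CN ≤ L0 (gR A u q T) := by
  obtain ⟨n, b, χ, hb⟩ := A.exists_basis
  have hcen : cen (mm A) ≤ A.ZA := fun Z hZ => cen_ZA hZ.1 hZ.2
  obtain ⟨X, hXC, hX⟩ := exists_generic_sub hcen hb
  have hXCN : (X : Module.End ℚ A.H1) ∈ A.CN :=
    ⟨full_mm.le hXC.1, fun Y hY => full_mm.comm X (fun Z hZ => (hXC.2 Z hZ).symm) Y hY⟩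
  intro Y hY
  have hdom : Dom (X : Module.End ℚ A.H1) Y := by
    refine hrig X hXCN (fun T hT hTX Z hZ => ?_) Y hY
    have e2 : ∀ d ∈ der (mm A), T * d = d * T := by
      intro d hd
      unfold der at hd
      induction hd using Submodule.span_induction with
      | mem z hz =>
        obtain ⟨x, hx, y, hy, rfl⟩ := hz
        exact hT x (full_mm.le hx) y (full_mm.le hy)
      | zero => rw [mul_zero, zero_mul]
      | add a b _ _ ha hb => rw [mul_add, add_mul, ha, hb]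
      | smul c a _ ha => rw [mul_smul_comm, smul_mul_assoc, ha]
    have h1 : T ∈ A.EA := by
      refine mm_drb fun P hP => ?_
      obtain ⟨Z', hZ', d, hd, rfl, hZc⟩ := full_mm.dec hP
      have e1 : T * Z' = Z' * T := by
        have h3 : Z' ∈ cen (mm A) := ⟨hZ', hZc⟩
        exact A.comm_of_generic hb (X := X) (R := ⟨Z', hcen h3⟩) (fun i j hij => hX i j hij ⟨Z', hcen h3⟩ h3) hTX
      rw [add_mul, mul_add, e1, e2 d hd]
    exact (A.NA_comm hZ.1 h1).symm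
  obtain ⟨ξ, hξ, hξZ⟩ := mem_HH.1 (mm_le_HH hT hG hc hE hN0 hXC.1)
  have h1 := norm_mem hT hG hc hF hu hq hE hN0 hs hξ
  have h2 : ξ.1 = (X : Module.End ℚ A.H1) + (ξ.2.2.1 / 2) • (1 : Module.End ℚ (Fin (2 * g) → ℚ)) := by
    rw [← hξZ, sub_add_cancel]
  rw [h2] at h1
  have h3 : (X : Module.End ℚ A.H1) ∈ A.ZA := X.2
  have h4 := A.CN_le_ZA hY
  exact cen_L0 hT hG hc hE hN0 h3 h4 h1 fun n b χ hb m hm => rel_of_dom h3 h4 hdom n b χ hb m hm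

/-- **The Lie algebra of the Hodge group is in the Lie algebra of the torsor**, if the centre is rigid and the commutators are
in the Lie algebra generated by the logarithmic derivatives. -/
theorem NA_L0_of_rigid (hT : IsSubtorsor QB T) (hG : GDef QQ T) (hc : sm (prS u e q f L A) 1 ∈ T) (hF : Fld A F)
    (hu : ∀ r, u r ∈ Pt A F) (hq : ∀ j, q j ∈ Pt A F) (hE : EndAlg A) (hN0 : RelN A u q (Nm A u e q f))
    (hd : ∀ X ∈ A.NA, ∀ Y ∈ A.NA, X * Y - Y * X ∈ mm A)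
    (hrig : ∀ X ∈ A.CN, (∀ T : Module.End ℚ A.H1,
      (∀ Y ∈ A.NA, ∀ Z ∈ A.NA, T * (Y * Z - Z * Y) = (Y * Z - Z * Y) * T) → T * X = X * T →
      ∀ Z ∈ A.CN, T * Z = Z * T) → ∀ Y ∈ A.CN, Dom X Y) : A.NA ≤ L0 (gR A u q T) := by
  obtain ⟨hsplit, s, hs⟩ := shapeO hT hG hc hF hu hq hE hN0
  have h1 : der A.NA ≤ mm A := by
    unfold der
    rw [Submodule.span_le]
    rintro _ ⟨X, hX, Y, hY, rfl⟩
    exact hd X hX Y hY
  have h2 := der_L0 hT hG hc hF hu hq hE hN0 hs full_NA h1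
  have h3 := CN_L0 hT hG hc hF hu hq hE hN0 hs hrig
  intro X hX
  obtain ⟨Z, hZ, d, hd', rfl, hZc⟩ := full_NA.dec hX
  exact (L0 (gR A u q T)).add_mem (h3 ⟨hZ, fun Y hY => (hZc Y hY).symm⟩) (h2 hd')

/-- matrices acting on columns -/
theorem span_of_transpose {𝔥 : Submodule ℚ (Module.End ℚ (Fin (2 * g) → ℚ))} {X : Matrix (Fin (2 * g)) (Fin (2 * g)) ℂ}
    (hX : Xᵀ ∈ Submodule.span ℂ {Y | ∃ P ∈ 𝔥, Y = toC P}) : X ∈ Submodule.span ℂ {Y | ∃ P ∈ 𝔥, Y = mt P} := by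
  let t : Matrix (Fin (2 * g)) (Fin (2 * g)) ℂ →ₗ[ℂ] Matrix (Fin (2 * g)) (Fin (2 * g)) ℂ :=
    (Matrix.transposeLinearEquiv (Fin (2 * g)) (Fin (2 * g)) ℂ ℂ).toLinearMap
  have h1 : t Xᵀ ∈ Submodule.map t (Submodule.span ℂ {Y | ∃ P ∈ 𝔥, Y = toC P}) := Submodule.mem_map_of_mem hX
  rw [Submodule.map_span] at h1
  have e1 : t '' {Y | ∃ P ∈ 𝔥, Y = toC P} = {Y | ∃ X ∈ 𝔥, Y = mt X} := by
    ext Y
    constructor
    · rintro ⟨_, ⟨P, hP, rfl⟩, rfl⟩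
      exact ⟨P, hP, by ext i j; rfl⟩
    · rintro ⟨P, hP, rfl⟩
      exact ⟨_, ⟨P, hP, rfl⟩, by ext i j; rfl⟩
  rw [e1] at h1
  exact h1

end Pool.Agent.X306.AV
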