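import Pool.Agent.X306.AV.Lie
import Pool.Agent.X306.AV.Mod

set_option autoImplicit false
set_option linter.unusedVariables false
set_option linter.unusedSectionVars false
set_option linter.unusedSimpArgs false

/-!
# The unipotent part of the rational Lie algebra
-/

open Matrix Module TensorProduct

noncomputable section

namespace Pool.Agent.X306.AV

open Pool.Agent.Y102 Pool.Agent.W516.DR Pool.Agent.H204R3.GP Pool.Agent.W516.KC Pool.Agent.W516.KC2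

variable {g : ℕ} {A : AbVar g} {R J : Type} [Fintype R] [DecidableEq R] [Fintype J] [DecidableEq J]

/-- the part of weight `-1` -/
def uA (𝔤 : Submodule ℚ (GT (Fin (2 * g)) R J)) : Submodule ℚ (R → Fin (2 * g) → ℚ) where
  carrier := {Y | ((0, Y, 0, 0) : GT (Fin (2 * g)) R J) ∈ 𝔤}
  zero_mem' := 𝔤.zero_mem
  add_mem' := by
    intro Y Y' h h'
    have h1 := 𝔤.add_mem h h'
    simpa using h1
  smul_mem' := by
    intro q Y h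
    have h1 := 𝔤.smul_mem q h
    simpa using h1

/-- the part of weight `-2` -/
def uJ (𝔤 : Submodule ℚ (GT (Fin (2 * g)) R J)) : Submodule ℚ (J → ℚ) where
  carrier := {v | ((0, 0, 0, v) : GT (Fin (2 * g)) R J) ∈ 𝔤}
  zero_mem' := 𝔤.zero_mem
  add_mem' := by
    intro Y Y' h h'
    have h1 := 𝔤.add_mem h h'
    simpa using h1
  smul_mem' := by
    intro q Y h
    have h1 := 𝔤.smul_mem q h
    simpa using h1

variable {u e : R → Fin g → ℂ} {l : J → ℂ} {𝔤 : Submodule ℚ (GT (Fin (2 * g)) R J)}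

theorem mem_uA {Y : R → Fin (2 * g) → ℚ} : Y ∈ uA 𝔤 ↔ ((0, Y, 0, 0) : GT (Fin (2 * g)) R J) ∈ 𝔤 := Iff.rfl

theorem mem_uJ {v : J → ℚ} : v ∈ uJ 𝔤 ↔ ((0, 0, 0, v) : GT (Fin (2 * g)) R J) ∈ 𝔤 := Iff.rfl

theorem br_u (Y : R → Fin (2 * g) → ℚ) (v : J → ℚ) (ξ : GT (Fin (2 * g)) R J) :
    br ((0, Y, 0, v) : GT (Fin (2 * g)) R J) ξ = (0, fun r => ξ.1 (Y r), 0, fun j => v j * ξ.2.2.1) := by
  unfold br
  refine Prod.ext ?_ (Prod.ext ?_ (Prod.ext rfl ?_))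
  · change ξ.1 * 0 - 0 * ξ.1 = 0
    rw [mul_zero, zero_mul, sub_zero]
  · funext r
    change ξ.1 (Y r) - (0 : Module.End ℚ (Fin (2 * g) → ℚ)) (ξ.2.1 r) = ξ.1 (Y r)
    rw [LinearMap.zero_apply, sub_zero]
  · funext j
    change v j * ξ.2.2.1 - ξ.2.2.2 j * 0 = v j * ξ.2.2.1
    rw [mul_zero, sub_zero]

namespace Good

variable (G : Good A u e l 𝔤)
include G

theorem uA_stable {Y : R → Fin (2 * g) → ℚ} (hY : Y ∈ uA 𝔤) {ξ : GT (Fin (2 * g)) R J} (hξ : ξ ∈ 𝔤) :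
    (fun r => ξ.1 (Y r)) ∈ uA 𝔤 := by
  have h1 := G.br _ (mem_uA.1 hY) ξ hξ
  rw [br_u] at h1
  refine mem_uA.2 ((congrArg (· ∈ 𝔤) ?_).mp h1)
  refine Prod.ext rfl (Prod.ext rfl (Prod.ext rfl ?_))
  funext j
  change (0 : ℚ) * ξ.2.2.1 = 0
  rw [zero_mul]

theorem uA_hh {X : Module.End ℚ (Fin (2 * g) → ℚ)} (hX : X ∈ hh 𝔤) {Y : R → Fin (2 * g) → ℚ} (hY : Y ∈ uA 𝔤) :
    (fun r => X (Y r)) ∈ uA 𝔤 := by
  obtain ⟨ξ, h, rfl⟩ := mem_hh.1 hX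
  have h1 := (uA 𝔤).sub_mem (G.uA_stable hY h) ((uA 𝔤).smul_mem (ξ.2.2.1 / 2) hY)
  exact h1

theorem shape : ∃ (σ : R → Fin (2 * g) → ℚ) (s : J → ℚ), (∀ ξ ∈ 𝔤, (fun r => ξ.2.1 r - ξ.1 (σ r)) ∈ uA 𝔤) ∧
    (∀ ξ ∈ 𝔤, (fun j => ξ.2.2.2 j - ξ.2.2.1 * s j) ∈ uJ 𝔤) := by
  obtain ⟨ξ₁, h₁, ζ, hz, hX, hsk, hcen⟩ := G.exists_Z
  obtain ⟨M, hM⟩ := G.hodge hcen
  have hz2 : ξ₁.2.2.1 / 2 ≠ 0 := div_ne_zero hz two_ne_zero
  have inj1 : ∀ v, ξ₁.1 v = 0 → v = 0 := by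
    intro v hv
    rw [hX] at hv
    exact inj_Z hsk hM hz2 hv
  have inj2 : ∀ v, (ξ₁.1 - ξ₁.2.2.1 • (1 : Module.End ℚ (Fin (2 * g) → ℚ))) v = 0 → v = 0 := by
    intro v hv
    refine inj_Z hsk hM (c := -(ξ₁.2.2.1 / 2)) (neg_ne_zero.2 hz2) ?_
    rw [← hv, LinearMap.sub_apply, LinearMap.smul_apply, Module.End.one_apply]
    conv_rhs => rw [hX, LinearMap.add_apply, LinearMap.smul_apply, Module.End.one_apply]
    have h1 : ξ₁.2.2.1 • v = (ξ₁.2.2.1 / 2) • v + (ξ₁.2.2.1 / 2) • v := by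
      rw [← add_smul, add_halves]
    rw [h1, neg_smul]
    abel
  -- the two parts
  have hsplit : ∀ (Y : R → Fin (2 * g) → ℚ) (v : J → ℚ), ((0, Y, 0, v) : GT (Fin (2 * g)) R J) ∈ 𝔤 →
      Y ∈ uA 𝔤 ∧ v ∈ uJ 𝔤 := by
    intro Y v h
    have h1 := G.br _ h ξ₁ h₁
    rw [br_u] at h1
    have h2 := 𝔤.sub_mem h1 (𝔤.smul_mem ξ₁.2.2.1 h)
    have h3 : (fun r => (ξ₁.1 - ξ₁.2.2.1 • (1 : Module.End ℚ (Fin (2 * g) → ℚ))) (Y r)) ∈ uA 𝔤 := by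
      refine mem_uA.2 ((congrArg (· ∈ 𝔤) ?_).mp h2)
      refine Prod.ext ?_ (Prod.ext ?_ (Prod.ext ?_ ?_))
      · change (0 : Module.End ℚ (Fin (2 * g) → ℚ)) - ξ₁.2.2.1 • 0 = 0
        rw [smul_zero, sub_zero]
      · rfl
      · change (0 : ℚ) - ξ₁.2.2.1 * 0 = 0
        ring
      · funext j
        change v j * ξ₁.2.2.1 - ξ₁.2.2.1 * v j = 0
        ring
    have h4 : Y ∈ uA 𝔤 := by
      refine inv_of_stable inj2 (uA 𝔤) (fun Y' hY' => ?_) h3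
      have h5 := (uA 𝔤).sub_mem (G.uA_stable hY' h₁) ((uA 𝔤).smul_mem ξ₁.2.2.1 hY')
      exact h5
    refine ⟨h4, mem_uJ.2 ((congrArg (· ∈ 𝔤) ?_).mp (𝔤.sub_mem h (mem_uA.1 h4)))⟩
    refine Prod.ext ?_ (Prod.ext ?_ (Prod.ext ?_ ?_))
    · exact sub_zero _
    · exact sub_self _
    · exact sub_zero _
    · exact sub_zero _
  have hsurj : Function.Surjective ξ₁.1 :=
    LinearMap.injective_iff_surjective.1 ((injective_iff_map_eq_zero _).2 inj1)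
  choose σ hσ using fun r => hsurj (ξ₁.2.1 r)
  have hcomm : ∀ ξ ∈ 𝔤, ∀ v, ξ.1 (ξ₁.1 v) = ξ₁.1 (ξ.1 v) := by
    intro ξ hξ v
    have h1 : ξ.1 = tl ξ + (ξ.2.2.1 / 2) • (1 : Module.End ℚ (Fin (2 * g) → ℚ)) := by
      rw [tl_apply, sub_add_cancel]
    have h2 := congrArg (fun T : Module.End ℚ (Fin (2 * g) → ℚ) => T v) (hcen (tl ξ) (mem_hh.2 ⟨ξ, hξ, rfl⟩))
    simp only [Module.End.mul_apply] at h2
    rw [h1, hX]
    simp only [LinearMap.add_apply, LinearMap.smul_apply, Module.End.one_apply, map_add, map_smul, h2, smul_add]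
    rw [smul_comm]
    abel
  refine ⟨σ, fun j => ξ₁.2.2.2 j / ξ₁.2.2.1, fun ξ hξ => ?_, fun ξ hξ => ?_⟩
  all_goals
    have h1 := G.br ξ hξ ξ₁ h₁
    have h2 : Pool.Agent.X306.AV.br ξ ξ₁ = ((0, fun r => ξ₁.1 (ξ.2.1 r - ξ.1 (σ r)), 0,
        fun j => ξ.2.2.2 j * ξ₁.2.2.1 - ξ₁.2.2.2 j * ξ.2.2.1) : GT (Fin (2 * g)) R J) := by
      unfold Pool.Agent.X306.AV.br
      refine Prod.ext ?_ (Prod.ext ?_ (Prod.ext rfl rfl))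
      · refine LinearMap.ext fun v => ?_
        change ξ₁.1 (ξ.1 v) - ξ.1 (ξ₁.1 v) = 0
        rw [hcomm ξ hξ, sub_self]
      · funext r
        change ξ₁.1 (ξ.2.1 r) - ξ.1 (ξ₁.2.1 r) = ξ₁.1 (ξ.2.1 r - ξ.1 (σ r))
        rw [map_sub, ← hσ r, hcomm ξ hξ]
    rw [h2] at h1
    obtain ⟨h3, h4⟩ := hsplit _ _ h1
  · exact inv_of_stable inj1 (uA 𝔤) (fun Y' hY' => G.uA_stable hY' h₁) h3
  · have h5 := (uJ 𝔤).smul_mem (ξ₁.2.2.1)⁻¹ h4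
    refine (congrArg (· ∈ uJ 𝔤) ?_).mp h5
    funext j
    change (ξ₁.2.2.1)⁻¹ * (ξ.2.2.2 j * ξ₁.2.2.1 - ξ₁.2.2.2 j * ξ.2.2.1) =
      ξ.2.2.2 j - ξ.2.2.1 * (ξ₁.2.2.2 j / ξ₁.2.2.1)
    field_simp

end Good

end Pool.Agent.X306.AV
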